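import Pool.Agent.Lib.MP_214199_co.Eff.Defs

/-!
# Effective orchard theorem: basic facts on blocks and vertices
-/

set_option autoImplicit false

namespace Pool.Agent.Lib.MP_214199_co.Eff

open Finset

variable {S : Finset Pt}

theorem mem_blk {p v : Pt} : p ∈ blk S v ↔ p ∈ S ∧ ht p v.1 = v.2 := by
  unfold blk
  rw [Finset.mem_filter]

theorem blk_subset (v : Pt) : blk S v ⊆ S := Finset.filter_subset _ _

theorem ht_vtx_left {p q : Pt} : ht p (vtx p q).1 = (vtx p q).2 := rfl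

theorem ht_vtx_right {p q : Pt} (h : p.1 ≠ q.1) : ht q (vtx p q).1 = (vtx p q).2 := by
  have h' : q.1 - p.1 ≠ 0 := sub_ne_zero.2 h.symm
  unfold vtx ht
  field_simp
  ring

theorem Gen.ne (hS : Gen S) {p q : Pt} (hp : p ∈ S) (hq : q ∈ S) (h : p ≠ q) : p.1 ≠ q.1 :=
  fun h' => h (hS hp hq h')

theorem vtx_mem (hS : Gen S) {p q : Pt} (hp : p ∈ S) (hq : q ∈ S) (h : p ≠ q) :
    vtx p q ∈ verts S ∧ p ∈ blk S (vtx p q) ∧ q ∈ blk S (vtx p q) := by
  refine ⟨?_, mem_blk.2 ⟨hp, rfl⟩, mem_blk.2 ⟨hq, ht_vtx_right (hS.ne hp hq h)⟩⟩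
  unfold verts
  rw [Finset.mem_image]
  exact ⟨(p, q), Finset.mem_offDiag.2 ⟨hp, hq, h⟩, rfl⟩

/-- Two dual lines with different slopes meet in one point only. -/
theorem ht_inj {p q : Pt} (h : p.1 ≠ q.1) {x y : ℝ} (hx : ht p x = ht q x) (hy : ht p y = ht q y) :
    x = y := by
  unfold ht at hx hy
  have : (p.1 - q.1) * (x - y) = 0 := by linarith
  rcases mul_eq_zero.1 this with h1 | h1
  · exact absurd (sub_eq_zero.1 h1) h
  · exact sub_eq_zero.1 h1

/-- A vertex is determined by two of its lines. -/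
theorem vert_unique (hS : Gen S) {p q v u : Pt} (h : p ≠ q) (hp : p ∈ blk S v) (hq : q ∈ blk S v)
    (hp' : p ∈ blk S u) (hq' : q ∈ blk S u) : v = u := by
  rw [mem_blk] at hp hq hp' hq'
  have h1 : v.1 = u.1 := ht_inj (hS.ne hp.1 hq.1 h) (hp.2.trans hq.2.symm)
    (hp'.2.trans hq'.2.symm)
  refine Prod.ext h1 ?_
  rw [← hp.2, ← hp'.2, h1]

/-- A vertex on a line is determined by its abscissa. -/
theorem vert_eq_of_fst {p v u : Pt} (hp : p ∈ blk S v) (hp' : p ∈ blk S u) (h : v.1 = u.1) :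
    v = u := by
  rw [mem_blk] at hp hp'
  refine Prod.ext h ?_
  rw [← hp.2, ← hp'.2, h]

theorem mem_verts (hS : Gen S) {v : Pt} : v ∈ verts S ↔ 2 ≤ (blk S v).card := by
  constructor
  · intro hv
    unfold verts at hv
    rw [Finset.mem_image] at hv
    obtain ⟨⟨p, q⟩, hpq, rfl⟩ := hv
    rw [Finset.mem_offDiag] at hpq
    obtain ⟨-, h1, h2⟩ := vtx_mem hS hpq.1 hpq.2.1 hpq.2.2
    exact Finset.one_lt_card.2 ⟨p, h1, q, h2, hpq.2.2⟩
  · intro hv
    obtain ⟨p, hp, q, hq, hpq⟩ := Finset.one_lt_card.1 hv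
    have hpS := (mem_blk.1 hp).1
    have hqS := (mem_blk.1 hq).1
    obtain ⟨h0, h1, h2⟩ := vtx_mem hS hpS hqS hpq
    rw [vert_unique hS hpq hp hq h1 h2]
    exact h0

/-- distinct points of a block have distinct abscissae -/
theorem blk_fst_ne (hS : Gen S) {v p q : Pt} (hp : p ∈ blk S v) (hq : q ∈ blk S v) (h : p ≠ q) :
    p.1 ≠ q.1 := hS.ne (mem_blk.1 hp).1 (mem_blk.1 hq).1 h

theorem blk_fst_inj (hS : Gen S) {v p q : Pt} (hp : p ∈ blk S v) (hq : q ∈ blk S v)
    (h : p.1 = q.1) : p = q := hS (mem_blk.1 hp).1 (mem_blk.1 hq).1 h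

/-- every other point of `S` is in exactly one block together with `p` -/
theorem sum_card_sub_one (hS : Gen S) {p : Pt} (hp : p ∈ S) :
    ∑ v ∈ (verts S).filter (fun v => p ∈ blk S v), ((blk S v).card - 1) = S.card - 1 := by
  have h1 : (S.erase p).card = ∑ v ∈ (verts S).filter (fun v => p ∈ blk S v),
      ((S.erase p).filter (fun q => vtx p q = v)).card := by
    apply Finset.card_eq_sum_card_fiberwise
    intro q hq
    have hq' := Finset.mem_coe.1 hq
    rw [Finset.mem_erase] at hq'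
    obtain ⟨h0, h1, -⟩ := vtx_mem hS hp hq'.2 hq'.1.symm
    exact Finset.mem_coe.2 (Finset.mem_filter.2 ⟨h0, h1⟩)
  rw [Finset.card_erase_of_mem hp] at h1
  rw [h1]
  apply Finset.sum_congr rfl
  intro v hv
  rw [Finset.mem_filter] at hv
  rw [← Finset.card_erase_of_mem hv.2]
  congr 1
  ext q
  rw [Finset.mem_erase, Finset.mem_filter, Finset.mem_erase]
  constructor
  · rintro ⟨hne, hq⟩
    have hqS := (mem_blk.1 hq).1
    obtain ⟨-, h1, h2⟩ := vtx_mem hS hp hqS hne.symm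
    exact ⟨⟨hne, hqS⟩, vert_unique hS hne.symm h1 h2 hv.2 hq⟩
  · rintro ⟨⟨hne, hqS⟩, rfl⟩
    exact ⟨hne, (vtx_mem hS hp hqS hne.symm).2.2⟩

/-- pairs of points -/
theorem sum_pairs (hS : Gen S) :
    ∑ v ∈ verts S, (blk S v).card * ((blk S v).card - 1) = S.card * (S.card - 1) := by
  have h1 : ∑ p ∈ S, ∑ v ∈ (verts S).filter (fun v => p ∈ blk S v), ((blk S v).card - 1) =
      S.card * (S.card - 1) := by
    rw [Finset.sum_congr rfl (fun p hp => sum_card_sub_one hS hp), Finset.sum_const, smul_eq_mul]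
  rw [← h1]
  simp_rw [Finset.sum_filter]
  rw [Finset.sum_comm]
  apply Finset.sum_congr rfl
  intro v _
  rw [← Finset.sum_filter, Finset.sum_const, smul_eq_mul]
  congr 2
  ext q
  rw [Finset.mem_filter]
  exact ⟨fun h => ⟨blk_subset v h, h⟩, fun h => h.2⟩

theorem wt_two_mul (m : ℕ) (hm : 2 ≤ m) : 2 * wt m + 6 * (if 3 ≤ m then 1 else 0) = m * (m - 1) := by
  unfold wt
  rcases Nat.lt_or_ge m 3 with h | h
  · have : m = 2 := by omega
    subst this
    norm_num
  · rw [if_neg (by omega), if_pos h]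
    have h2 : 2 ∣ m * (m - 1) := by
      have := Nat.even_mul_pred_self m
      exact this.two_dvd
    obtain ⟨k, hk⟩ := h2
    have h6 : 6 ≤ m * (m - 1) := by
      calc 6 = 3 * 2 := by norm_num
        _ ≤ m * (m - 1) := Nat.mul_le_mul h (by omega)
    rw [hk, Nat.mul_div_cancel_left k (by norm_num : 0 < 2)]
    omega

/-- the defect -/
theorem dfc_eq (hS : Gen S) :
    2 * dfc S + 6 * ((verts S).filter (fun v => 3 ≤ (blk S v).card)).card =
      S.card * (S.card - 1) := by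
  rw [← sum_pairs hS, dfc, Finset.mul_sum, Finset.card_filter, Finset.mul_sum,
    ← Finset.sum_add_distrib]
  apply Finset.sum_congr rfl
  intro v hv
  exact wt_two_mul _ ((mem_verts hS).1 hv)

theorem wt_le_dfc {v : Pt} (hv : v ∈ verts S) : wt (blk S v).card ≤ dfc S :=
  Finset.single_le_sum (f := fun v => wt (blk S v).card) (fun _ _ => Nat.zero_le _) hv

theorem one_le_wt {m : ℕ} (hm : m ≠ 3) : 1 ≤ wt m := by
  unfold wt
  split_ifs with h
  · exact le_rfl
  · have h4 : 4 ≤ m := by omega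
    have : 4 * 3 ≤ m * (m - 1) := Nat.mul_le_mul h4 (by omega)
    have : 6 ≤ m * (m - 1) / 2 := by omega
    omega

theorem wt_ge {m : ℕ} (hm : m ≠ 3) (h2 : 2 ≤ m) : m ≤ 2 * wt m := by
  have h := wt_two_mul m h2
  rcases Nat.lt_or_ge m 3 with h3 | h3
  · have : m = 2 := by omega
    subst this
    simp [wt]
  · rw [if_pos h3] at h
    have h4 : 4 ≤ m := by omega
    have : m * 3 ≤ m * (m - 1) := Nat.mul_le_mul le_rfl (by omega)
    omega

theorem wt_six {m : ℕ} (hm : 6 ≤ m) : 2 * m ≤ wt m := by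
  have h := wt_two_mul m (by omega)
  rw [if_pos (by omega)] at h
  have : m * 5 ≤ m * (m - 1) := Nat.mul_le_mul le_rfl (by omega)
  omega

/-- sums over darts -/
theorem sum_darts (f : Pt → Pt → Bool → ℕ) :
    ∑ d : D S, f d.1.v d.1.p d.1.s =
      ∑ v ∈ verts S, ∑ p ∈ blk S v, (f v p true + f v p false) := by
  classical
  have h : ∑ v ∈ verts S, ∑ p ∈ blk S v, (f v p true + f v p false) =
      ∑ x ∈ (verts S).sigma (fun v => (blk S v) ×ˢ (Finset.univ : Finset Bool)),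
        f x.1 x.2.1 x.2.2 := by
    rw [Finset.sum_sigma]
    apply Finset.sum_congr rfl
    intro v _
    rw [Finset.sum_product]
    apply Finset.sum_congr rfl
    intro p _
    simp
  rw [h]
  refine Finset.sum_bij' (fun d _ => ⟨d.1.v, d.1.p, d.1.s⟩)
    (fun x hx => ⟨⟨x.1, x.2.1, x.2.2⟩, ?_⟩) ?_ ?_ ?_ ?_ ?_
  · rw [Finset.mem_sigma, Finset.mem_product] at hx
    exact ⟨hx.1, hx.2.1⟩
  · intro d _
    rw [Finset.mem_sigma, Finset.mem_product]
    exact ⟨d.2.1, d.2.2, Finset.mem_univ _⟩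
  · intro x hx
    exact Finset.mem_univ _
  · intro d _
    rfl
  · intro x hx
    rfl
  · intro d _
    rfl

end Pool.Agent.Lib.MP_214199_co.Eff
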