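import Pool.Agent.Lib.MP_214199_co.Eff.BezoutDim

/-!
# A weak form of Bezout's theorem
-/

set_option autoImplicit false

namespace Pool.Agent.Lib.MP_214199_co.Eff

open Finset MvPolynomial

theorem bezout_finrank_map {K : Type*} [Field K] (f : MvPolynomial (Fin 2) K) (hf : f ≠ 0) (k : ℕ) :
    Module.finrank K ((restrictTotalDegree (Fin 2) K k).map (LinearMap.mulLeft K f)) =
      Module.finrank K (restrictTotalDegree (Fin 2) K k) := by
  have hinj : Function.Injective (LinearMap.mulLeft K f) := by
    intro a b h
    simpa [hf] using h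
  exact (Submodule.equivMapOfInjective _ hinj _).finrank_eq.symm

/-- Bezout: an irreducible `f` and a `g` that is not divisible by `f` have at most
`deg f * deg g` common zeros.
Proof by counting dimensions.  Let `m = f.totalDegree`, `n = g.totalDegree`, `N = T.card`,
`d ≥ m + n + N`; `R d` = the polynomials of total degree `≤ d` (`MvPolynomial.restrictTotalDegree`),
`dim R d = (d+1)(d+2)/2` (`finrank_restrict`).  The sum of the subspaces `f * R (d-m)` and `g * R (d-n)` of `R d` has
dimension `dim R (d-m) + dim R (d-n) - dim (intersection)`, and the intersection is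
`f * g * R (d-m-n)`: if `f a = g b` then `f ∣ b` because `f` is prime (`MvPolynomial` over a field
is a UFD) and does not divide `g`, `b = f c`, and total degrees add
(`MvPolynomial.totalDegree_mul_of_isDomain`).  So the codimension of the sum in `R d` is
`(d+1)(d+2)/2 - (d-m+1)(d-m+2)/2 - (d-n+1)(d-n+2)/2 + (d-m-n+1)(d-m-n+2)/2 = m n`.
The evaluation map `R d → (T → K)` is surjective (`exists_interpolation`), and
its kernel contains the sum.  So `N ≤ m n`.  (`f ∣ g` fails, so `g ≠ 0`.)
Other proofs are welcome (resultant with respect to one variable after a generic shear). -/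
theorem bezout {K : Type*} [Field K] (f g : MvPolynomial (Fin 2) K) (hf : Irreducible f)
    (hg : ¬ f ∣ g) (T : Finset (Fin 2 → K)) (hT : ∀ a ∈ T, eval a f = 0 ∧ eval a g = 0) :
    T.card ≤ f.totalDegree * g.totalDegree := by
  classical
  have hf0 : f ≠ 0 := hf.ne_zero
  have hg0 : g ≠ 0 := by rintro rfl; exact hg (dvd_zero f)
  have hfp : Prime f := hf.prime
  set m := f.totalDegree with hm
  set n := g.totalDegree with hn
  set N := T.card with hN
  set d := m + n + N with hd
  set A := (restrictTotalDegree (Fin 2) K (n + N)).map (LinearMap.mulLeft K f) with hA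
  set B := (restrictTotalDegree (Fin 2) K (m + N)).map (LinearMap.mulLeft K g) with hB
  set C := (restrictTotalDegree (Fin 2) K N).map (LinearMap.mulLeft K (f * g)) with hC
  have hfinA : FiniteDimensional K A := by rw [hA]; infer_instance
  have hfinB : FiniteDimensional K B := by rw [hB]; infer_instance
  have hAB : A ⊓ B ≤ C := by
    intro x hx
    obtain ⟨hxA, hxB⟩ := Submodule.mem_inf.1 hx
    obtain ⟨a, ha, rfl⟩ := Submodule.mem_map.1 hxA
    obtain ⟨b, hb, hab⟩ := Submodule.mem_map.1 hxB
    simp only [LinearMap.mulLeft_apply] at hab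
    have hdv : f ∣ g * b := ⟨a, hab⟩
    obtain ⟨c, rfl⟩ := (hfp.dvd_or_dvd hdv).resolve_left hg
    refine Submodule.mem_map.2 ⟨c, ?_, ?_⟩
    · rw [mem_restrictTotalDegree] at hb ⊢
      by_cases hc : c = 0
      · simp [hc]
      · rw [totalDegree_mul_of_isDomain hf0 hc, ← hm] at hb
        omega
    · simp only [LinearMap.mulLeft_apply]
      rw [← hab]; ring
  have hA_le : A ≤ restrictTotalDegree (Fin 2) K d := by
    intro x hx
    obtain ⟨a, ha, rfl⟩ := Submodule.mem_map.1 hx
    rw [mem_restrictTotalDegree] at ha ⊢
    simp only [LinearMap.mulLeft_apply]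
    have := totalDegree_mul f a
    omega
  have hB_le : B ≤ restrictTotalDegree (Fin 2) K d := by
    intro x hx
    obtain ⟨a, ha, rfl⟩ := Submodule.mem_map.1 hx
    rw [mem_restrictTotalDegree] at ha ⊢
    simp only [LinearMap.mulLeft_apply]
    have := totalDegree_mul g a
    omega
  have hfinC : FiniteDimensional K C := by rw [hC]; infer_instance
  have h1 : Module.finrank K A + Module.finrank K B ≤
      Module.finrank K (A ⊔ B : Submodule K (MvPolynomial (Fin 2) K)) + Module.finrank K C := by
    rw [← Submodule.finrank_sup_add_finrank_inf_eq A B]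
    have := Submodule.finrank_mono hAB
    omega
  -- the evaluation map
  let ev : restrictTotalDegree (Fin 2) K d →ₗ[K] (T → K) :=
    { toFun := fun F a => eval a.1 F.1
      map_add' := by intro x y; ext a; simp
      map_smul' := by intro c x; ext a; simp [smul_eval] }
  have hsurj : Function.Surjective ev := by
    intro v
    obtain ⟨F, hF, hFv⟩ := exists_interpolation d T (by omega)
      (fun a => if h : a ∈ T then v ⟨a, h⟩ else 0)
    refine ⟨⟨F, hF⟩, ?_⟩
    ext ⟨a, ha⟩
    have := hFv a ha
    simp only [ha, dif_pos] at this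
    exact this
  have hrk : Module.finrank K (LinearMap.ker ev) + N =
      Module.finrank K (restrictTotalDegree (Fin 2) K d) := by
    have h := LinearMap.finrank_range_add_finrank_ker ev
    rw [LinearMap.range_eq_top.2 hsurj, finrank_top, Module.finrank_fintype_fun_eq_card,
      Fintype.card_coe] at h
    omega
  have hker : Module.finrank K (A ⊔ B : Submodule K (MvPolynomial (Fin 2) K)) ≤
      Module.finrank K (LinearMap.ker ev) := by
    have h : (A ⊔ B) ≤ (LinearMap.ker ev).map (restrictTotalDegree (Fin 2) K d).subtype := by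
      rw [sup_le_iff]
      constructor
      · intro x hx
        refine Submodule.mem_map.2 ⟨⟨x, hA_le hx⟩, ?_, rfl⟩
        obtain ⟨a, ha, rfl⟩ := Submodule.mem_map.1 hx
        rw [LinearMap.mem_ker]
        ext ⟨t, ht⟩
        simp [ev, (hT t ht).1]
      · intro x hx
        refine Submodule.mem_map.2 ⟨⟨x, hB_le hx⟩, ?_, rfl⟩
        obtain ⟨a, ha, rfl⟩ := Submodule.mem_map.1 hx
        rw [LinearMap.mem_ker]
        ext ⟨t, ht⟩
        simp [ev, (hT t ht).2]
    calc Module.finrank K (A ⊔ B : Submodule K (MvPolynomial (Fin 2) K))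
        ≤ Module.finrank K ((LinearMap.ker ev).map (restrictTotalDegree (Fin 2) K d).subtype) :=
          Submodule.finrank_mono h
      _ ≤ _ := Submodule.finrank_map_le _ _
  have eA : Module.finrank K A = Module.finrank K (restrictTotalDegree (Fin 2) K (n + N)) :=
    bezout_finrank_map f hf0 _
  have eB : Module.finrank K B = Module.finrank K (restrictTotalDegree (Fin 2) K (m + N)) :=
    bezout_finrank_map g hg0 _
  have eC : Module.finrank K C = Module.finrank K (restrictTotalDegree (Fin 2) K N) :=
    bezout_finrank_map (f * g) (mul_ne_zero hf0 hg0) _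
  have q1 := finrank_restrict K d
  have q2 := finrank_restrict K (n + N)
  have q3 := finrank_restrict K (m + N)
  have q4 := finrank_restrict K N
  rw [← eA] at q2
  rw [← eB] at q3
  rw [← eC] at q4
  have key : 2 * N + (n + N + 1) * (n + N + 2) + (m + N + 1) * (m + N + 2) ≤
      (d + 1) * (d + 2) + (N + 1) * (N + 2) := by omega
  rw [hd] at key
  nlinarith [key]

end Pool.Agent.Lib.MP_214199_co.Eff
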