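import Mathlib

/-!
# The dimension of the space of polynomials of bounded degree
-/

set_option autoImplicit false

namespace Pool.Agent.Lib.MP_214199_co.Eff

open MvPolynomial

/-- Proof.  `restrictTotalDegree` is `restrictSupport` of the exponents of degree at most `d`
(`basisRestrictSupport`); the exponents `Fin 2 →₀ ℕ` with `i + j ≤ d` are finitely many. -/
instance finiteDimensional_restrict (K : Type*) [Field K] (d : ℕ) :
    FiniteDimensional K (restrictTotalDegree (Fin 2) K d) := by
  infer_instance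

theorem bezoutDim_card (d : ℕ) :
    2 * Nat.card {n : Fin 2 →₀ ℕ | (n.sum fun _ e => e) ≤ d} = (d + 1) * (d + 2) := by
  classical
  let e : (Fin 2 →₀ ℕ) ≃ ℕ × ℕ := Finsupp.equivFunOnFinite.trans (finTwoArrowEquiv ℕ)
  let T : Finset (ℕ × ℕ) := (Finset.range (d + 1)).biUnion Finset.HasAntidiagonal.antidiagonal
  have hT : ∀ p : ℕ × ℕ, p ∈ T ↔ p.1 + p.2 ≤ d := by
    intro p
    simp only [T, Finset.mem_biUnion, Finset.mem_range, Finset.HasAntidiagonal.mem_antidiagonal]
    constructor
    · rintro ⟨a, ha, h⟩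
      omega
    · intro h
      exact ⟨p.1 + p.2, by omega, rfl⟩
  have h1 : Nat.card {n : Fin 2 →₀ ℕ | (n.sum fun _ e => e) ≤ d} = Nat.card {p // p ∈ T} := by
    refine Nat.card_congr (e.subtypeEquiv fun n => ?_)
    rw [hT]
    have h2 : (n.sum fun _ e => e) = n 0 + n 1 := by
      rw [Finsupp.sum_fintype _ _ (fun _ => rfl), Fin.sum_univ_two]
    change (n.sum fun _ e => e) ≤ d ↔ _
    rw [h2]
    rfl
  rw [h1, Nat.card_eq_fintype_card, Fintype.card_coe]
  have h3 : T.card = ∑ k ∈ Finset.range (d + 1), (k + 1) := by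
    rw [Finset.card_biUnion]
    · exact Finset.sum_congr rfl fun k _ => Finset.Nat.card_antidiagonal k
    · intro a _ b _ hab
      refine Finset.disjoint_left.2 ?_
      intro p hp hq
      rw [Finset.HasAntidiagonal.mem_antidiagonal] at hp hq
      exact hab (hp.symm.trans hq)
  rw [h3]
  have h4 : ∀ m : ℕ, 2 * ∑ k ∈ Finset.range (m + 1), (k + 1) = (m + 1) * (m + 2) := by
    intro m
    induction m with
    | zero => simp
    | succ m ih =>
      rw [Finset.sum_range_succ, mul_add, ih]
      ring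
  exact h4 d

/-- Proof.  Count the exponents `(i, j)` with `i + j ≤ d`: `∑_{i ≤ d} (d + 1 - i)`. -/
theorem finrank_restrict (K : Type*) [Field K] (d : ℕ) :
    2 * Module.finrank K (restrictTotalDegree (Fin 2) K d) = (d + 1) * (d + 2) := by
  have h := Module.finrank_eq_nat_card_basis
    (basisRestrictSupport K {n : Fin 2 →₀ ℕ | (n.sum fun _ e => e) ≤ d})
  have h2 : Module.finrank K (restrictTotalDegree (Fin 2) K d)
      = Nat.card {n : Fin 2 →₀ ℕ | (n.sum fun _ e => e) ≤ d} := h
  rw [h2]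
  exact bezoutDim_card d

/-- Interpolation.
Proof.  For `a ∈ T` let `F_a` be the product over the `b ∈ T`, `b ≠ a`, of `X i - C (b i)`, `i` a
coordinate with `a i ≠ b i`; `F_a` vanishes in all `b ≠ a` and not in `a`, its degree is at most
`|T| - 1 ≤ d`.  Take `∑_a (v a / F_a(a)) F_a`. -/
theorem exists_interpolation {K : Type*} [Field K] (d : ℕ) (T : Finset (Fin 2 → K))
    (hT : T.card ≤ d + 1) (v : (Fin 2 → K) → K) :
    ∃ F ∈ restrictTotalDegree (Fin 2) K d, ∀ a ∈ T, eval a F = v a := by
  classical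
  have hi : ∀ a b : Fin 2 → K, ∃ i : Fin 2, a ≠ b → a i ≠ b i := by
    intro a b
    by_cases h : a = b
    · exact ⟨0, fun h' => absurd h h'⟩
    · obtain ⟨i, hi⟩ := Function.ne_iff.1 h
      exact ⟨i, fun _ => hi⟩
  choose ι hι using hi
  let L : (Fin 2 → K) → (Fin 2 → K) → MvPolynomial (Fin 2) K :=
    fun a b => X (ι a b) - C (b (ι a b))
  let Fa : (Fin 2 → K) → MvPolynomial (Fin 2) K := fun a => ∏ b ∈ T.erase a, L a b
  have hL1 : ∀ a b, (L a b).totalDegree ≤ 1 := by
    intro a b
    refine (totalDegree_sub_C_le _ _).trans ?_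
    exact (totalDegree_X (R := K) (ι a b)).le
  have hLe : ∀ a b c, eval c (L a b) = c (ι a b) - b (ι a b) := by
    intro a b c
    simp [L]
  have hdeg : ∀ a ∈ T, (Fa a).totalDegree ≤ d := by
    intro a ha
    refine (totalDegree_finsetProd _ _).trans ?_
    refine (Finset.sum_le_card_nsmul _ _ 1 fun b _ => hL1 a b).trans ?_
    rw [Finset.card_erase_of_mem ha, smul_eq_mul, mul_one]
    omega
  have hself : ∀ a, eval a (Fa a) ≠ 0 := by
    intro a
    rw [map_prod]
    refine Finset.prod_ne_zero_iff.2 fun b hb => ?_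
    rw [hLe]
    exact sub_ne_zero.2 (hι a b (Finset.ne_of_mem_erase hb).symm)
  have hoth : ∀ a c, c ∈ T → c ≠ a → eval c (Fa a) = 0 := by
    intro a c hc hca
    rw [map_prod]
    refine Finset.prod_eq_zero (Finset.mem_erase.2 ⟨hca, hc⟩) ?_
    rw [hLe, sub_self]
  refine ⟨∑ a ∈ T, (v a / eval a (Fa a)) • Fa a, ?_, ?_⟩
  · refine Submodule.sum_mem _ fun a ha => Submodule.smul_mem _ _ ?_
    exact (mem_restrictTotalDegree _ _ _).2 (hdeg a ha)
  · intro c hc
    rw [map_sum, Finset.sum_eq_single c]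
    · rw [smul_eval, div_mul_cancel₀ _ (hself c)]
    · intro a _ hac
      rw [smul_eval, hoth a c hc hac.symm, mul_zero]
    · intro h
      exact absurd hc h

end Pool.Agent.Lib.MP_214199_co.Eff
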