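import Pool.Agent.Lib.MP_214199_co.Eff.Base

/-!
# Reversal of darts
-/

set_option autoImplicit false

namespace Pool.Agent.Lib.MP_214199_co.Eff

open Finset

variable {S : Finset Pt}

/-- The head of `d` is not its start. -/
theorem rev_v_ne {al : Equiv.Perm (D S)} (ha : IsRev S al) {d : D S} (h : al d ≠ d) :
    (al d).1.v ≠ d.1.v := by
  intro heq
  rcases hs : d.1.s with _ | _
  · have h1 := ha.gt d h hs
    rw [heq] at h1
    exact lt_irrefl _ h1
  · have h1 := ha.lt d h hs
    rw [heq] at h1
    exact lt_irrefl _ h1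

/-- The heads of two opposite darts are different. -/
theorem rev_heads_ne {al : Equiv.Perm (D S)} (ha : IsRev S al) {d : D S} (h : al d ≠ d)
    (h' : al (op d) ≠ op d) : (al d).1.v ≠ (al (op d)).1.v := by
  intro heq
  rcases hs : d.1.s with _ | _
  · have h1 := ha.gt d h hs
    have hs' : (op d).1.s = true := by
      change (!d.1.s) = true
      rw [hs]
      rfl
    have h2 := ha.lt (op d) h' hs'
    have h3 : (op d).1.v = d.1.v := rfl
    rw [h3] at h2
    rw [heq] at h1
    exact lt_irrefl _ (h1.trans h2)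
  · have h1 := ha.lt d h hs
    have hs' : (op d).1.s = false := by
      change (!d.1.s) = false
      rw [hs]
      rfl
    have h2 := ha.gt (op d) h' hs'
    have h3 : (op d).1.v = d.1.v := rfl
    rw [h3] at h2
    rw [heq] at h1
    exact lt_irrefl _ (h1.trans h2)

/-- Two lines meet once, in terms of darts. -/
theorem dart_vert_unique (hS : Gen S) {d e d' e' : D S} (hd : d.1.p = d'.1.p)
    (he : e.1.p = e'.1.p) (hne : d.1.p ≠ e.1.p) (hv : d.1.v = e.1.v) (hv' : d'.1.v = e'.1.v) :
    d.1.v = d'.1.v := by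
  apply vert_unique hS hne d.2.2
  · rw [hv]
    exact e.2.2
  · rw [hd]
    exact d'.2.2
  · rw [he, hv']
    exact e'.2.2

end Pool.Agent.Lib.MP_214199_co.Eff
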