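import Pool.Agent.Lib.MP_214199_co.Eff.Rot
import Pool.Agent.Lib.MP_214199_co.Eff.Rev

/-!
# Corners that are not followed by a vertex
-/

set_option autoImplicit false

namespace Pool.Agent.Lib.MP_214199_co.Eff

open Finset

variable {S : Finset Pt}

/-- all vertices of the line of a dart without successor are on one side -/
theorem caseC_side {al : Equiv.Perm (D S)} (ha : IsRev S al) {d : D S} (h : al d = d) :
    (d.1.s = true → ∀ u ∈ verts S, d.1.p ∈ blk S u → u.1 ≤ d.1.v.1) ∧
      (d.1.s = false → ∀ u ∈ verts S, d.1.p ∈ blk S u → d.1.v.1 ≤ u.1) := by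
  constructor
  · intro hs u hu hp
    by_contra hlt
    exact (ha.next_lt d hs u hu hp (not_le.1 hlt)).1 h
  · intro hs u hu hp
    by_contra hlt
    exact (ha.next_gt d hs u hu hp (not_le.1 hlt)).1 h

theorem caseC_ht {a c : Pt} (hac : a.1 ≠ c.1) (x : ℝ) :
    ht c x - ht a x = (c.1 - a.1) * (x - (vtx a c).1) := by
  have h' : c.1 - a.1 ≠ 0 := sub_ne_zero.2 hac.symm
  have h1 := ht_vtx_right hac
  have h2 := ht_vtx_left (p := a) (q := c)
  have h3 : ht c (vtx a c).1 = ht a (vtx a c).1 := h1.trans h2.symm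
  unfold ht at h3 ⊢
  linear_combination h3

/-- no point of `S` between the two lines of the corner -/
theorem caseC_succ (hS : Gen S) {sg al : Equiv.Perm (D S)} (hr : IsRot S sg) (ha : IsRev S al)
    {d : D S} (hm : ¬ IsMax d) (h : al d = d) (h' : al (sg d) = sg d) {c : Pt} (hc : c ∈ S)
    (h1 : d.1.p.1 < c.1) : (sg d).1.p.1 ≤ c.1 := by
  by_contra hcb
  rw [not_le] at hcb
  have hcv : c ∉ blk S d.1.v := fun hcv => absurd (hr.p_next d hm c hcv h1) (not_le.2 hcb)
  apply hcv
  have hda := mem_blk.1 d.2.2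
  have hdb := mem_blk.1 (sg d).2.2
  rw [hr.v d] at hdb
  have hca : d.1.p ≠ c := fun e => by rw [e] at h1; exact lt_irrefl _ h1
  have hcb' : (sg d).1.p ≠ c := fun e => by rw [e] at hcb; exact lt_irrefl _ hcb
  obtain ⟨va, va1, -⟩ := vtx_mem hS hda.1 hc hca
  obtain ⟨vb, vb1, -⟩ := vtx_mem hS hdb.1 hc hcb'
  have ea := caseC_ht (ne_of_lt h1) d.1.v.1
  have eb := caseC_ht (ne_of_gt hcb) d.1.v.1
  rw [hda.2] at ea
  rw [hdb.2] at eb
  have sa := caseC_side ha h
  have sb := caseC_side ha h'
  rw [hr.v d, hr.s_lt d hm] at sb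
  refine mem_blk.2 ⟨hc, ?_⟩
  have hp : 0 < c.1 - d.1.p.1 := by linarith
  have hn : c.1 - (sg d).1.p.1 < 0 := by linarith
  cases hs : d.1.s with
  | true =>
    have x1 := sa.1 hs _ va va1
    have x2 := sb.1 hs _ vb vb1
    have y1 : 0 ≤ (c.1 - d.1.p.1) * (d.1.v.1 - (vtx d.1.p c).1) :=
      mul_nonneg hp.le (by linarith)
    have y2 : (c.1 - (sg d).1.p.1) * (d.1.v.1 - (vtx (sg d).1.p c).1) ≤ 0 :=
      mul_nonpos_of_nonpos_of_nonneg hn.le (by linarith)
    linarith
  | false =>
    have x1 := sa.2 hs _ va va1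
    have x2 := sb.2 hs _ vb vb1
    have y1 : (c.1 - d.1.p.1) * (d.1.v.1 - (vtx d.1.p c).1) ≤ 0 :=
      mul_nonpos_of_nonneg_of_nonpos hp.le (by linarith)
    have y2 : 0 ≤ (c.1 - (sg d).1.p.1) * (d.1.v.1 - (vtx (sg d).1.p c).1) :=
      mul_nonneg_of_nonpos_of_nonpos hn.le (by linarith)
    linarith

/-- two darts in opposite directions: contradiction -/
theorem caseC_opp (hS : Gen S) {al : Equiv.Perm (D S)} (ha : IsRev S al)
    (h1 : 1 < (verts S).card) {d d' : D S} (h : al d = d) (h' : al d' = d')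
    (hp : d.1.p = d'.1.p) (hv : d.1.v = d'.1.v) (hs : d.1.s = true) (hs' : d'.1.s = false) :
    False := by
  have s1 := (caseC_side ha h).1 hs
  have s2 := (caseC_side ha h').2 hs'
  rw [← hp, ← hv] at s2
  have huniq : ∀ u ∈ verts S, d.1.p ∈ blk S u → u = d.1.v := fun u hu hpu =>
    vert_eq_of_fst hpu d.2.2 (le_antisymm (s1 u hu hpu) (s2 u hu hpu))
  have hall : ∀ q ∈ S, q ∈ blk S d.1.v := by
    intro q hq
    rcases eq_or_ne d.1.p q with e | e
    · rw [← e]
      exact d.2.2
    · obtain ⟨w0, w1, w2⟩ := vtx_mem hS (mem_blk.1 d.2.2).1 hq e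
      rw [← huniq _ w0 w1]
      exact w2
  have hone : ∀ u ∈ verts S, u = d.1.v := by
    intro u hu
    obtain ⟨p, hp, q, hq, hpq⟩ := Finset.one_lt_card.1 ((mem_verts hS).1 hu)
    exact vert_unique hS hpq hp hq (hall p (mem_blk.1 hp).1) (hall q (mem_blk.1 hq).1)
  obtain ⟨u, hu, w, hw, huw⟩ := Finset.one_lt_card.1 h1
  exact huw ((hone u hu).trans (hone w hw).symm)

/-- Case C: both lines of a corner end in its vertex.  At most `n` such darts in both directions
together (if there is more than one vertex).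
Proof.  Let `d` be as in the set, `v = d.v`, `a = d.p`, `b = (sg d).p`, `a.1 < b.1` consecutive in the
block of `v`, and `v` is the last vertex of `a` and of `b` in direction `s`.  Then no `c ∈ S` has
`a.1 < c.1 < b.1`: such a `c` is not in the block of `v`; if `s = true` and `c` is above `v` over
`v.1` it meets `b` to the right of `v`, if it is below `v` it meets `a` to the right of `v`
(`ht c x - ht b x` has slope `c.1 - b.1 < 0`, etc.), contradiction; for `s = false` similarly to the
left.  So `b` is the successor of `a` in the order of `S` by abscissae.  The map `d ↦ d.p` is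
injective: for two darts `d ≠ d'` of the set with the same `a` the points `b`, `b'` are equal, so
`d.v = d'.v = vtx a b` and the directions are different; then `v` is the first and the last, so the
only vertex of the line `a`; then all points of `S` are in the block of `v` (`vtx_mem`), and `v` is
the only vertex: excluded. -/
theorem card_caseC (hS : Gen S) {sg al : Equiv.Perm (D S)} (hr : IsRot S sg) (ha : IsRev S al)
    (h1 : 1 < (verts S).card) :
    {d : D S | ¬ IsMax d ∧ al d = d ∧ al (sg d) = sg d}.ncard ≤ S.card := by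
  rw [← Set.ncard_coe_finset S]
  apply Set.ncard_le_ncard_of_injOn (fun d : D S => d.1.p)
  · intro d _
    exact Finset.mem_coe.2 (mem_blk.1 d.2.2).1
  · rintro d ⟨hm, h, h'⟩ e ⟨km, k, k'⟩ hde
    have hp : d.1.p = e.1.p := hde
    have hb1 := (mem_blk.1 (sg d).2.2).1
    have hb2 := (mem_blk.1 (sg e).2.2).1
    have l1 := hr.p_lt d hm
    have l2 := hr.p_lt e km
    have c1 : (sg d).1.p.1 ≤ (sg e).1.p.1 :=
      caseC_succ hS hr ha hm h h' hb2 (by rw [hp]; exact l2)
    have c2 : (sg e).1.p.1 ≤ (sg d).1.p.1 :=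
      caseC_succ hS hr ha km k k' hb1 (by rw [← hp]; exact l1)
    have hb : (sg d).1.p = (sg e).1.p := hS hb1 hb2 (le_antisymm c1 c2)
    have hbd := (sg d).2.2
    have hbe := (sg e).2.2
    rw [hr.v d] at hbd
    rw [hr.v e, ← hb] at hbe
    have hae := e.2.2
    rw [← hp] at hae
    have hv : d.1.v = e.1.v :=
      vert_unique hS (fun hh => by rw [← hh] at l1; exact lt_irrefl _ l1) d.2.2 hbd hae hbe
    have hs : d.1.s = e.1.s := by
      cases hds : d.1.s with
      | true =>
        cases hes : e.1.s with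
        | true => rfl
        | false => exact (caseC_opp hS ha h1 h k hp hv hds hes).elim
      | false =>
        cases hes : e.1.s with
        | true => exact (caseC_opp hS ha h1 k h hp.symm hv.symm hes hds).elim
        | false => rfl
    exact Subtype.ext (Dart.ext hv hp hs)

end Pool.Agent.Lib.MP_214199_co.Eff
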