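import Pool.Agent.Lib.MP_214199_co.Eff.LineR

/-!
# Chasles' theorem for two triples of lines
-/

set_option autoImplicit false

namespace Pool.Agent.Lib.MP_214199_co.Eff

open Finset

theorem chasles_ne {a b c : Fin 2 → ℂ} (h : ¬ Col a b c) : a ≠ b := by
  rintro rfl
  exact h (by simp [Col, det3c])

theorem chasles_col_left (a b : Fin 2 → ℂ) : Col a b a := by simp [Col, det3c]

theorem chasles_col_right (a b : Fin 2 → ℂ) : Col a b b := by
  simp only [Col, det3c]
  ring

theorem chasles_col_perm (Q : Fin 3 → (Fin 2 → ℂ)) (h : Col (Q 0) (Q 1) (Q 2)) (a b c : Fin 3)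
    (hab : a ≠ b) (hac : a ≠ c) (hbc : b ≠ c) : Col (Q a) (Q b) (Q c) := by
  unfold Col det3c at *
  fin_cases a <;> fin_cases b <;> fin_cases c <;>
    first
    | exact absurd rfl hab
    | exact absurd rfl hac
    | exact absurd rfl hbc
    | (simp only [Fin.zero_eta, Fin.mk_one, Fin.reduceFinMk] at *; linear_combination h)
    | (simp only [Fin.zero_eta, Fin.mk_one, Fin.reduceFinMk] at *; linear_combination -h)

theorem chasles_col_all {a b : Fin 2 → ℂ} {Q : Fin 3 → (Fin 2 → ℂ)} (ha : Q 0 = a) (hb : Q 1 = b)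
    (h : Col a b (Q 2)) (j : Fin 3) : Col a b (Q j) := by
  fin_cases j
  · rw [← ha]; exact chasles_col_left _ _
  · rw [← hb]; exact chasles_col_right _ _
  · exact h

theorem chasles_deg (a b : Fin 2 → ℂ) : (linP a b).totalDegree ≤ 1 := by
  unfold linP
  refine (MvPolynomial.totalDegree_sub _ _).trans (max_le ?_ ?_)
  · refine (MvPolynomial.totalDegree_mul _ _).trans ?_
    have h1 : (MvPolynomial.X (R := ℂ) (1 : Fin 2) - MvPolynomial.C (a 1)).totalDegree ≤ 1 := by
      refine (MvPolynomial.totalDegree_sub _ _).trans (max_le ?_ ?_)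
      · rw [MvPolynomial.totalDegree_X]
      · simp
    rw [MvPolynomial.totalDegree_C]
    omega
  · refine (MvPolynomial.totalDegree_mul _ _).trans ?_
    have h1 : (MvPolynomial.X (R := ℂ) (0 : Fin 2) - MvPolynomial.C (a 0)).totalDegree ≤ 1 := by
      refine (MvPolynomial.totalDegree_sub _ _).trans (max_le ?_ ?_)
      · rw [MvPolynomial.totalDegree_X]
      · simp
    rw [MvPolynomial.totalDegree_C]
    omega

/-- The case of the point `P 2 2`. -/
theorem chasles_core (F : Poly) (hF : F.totalDegree ≤ 3) (P : Fin 3 → Fin 3 → (Fin 2 → ℂ))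
    (hrow : ∀ i, Col (P i 0) (P i 1) (P i 2)) (hcol : ∀ j, Col (P 0 j) (P 1 j) (P 2 j))
    (hrow' : ∀ i i' j j₁ j₂, i ≠ i' → j₁ ≠ j₂ → ¬ Col (P i j₁) (P i j₂) (P i' j))
    (hcol' : ∀ j j' i i₁ i₂, j ≠ j' → i₁ ≠ i₂ → ¬ Col (P i₁ j) (P i₂ j) (P i j'))
    (h8 : ∀ i j, (i, j) ≠ (2, 2) → Zr F (P i j)) : Zr F (P 2 2) := by
  classical
  have hRz : ∀ i j, Col (P i 0) (P i 1) (P i j) := fun i j =>
    chasles_col_all (Q := P i) rfl rfl (hrow i) j
  have hCz : ∀ i j, Col (P 0 j) (P 1 j) (P i j) := fun i j =>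
    chasles_col_all (Q := fun i => P i j) rfl rfl (hcol j) i
  have hne : ∀ i j₁ j₂, j₁ ≠ j₂ → P i j₁ ≠ P i j₂ := by
    intro i j₁ j₂ h
    have hi : ∃ i', i ≠ i' := ⟨i + 1, by fin_cases i <;> decide⟩
    obtain ⟨i', hi'⟩ := hi
    exact chasles_ne (hrow' i i' 0 j₁ j₂ hi' h)
  -- the polynomials
  set R : Fin 3 → Poly := fun i => linP (P i 0) (P i 1) with hR
  set Cc : Fin 3 → Poly := fun j => linP (P 0 j) (P 1 j) with hCc
  have hRe : ∀ i c, MvPolynomial.eval c (R i) = det3c (P i 0) (P i 1) c := fun i c => eval_linP _ _ _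
  have hCe : ∀ j c, MvPolynomial.eval c (Cc j) = det3c (P 0 j) (P 1 j) c := fun j c => eval_linP _ _ _
  have hR1 : ∀ i i' j, i ≠ i' → MvPolynomial.eval (P i' j) (R i) ≠ 0 := by
    intro i i' j h
    rw [hRe]
    exact hrow' i i' j 0 1 h (by decide)
  have hC0 : ∀ i j, MvPolynomial.eval (P i j) (Cc j) = 0 := fun i j => by
    rw [hCe]; exact hCz i j
  have hC1 : ∀ i j j', j ≠ j' → MvPolynomial.eval (P i j') (Cc j) ≠ 0 := by
    intro i j j' h
    rw [hCe]
    exact hcol' j j' i 0 1 h (by decide)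
  -- a fourth point of the first line
  obtain ⟨z, hz1, hz2⟩ : ∃ z, Col (P 0 0) (P 0 1) z ∧
      z ∉ ({P 0 0, P 0 1, P 0 2} : Finset (Fin 2 → ℂ)) := by
    have hw : P 0 1 - P 0 0 ≠ 0 := sub_ne_zero.2 (hne 0 1 0 (by decide))
    have hinj : Function.Injective (fun t : ℂ => P 0 0 + t • (P 0 1 - P 0 0)) := by
      intro s t h
      have h' : s • (P 0 1 - P 0 0) = t • (P 0 1 - P 0 0) := add_left_cancel h
      rw [← sub_eq_zero, ← sub_smul, smul_eq_zero] at h'
      rcases h' with h' | h'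
      · exact sub_eq_zero.1 h'
      · exact absurd h' hw
    obtain ⟨z, hz, hz'⟩ := (Set.infinite_range_of_injective hinj).exists_notMem_finset
      ({P 0 0, P 0 1, P 0 2} : Finset (Fin 2 → ℂ))
    obtain ⟨t, rfl⟩ := hz
    refine ⟨_, ?_, hz'⟩
    simp only [Col, det3c, Pi.add_apply, Pi.smul_apply, Pi.sub_apply, smul_eq_mul]
    ring
  have hzne : ∀ j, z ≠ P 0 j := by
    intro j h
    apply hz2
    rw [h]
    fin_cases j <;> simp
  have hCz' : ∀ j, MvPolynomial.eval z (Cc j) ≠ 0 := by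
    intro j h
    have hj : ∃ j', j ≠ j' := ⟨j + 1, by fin_cases j <;> decide⟩
    obtain ⟨j', hj'⟩ := hj
    apply hC1 0 j j' hj'
    refine line_zeros (Cc j) 1 (chasles_deg _ _) (P 0 0) (P 0 1) (hne 0 0 1 (by decide))
      {z, P 0 j} ?_ ?_ (P 0 j') (hRz 0 j')
    · intro c hc
      rw [Finset.mem_insert, Finset.mem_singleton] at hc
      rcases hc with rfl | rfl
      · exact ⟨hz1, h⟩
      · exact ⟨hRz 0 j, hC0 0 j⟩
    · rw [Finset.card_pair (hzne j)]
      norm_num
  -- the polynomial `G`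
  set l : ℂ := MvPolynomial.eval z F / (MvPolynomial.eval z (Cc 0) * MvPolynomial.eval z (Cc 1) *
    MvPolynomial.eval z (Cc 2)) with hl
  set G : Poly := F - MvPolynomial.C l * (Cc 0 * Cc 1 * Cc 2) with hG
  have hGe : ∀ c, MvPolynomial.eval c G = MvPolynomial.eval c F - l * (MvPolynomial.eval c (Cc 0) *
      MvPolynomial.eval c (Cc 1) * MvPolynomial.eval c (Cc 2)) := by
    intro c
    simp [hG]
  have hGdeg : G.totalDegree ≤ 3 := by
    refine (MvPolynomial.totalDegree_sub _ _).trans (max_le hF ?_)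
    refine (MvPolynomial.totalDegree_mul _ _).trans ?_
    rw [MvPolynomial.totalDegree_C]
    have h1 := MvPolynomial.totalDegree_mul (Cc 0 * Cc 1) (Cc 2)
    have h2 := MvPolynomial.totalDegree_mul (Cc 0) (Cc 1)
    have h3 : ∀ j, (Cc j).totalDegree ≤ 1 := fun j => chasles_deg _ _
    have h30 := h3 0
    have h31 := h3 1
    have h32 := h3 2
    omega
  have hprod : ∀ i j, MvPolynomial.eval (P i j) (Cc 0) * MvPolynomial.eval (P i j) (Cc 1) *
      MvPolynomial.eval (P i j) (Cc 2) = 0 := by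
    intro i j
    have := hC0 i j
    fin_cases j
    · simp only [Fin.zero_eta] at this ⊢
      rw [this]; ring
    · simp only [Fin.mk_one] at this ⊢
      rw [this]; ring
    · simp only [Fin.reduceFinMk] at this ⊢
      rw [this]; ring
  have hGP : ∀ i j, (i, j) ≠ ((2 : Fin 3), (2 : Fin 3)) → MvPolynomial.eval (P i j) G = 0 := by
    intro i j h
    rw [hGe, hprod, mul_zero, sub_zero]
    exact h8 i j h
  have hGz : MvPolynomial.eval z G = 0 := by
    rw [hGe, hl]
    have h0 := hCz' 0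
    have h1 := hCz' 1
    have h2 := hCz' 2
    field_simp
    ring
  -- first line
  have hcard3 : ∀ i, ({P i 0, P i 1, P i 2} : Finset (Fin 2 → ℂ)).card = 3 := by
    intro i
    rw [Finset.card_insert_of_notMem, Finset.card_pair (hne i 1 2 (by decide))]
    rw [Finset.mem_insert, Finset.mem_singleton]
    rintro (h | h)
    · exact hne i 0 1 (by decide) h
    · exact hne i 0 2 (by decide) h
  obtain ⟨Q, hQ, hGQ⟩ : ∃ Q : Poly, Q.totalDegree ≤ 2 ∧ G = R 0 * Q := by
    refine line_dvd G 2 hGdeg (P 0 0) (P 0 1) (hne 0 0 1 (by decide)) ?_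
    intro c hc
    refine line_zeros G 3 hGdeg (P 0 0) (P 0 1) (hne 0 0 1 (by decide))
      (insert z {P 0 0, P 0 1, P 0 2}) ?_ ?_ c hc
    · intro c hc
      rw [Finset.mem_insert, Finset.mem_insert, Finset.mem_insert, Finset.mem_singleton] at hc
      rcases hc with rfl | rfl | rfl | rfl
      · exact ⟨hz1, hGz⟩
      · exact ⟨hRz 0 0, hGP 0 0 (by decide)⟩
      · exact ⟨hRz 0 1, hGP 0 1 (by decide)⟩
      · exact ⟨hRz 0 2, hGP 0 2 (by decide)⟩
    · rw [Finset.card_insert_of_notMem hz2, hcard3]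
      norm_num
  -- second line
  have hQP : ∀ i j, i ≠ 0 → (i, j) ≠ ((2 : Fin 3), (2 : Fin 3)) → MvPolynomial.eval (P i j) Q = 0 := by
    intro i j hi h
    have h1 := hGP i j h
    rw [hGQ, map_mul] at h1
    rcases mul_eq_zero.1 h1 with h2 | h2
    · exact absurd h2 (hR1 0 i j (Ne.symm hi))
    · exact h2
  obtain ⟨Q', hQ', hQQ⟩ : ∃ Q' : Poly, Q'.totalDegree ≤ 1 ∧ Q = R 1 * Q' := by
    refine line_dvd Q 1 hQ (P 1 0) (P 1 1) (hne 1 0 1 (by decide)) ?_
    intro c hc
    refine line_zeros Q 2 hQ (P 1 0) (P 1 1) (hne 1 0 1 (by decide))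
      {P 1 0, P 1 1, P 1 2} ?_ ?_ c hc
    · intro c hc
      rw [Finset.mem_insert, Finset.mem_insert, Finset.mem_singleton] at hc
      rcases hc with rfl | rfl | rfl
      · exact ⟨hRz 1 0, hQP 1 0 (by decide) (by decide)⟩
      · exact ⟨hRz 1 1, hQP 1 1 (by decide) (by decide)⟩
      · exact ⟨hRz 1 2, hQP 1 2 (by decide) (by decide)⟩
    · rw [hcard3]
      norm_num
  have hQ'P : ∀ j, (2, j) ≠ ((2 : Fin 3), (2 : Fin 3)) → MvPolynomial.eval (P 2 j) Q' = 0 := by
    intro j h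
    have h1 := hQP 2 j (by decide) h
    rw [hQQ, map_mul] at h1
    rcases mul_eq_zero.1 h1 with h2 | h2
    · exact absurd h2 (hR1 1 2 j (by decide))
    · exact h2
  have hlast : MvPolynomial.eval (P 2 2) Q' = 0 := by
    refine line_zeros Q' 1 hQ' (P 2 0) (P 2 1) (hne 2 0 1 (by decide)) {P 2 0, P 2 1} ?_ ?_ (P 2 2)
      (hRz 2 2)
    · intro c hc
      rw [Finset.mem_insert, Finset.mem_singleton] at hc
      rcases hc with rfl | rfl
      · exact ⟨hRz 2 0, hQ'P 0 (by decide)⟩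
      · exact ⟨hRz 2 1, hQ'P 1 (by decide)⟩
    · rw [Finset.card_pair (hne 2 0 1 (by decide))]
      norm_num
  have hfin := hGe (P 2 2)
  rw [hprod, mul_zero, sub_zero, hGQ, hQQ, map_mul, map_mul, hlast, mul_zero, mul_zero] at hfin
  exact hfin.symm

/-- Chasles: nine points `P i j`, the rows and the columns are collinear, the points of the other
rows (columns) are not on the line of a row (column).  A polynomial of degree at most 3 that
vanishes in eight of them vanishes in the ninth.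
Proof.  By symmetry (compose with permutations of rows and columns, `det3c` is alternating) let
`(i0, j0) = (2, 2)`.  Let `R i = linP (P i 0) (P i 1)`, `C j = linP (P 0 j) (P 1 j)` (the two points
are distinct because of `hrow'`, `hcol'`); `R i` vanishes in `P i j` for all `j` and not in `P i' j`,
`i' ≠ i`; `C j` vanishes in `P i j` for all `i` and not in `P i j'`, `j' ≠ j`.
(1) Choose a point `z` of the line `R 0 = 0` different from the three `P 0 j`.  `C j (z) ≠ 0`
(otherwise `C j` vanishes in two points `z`, `P 0 j` of the line `R 0 = 0`, so on the whole line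
(`line_zeros`), in particular in `P 0 j'`).  So for some `l` the polynomial
`G = F - l C 0 C 1 C 2` (degree `≤ 3`) vanishes in `z`, `P 0 0`, `P 0 1`, `P 0 2`, hence on the line
(`line_zeros`), so `G = R 0 * Q`, `Q.totalDegree ≤ 2` (`line_dvd`).  (2) `G`, hence `Q`, vanishes in
the three points `P 1 j`, so on the line `R 1 = 0`, `Q = R 1 * Q'`, `Q'.totalDegree ≤ 1`.
(3) `Q'` vanishes in `P 2 0`, `P 2 1`, so (`line_zeros`) in `P 2 2`; and so does
`F = l C 0 C 1 C 2 + R 0 * R 1 * Q'`. -/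
theorem chasles (F : Poly) (hF : F.totalDegree ≤ 3) (P : Fin 3 → Fin 3 → (Fin 2 → ℂ))
    (hrow : ∀ i, Col (P i 0) (P i 1) (P i 2)) (hcol : ∀ j, Col (P 0 j) (P 1 j) (P 2 j))
    (hrow' : ∀ i i' j j₁ j₂, i ≠ i' → j₁ ≠ j₂ → ¬ Col (P i j₁) (P i j₂) (P i' j))
    (hcol' : ∀ j j' i i₁ i₂, j ≠ j' → i₁ ≠ i₂ → ¬ Col (P i₁ j) (P i₂ j) (P i j'))
    (i0 j0 : Fin 3) (h8 : ∀ i j, (i, j) ≠ (i0, j0) → Zr F (P i j)) : Zr F (P i0 j0) := by
  have hs : (Equiv.swap (2 : Fin 3) i0) 2 = i0 := Equiv.swap_apply_left _ _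
  have ht : (Equiv.swap (2 : Fin 3) j0) 2 = j0 := Equiv.swap_apply_left _ _
  have key := chasles_core F hF
    (fun i j => P (Equiv.swap (2 : Fin 3) i0 i) (Equiv.swap (2 : Fin 3) j0 j)) ?_ ?_ ?_ ?_ ?_
  · simpa only [hs, ht] using key
  · intro i
    exact chasles_col_perm (P _) (hrow _) _ _ _ ((Equiv.injective _).ne (by decide))
      ((Equiv.injective _).ne (by decide)) ((Equiv.injective _).ne (by decide))
  · intro j
    exact chasles_col_perm (fun i => P i _) (hcol _) _ _ _ ((Equiv.injective _).ne (by decide))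
      ((Equiv.injective _).ne (by decide)) ((Equiv.injective _).ne (by decide))
  · intro i i' j j₁ j₂ h h'
    exact hrow' _ _ _ _ _ ((Equiv.injective _).ne h) ((Equiv.injective _).ne h')
  · intro j j' i i₁ i₂ h h'
    exact hcol' _ _ _ _ _ ((Equiv.injective _).ne h) ((Equiv.injective _).ne h')
  · intro i j h
    apply h8
    intro h'
    apply h
    rw [Prod.mk.injEq] at h' ⊢
    exact ⟨(Equiv.injective _) (h'.1.trans hs.symm), (Equiv.injective _) (h'.2.trans ht.symm)⟩

end Pool.Agent.Lib.MP_214199_co.Eff
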