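import Mathlib

/-!
# Two forms in three variables have a common zero
-/

set_option autoImplicit false

namespace Pool.Agent.Lib.MP_214199_co.Eff

open MvPolynomial

/-- Set the first `k` variables to zero. -/
noncomputable def czSub (k : ℕ) : MvPolynomial (Fin 3) ℂ →+* MvPolynomial (Fin 3) ℂ :=
  (aeval (fun i : Fin 3 => if (i : ℕ) < k then (0 : MvPolynomial (Fin 3) ℂ) else X i)).toRingHom

lemma czSub_X (k : ℕ) (i : Fin 3) :
    czSub k (X i) = if (i : ℕ) < k then (0 : MvPolynomial (Fin 3) ℂ) else X i := by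
  simp [czSub]

/-- the prime ideal of the polynomials vanishing when the first `k` variables are zero -/
noncomputable def czP (k : ℕ) : Ideal (MvPolynomial (Fin 3) ℂ) := RingHom.ker (czSub k)

instance czP_prime (k : ℕ) : (czP k).IsPrime := RingHom.ker_isPrime _

lemma czSub_comp (k : ℕ) : (czSub (k + 1)).comp (czSub k) = czSub (k + 1) := by
  apply MvPolynomial.ringHom_ext
  · intro r
    simp [czSub]
  · intro i
    rw [RingHom.comp_apply, czSub_X k]
    by_cases h : (i : ℕ) < k
    · rw [if_pos h, map_zero, czSub_X, if_pos (by omega)]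
    · rw [if_neg h]

lemma czP_lt (k : ℕ) (hk : k < 3) : czP k < czP (k + 1) := by
  refine lt_of_le_of_ne ?_ ?_
  · intro f hf
    have : czSub (k + 1) (czSub k f) = czSub (k + 1) f := by
      rw [← RingHom.comp_apply, czSub_comp]
    rw [czP, RingHom.mem_ker] at *
    rw [← this, hf, map_zero]
  · intro h
    have h1 : (X (⟨k, hk⟩ : Fin 3) : MvPolynomial (Fin 3) ℂ) ∈ czP (k + 1) := by
      rw [czP, RingHom.mem_ker, czSub_X, if_pos (by simp)]
    rw [← h, czP, RingHom.mem_ker, czSub_X, if_neg (by simp)] at h1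
    exact X_ne_zero _ h1

lemma czP_height : (3 : ℕ∞) ≤ (czP 3).height := by
  have h0 := Ideal.height_add_one_le_of_lt_of_isPrime (czP_lt 0 (by norm_num))
  have h1 := Ideal.height_add_one_le_of_lt_of_isPrime (czP_lt 1 (by norm_num))
  have h2 := Ideal.height_add_one_le_of_lt_of_isPrime (czP_lt 2 (by norm_num))
  calc (3 : ℕ∞) = 0 + 1 + 1 + 1 := by norm_num
    _ ≤ (czP 0).height + 1 + 1 + 1 := by gcongr; exact zero_le
    _ ≤ (czP 1).height + 1 + 1 := by gcongr
    _ ≤ (czP 2).height + 1 := by gcongr
    _ ≤ (czP 3).height := h2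

lemma czP_three (f : MvPolynomial (Fin 3) ℂ) : f ∈ czP 3 ↔ eval 0 f = 0 := by
  have : czSub 3 = (C : ℂ →+* MvPolynomial (Fin 3) ℂ).comp (eval (0 : Fin 3 → ℂ)) := by
    apply MvPolynomial.ringHom_ext
    · intro r
      simp [czSub]
    · intro i
      rw [czSub_X, if_pos i.2]
      simp
  rw [czP, RingHom.mem_ker, this, RingHom.comp_apply, C_eq_zero]

lemma czP_zero (F : MvPolynomial (Fin 3) ℂ) (m : ℕ) (hm : 0 < m) (hF : F.IsHomogeneous m) :
    eval 0 F = 0 := by
  have h : eval (0 : Fin 3 → ℂ) F = constantCoeff F := by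
    have h1 : (eval (0 : Fin 3 → ℂ)) = (constantCoeff : MvPolynomial (Fin 3) ℂ →+* ℂ) := by
      apply MvPolynomial.ringHom_ext
      · intro r; simp
      · intro i; simp
    rw [h1]
  rw [h, constantCoeff_eq]
  exact hF.coeff_eq_zero (by simp; omega)

/-- Proof with Krull's height theorem.  Let `I = (F, H)` and `m = (X 0, X 1, X 2)`.  `I ≤ m` because
`F` and `H` have no constant term.  If there is no common zero except `0` then by the
Nullstellensatz (`MvPolynomial.vanishingIdeal_zeroLocus_eq_radical`) `radical I = m`, so `m` is the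
only minimal prime over `I` and `m.height ≤ 2` (`Ideal.height_le_spanFinrank` or
`Ideal.height_le_spanRank_toENat_of_mem_minimalPrimes`).  But `0 < (X 0) < (X 0, X 1) < m` is a chain
of primes (`MvPolynomial.isPrime_span_X_image_set`), so `m.height ≥ 3`.
(Alternative: after a linear change of variables `F` is monic in `X 2` (or `F = 0`); the resultant
of `F` and `H` with respect to `X 2` is a form in `X 0, X 1` and has a nontrivial zero.) -/
theorem common_zero (F H : MvPolynomial (Fin 3) ℂ) (m n : ℕ) (hm : 0 < m) (hn : 0 < n)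
    (hF : F.IsHomogeneous m) (hH : H.IsHomogeneous n) :
    ∃ p : Fin 3 → ℂ, p ≠ 0 ∧ eval p F = 0 ∧ eval p H = 0 := by
  classical
  by_contra hcon
  push Not at hcon
  set I : Ideal (MvPolynomial (Fin 3) ℂ) := Ideal.span ((({F, H} : Finset _) : Set _)) with hI
  have hF0 : eval 0 F = 0 := czP_zero F m hm hF
  have hH0 : eval 0 H = 0 := czP_zero H n hn hH
  have hIm : I ≤ czP 3 := by
    rw [hI, Ideal.span_le]
    intro f hf
    simp only [Finset.coe_insert, Finset.coe_singleton, Set.mem_insert_iff,
      Set.mem_singleton_iff] at hf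
    rcases hf with rfl | rfl
    · exact (czP_three _).2 hF0
    · exact (czP_three _).2 hH0
  have hz : zeroLocus ℂ I ⊆ {(0 : Fin 3 → ℂ)} := by
    intro p hp
    rw [mem_zeroLocus_iff] at hp
    by_contra hp0
    have h1 : eval p F = 0 := by
      simpa using hp F (Ideal.subset_span (by simp))
    have h2 : eval p H = 0 := by
      simpa using hp H (Ideal.subset_span (by simp))
    exact hcon p (by simpa using hp0) h1 h2
  have hrad : czP 3 ≤ I.radical := by
    rw [← vanishingIdeal_zeroLocus_eq_radical (K := ℂ)]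
    intro f hf
    rw [mem_vanishingIdeal_iff]
    intro x hx
    have := hz hx
    rw [Set.mem_singleton_iff] at this
    subst this
    simpa using (czP_three f).1 hf
  have hmin : czP 3 ∈ I.minimalPrimes := by
    refine ⟨⟨inferInstance, hIm⟩, ?_⟩
    rintro J ⟨hJ, hIJ⟩ _
    exact hrad.trans (hJ.radical_le_iff.2 hIJ)
  have h3 := Ideal.height_le_card_of_mem_minimalPrimes_span_finset hmin
  have h4 : (({F, H} : Finset (MvPolynomial (Fin 3) ℂ)).card : ℕ∞) ≤ 2 := by
    exact_mod_cast Finset.card_le_two
  have h5 := czP_height.trans (h3.trans h4)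
  exact absurd h5 (by norm_num)

end Pool.Agent.Lib.MP_214199_co.Eff
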