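import Pool.Agent.Lib.MP_214199_co.Eff.Base

/-!
# Counting the defect with respect to a large subset
-/

set_option autoImplicit false

namespace Pool.Agent.Lib.MP_214199_co.Eff

open Finset

open Classical in
/-- the blocks with exactly two points of `A` -/
noncomputable def L2 (S A : Finset Pt) : Finset Pt :=
  (verts S).filter (fun v => ((blk S v) ∩ A).card = 2)

open Classical in
/-- the number of the blocks through `y` with exactly two points of `A` -/
noncomputable def J2 (S A : Finset Pt) (y : Pt) : ℕ := ((L2 S A).filter (fun v => y ∈ blk S v)).card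

open Classical in
theorem weights_num (i j : ℕ) (hj : j ≤ 3) (hij : 2 ≤ i + j) :
    i * j + (if j = 2 then 1 else 0) ≤ wt (i + j) + i * (i - 1) + 3 * (if j = 2 then i else 0) := by
  rcases Nat.lt_or_ge i 4 with hi | hi
  · interval_cases i <;> interval_cases j <;> first | (exfalso; omega) | (norm_num [wt])
  · have h1 : i * j ≤ i * (i - 1) := Nat.mul_le_mul le_rfl (by omega)
    split_ifs <;> omega

open Classical in
/-- the pairs of a point outside `A` and a point of `A` -/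
theorem weights_mixed {S : Finset Pt} (hS : Gen S) (A : Finset Pt) (hA : A ⊆ S) :
    ∑ v ∈ verts S, (blk S v \ A).card * (blk S v ∩ A).card = (S \ A).card * A.card := by
  rw [← Finset.card_product]
  rw [Finset.card_eq_sum_card_fiberwise (s := (S \ A) ×ˢ A) (f := fun z : Pt × Pt => vtx z.1 z.2)
    (t := verts S)]
  · apply Finset.sum_congr rfl
    intro v hv
    rw [← Finset.card_product]
    congr 1
    ext ⟨y, a⟩
    simp only [Finset.mem_product, Finset.mem_sdiff, Finset.mem_inter, Finset.mem_filter]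
    constructor
    · rintro ⟨⟨hy, hyA⟩, ha, haA⟩
      have hyS := (mem_blk.1 hy).1
      have haS := (mem_blk.1 ha).1
      have hne : y ≠ a := fun h => hyA (h ▸ haA)
      obtain ⟨-, h1, h2⟩ := vtx_mem hS hyS haS hne
      exact ⟨⟨⟨hyS, hyA⟩, haA⟩, vert_unique hS hne h1 h2 hy ha⟩
    · rintro ⟨⟨⟨hyS, hyA⟩, haA⟩, rfl⟩
      have hne : y ≠ a := fun h => hyA (h ▸ haA)
      obtain ⟨-, h1, h2⟩ := vtx_mem hS hyS (hA haA) hne
      exact ⟨⟨h1, hyA⟩, h2, haA⟩
  · rintro ⟨y, a⟩ hz
    have hz' := Finset.mem_coe.1 hz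
    rw [Finset.mem_product, Finset.mem_sdiff] at hz'
    have hne : y ≠ a := by
      rintro rfl
      exact hz'.1.2 hz'.2
    exact Finset.mem_coe.2 (vtx_mem hS hz'.1.1 (hA hz'.2) hne).1

open Classical in
/-- the pairs of points outside `A` -/
theorem weights_pure {S : Finset Pt} (hS : Gen S) (A : Finset Pt) :
    ∑ v ∈ verts S, (blk S v \ A).card * ((blk S v \ A).card - 1) =
      (S \ A).card * ((S \ A).card - 1) := by
  have hoff : ∀ T : Finset Pt, T.card * (T.card - 1) = T.offDiag.card := by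
    intro T
    rw [Finset.offDiag_card, Nat.mul_sub, mul_one]
  rw [hoff]
  rw [Finset.card_eq_sum_card_fiberwise (s := (S \ A).offDiag) (f := fun z : Pt × Pt => vtx z.1 z.2)
    (t := verts S)]
  · apply Finset.sum_congr rfl
    intro v hv
    rw [hoff]
    congr 1
    ext ⟨y, a⟩
    simp only [Finset.mem_offDiag, Finset.mem_sdiff, Finset.mem_filter]
    constructor
    · rintro ⟨⟨hy, hyA⟩, ⟨ha, haA⟩, hne⟩
      have hyS := (mem_blk.1 hy).1
      have haS := (mem_blk.1 ha).1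
      obtain ⟨-, h1, h2⟩ := vtx_mem hS hyS haS hne
      exact ⟨⟨⟨hyS, hyA⟩, ⟨haS, haA⟩, hne⟩, vert_unique hS hne h1 h2 hy ha⟩
    · rintro ⟨⟨⟨hyS, hyA⟩, ⟨haS, haA⟩, hne⟩, rfl⟩
      obtain ⟨-, h1, h2⟩ := vtx_mem hS hyS haS hne
      exact ⟨⟨h1, hyA⟩, ⟨h2, haA⟩, hne⟩
  · rintro ⟨y, a⟩ hz
    have hz' := Finset.mem_coe.1 hz
    rw [Finset.mem_offDiag, Finset.mem_sdiff, Finset.mem_sdiff] at hz'
    exact Finset.mem_coe.2 (vtx_mem hS hz'.1.1 hz'.2.1.1 hz'.2.2).1

open Classical in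
theorem weights_J2 {S : Finset Pt} (A : Finset Pt) :
    ∑ y ∈ S \ A, J2 S A y = ∑ v ∈ L2 S A, (blk S v \ A).card := by
  have h := Finset.sum_card_bipartiteAbove_eq_sum_card_bipartiteBelow (s := S \ A) (t := L2 S A)
    (fun y v => y ∈ blk S v)
  unfold J2
  unfold Finset.bipartiteAbove Finset.bipartiteBelow at h
  rw [h]
  apply Finset.sum_congr rfl
  intro v _
  congr 1
  ext y
  rw [Finset.mem_filter, Finset.mem_sdiff, Finset.mem_sdiff]
  exact ⟨fun h => ⟨h.2, h.1.2⟩, fun h => ⟨⟨blk_subset v h.1, h.2⟩, h.1⟩⟩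

open Classical in
theorem weights_split {S : Finset Pt} (A : Finset Pt) (v : Pt) :
    (blk S v).card = (blk S v \ A).card + (blk S v ∩ A).card := by
  rw [Finset.card_sdiff_add_card_inter]

open Classical in
/-- Proof.  For `v ∈ verts S` let `j = |blk S v ∩ A| ≤ 3`, `i = |blk S v ∖ A|`, `i + j ≥ 2`.  Then
`i j + [j = 2] ≤ wt (i + j) + i (i - 1) + 3 i [j = 2]`: `i = 0`: `j = 2`: `1 ≤ 1`, `j = 3`: `0 ≤ 0`;
`i = 1`: `j = 1`: `1 ≤ 1`, `j = 2`: `3 ≤ 0 + 3`, `j = 3`: `3 ≤ 3`; `i = 2`: `j = 0`: `0 ≤ 1 + 2`,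
`j = 1`: `2 ≤ 0 + 2`, `j = 2`: `5 ≤ 3 + 2 + 6`, `j = 3`: `6 ≤ 7 + 2`; `i = 3`: `3 j + 1 ≤ 6 + ...`;
`i ≥ 4`: `i j ≤ 3 i ≤ i (i - 1)`.
Sum over `v`: `∑ i j = |S ∖ A| |A|` (every pair is in exactly one block: `vtx_mem`, `vert_unique`),
`∑ i (i - 1) = |S ∖ A| (|S ∖ A| - 1)`, `∑_v i [j = 2] = ∑_y J2 y`. -/
theorem weights {S : Finset Pt} (hS : Gen S) (A : Finset Pt) (hA : A ⊆ S)
    (h3 : ∀ v ∈ verts S, ((blk S v) ∩ A).card ≤ 3) :
    (S \ A).card * A.card + (L2 S A).card ≤
      dfc S + (S \ A).card * ((S \ A).card - 1) + 3 * ∑ y ∈ S \ A, J2 S A y := by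
  have h1 : ∀ v ∈ verts S, (blk S v \ A).card * (blk S v ∩ A).card +
      (if (blk S v ∩ A).card = 2 then 1 else 0) ≤
        wt (blk S v).card + (blk S v \ A).card * ((blk S v \ A).card - 1) +
          3 * (if (blk S v ∩ A).card = 2 then (blk S v \ A).card else 0) := by
    intro v hv
    have h2 := (mem_verts hS).1 hv
    rw [weights_split A v] at h2 ⊢
    exact weights_num _ _ (h3 v hv) h2
  have h4 := Finset.sum_le_sum h1
  rw [Finset.sum_add_distrib, Finset.sum_add_distrib, Finset.sum_add_distrib,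
    weights_mixed hS A hA, weights_pure hS A, ← Finset.mul_sum, ← Finset.sum_filter,
    ← Finset.sum_filter] at h4
  rw [weights_J2 A]
  have h5 : ∑ v ∈ (verts S).filter (fun v => (blk S v ∩ A).card = 2), 1 = (L2 S A).card := by
    rw [Finset.sum_const, smul_eq_mul, mul_one]
    rfl
  rw [h5] at h4
  exact h4

open Classical in
/-- Proof.  A block `v ∈ L2 S A` has exactly two points, and then `wt = 1`, or it contains a point
`y ∈ S ∖ A` and is counted in `J2 y`. -/
theorem weights_two {S : Finset Pt} (hS : Gen S) (A : Finset Pt) (hA : A ⊆ S) :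
    (L2 S A).card ≤ dfc S + ∑ y ∈ S \ A, J2 S A y := by
  rw [weights_J2 A]
  have h1 : (L2 S A).card ≤ ∑ v ∈ L2 S A, (wt (blk S v).card + (blk S v \ A).card) := by
    rw [Finset.card_eq_sum_ones]
    apply Finset.sum_le_sum
    intro v hv
    unfold L2 at hv
    rw [Finset.mem_filter] at hv
    by_cases h : (blk S v).card = 3
    · have h2 := weights_split A v (S := S)
      omega
    · have h2 := one_le_wt h
      omega
  rw [Finset.sum_add_distrib] at h1
  have h2 : ∑ v ∈ L2 S A, wt (blk S v).card ≤ dfc S := by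
    unfold dfc
    apply Finset.sum_le_sum_of_subset
    unfold L2
    exact Finset.filter_subset _ _
  omega

end Pool.Agent.Lib.MP_214199_co.Eff
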