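import Pool.Agent.Lib.MP_214199_co.Eff.Coset
import Pool.Agent.Lib.MP_214199_co.Eff.Weights

/-!
# Blocks and the core
-/

set_option autoImplicit false

namespace Pool.Agent.Lib.MP_214199_co.Eff

open Finset

open Classical in
/-- A block contains at most three points of the core (`irr_blk`). -/
theorem core_blk {S : Finset Pt} (hS : Gen S) (f : Poly) (hf : Irreducible f)
    (h3 : f.totalDegree = 3) {G : Type} [AddCommGroup G] (θ : (Fin 2 → ℂ) → G)
    (H : AddSubgroup G) (x : G) (v : Pt) : ((blk S v) ∩ (core S f θ H x)).card ≤ 3 := by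
  have h := irr_blk hS f hf (by omega) v
  rw [h3] at h
  refine le_trans (Finset.card_le_card ?_) h
  intro a ha
  rw [Finset.mem_inter] at ha
  rw [Finset.mem_filter]
  exact ⟨ha.1, (mem_core.1 ha.2).2.1.1⟩

/-- If two points `a ≠ b` of the core are in the block `v` and `c` is a point of `S` in the block,
a nonsingular zero of `f` different from `a`, `b`, then `θ a + θ b + θ c = 0` and `c` is in the
core. -/
theorem core_third {S : Finset Pt} (hS : Gen S) (f : Poly)
    {G : Type} [AddCommGroup G] (θ : (Fin 2 → ℂ) → G) (hθ : CubicGroup f G θ)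
    (H : AddSubgroup G) (x : G) (hx : x + x + x ∈ H) {a b c v : Pt}
    (ha : a ∈ core S f θ H x) (hb : b ∈ core S f θ H x) (hab : a ≠ b) (hav : a ∈ blk S v)
    (hbv : b ∈ blk S v) (hcv : c ∈ blk S v) (hc : NS f (cpt c)) (hca : c ≠ a) (hcb : c ≠ b) :
    θ (cpt a) + θ (cpt b) + θ (cpt c) = 0 ∧ c ∈ core S f θ H x := by
  have haS := (mem_blk.1 hav).1
  have hbS := (mem_blk.1 hbv).1
  have hcS := (mem_blk.1 hcv).1
  obtain ⟨-, h1, h2⟩ := vtx_mem hS haS hbS hab
  have hv : vtx a b = v := vert_unique hS hab h1 h2 hav hbv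
  have hcol : Col (cpt a) (cpt b) (cpt c) := (col_iff_blk hS haS hbS hcS hab).2 (hv ▸ hcv)
  rw [mem_core] at ha hb
  have hsum : θ (cpt a) + θ (cpt b) + θ (cpt c) = 0 :=
    (hθ.col _ _ _ ha.2.1 hb.2.1 hc (fun h => hab (cpt_injective h))
      (fun h => hca (cpt_injective h).symm) (fun h => hcb (cpt_injective h).symm)).1 hcol
  refine ⟨hsum, mem_core.2 ⟨hcS, hc, ?_⟩⟩
  have e : θ (cpt c) - x = -((θ (cpt a) - x) + (θ (cpt b) - x) + (x + x + x)) := by
    have : θ (cpt c) = -(θ (cpt a) + θ (cpt b)) := eq_neg_of_add_eq_zero_right hsum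
    rw [this]
    abel
  rw [e]
  exact H.neg_mem (H.add_mem (H.add_mem ha.2.2 hb.2.2) hx)

end Pool.Agent.Lib.MP_214199_co.Eff
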