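import Pool.Agent.Lib.MP_214199_co.Eff.Defs

/-!
# Restriction of a polynomial to a line
-/

set_option autoImplicit false

namespace Pool.Agent.Lib.MP_214199_co.Eff

open MvPolynomial

/-- the coordinates along the line -/
noncomputable def lineRf (a w : Fin 2 → ℂ) : Fin 2 → Polynomial ℂ :=
  fun i => Polynomial.C (a i) + Polynomial.X * Polynomial.C (w i)

theorem lineR_eval (f : Fin 2 → Polynomial ℂ) (F : Poly) (t : ℂ) :
    (aeval f F).eval t = eval (fun i => (f i).eval t) F := by
  induction F using MvPolynomial.induction_on with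
  | C a => simp
  | add p q hp hq => simp [hp, hq]
  | mul_X p i hp => simp [hp]

theorem lineR_eval_f (a w : Fin 2 → ℂ) (F : Poly) (t : ℂ) :
    (aeval (lineRf a w) F).eval t = eval (a + t • w) F := by
  rw [lineR_eval]
  congr 2
  funext i
  simp only [lineRf, Polynomial.eval_add, Polynomial.eval_mul, Polynomial.eval_C,
    Polynomial.eval_X, Pi.add_apply, Pi.smul_apply, smul_eq_mul]

theorem lineR_deriv (a w : Fin 2 → ℂ) (F : Poly) :
    (aeval (lineRf a w) F).derivative =
      Polynomial.C (w 0) * aeval (lineRf a w) (pderiv 0 F) +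
        Polynomial.C (w 1) * aeval (lineRf a w) (pderiv 1 F) := by
  induction F using MvPolynomial.induction_on with
  | C a => simp
  | add p q hp hq =>
      simp only [map_add, hp, hq]
      ring
  | mul_X p i hp =>
      have hd : (lineRf a w i).derivative = Polynomial.C (w i) := by
        simp [lineRf]
      simp only [map_mul, aeval_X, Polynomial.derivative_mul, hp, hd, Derivation.leibniz,
        smul_eq_mul, map_add, pderiv_X]
      fin_cases i <;> simp <;> ring

/-- Restriction to the line `t ↦ a + t w`.
Proof.  `φ = aeval (fun i => C (a i) + X * C (w i)) F` (`MvPolynomial.aeval` into `Polynomial ℂ`):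
the degree by looking at monomials (`Polynomial.natDegree_sum_le`, `natDegree_prod_le`), the
derivative is the chain rule (`MvPolynomial.induction_on`). -/
theorem exists_line_poly (F : Poly) (a w : Fin 2 → ℂ) :
    ∃ φ : Polynomial ℂ, φ.natDegree ≤ F.totalDegree ∧ (∀ t, φ.eval t = eval (a + t • w) F) ∧
      ∀ t, φ.derivative.eval t = dr F (a + t • w) w := by
  refine ⟨aeval (lineRf a w) F, ?_, lineR_eval_f a w F, ?_⟩
  · have h := aeval_natDegree_le (m := F.totalDegree) (n := 1) F le_rfl (lineRf a w) (by
      intro i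
      unfold lineRf
      refine (Polynomial.natDegree_add_le _ _).trans ?_
      rw [Polynomial.natDegree_C]
      refine max_le (Nat.zero_le _) ?_
      refine (Polynomial.natDegree_mul_C_le _ _).trans ?_
      exact Polynomial.natDegree_X_le)
    rwa [mul_one] at h
  · intro t
    rw [lineR_deriv, Polynomial.eval_add, Polynomial.eval_mul, Polynomial.eval_mul,
      Polynomial.eval_C, Polynomial.eval_C, lineR_eval_f, lineR_eval_f]
    rfl

theorem lineR_col (a b c : Fin 2 → ℂ) (hab : a ≠ b) (h : Col a b c) :
    ∃ t : ℂ, c = a + t • (b - a) := by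
  unfold Col det3c at h
  by_cases h0 : b 0 - a 0 = 0
  · have h1 : b 1 - a 1 ≠ 0 := by
      intro h1
      apply hab
      funext i
      fin_cases i
      · exact (sub_eq_zero.1 h0).symm
      · exact (sub_eq_zero.1 h1).symm
    have hc0 : c 0 - a 0 = 0 := by
      rw [h0, zero_mul, zero_sub, neg_eq_zero] at h
      exact (mul_eq_zero.1 h).resolve_left h1
    refine ⟨(c 1 - a 1) / (b 1 - a 1), ?_⟩
    funext i
    fin_cases i
    · show c 0 = a 0 + (c 1 - a 1) / (b 1 - a 1) * (b 0 - a 0)
      rw [h0, mul_zero, add_zero]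
      exact sub_eq_zero.1 hc0
    · show c 1 = a 1 + (c 1 - a 1) / (b 1 - a 1) * (b 1 - a 1)
      rw [div_mul_cancel₀ _ h1]
      ring
  · refine ⟨(c 0 - a 0) / (b 0 - a 0), ?_⟩
    funext i
    fin_cases i
    · show c 0 = a 0 + (c 0 - a 0) / (b 0 - a 0) * (b 0 - a 0)
      rw [div_mul_cancel₀ _ h0]
      ring
    · show c 1 = a 1 + (c 0 - a 0) / (b 0 - a 0) * (b 1 - a 1)
      field_simp
      linear_combination h

/-- A polynomial of degree at most `k` with more than `k` zeros on a line vanishes on the line.
Proof.  `Col a b c` (`a ≠ b`) iff `c = a + t (b - a)` for some `t`; `exists_line_poly`;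
`Polynomial.card_roots'`. -/
theorem line_zeros (F : Poly) (k : ℕ) (hF : F.totalDegree ≤ k) (a b : Fin 2 → ℂ) (hab : a ≠ b)
    (T : Finset (Fin 2 → ℂ)) (hT : ∀ c ∈ T, Col a b c ∧ Zr F c) (hk : k < T.card)
    (c : Fin 2 → ℂ) (hc : Col a b c) : Zr F c := by
  obtain ⟨φ, h1, h2, -⟩ := exists_line_poly F a (b - a)
  have h0 : φ = 0 := by
    by_contra hne
    choose! t ht using fun c (hc : c ∈ T) => lineR_col a b c hab (hT c hc).1
    have h3 : T.card ≤ φ.roots.toFinset.card := by
      apply Finset.card_le_card_of_injOn t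
      · intro c hc
        rw [Finset.mem_coe, Multiset.mem_toFinset, Polynomial.mem_roots hne,
          Polynomial.IsRoot.def, h2, ← ht c hc]
        exact (hT c hc).2
      · intro c hc c' hc' e
        rw [ht c hc, ht c' hc', e]
    have h4 := Multiset.toFinset_card_le φ.roots
    have h5 := Polynomial.card_roots' φ
    omega
  obtain ⟨t, ht⟩ := lineR_col a b c hab hc
  unfold Zr
  rw [ht, ← h2, h0, Polynomial.eval_zero]

/-- the linear polynomial of the line through `a` and `b` -/
noncomputable def linP (a b : Fin 2 → ℂ) : Poly :=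
  C (b 0 - a 0) * (X 1 - C (a 1)) - C (b 1 - a 1) * (X 0 - C (a 0))

theorem eval_linP (a b c : Fin 2 → ℂ) : eval c (linP a b) = det3c a b c := by
  simp [linP, det3c]

theorem lineR_totalDegree (a b : Fin 2 → ℂ) (hab : a ≠ b) : (linP a b).totalDegree = 1 := by
  apply le_antisymm
  · unfold linP
    refine (totalDegree_sub _ _).trans (max_le ?_ ?_)
    · refine (totalDegree_mul _ _).trans ?_
      rw [totalDegree_C, zero_add]
      refine (totalDegree_sub_C_le _ _).trans ?_
      rw [totalDegree_X]
    · refine (totalDegree_mul _ _).trans ?_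
      rw [totalDegree_C, zero_add]
      refine (totalDegree_sub_C_le _ _).trans ?_
      rw [totalDegree_X]
  · by_contra h
    have h0 : (linP a b).totalDegree = 0 := by omega
    rw [totalDegree_eq_zero_iff_eq_C] at h0
    have e1 := eval_linP a b a
    have e2 : ∀ c, eval c (linP a b) = eval a (linP a b) := by
      intro c
      rw [h0, eval_C, eval_C]
    have e3 : ∀ c, det3c a b c = 0 := by
      intro c
      rw [← eval_linP, e2, e1]
      simp [det3c]
    apply hab
    have f1 := e3 (fun i => if i = 0 then a 0 else a 1 + 1)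
    have f2 := e3 (fun i => if i = 0 then a 0 + 1 else a 1)
    simp [det3c] at f1 f2
    funext i
    fin_cases i
    · exact (sub_eq_zero.1 f1).symm
    · exact sub_eq_zero.1 f2

theorem lineR_irreducible (a b : Fin 2 → ℂ) (hab : a ≠ b) : Irreducible (linP a b) := by
  have h1 := lineR_totalDegree a b hab
  apply irreducible_of_totalDegree_eq_one h1
  intro x hx
  rw [isUnit_iff_ne_zero]
  rintro rfl
  have : linP a b = 0 := by
    ext m
    rw [coeff_zero]
    exact zero_dvd_iff.1 (hx m)
  rw [this, totalDegree_zero] at h1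
  exact absurd h1 (by norm_num)

/-- A polynomial that vanishes on a line is divisible by its linear polynomial.
Proof.  `linP a b` has total degree 1, so it is irreducible and prime (`MvPolynomial ..` is a UFD),
`F` is in the vanishing ideal of its zero set, which is its radical
(`MvPolynomial.vanishingIdeal_zeroLocus_eq_radical`, `Ideal.IsPrime.radical`); the degree by
`MvPolynomial.totalDegree_mul_of_isDomain`.  (Or: an affine change of coordinates such that
`linP a b` becomes `X 1`.) -/
theorem line_dvd (F : Poly) (k : ℕ) (hF : F.totalDegree ≤ k + 1) (a b : Fin 2 → ℂ) (hab : a ≠ b)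
    (h : ∀ c, Col a b c → Zr F c) : ∃ Q : Poly, Q.totalDegree ≤ k ∧ F = linP a b * Q := by
  have hprime : Prime (linP a b) := (lineR_irreducible a b hab).prime
  have hI : (Ideal.span {linP a b}).IsPrime :=
    (Ideal.span_singleton_prime hprime.ne_zero).2 hprime
  have hF' : F ∈ vanishingIdeal ℂ (zeroLocus ℂ (Ideal.span {linP a b})) := by
    intro x hx
    rw [zeroLocus_span] at hx
    have h1 := hx (linP a b) rfl
    rw [aeval_eq_eval] at h1 ⊢
    have h2 : Col a b x := by
      unfold Col
      rw [← eval_linP]
      exact h1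
    exact h x h2
  rw [IsPrime.vanishingIdeal_zeroLocus, Ideal.mem_span_singleton] at hF'
  obtain ⟨Q, hQ⟩ := hF'
  refine ⟨Q, ?_, hQ⟩
  by_cases hQ0 : Q = 0
  · rw [hQ0, totalDegree_zero]
    exact Nat.zero_le _
  · have h1 := totalDegree_mul_of_isDomain hprime.ne_zero hQ0
    rw [← hQ, lineR_totalDegree a b hab] at h1
    omega

end Pool.Agent.Lib.MP_214199_co.Eff
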