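import Pool.Agent.Lib.MP_214199_co.Eff.Bezout
import Pool.Agent.Lib.MP_214199_co.Eff.Base
import Pool.Agent.Lib.MP_214199_co.Eff.LineR

/-!
# Lines and curves
-/

set_option autoImplicit false

namespace Pool.Agent.Lib.MP_214199_co.Eff

open Finset MvPolynomial

/-- Three zeros of a polynomial of degree at most 1 are collinear (and if two different points of a
line are zeros, all points of the line are).
Proof.  `h = α X 0 + β X 1 + γ`, not all zero. -/
theorem lin_col (h : Poly) (h0 : h ≠ 0) (h1 : h.totalDegree ≤ 1) (a b c : Fin 2 → ℂ) (hab : a ≠ b)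
    (ha : Zr h a) (hb : Zr h b) : Zr h c ↔ Col a b c := by
  classical
  have hline : ∀ c, Col a b c → Zr h c := by
    intro c hc
    refine line_zeros h 1 h1 a b hab {a, b} ?_ ?_ c hc
    · intro x hx
      rw [Finset.mem_insert, Finset.mem_singleton] at hx
      rcases hx with rfl | rfl
      · refine ⟨?_, ha⟩
        unfold Col det3c
        ring
      · refine ⟨?_, hb⟩
        unfold Col det3c
        ring
    · rw [Finset.card_pair hab]
      norm_num
  refine ⟨?_, hline c⟩
  intro hc
  obtain ⟨Q, hQ, hf⟩ := line_dvd h 0 (by omega) a b hab hline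
  have hQ0 : Q.totalDegree = 0 := by omega
  rw [totalDegree_eq_zero_iff_eq_C] at hQ0
  have hq : coeff 0 Q ≠ 0 := by
    intro h'
    apply h0
    rw [hf, hQ0, h', C_0, mul_zero]
  unfold Zr at hc
  rw [hf, eval_mul, eval_linP, hQ0, eval_C] at hc
  exact (mul_eq_zero.1 hc).resolve_right hq

/-- Collinearity of real points of `S` and blocks. -/
theorem col_iff_blk {S : Finset Pt} (hS : Gen S) {a b c : Pt} (ha : a ∈ S) (hb : b ∈ S)
    (hc : c ∈ S) (hab : a ≠ b) : Col (cpt a) (cpt b) (cpt c) ↔ c ∈ blk S (vtx a b) := by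
  have hne : b.1 - a.1 ≠ 0 := sub_ne_zero.2 (hS.ne ha hb hab).symm
  have h1 : Col (cpt a) (cpt b) (cpt c) ↔
      (b.1 - a.1) * (c.2 - a.2) - (b.2 - a.2) * (c.1 - a.1) = 0 := by
    unfold Col det3c cpt
    simp only [Matrix.cons_val_zero, Matrix.cons_val_one]
    norm_cast
  rw [h1, mem_blk]
  unfold vtx ht
  simp only [hc, true_and]
  constructor
  · intro h
    field_simp
    linear_combination (-1 : ℝ) * h
  · intro h
    field_simp at h
    linear_combination (-1 : ℝ) * h

theorem cpt_injective : Function.Injective cpt := by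
  intro a b h
  have h0 := congrFun h 0
  have h1 := congrFun h 1
  simp only [cpt, Matrix.cons_val_zero, Matrix.cons_val_one, Complex.ofReal_inj] at h0 h1
  exact Prod.ext h0 h1

open Classical in
/-- A polynomial of degree at most 1 vanishes in at most `K` points of `S`, if all blocks have at
most `K` points, `K ≥ 1` (with two zeros `a ≠ b` in `S` all of them are in `blk S (vtx a b)`). -/
theorem lin_card {S : Finset Pt} (hS : Gen S) (K : ℕ) (hK1 : 1 ≤ K)
    (hK : ∀ v ∈ verts S, (blk S v).card ≤ K) (h : Poly) (h0 : h ≠ 0) (h1 : h.totalDegree ≤ 1) :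
    (S.filter (fun a => Zr h (cpt a))).card ≤ K := by
  rcases Nat.lt_or_ge 1 (S.filter (fun a => Zr h (cpt a))).card with hlt | hle
  · obtain ⟨a, ha, b, hb, hab⟩ := Finset.one_lt_card.1 hlt
    rw [Finset.mem_filter] at ha hb
    refine le_trans (Finset.card_le_card ?_) (hK (vtx a b) (vtx_mem hS ha.1 hb.1 hab).1)
    intro c hc
    rw [Finset.mem_filter] at hc
    rw [← col_iff_blk hS ha.1 hb.1 hc.1 hab]
    exact (lin_col h h0 h1 (cpt a) (cpt b) (cpt c) (fun h' => hab (cpt_injective h'))
      ha.2 hb.2).1 hc.2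
  · exact hle.trans hK1

/-- An irreducible polynomial of degree `m ≥ 2` has at most `m` zeros on a line.
Proof.  Otherwise `f` vanishes on the line (`line_zeros`), so `f = linP a b * Q` (`line_dvd`),
`Q.totalDegree ≤ f.totalDegree - 1`; but `f` is irreducible: `linP a b` (nonzero, it is not a
constant) or `Q` is a unit, i.e. a constant, contradiction to the degree. -/
theorem irr_line (f : Poly) (hf : Irreducible f) (hm : 2 ≤ f.totalDegree)
    (a b : Fin 2 → ℂ) (hab : a ≠ b) (T : Finset (Fin 2 → ℂ)) (hT : ∀ c ∈ T, Zr f c ∧ Col a b c) :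
    T.card ≤ f.totalDegree := by
  by_contra hcon
  have hline : ∀ c, Col a b c → Zr f c := fun c hc =>
    line_zeros f f.totalDegree le_rfl a b hab T (fun c hc => ⟨(hT c hc).2, (hT c hc).1⟩)
      (by omega) c hc
  obtain ⟨Q, hQ, hfQ⟩ := line_dvd f (f.totalDegree - 1) (by omega) a b hab hline
  rcases hf.isUnit_or_isUnit hfQ with h | h
  · exact (lineR_irreducible a b hab).not_isUnit h
  · have hd : Q.totalDegree = 0 := by
      rw [isUnit_iff_eq_C_of_isReduced] at h
      obtain ⟨r, -, rfl⟩ := h
      exact totalDegree_C r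
    have h2 : f.totalDegree ≤ (linP a b).totalDegree + Q.totalDegree := by
      conv_lhs => rw [hfQ]
      exact totalDegree_mul _ _
    rw [lineR_totalDegree a b hab, hd] at h2
    omega

open Classical in
/-- The version of `irr_line` for blocks. -/
theorem irr_blk {S : Finset Pt} (hS : Gen S) (f : Poly) (hf : Irreducible f)
    (hm : 2 ≤ f.totalDegree) (v : Pt) :
    ((blk S v).filter (fun a => Zr f (cpt a))).card ≤ f.totalDegree := by
  rcases Nat.lt_or_ge 1 ((blk S v).filter (fun a => Zr f (cpt a))).card with hlt | hle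
  · obtain ⟨a, ha, b, hb, hab⟩ := Finset.one_lt_card.1 hlt
    rw [Finset.mem_filter] at ha hb
    have haS := blk_subset v ha.1
    have hbS := blk_subset v hb.1
    obtain ⟨-, hu1, hu2⟩ := vtx_mem hS haS hbS hab
    have hv : v = vtx a b := vert_unique hS hab ha.1 hb.1 hu1 hu2
    rw [← Finset.card_image_of_injective _ cpt_injective]
    refine irr_line f hf hm (cpt a) (cpt b) (fun h' => hab (cpt_injective h')) _ ?_
    intro c hc
    rw [Finset.mem_image] at hc
    obtain ⟨c, hc, rfl⟩ := hc
    rw [Finset.mem_filter] at hc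
    refine ⟨hc.2, ?_⟩
    rw [col_iff_blk hS haS hbS (blk_subset v hc.1) hab, ← hv]
    exact hc.1
  · omega

end Pool.Agent.Lib.MP_214199_co.Eff
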