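import Pool.Agent.Lib.MP_214199_co.Eff.Ord
import Pool.Agent.Lib.MP_214199_co.Eff.Types

/-!
# The rows of the addition table
-/

set_option autoImplicit false

namespace Pool.Agent.Lib.MP_214199_co.Eff

open Finset

open Classical in
/-- the points of `S` that are nonsingular zeros of `f` -/
noncomputable def nsS (S : Finset Pt) (f : Poly) : Finset Pt := S.filter (fun a => NS f (cpt a))

open Classical in
/-- Proof.  Let `b ∈ nsS S f` with `-(θ a + θ b) ∉ θ (nsS S f)`, `b ≠ a` (one exception).  If the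
block of `a`, `b` has exactly two points it is counted in `ord S a`, and `b` is determined by the
block.  Otherwise it contains a third point `c ∈ S`; if `c ∈ nsS S f` then `-(θ a + θ b) = θ c` by
`col` (`col_iff_blk`), excluded; so `c ∈ S ∖ nsS S f`, and `b` is determined by `c`: if `b' ≠ b` is
another such point with the same `c`, then `b'` is in the same block (`vert_unique`), so
`-(θ a + θ b) = θ b'` by `col`, excluded. -/
theorem row_bound {S : Finset Pt} (hS : Gen S) (f : Poly) {G : Type} [AddCommGroup G]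
    (θ : (Fin 2 → ℂ) → G) (hθ : CubicGroup f G θ) (a : Pt) (ha : a ∈ nsS S f) :
    ((nsS S f).filter (fun b => ∀ c ∈ nsS S f, -(θ (cpt a) + θ (cpt b)) ≠ θ (cpt c))).card ≤
      1 + ord S a + (S \ nsS S f).card := by
  classical
  have haS : a ∈ S := (Finset.mem_filter.1 ha).1
  have haN : NS f (cpt a) := (Finset.mem_filter.1 ha).2
  set B := (nsS S f).filter (fun b => ∀ c ∈ nsS S f, -(θ (cpt a) + θ (cpt b)) ≠ θ (cpt c))
    with hB
  -- the key fact
  have key : ∀ b ∈ B, b ≠ a → ∀ c ∈ S, c ≠ a → c ≠ b → c ∈ blk S (vtx a b) → c ∉ nsS S f := by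
    intro b hb hba c hcS hca hcb hc hcN
    have hbN := (Finset.mem_filter.1 hb).1
    have hbS : b ∈ S := (Finset.mem_filter.1 hbN).1
    have hbNS : NS f (cpt b) := (Finset.mem_filter.1 hbN).2
    have hcNS : NS f (cpt c) := (Finset.mem_filter.1 hcN).2
    have hcol : Col (cpt a) (cpt b) (cpt c) := (col_iff_blk hS haS hbS hcS hba.symm).2 hc
    have h1 := (hθ.col (cpt a) (cpt b) (cpt c) haN hbNS hcNS
      (fun h => hba.symm (cpt_injective h)) (fun h => hca.symm (cpt_injective h))
      (fun h => hcb.symm (cpt_injective h))).1 hcol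
    exact (Finset.mem_filter.1 hb).2 c hcN (neg_eq_of_add_eq_zero_right h1)
  have hBS : ∀ b ∈ B, b ∈ S := fun b hb =>
    (Finset.mem_filter.1 (Finset.mem_filter.1 hb).1).1
  have hBN : ∀ b ∈ B, b ∈ nsS S f := fun b hb => (Finset.mem_filter.1 hb).1
  set B2 := (B.erase a).filter (fun b => (blk S (vtx a b)).card = 2) with hB2
  set B3 := (B.erase a).filter (fun b => ¬ (blk S (vtx a b)).card = 2) with hB3
  have hsum : B2.card + B3.card = (B.erase a).card :=
    Finset.card_filter_add_card_filter_not (s := B.erase a)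
      (fun b => (blk S (vtx a b)).card = 2)
  have herase : B.card ≤ (B.erase a).card + 1 := by
    have := Finset.pred_card_le_card_erase (s := B) (a := a)
    omega
  have h2 : B2.card ≤ ord S a := by
    unfold ord
    apply Finset.card_le_card_of_injOn (fun b => vtx a b)
    · intro b hb
      have hb' := Finset.mem_filter.1 (Finset.mem_coe.1 hb)
      have hbe := Finset.mem_erase.1 hb'.1
      obtain ⟨h0, h1, -⟩ := vtx_mem hS haS (hBS b hbe.2) hbe.1.symm
      exact Finset.mem_coe.2 (Finset.mem_filter.2 ⟨h0, hb'.2, h1⟩)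
    · intro b hb b' hb' hv
      have hv' : vtx a b = vtx a b' := hv
      have hb1 := Finset.mem_filter.1 (Finset.mem_coe.1 hb)
      have hbe := Finset.mem_erase.1 hb1.1
      have hb1' := Finset.mem_filter.1 (Finset.mem_coe.1 hb')
      have hbe' := Finset.mem_erase.1 hb1'.1
      obtain ⟨-, h1, h2⟩ := vtx_mem hS haS (hBS b hbe.2) hbe.1.symm
      obtain ⟨-, -, h3⟩ := vtx_mem hS haS (hBS b' hbe'.2) hbe'.1.symm
      rw [← hv'] at h3
      by_contra hne
      have hsub : ({a, b, b'} : Finset Pt) ⊆ blk S (vtx a b) := by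
        intro x hx
        simp only [Finset.mem_insert, Finset.mem_singleton] at hx
        rcases hx with rfl | rfl | rfl
        · exact h1
        · exact h2
        · exact h3
      have hc3 : ({a, b, b'} : Finset Pt).card = 3 :=
        Finset.card_eq_three.2 ⟨a, b, b', hbe.1.symm, hbe'.1.symm, hne, rfl⟩
      have := Finset.card_le_card hsub
      omega
  have h3 : B3.card ≤ (S \ nsS S f).card := by
    have hex : ∀ b : B3, ∃ c, c ∈ blk S (vtx a b.1) ∧ c ≠ a ∧ c ≠ b.1 := by
      intro b
      have hb' := Finset.mem_filter.1 b.2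
      have hbe := Finset.mem_erase.1 hb'.1
      obtain ⟨h0, h1, h2⟩ := vtx_mem hS haS (hBS b.1 hbe.2) hbe.1.symm
      have hge := (mem_verts hS).1 h0
      have h3 : ({a, b.1} : Finset Pt).card < (blk S (vtx a b.1)).card := by
        have : ({a, b.1} : Finset Pt).card = 2 := Finset.card_pair hbe.1.symm
        have := hb'.2
        omega
      obtain ⟨c, hc, hc'⟩ := Finset.exists_mem_notMem_of_card_lt_card h3
      simp only [Finset.mem_insert, Finset.mem_singleton, not_or] at hc'
      exact ⟨c, hc, hc'.1, hc'.2⟩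
    choose c hc hca hcb using hex
    rw [← Fintype.card_coe B3, ← Fintype.card_coe (S \ nsS S f)]
    have hcS : ∀ b : B3, c b ∈ S := fun b => blk_subset _ (hc b)
    have hcT : ∀ b : B3, c b ∈ S \ nsS S f := by
      intro b
      have hb' := Finset.mem_filter.1 b.2
      have hbe := Finset.mem_erase.1 hb'.1
      exact Finset.mem_sdiff.2 ⟨hcS b, key b.1 hbe.2 hbe.1 (c b) (hcS b) (hca b) (hcb b) (hc b)⟩
    apply Fintype.card_le_of_injective (fun b : B3 => (⟨c b, hcT b⟩ : (S \ nsS S f : Finset Pt)))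
    intro b b' hbb
    have hcc : c b = c b' := congrArg Subtype.val hbb
    by_contra hne
    have hne' : b.1 ≠ b'.1 := fun h => hne (Subtype.ext h)
    have hb' := Finset.mem_filter.1 b.2
    have hbe := Finset.mem_erase.1 hb'.1
    have hb2 := Finset.mem_filter.1 b'.2
    have hbe2 := Finset.mem_erase.1 hb2.1
    obtain ⟨-, h1, h2⟩ := vtx_mem hS haS (hBS b.1 hbe.2) hbe.1.symm
    obtain ⟨-, h3, h4⟩ := vtx_mem hS haS (hBS b'.1 hbe2.2) hbe2.1.symm
    have hc' := hc b'
    rw [← hcc] at hc'
    have hv : vtx a b.1 = vtx a b'.1 := vert_unique hS (hca b) (hc b) h1 hc' h3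
    rw [← hv] at h4
    exact key b.1 hbe.2 hbe.1 b'.1 (hBS b'.1 hbe2.2) hbe2.1 hne'.symm h4 (hBN b'.1 hbe2.2)
  omega

end Pool.Agent.Lib.MP_214199_co.Eff
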