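import Pool.Agent.Lib.MP_214199_co.Eff.Types

/-!
# Singular points of an irreducible cubic
-/

set_option autoImplicit false

namespace Pool.Agent.Lib.MP_214199_co.Eff

open Finset MvPolynomial

private theorem sing_dr {f : Poly} {c : Fin 2 → ℂ} (hc : Zr f c) (hc' : ¬ NS f c)
    (w : Fin 2 → ℂ) : dr f c w = 0 := by
  unfold NS at hc'
  have h : eval c (pderiv 0 f) = 0 ∧ eval c (pderiv 1 f) = 0 := by
    by_contra h
    apply hc'
    refine ⟨hc, ?_⟩
    by_contra h2
    push Not at h2
    exact h h2
  unfold dr
  rw [h.1, h.2]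
  ring

private theorem sing_coeff (q : Polynomial ℂ) (hq : q.natDegree ≤ 3) :
    (∀ t, q.eval t = q.coeff 0 + q.coeff 1 * t + q.coeff 2 * t ^ 2 + q.coeff 3 * t ^ 3) ∧
      ∀ t, q.derivative.eval t = q.coeff 1 + 2 * q.coeff 2 * t + 3 * q.coeff 3 * t ^ 2 := by
  constructor
  · intro t
    rw [Polynomial.eval_eq_sum_range' (show q.natDegree < 4 by omega)]
    simp only [Finset.sum_range_succ, Finset.sum_range_zero]
    ring
  · intro t
    have h := Polynomial.natDegree_derivative_le q
    rw [Polynomial.eval_eq_sum_range' (show q.derivative.natDegree < 3 by omega)]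
    simp only [Finset.sum_range_succ, Finset.sum_range_zero, Polynomial.coeff_derivative]
    push_cast
    ring

private theorem sing_line_false (f : Poly) (hf : Irreducible f) (h3 : f.totalDegree = 3)
    (a c : Fin 2 → ℂ) (hac : a ≠ c) (h : ∀ t : ℂ, Zr f (c + t • (a - c))) : False := by
  classical
  have hinj : Function.Injective (fun n : ℕ => c + (n : ℂ) • (a - c)) := by
    intro n m hnm
    have h1 : (n : ℂ) • (a - c) = (m : ℂ) • (a - c) := add_left_cancel hnm
    have h2 : ((n : ℂ) - m) • (a - c) = 0 := by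
      rw [sub_smul, h1, sub_self]
    rcases smul_eq_zero.1 h2 with h4 | h4
    · exact Nat.cast_injective (sub_eq_zero.1 h4)
    · exact absurd (sub_eq_zero.1 h4) hac
  have h1 := irr_line f hf (by omega) c a hac.symm
    ((Finset.range 4).image (fun n : ℕ => c + (n : ℂ) • (a - c))) (by
      intro x hx
      obtain ⟨n, -, rfl⟩ := Finset.mem_image.1 hx
      refine ⟨h n, ?_⟩
      unfold Col det3c
      simp only [Pi.add_apply, Pi.smul_apply, Pi.sub_apply, smul_eq_mul]
      ring)
  rw [Finset.card_image_of_injective _ hinj, Finset.card_range] at h1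
  omega

/-- An irreducible cubic has at most one singular zero.
Proof.  Suppose `a ≠ c`.  Let `q(t) = f(c + t (a - c))`, a polynomial in `t` of degree `≤ 3`
(`exists_line_poly`).
`q(0) = q'(0) = q(1) = q'(1) = 0` (the derivative is `dr f (..) (a - c)`), so `t^2 (t-1)^2 ∣ q`,
`q = 0`.  So `f` vanishes on the line `a c`, which contradicts `irr_line` (take 4 points). -/
theorem sing_unique (f : Poly) (hf : Irreducible f) (h3 : f.totalDegree = 3) (a c : Fin 2 → ℂ)
    (ha : Zr f a) (hc : Zr f c) (ha' : ¬ NS f a) (hc' : ¬ NS f c) : a = c := by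
  by_contra hac
  obtain ⟨q, h1, h2, h4⟩ := exists_line_poly f c (a - c)
  obtain ⟨h5, h6⟩ := sing_coeff q (by omega)
  have e0 : c + (0 : ℂ) • (a - c) = c := by rw [zero_smul, add_zero]
  have e1 : c + (1 : ℂ) • (a - c) = a := by rw [one_smul]; abel
  have f0 : q.coeff 0 = 0 := by
    have := h2 0
    rw [h5, e0, show eval c f = 0 from hc] at this
    linear_combination this
  have f1 : q.coeff 1 = 0 := by
    have := h4 0
    rw [h6, e0, sing_dr hc hc'] at this
    linear_combination this
  have f2 : q.coeff 2 + q.coeff 3 = 0 := by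
    have := h2 1
    rw [h5, e1, show eval a f = 0 from ha] at this
    linear_combination this - f0 - f1
  have f3 : 2 * q.coeff 2 + 3 * q.coeff 3 = 0 := by
    have := h4 1
    rw [h6, e1, sing_dr ha ha'] at this
    linear_combination this - f1
  have f4 : q.coeff 3 = 0 := by linear_combination f3 - 2 * f2
  have f5 : q.coeff 2 = 0 := by linear_combination f2 - f4
  apply sing_line_false f hf h3 a c hac
  intro t
  unfold Zr
  rw [← h2, h5, f0, f1, f4, f5]
  ring

/-- A line through a singular zero `c` contains at most one other zero.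
Proof.  As before; `q(t) = f(c + t (a - c))` has a double zero in `0`, and the zeros `1` and `t_b`,
where `b = c + t_b (a - c)`, `t_b ≠ 0, 1`.  So `q = 0`. -/
theorem sing_line (f : Poly) (hf : Irreducible f) (h3 : f.totalDegree = 3) (a b c : Fin 2 → ℂ)
    (ha : Zr f a) (hb : Zr f b) (hc : Zr f c) (hc' : ¬ NS f c) (hac : a ≠ c) (hbc : b ≠ c)
    (hab : a ≠ b) (hcol : Col c a b) : False := by
  obtain ⟨s, hs⟩ := lineR_col c a b hac.symm hcol
  have hs0 : s ≠ 0 := by
    rintro rfl
    rw [zero_smul, add_zero] at hs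
    exact hbc hs
  have hs1 : s ≠ 1 := by
    rintro rfl
    apply hab
    rw [hs, one_smul]
    abel
  obtain ⟨q, h1, h2, h4⟩ := exists_line_poly f c (a - c)
  obtain ⟨h5, h6⟩ := sing_coeff q (by omega)
  have e0 : c + (0 : ℂ) • (a - c) = c := by rw [zero_smul, add_zero]
  have e1 : c + (1 : ℂ) • (a - c) = a := by rw [one_smul]; abel
  have f0 : q.coeff 0 = 0 := by
    have := h2 0
    rw [h5, e0, show eval c f = 0 from hc] at this
    linear_combination this
  have f1 : q.coeff 1 = 0 := by
    have := h4 0
    rw [h6, e0, sing_dr hc hc'] at this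
    linear_combination this
  have f2 : q.coeff 2 + q.coeff 3 = 0 := by
    have := h2 1
    rw [h5, e1, show eval a f = 0 from ha] at this
    linear_combination this - f0 - f1
  have f3 : q.coeff 2 + q.coeff 3 * s = 0 := by
    have := h2 s
    rw [h5, ← hs, show eval b f = 0 from hb, f0, f1] at this
    have h7 : s ^ 2 * (q.coeff 2 + q.coeff 3 * s) = 0 := by linear_combination this
    exact (mul_eq_zero.1 h7).resolve_left (pow_ne_zero 2 hs0)
  have f4 : q.coeff 3 = 0 := by
    have h7 : (s - 1) * q.coeff 3 = 0 := by linear_combination f3 - f2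
    exact (mul_eq_zero.1 h7).resolve_left (sub_ne_zero.2 hs1)
  have f5 : q.coeff 2 = 0 := by linear_combination f2 - f4
  apply sing_line_false f hf h3 a c hac
  intro t
  unfold Zr
  rw [← h2, h5, f0, f1, f4, f5]
  ring

end Pool.Agent.Lib.MP_214199_co.Eff
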