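import Pool.Agent.Lib.MP_214199_co.Eff.Row
import Pool.Agent.Lib.MP_214199_co.Eff.Sing
import Pool.Agent.Lib.MP_214199_co.Eff.RowBound

/-!
# Almost all points of `S` are in one coset
-/

set_option autoImplicit false

namespace Pool.Agent.Lib.MP_214199_co.Eff

open Finset

open Classical in
/-- The points of `S` on the cubic curve `f = 0` that belong to the coset `x + H`. -/
noncomputable def core (S : Finset Pt) (f : Poly) {G : Type} [AddCommGroup G]
    (θ : (Fin 2 → ℂ) → G) (H : AddSubgroup G) (x : G) : Finset Pt :=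
  S.filter (fun a => NS f (cpt a) ∧ θ (cpt a) - x ∈ H)

theorem mem_core {S : Finset Pt} {f : Poly} {G : Type} [AddCommGroup G]
    {θ : (Fin 2 → ℂ) → G} {H : AddSubgroup G} {x : G} {a : Pt} :
    a ∈ core S f θ H x ↔ a ∈ S ∧ NS f (cpt a) ∧ θ (cpt a) - x ∈ H := by
  classical
  unfold core
  rw [Finset.mem_filter]

theorem coset_num {n z k : ℤ} (hn : 50000000 ≤ n) (hz0 : 0 ≤ z) (hz : 20 * z ≤ 3 * n + 20)
    (hk : 1000 * k ≤ n) :
    1000 * ((n - z) * (n - z)) ≤ 1320 * n * (n - z - 2 * (k + 1 + z)) := by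
  nlinarith [mul_nonneg (sub_nonneg.2 hz) hz0, mul_nonneg (sub_nonneg.2 hz) (by linarith : 0 ≤ n),
    mul_nonneg (sub_nonneg.2 hk) (by linarith : 0 ≤ n), mul_nonneg (sub_nonneg.2 hn)
    (by linarith : 0 ≤ n)]

/-- `a ↦ θ (cpt a) - x` is injective on the core (`CubicGroup.inj`, `cpt_injective`). -/
theorem core_card_le {S : Finset Pt} {f : Poly} {G : Type} [AddCommGroup G]
    {θ : (Fin 2 → ℂ) → G} (hθ : CubicGroup f G θ) (H : AddSubgroup G) (x : G)
    (hH : (H : Set G).Finite) : (core S f θ H x).card ≤ Nat.card H := by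
  classical
  have hfin : Finite H := hH
  have : Fintype H := Fintype.ofFinite _
  rw [Nat.card_eq_fintype_card, ← Finset.card_univ]
  refine Finset.card_le_card_of_injOn
    (fun a => if h : θ (cpt a) - x ∈ H then (⟨θ (cpt a) - x, h⟩ : H) else 0) ?_ ?_
  · intro a _
    exact Finset.mem_coe.2 (Finset.mem_univ _)
  · intro a ha b hb hab
    have ha' := mem_core.1 (Finset.mem_coe.1 ha)
    have hb' := mem_core.1 (Finset.mem_coe.1 hb)
    dsimp only at hab
    rw [dif_pos ha'.2.2, dif_pos hb'.2.2] at hab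
    have h1 : θ (cpt a) - x = θ (cpt b) - x := congrArg Subtype.val hab
    have h2 : θ (cpt a) = θ (cpt b) := sub_left_injective h1
    exact cpt_injective (hθ.inj _ _ ha'.2.1 hb'.2.1 h2)

open Classical in
open Classical in
/-- The coset.
Proof.  `n = |S|`, `A0 = nsS S f`, `z = |S ∖ A0|`, `off = #{a ∈ S | f(a) ≠ 0}`.  At most one point of
`S` is a singular zero (`sing_unique`), so `z ≤ off + 1 ≤ 3 n / 20 + 1`.  At most `2000` points of `S`
have `ord S a > k := n / 1000` (rounded down; `ord_many`: their number times `n / 1000` is at most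
`2 dfc S ≤ 2 n`).  Let `A = θ(cpt A0) ⊆ G`, `|A| = |A0| = n - z` (`inj`), `B` = the image of the
`a ∈ A0` with `ord S a ≤ k`; `|A ∖ B| ≤ 2000 =: r`.  By `row_bound` the rows of `B` have at most
`s = k + 1 + z` exceptions.  `row_lemma`: `4 s + 2 r < |A|`, since
`4 s + 2 r ≤ 0.604 n + 4008 < 0.85 n - 1 ≤ |A|`.  All points of `A0` with `ord S a ≤ k` are in the
core, so `n - |core| ≤ z + 2000 ≤ 0.15 n + 2001 ≤ 0.151 n`.
Finally `N (|A| - 2 s) ≤ |A|^2` with `|A| = n - z`, `2 s ≤ 0.002 n + 2 + 2 z`: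
`1000 |A|^2 ≤ 1320 n (|A| - 2 s)` because for `z = u n`
`(1-u)^2 - 1.32 (0.998 - 3 u) = u^2 + 1.96 u - 0.31736 ≤ - 0.0008` for `u ≤ 0.15` (up to
`O(1/n)`; `nlinarith`). -/
theorem exists_coset {S : Finset Pt} (hS : Gen S) (hn : 5 * 10 ^ 7 ≤ S.card)
    (hD : dfc S ≤ S.card) (f : Poly) (hf : Irreducible f) (h3 : f.totalDegree = 3)
    (hoff : 20 * (S.filter (fun a => ¬ Zr f (cpt a))).card ≤ 3 * S.card)
    {G : Type} [AddCommGroup G] (θ : (Fin 2 → ℂ) → G) (hθ : CubicGroup f G θ) :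
    ∃ (H : AddSubgroup G) (x : G), (H : Set G).Finite ∧ x + x + x ∈ H ∧
      1000 * (S.card - (core S f θ H x).card) ≤ 151 * S.card ∧
      1000 * Nat.card H ≤ 1320 * S.card := by
  classical
  set n := S.card with hndef
  set A0 := nsS S f with hA0
  have hmemA0 : ∀ a, a ∈ A0 ↔ a ∈ S ∧ NS f (cpt a) := by
    intro a
    rw [hA0]
    unfold nsS
    rw [Finset.mem_filter]
  have hA0S : A0 ⊆ S := fun a ha => ((hmemA0 a).1 ha).1
  set z := (S \ A0).card with hzdef
  have hzn : A0.card + z = n := by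
    rw [hzdef, Finset.card_sdiff_of_subset hA0S]
    have := Finset.card_le_card hA0S
    omega
  -- z ≤ off + 1
  have hz : 20 * z ≤ 3 * n + 20 := by
    have h1 : S \ A0 ⊆ (S.filter (fun a => ¬ Zr f (cpt a))) ∪
        (S.filter (fun a => Zr f (cpt a) ∧ ¬ NS f (cpt a))) := by
      intro a ha
      rw [Finset.mem_sdiff, hmemA0] at ha
      rw [Finset.mem_union, Finset.mem_filter, Finset.mem_filter]
      by_cases h : Zr f (cpt a)
      · exact Or.inr ⟨ha.1, h, fun h' => ha.2 ⟨ha.1, h'⟩⟩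
      · exact Or.inl ⟨ha.1, h⟩
    have h2 : (S.filter (fun a => Zr f (cpt a) ∧ ¬ NS f (cpt a))).card ≤ 1 := by
      rw [Finset.card_le_one]
      intro a ha b hb
      rw [Finset.mem_filter] at ha hb
      exact cpt_injective (sing_unique f hf h3 _ _ ha.2.1 hb.2.1 ha.2.2 hb.2.2)
    have h4 := (Finset.card_le_card h1).trans (Finset.card_union_le _ _)
    omega
  set k := n / 1000 with hkdef
  have hk1 : 1000 * k ≤ n := by omega
  have hk2 : n < 1000 * (k + 1) := by omega
  -- few points with many ordinary lines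
  have hmany : (S.filter (fun a => k < ord S a)).card ≤ 2000 := by
    have h1 := ord_many S k
    by_contra hcon
    rw [not_le] at hcon
    have h2 : 2001 * (k + 1) ≤ 2 * dfc S := (Nat.mul_le_mul_right _ hcon).trans h1
    omega
  have hinj : Set.InjOn (fun a => θ (cpt a)) (A0 : Set Pt) := by
    intro a ha b hb hab
    exact cpt_injective (hθ.inj _ _ ((hmemA0 a).1 ha).2 ((hmemA0 b).1 hb).2 hab)
  set A : Finset G := A0.image (fun a => θ (cpt a)) with hA
  have hAcard : A.card = A0.card := Finset.card_image_of_injOn hinj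
  set B0 := A0.filter (fun a => ord S a ≤ k) with hB0
  set B : Finset G := B0.image (fun a => θ (cpt a)) with hB
  have hBA : B ⊆ A := Finset.image_subset_image (Finset.filter_subset _ _)
  have hAB : (A \ B).card ≤ 2000 := by
    refine le_trans ?_ hmany
    have h1 : A \ B ⊆ (S.filter (fun a => k < ord S a)).image (fun a => θ (cpt a)) := by
      intro g hg
      rw [Finset.mem_sdiff] at hg
      obtain ⟨a, ha, rfl⟩ := Finset.mem_image.1 hg.1
      refine Finset.mem_image.2 ⟨a, Finset.mem_filter.2 ⟨hA0S ha, ?_⟩, rfl⟩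
      by_contra hcon
      exact hg.2 (Finset.mem_image.2 ⟨a, Finset.mem_filter.2 ⟨ha, not_lt.1 hcon⟩, rfl⟩)
    exact (Finset.card_le_card h1).trans Finset.card_image_le
  have hrow : ∀ g ∈ B, (A.filter (fun b => -(g + b) ∉ A)).card ≤ k + 1 + z := by
    intro g hg
    obtain ⟨a, ha, rfl⟩ := Finset.mem_image.1 hg
    rw [hB0, Finset.mem_filter] at ha
    have h1 : (A0.filter (fun b => ∀ c ∈ A0, -(θ (cpt a) + θ (cpt b)) ≠ θ (cpt c))).card ≤
        1 + ord S a + z := row_bound hS f θ hθ a ha.1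
    have h2 : A.filter (fun b => -(θ (cpt a) + b) ∉ A) ⊆
        (A0.filter (fun b => ∀ c ∈ A0, -(θ (cpt a) + θ (cpt b)) ≠ θ (cpt c))).image
          (fun a => θ (cpt a)) := by
      intro g hg
      rw [Finset.mem_filter] at hg
      obtain ⟨b, hb, rfl⟩ := Finset.mem_image.1 hg.1
      refine Finset.mem_image.2 ⟨b, Finset.mem_filter.2 ⟨hb, fun c hc hcon => ?_⟩, rfl⟩
      exact hg.2 (Finset.mem_image.2 ⟨c, hc, hcon.symm⟩)
    have h5 := (Finset.card_le_card h2).trans (Finset.card_image_le.trans h1)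
    have h6 := ha.2
    omega
  have hcond : 4 * (k + 1 + z) + 2 * 2000 < A.card := by
    rw [hAcard]
    omega
  obtain ⟨H, x, hHfin, hHB, hx, hHcard⟩ := row_lemma A B hBA (k + 1 + z) 2000 hAB hrow hcond
  refine ⟨H, x, hHfin, hx, ?_, ?_⟩
  · have h1 : S \ core S f θ H x ⊆ (S \ A0) ∪ (S.filter (fun a => k < ord S a)) := by
      intro a ha
      rw [Finset.mem_sdiff, mem_core] at ha
      rw [Finset.mem_union, Finset.mem_sdiff, Finset.mem_filter, hmemA0]
      by_cases h : NS f (cpt a)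
      · refine Or.inr ⟨ha.1, ?_⟩
        by_contra hcon
        refine ha.2 ⟨ha.1, h, hHB _ (Finset.mem_image.2 ⟨a, Finset.mem_filter.2
          ⟨(hmemA0 a).2 ⟨ha.1, h⟩, not_lt.1 hcon⟩, rfl⟩)⟩
      · exact Or.inl ⟨ha.1, fun h' => h h'.2⟩
    have h2 := (Finset.card_le_card h1).trans (Finset.card_union_le _ _)
    have hcS : core S f θ H x ⊆ S := fun a ha => (mem_core.1 ha).1
    rw [Finset.card_sdiff_of_subset hcS] at h2
    omega
  · have h1 : (n : ℤ) - z = A0.card := by omega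
    have h2 : ((A.card - 2 * (k + 1 + z) : ℕ) : ℤ) = (n : ℤ) - z - 2 * ((k : ℤ) + 1 + z) := by
      rw [hAcard] at hcond ⊢
      push_cast [Nat.cast_sub (show 2 * (k + 1 + z) ≤ A0.card by omega)]
      rw [h1]
    have h4 := coset_num (n := (n : ℤ)) (z := (z : ℤ)) (k := (k : ℤ)) (by exact_mod_cast hn)
      (by positivity) (by exact_mod_cast hz) (by exact_mod_cast hk1)
    have h5 : (Nat.card H : ℤ) * ((A.card - 2 * (k + 1 + z) : ℕ) : ℤ) ≤
        (A.card : ℤ) * (A.card : ℤ) := by exact_mod_cast hHcard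
    rw [h2, hAcard, ← h1] at h5
    have hpos : 0 < (n : ℤ) - z - 2 * ((k : ℤ) + 1 + z) := by
      rw [hAcard] at hcond
      omega
    have h6 : (1000 * (Nat.card H : ℤ)) * ((n : ℤ) - z - 2 * ((k : ℤ) + 1 + z)) ≤
        (1320 * (n : ℤ)) * ((n : ℤ) - z - 2 * ((k : ℤ) + 1 + z)) := by
      calc (1000 * (Nat.card H : ℤ)) * ((n : ℤ) - z - 2 * ((k : ℤ) + 1 + z)) =
          1000 * ((Nat.card H : ℤ) * ((n : ℤ) - z - 2 * ((k : ℤ) + 1 + z))) := by ring
        _ ≤ 1000 * (((n : ℤ) - z) * ((n : ℤ) - z)) := by linarith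
        _ ≤ _ := h4
    have h7 := le_of_mul_le_mul_right h6 hpos
    exact_mod_cast h7

end Pool.Agent.Lib.MP_214199_co.Eff
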