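import Mathlib

/-!
# A counting lemma
-/

set_option autoImplicit false

namespace Pool.Agent.Lib.MP_214199_co.Eff

open Finset

/-- Proof.  Let `M₁ = N₁.image Φ`, `M₂ = N₂.image Φ ⊆ M`: `|M₁ ∩ M₂| ≥ |N₁| + |N₂| - |M|`.  The sets
`I = M₁ ∩ M₂`, `φ(I)`, `φ(φ(I))` are subsets of `T` of the same size and pairwise disjoint: `I ⊆ M`,
the other two have no element in `M`; `φ e = φ (φ e')` would give `e = φ e'`, but `e ∈ M` and
`φ e' ∉ M`. -/
theorem count_abs {X : Type*} [DecidableEq X] (M N₁ N₂ T : Finset X) (Φ φ : X → X)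
    (hφ : Function.Injective φ) (h₁ : Set.InjOn Φ (N₁ : Set X)) (h₂ : Set.InjOn Φ (N₂ : Set X))
    (hM₁ : ∀ d ∈ N₁, Φ d ∈ M) (hM₂ : ∀ d ∈ N₂, Φ d ∈ M)
    (hT : ∀ d ∈ N₁, ∀ d' ∈ N₂, Φ d = Φ d' → Φ d ∈ T ∧ φ (Φ d) ∈ T ∧ φ (φ (Φ d)) ∈ T ∧
      φ (Φ d) ∉ M ∧ φ (φ (Φ d)) ∉ M) :
    3 * (N₁.card + N₂.card) ≤ T.card + 3 * M.card := by
  have hc1 : (N₁.image Φ).card = N₁.card := Finset.card_image_of_injOn h₁
  have hc2 : (N₂.image Φ).card = N₂.card := Finset.card_image_of_injOn h₂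
  have hs1 : N₁.image Φ ⊆ M := Finset.image_subset_iff.2 hM₁
  have hs2 : N₂.image Φ ⊆ M := Finset.image_subset_iff.2 hM₂
  have hu := Finset.card_union_add_card_inter (N₁.image Φ) (N₂.image Φ)
  have hu2 := Finset.card_le_card (Finset.union_subset hs1 hs2)
  set I := N₁.image Φ ∩ N₂.image Φ with hI
  have hIp : ∀ e ∈ I, e ∈ M ∧ e ∈ T ∧ φ e ∈ T ∧ φ (φ e) ∈ T ∧ φ e ∉ M ∧ φ (φ e) ∉ M := by
    intro e he
    rw [hI, Finset.mem_inter, Finset.mem_image, Finset.mem_image] at he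
    obtain ⟨⟨d, hd, rfl⟩, ⟨d', hd', he'⟩⟩ := he
    exact ⟨hM₁ d hd, hT d hd d' hd' he'.symm⟩
  have hd1 : Disjoint I (I.image φ) := by
    rw [Finset.disjoint_left]
    intro e he he'
    obtain ⟨e', h', rfl⟩ := Finset.mem_image.1 he'
    exact (hIp e' h').2.2.2.2.1 (hIp _ he).1
  have hd2 : Disjoint (I ∪ I.image φ) (I.image (fun e => φ (φ e))) := by
    rw [Finset.disjoint_left]
    intro e he he'
    obtain ⟨e', h', rfl⟩ := Finset.mem_image.1 he'
    rcases Finset.mem_union.1 he with h | h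
    · exact (hIp e' h').2.2.2.2.2 (hIp _ h).1
    · obtain ⟨e'', h'', heq⟩ := Finset.mem_image.1 h
      have := hφ heq
      rw [this] at h''
      exact (hIp e' h').2.2.2.2.1 (hIp _ h'').1
  have hsub : (I ∪ I.image φ) ∪ I.image (fun e => φ (φ e)) ⊆ T := by
    intro e he
    rcases Finset.mem_union.1 he with h | h
    · rcases Finset.mem_union.1 h with h | h
      · exact (hIp e h).2.1
      · obtain ⟨e', h', rfl⟩ := Finset.mem_image.1 h
        exact (hIp e' h').2.2.1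
    · obtain ⟨e', h', rfl⟩ := Finset.mem_image.1 h
      exact (hIp e' h').2.2.2.1
  have h3 := Finset.card_le_card hsub
  rw [Finset.card_union_of_disjoint hd2, Finset.card_union_of_disjoint hd1,
    Finset.card_image_of_injective _ hφ,
    Finset.card_image_of_injective _ (fun a b h => hφ (hφ h))] at h3
  omega

end Pool.Agent.Lib.MP_214199_co.Eff
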