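import Pool.Agent.Lib.MP_214199_co.Eff.PhiMap
import Pool.Agent.Lib.MP_214199_co.Eff.CaseC
import Pool.Agent.Lib.MP_214199_co.Eff.CountAbs

/-!
# The number of darts that are not in triangles
-/

set_option autoImplicit false

namespace Pool.Agent.Lib.MP_214199_co.Eff

open Finset

variable {S : Finset Pt}

/-- Two maximal darts at every vertex. -/
theorem card_isMax (hS : Gen S) :
    {d : D S | IsMax d}.ncard = 2 * (verts S).card := by
  classical
  have h1 : {d : D S | IsMax d}.ncard = ∑ d : D S, (if IsMax d then 1 else 0) := by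
    rw [Set.ncard_eq_toFinset_card', Finset.sum_boole]
    simp
  have h2 : ∑ d : D S, (if IsMax d then 1 else 0) = ∑ d : D S,
      (fun (v p : Pt) (_ : Bool) => if (∀ q ∈ blk S v, q.1 ≤ p.1) then 1 else 0)
        d.1.v d.1.p d.1.s := by
    apply Finset.sum_congr rfl
    intro d _
    by_cases h : IsMax d
    · rw [if_pos h]
      exact (if_pos (show ∀ q ∈ blk S d.1.v, q.1 ≤ d.1.p.1 from h)).symm
    · rw [if_neg h]
      exact (if_neg (show ¬ ∀ q ∈ blk S d.1.v, q.1 ≤ d.1.p.1 from h)).symm
  rw [h1, h2, sum_darts (fun (v p : Pt) (_ : Bool) =>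
    if (∀ q ∈ blk S v, q.1 ≤ p.1) then 1 else 0), mul_comm, ← smul_eq_mul, ← Finset.sum_const]
  apply Finset.sum_congr rfl
  intro v hv
  have hne : (blk S v).Nonempty := by
    apply Finset.card_pos.1
    have := (mem_verts hS).1 hv
    omega
  obtain ⟨m, hm, hmax⟩ := Finset.exists_max_image (blk S v) Prod.fst hne
  rw [Finset.sum_eq_single_of_mem m hm]
  · simp only [if_pos (show ∀ q ∈ blk S v, q.1 ≤ m.1 from hmax)]
  · intro p hp hpm
    have : ¬ ∀ q ∈ blk S v, q.1 ≤ p.1 := by
      intro h
      exact hpm (blk_fst_inj hS hp hm (le_antisymm (hmax p hp) (h m hm)))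
    simp only [if_neg this, add_zero]

theorem card_darts : Fintype.card (D S) = ∑ v ∈ verts S, 2 * (blk S v).card := by
  classical
  have h := sum_darts (S := S) (fun _ _ _ => 1)
  simp only [Finset.sum_const, smul_eq_mul, Finset.card_univ, mul_one] at h
  rw [h]
  apply Finset.sum_congr rfl
  intro v _
  ring

/-- Proof.  `f0 = (verts S).card`.  There are `∑ 2 m_v` darts (`sum_darts`), two of them at every
vertex are maximal: `|M| = 2 f0`.  Let `C` be the set of `card_caseC`, `N₁`, `N₂` the darts that are neither maximal nor in `C` with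
`s = true`, `s = false`, `T` the darts with `Tri`.  `exists_phi`, `count_abs` (`φ = phi sg al` is
injective): `3 (∑ 2 m_v - 2 f0 - |C|) ≤ |T| + 6 f0`, so
`#¬Tri = ∑ 2 m_v - |T| ≤ - 4 ∑ m_v + 12 f0 + 3 |C| ≤ 4 ∑ (3 - m_v) + 3 n`. -/
theorem count_tri (hS : Gen S) (h1 : 1 < (verts S).card) {sg al : Equiv.Perm (D S)}
    (hr : IsRot S sg) (ha : IsRev S al) :
    ({d : D S | ¬ Tri sg al d}.ncard : ℤ) ≤
      4 * ∑ v ∈ verts S, (3 - ((blk S v).card : ℤ)) + 3 * S.card := by
  classical
  obtain ⟨Φ, hΦ1, hΦ2, hΦ3⟩ := exists_phi hS hr ha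
  have hC := card_caseC hS hr ha h1
  have hM := card_isMax hS
  have hD := card_darts (S := S)
  set M : Finset (D S) := Finset.univ.filter (fun d => IsMax d) with hMdef
  set T : Finset (D S) := Finset.univ.filter (fun d => Tri sg al d) with hTdef
  set T' : Finset (D S) := Finset.univ.filter (fun d => ¬ Tri sg al d) with hT'def
  set Cs : Finset (D S) := Finset.univ.filter (fun d => ¬ IsMax d ∧ al d = d ∧
    al (sg d) = sg d) with hCdef
  set N : Bool → Finset (D S) := fun s => Finset.univ.filter (fun d => ¬ IsMax d ∧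
    ¬ (al d = d ∧ al (sg d) = sg d) ∧ d.1.s = s) with hNdef
  have hMc : M.card = 2 * (verts S).card := by
    rw [← hM, ← Set.ncard_coe_finset]
    congr 1
    ext d
    simp [hMdef]
  have hCc : Cs.card ≤ S.card := by
    refine le_trans (le_of_eq ?_) hC
    rw [← Set.ncard_coe_finset]
    congr 1
    ext d
    simp [hCdef]
  have hT'c : {d : D S | ¬ Tri sg al d}.ncard = T'.card := by
    rw [← Set.ncard_coe_finset]
    congr 1
    ext d
    simp [hT'def]
  have hTT : T.card + T'.card = Fintype.card (D S) := by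
    rw [hTdef, hT'def, Finset.card_filter_add_card_filter_not, Finset.card_univ]
  have hpart : M.card + Cs.card + (N true).card + (N false).card = Fintype.card (D S) := by
    have e1 : M.card + (Finset.univ.filter (fun d : D S => ¬ IsMax d)).card =
        Fintype.card (D S) := by
      rw [hMdef, Finset.card_filter_add_card_filter_not, Finset.card_univ]
    have e2 : (Finset.univ.filter (fun d : D S => ¬ IsMax d)).card = Cs.card +
        (Finset.univ.filter (fun d : D S => ¬ IsMax d ∧
          ¬ (al d = d ∧ al (sg d) = sg d))).card := by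
      rw [← Finset.card_filter_add_card_filter_not (s := Finset.univ.filter
        (fun d : D S => ¬ IsMax d)) (fun d => al d = d ∧ al (sg d) = sg d),
        Finset.filter_filter, Finset.filter_filter]
    have e3 : (Finset.univ.filter (fun d : D S => ¬ IsMax d ∧
          ¬ (al d = d ∧ al (sg d) = sg d))).card = (N true).card + (N false).card := by
      rw [← Finset.card_filter_add_card_filter_not (s := Finset.univ.filter
        (fun d : D S => ¬ IsMax d ∧ ¬ (al d = d ∧ al (sg d) = sg d))) (fun d => d.1.s = true),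
        Finset.filter_filter, Finset.filter_filter]
      congr 2
      · ext d
        simp only [Finset.mem_filter, Finset.mem_univ, true_and, hNdef]
        tauto
      · ext d
        simp only [Finset.mem_filter, Finset.mem_univ, true_and, hNdef, Bool.not_eq_true]
        tauto
    omega
  have habs := count_abs M (N true) (N false) T Φ (phi sg al)
    (fun a b hab => al.injective (sg.symm.injective hab))
    (by
      intro d hd d' hd' h
      simp only [hNdef, Finset.coe_filter, Finset.mem_univ, true_and, Set.mem_ofPred_eq] at hd hd'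
      exact hΦ2 d d' hd.1 hd.2.1 hd'.1 hd'.2.1 (hd.2.2.trans hd'.2.2.symm) h)
    (by
      intro d hd d' hd' h
      simp only [hNdef, Finset.coe_filter, Finset.mem_univ, true_and, Set.mem_ofPred_eq] at hd hd'
      exact hΦ2 d d' hd.1 hd.2.1 hd'.1 hd'.2.1 (hd.2.2.trans hd'.2.2.symm) h)
    (by
      intro d hd
      simp only [hNdef, Finset.mem_filter, Finset.mem_univ, true_and] at hd
      exact Finset.mem_filter.2 ⟨Finset.mem_univ _, hΦ1 d hd.1 hd.2.1⟩)
    (by
      intro d hd
      simp only [hNdef, Finset.mem_filter, Finset.mem_univ, true_and] at hd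
      exact Finset.mem_filter.2 ⟨Finset.mem_univ _, hΦ1 d hd.1 hd.2.1⟩)
    (by
      intro d hd d' hd' h
      simp only [hNdef, Finset.mem_filter, Finset.mem_univ, true_and] at hd hd'
      obtain ⟨h1, h2, h3, h4, h5⟩ := hΦ3 d d' hd.1 hd.2.1 hd'.1 hd'.2.1 hd.2.2 hd'.2.2 h
      simp only [hTdef, hMdef, Finset.mem_filter, Finset.mem_univ, true_and]
      exact ⟨h1, h2, h3, h4, h5⟩)
  rw [hT'c]
  have hsum : ∑ v ∈ verts S, (3 - ((blk S v).card : ℤ)) =
      3 * (verts S).card - ∑ v ∈ verts S, ((blk S v).card : ℤ) := by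
    rw [Finset.sum_sub_distrib, Finset.sum_const, nsmul_eq_mul]
    ring
  have hD' : (Fintype.card (D S) : ℤ) = 2 * ∑ v ∈ verts S, ((blk S v).card : ℤ) := by
    rw [hD]
    push_cast
    rw [Finset.mul_sum]
  rw [hsum]
  have g1 : (3 * ((N true).card + (N false).card) : ℤ) ≤ T.card + 3 * M.card := by
    exact_mod_cast habs
  have g2 : ((M.card : ℤ) + Cs.card + (N true).card + (N false).card) = Fintype.card (D S) := by
    exact_mod_cast hpart
  have g3 : ((T.card : ℤ) + T'.card) = Fintype.card (D S) := by exact_mod_cast hTT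
  have g4 : (M.card : ℤ) = 2 * (verts S).card := by exact_mod_cast hMc
  have g5 : (Cs.card : ℤ) ≤ S.card := by exact_mod_cast hCc
  linarith

end Pool.Agent.Lib.MP_214199_co.Eff
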