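import Mathlib

/-!
# Effective orchard theorem: definitions

`S` is a finite set of points of the plane `ℝ × ℝ`, always with distinct abscissae (`Gen S`).
The point `p` is identified with its dual line `y = p.1 * x - p.2`.  A vertex `v` of the dual
arrangement corresponds to the line of slope `v.1` and intercept `-v.2`; `blk S v` is the set of
the points of `S` on it.
-/

set_option autoImplicit false

namespace Pool.Agent.Lib.MP_214199_co.Eff

open Finset

/-- points of the plane -/
abbrev Pt := ℝ × ℝ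

/-- The height over `x` of the dual line of `p`. -/
def ht (p : Pt) (x : ℝ) : ℝ := p.1 * x - p.2

/-- The intersection of the dual lines of `p` and `q` (for `p.1 ≠ q.1`). -/
noncomputable def vtx (p q : Pt) : Pt :=
  ((q.2 - p.2) / (q.1 - p.1), ht p ((q.2 - p.2) / (q.1 - p.1)))

/-- The points of `S` whose dual line passes through `v`. -/
noncomputable def blk (S : Finset Pt) (v : Pt) : Finset Pt := S.filter (fun p => ht p v.1 = v.2)

/-- The vertices of the dual arrangement. -/
noncomputable def verts (S : Finset Pt) : Finset Pt := S.offDiag.image (fun z => vtx z.1 z.2)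

/-- distinct abscissae -/
def Gen (S : Finset Pt) : Prop := Set.InjOn Prod.fst (S : Set Pt)

/-- the weight of a line with `m ≥ 2` points: `1, 0, 3, 7, 12, ...` for `m = 2, 3, 4, 5, 6, ...` -/
def wt (m : ℕ) : ℕ := if m ≤ 2 then 1 else m * (m - 1) / 2 - 3

/-- The defect `n(n-1)/2 - 3 #{heavy lines}` of `S`. -/
noncomputable def dfc (S : Finset Pt) : ℕ := ∑ v ∈ verts S, wt (blk S v).card

/-- A dart: the ray of the dual line of `p` that starts in `v`, to the right if `s = true`. -/
@[ext] structure Dart where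
  /-- the start vertex -/
  v : Pt
  /-- the line -/
  p : Pt
  /-- the direction -/
  s : Bool

/-- `d` is a dart of the arrangement of `S`. -/
def IsD (S : Finset Pt) (d : Dart) : Prop := d.v ∈ verts S ∧ d.p ∈ blk S d.v

/-- the darts of the arrangement -/
abbrev D (S : Finset Pt) := {d : Dart // IsD S d}

instance finite_D (S : Finset Pt) : Finite (D S) := by
  apply Finite.of_injective (β := (verts S) × S × Bool)
    (fun d => (⟨d.1.v, d.2.1⟩, ⟨d.1.p, (Finset.mem_filter.1 d.2.2).1⟩, d.1.s))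
  intro a b h
  simp only [Prod.mk.injEq, Subtype.mk.injEq] at h
  exact Subtype.ext (Dart.ext h.1 h.2.1 h.2.2)

noncomputable instance fintype_D (S : Finset Pt) : Fintype (D S) := Fintype.ofFinite _

variable {S : Finset Pt}

/-- the opposite dart at the same vertex, on the same line -/
def op (d : D S) : D S := ⟨⟨d.1.v, d.1.p, !d.1.s⟩, d.2⟩

/-- The line of `d` has the largest slope in its block. -/
def IsMax (d : D S) : Prop := ∀ q ∈ blk S d.1.v, q.1 ≤ d.1.p.1

/-- The line of `d` has the smallest slope in its block. -/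
def IsMin (d : D S) : Prop := ∀ q ∈ blk S d.1.v, d.1.p.1 ≤ q.1

/-- `sg` is the counterclockwise rotation of the darts around their vertices. -/
structure IsRot (S : Finset Pt) (sg : Equiv.Perm (D S)) : Prop where
  v : ∀ d, (sg d).1.v = d.1.v
  s_lt : ∀ d, ¬ IsMax d → (sg d).1.s = d.1.s
  p_lt : ∀ d, ¬ IsMax d → d.1.p.1 < (sg d).1.p.1
  p_next : ∀ d, ¬ IsMax d → ∀ q ∈ blk S d.1.v, d.1.p.1 < q.1 → (sg d).1.p.1 ≤ q.1
  s_max : ∀ d, IsMax d → (sg d).1.s = !d.1.s
  p_max : ∀ d, IsMax d → IsMin (sg d)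

/-- `al` reverses darts: `al d` starts in the next vertex of the line of `d` in the direction of
`d` and points back; `al d = d` if there is no next vertex. -/
structure IsRev (S : Finset Pt) (al : Equiv.Perm (D S)) : Prop where
  al_al : ∀ d, al (al d) = d
  p : ∀ d, (al d).1.p = d.1.p
  s : ∀ d, al d ≠ d → (al d).1.s = !d.1.s
  lt : ∀ d, al d ≠ d → d.1.s = true → d.1.v.1 < (al d).1.v.1
  gt : ∀ d, al d ≠ d → d.1.s = false → (al d).1.v.1 < d.1.v.1
  next_lt : ∀ d, d.1.s = true → ∀ u ∈ verts S, d.1.p ∈ blk S u → d.1.v.1 < u.1 →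
    al d ≠ d ∧ (al d).1.v.1 ≤ u.1
  next_gt : ∀ d, d.1.s = false → ∀ u ∈ verts S, d.1.p ∈ blk S u → u.1 < d.1.v.1 →
    al d ≠ d ∧ u.1 ≤ (al d).1.v.1

/-- The next dart of the cell to the left of `d`. -/
def phi (sg al : Equiv.Perm (D S)) (d : D S) : D S := sg.symm (al d)

/-- The cell to the left of `d` is a bounded triangle. -/
def Tri (sg al : Equiv.Perm (D S)) (d : D S) : Prop :=
  al d ≠ d ∧ al (phi sg al d) ≠ phi sg al d ∧ al (phi sg al (phi sg al d)) ≠
    phi sg al (phi sg al d) ∧ phi sg al (phi sg al (phi sg al d)) = d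

/-- The vertex of `d` is flat: it is a triple point, all cells around it are bounded triangles and
all its neighbours are triple points. -/
def Flat (sg al : Equiv.Perm (D S)) (d : D S) : Prop :=
  (blk S d.1.v).card = 3 ∧
    ∀ e : D S, e.1.v = d.1.v → Tri sg al e ∧ (blk S (al e).1.v).card = 3

/-- the parallel dart one row below -/
def low (sg al : Equiv.Perm (D S)) (d : D S) : D S := sg.symm (sg.symm (al (sg.symm d)))

/-- Four rows of flat vertices. -/
def Good (sg al : Equiv.Perm (D S)) (d : D S) : Prop :=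
  Flat sg al d ∧ Flat sg al (low sg al d) ∧ Flat sg al (low sg al (low sg al d)) ∧
    Flat sg al (low sg al (low sg al (low sg al d)))

/-- The outer line number `k = 0` of the hexagon around `d`, that is the line of the edge from the
head of `d` to the head of `sg d`; number `k` is `out sg al (sg^k d)`. -/
def out (sg al : Equiv.Perm (D S)) (d : D S) : Pt := (sg.symm (al d)).1.p

/-- The nine lines of the hexagon around the vertex of `d`. -/
noncomputable def hex (sg al : Equiv.Perm (D S)) (d : D S) : Finset Pt :=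
  {d.1.p, (sg d).1.p, (sg (sg d)).1.p, out sg al d, out sg al (sg d), out sg al (sg (sg d)),
    out sg al (sg (sg (sg d))), out sg al (sg (sg (sg (sg d)))),
    out sg al (sg (sg (sg (sg (sg d)))))}

/-- A set of points that contains the ninth point of a hexagon as soon as it contains eight. -/
def HexClosed (sg al : Equiv.Perm (D S)) (Z : Set Pt) : Prop :=
  ∀ d : D S, Flat sg al d → ∀ x ∈ hex sg al d, (∀ y ∈ hex sg al d, y ≠ x → y ∈ Z) → x ∈ Z

/-- a real point as a complex point -/
noncomputable def cpt (a : Pt) : Fin 2 → ℂ := ![(a.1 : ℂ), (a.2 : ℂ)]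

/-- polynomials in two variables -/
abbrev Poly := MvPolynomial (Fin 2) ℂ

/-- the zeros of `F` -/
def Zr (F : Poly) (a : Fin 2 → ℂ) : Prop := MvPolynomial.eval a F = 0

/-- twice the area of the triangle `a b c` -/
def det3c (a b c : Fin 2 → ℂ) : ℂ := (b 0 - a 0) * (c 1 - a 1) - (b 1 - a 1) * (c 0 - a 0)

/-- `a`, `b`, `c` are collinear -/
def Col (a b c : Fin 2 → ℂ) : Prop := det3c a b c = 0

/-- The derivative of `F` in `a` in the direction of `w`. -/
noncomputable def dr (F : Poly) (a w : Fin 2 → ℂ) : ℂ :=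
  w 0 * MvPolynomial.eval a (MvPolynomial.pderiv 0 F) +
    w 1 * MvPolynomial.eval a (MvPolynomial.pderiv 1 F)

/-- nonsingular zeros of `F` -/
def NS (F : Poly) (a : Fin 2 → ℂ) : Prop :=
  MvPolynomial.eval a F = 0 ∧ (MvPolynomial.eval a (MvPolynomial.pderiv 0 F) ≠ 0 ∨
    MvPolynomial.eval a (MvPolynomial.pderiv 1 F) ≠ 0)

/-- What we know about a run `R` of good vertices of the line `p`. -/
structure RunData (S : Finset Pt) (p : Pt) (R : Finset Pt) : Prop where
  mem : ∀ v ∈ R, v ∈ verts S ∧ p ∈ blk S v ∧ (blk S v).card = 3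
  cubic : ∃ F : Poly, F ≠ 0 ∧ F.totalDegree ≤ 3 ∧ (∀ v ∈ R, ∀ a ∈ blk S v, Zr F (cpt a)) ∧
    (10 ≤ R.card → ∃ P : Fin 5 → Pt, Function.Injective P ∧ ∀ k, P k ∈ S ∧ P k ≠ p ∧
      Zr F (cpt (P k)) ∧ ∀ v0 : Pt, ∃ v ∈ R, ∃ v' ∈ R, v ≠ v0 ∧ v' ≠ v0 ∧
        ∃ a ∈ blk S v, ∃ b ∈ blk S v', a ≠ p ∧ b ≠ p ∧ a ≠ b ∧ a ≠ P k ∧ b ≠ P k ∧
          ∃ u, P k ∈ blk S u ∧ a ∈ blk S u ∧ b ∈ blk S u)

/-- An embedding of the nonsingular points of the cubic curve `f = 0` into an abelian group that
describes collinearity. -/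
structure CubicGroup (f : Poly) (G : Type) [AddCommGroup G] (θ : (Fin 2 → ℂ) → G) : Prop where
  inj : ∀ a b, NS f a → NS f b → θ a = θ b → a = b
  col : ∀ a b c, NS f a → NS f b → NS f c → a ≠ b → a ≠ c → b ≠ c →
    (Col a b c ↔ θ a + θ b + θ c = 0)
  tan : ∀ a b, NS f a → NS f b → a ≠ b → θ a + θ a + θ b = 0 → dr f a (b - a) = 0
  third : ∀ a b c d y, NS f a → NS f b → NS f c → NS f d → a ≠ b → c ≠ d →
    θ a + θ b = θ c + θ d → Col a b y → Col c d y → ¬ Zr f y → Col a b c ∧ Col a b d
  two : ∀ T : Finset G, (∀ g ∈ T, g + g = 0) → T.card ≤ 4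
  three : ∀ T : Finset G, (∀ g ∈ T, g + g + g = 0) → T.card ≤ 9

end Pool.Agent.Lib.MP_214199_co.Eff
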