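import Mathlib

/-!
# Weierstrass cubics: the group law in terms of collinearity
-/

set_option autoImplicit false

namespace Pool.Agent.Lib.MP_214199_co.Eff

open WeierstrassCurve

/-- The Weierstrass form. -/
def wf (W : Affine ℂ) (X : Fin 3 → ℂ) : ℂ :=
  X 1 ^ 2 * X 2 + W.a₁ * X 0 * X 1 * X 2 + W.a₃ * X 1 * X 2 ^ 2 -
    (X 0 ^ 3 + W.a₂ * X 0 ^ 2 * X 2 + W.a₄ * X 0 * X 2 ^ 2 + W.a₆ * X 2 ^ 3)

/-- its differential -/
def dwf (W : Affine ℂ) (X w : Fin 3 → ℂ) : ℂ :=
  w 0 * (W.a₁ * X 1 * X 2 - (3 * X 0 ^ 2 + 2 * W.a₂ * X 0 * X 2 + W.a₄ * X 2 ^ 2)) +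
    w 1 * (2 * X 1 * X 2 + W.a₁ * X 0 * X 2 + W.a₃ * X 2 ^ 2) +
    w 2 * (X 1 ^ 2 + W.a₁ * X 0 * X 1 + 2 * W.a₃ * X 1 * X 2 -
      (W.a₂ * X 0 ^ 2 + 2 * W.a₄ * X 0 * X 2 + 3 * W.a₆ * X 2 ^ 2))

/-- Homogeneous coordinates of a point. -/
def vec {W : Affine ℂ} : W.Point → Fin 3 → ℂ
  | .zero => ![0, 1, 0]
  | .some x y _ => ![x, y, 1]

theorem vec_zero {W : Affine ℂ} : vec (0 : W.Point) = ![0, 1, 0] := rfl

theorem vec_some {W : Affine ℂ} {x y : ℂ} (h : W.Nonsingular x y) :
    vec (Affine.Point.some x y h) = ![x, y, 1] := rfl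

/-- `vec P` is a nonsingular zero of `wf W`. -/
theorem wf_vec {W : Affine ℂ} (P : W.Point) : wf W (vec P) = 0 ∧ ∃ w, dwf W (vec P) w ≠ 0 := by
  rcases P with _ | ⟨x, y, h⟩
  · refine ⟨by simp [vec, wf], ![0, 0, 1], by simp [vec, dwf]⟩
  · obtain ⟨h1, h2⟩ := (Affine.nonsingular_iff x y).1 h
    rw [Affine.equation_iff] at h1
    refine ⟨?_, ?_⟩
    · simp only [vec, wf, Matrix.cons_val_zero, Matrix.cons_val_one, Matrix.cons_val]
      linear_combination h1
    · rcases h2 with h2 | h2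
      · refine ⟨![1, 0, 0], ?_⟩
        simp only [vec, dwf, Matrix.cons_val_zero, Matrix.cons_val_one, Matrix.cons_val]
        intro h3
        exact h2 (by linear_combination h3)
      · refine ⟨![0, 1, 0], ?_⟩
        simp only [vec, dwf, Matrix.cons_val_zero, Matrix.cons_val_one, Matrix.cons_val]
        intro h3
        exact h2 (by linear_combination h3)

/-- Every nonsingular zero comes from a point. -/
theorem exists_vec {W : Affine ℂ} (X : Fin 3 → ℂ) (hX : X ≠ 0) (h0 : wf W X = 0)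
    (h1 : ∃ w, dwf W X w ≠ 0) : ∃ (P : W.Point) (c : ℂ), c ≠ 0 ∧ X = c • vec P := by
  obtain ⟨w, h1⟩ := h1
  by_cases hz : X 2 = 0
  · have hx : X 0 = 0 := by
      have h2 : X 0 ^ 3 = 0 := by
        unfold wf at h0
        rw [hz] at h0
        linear_combination -h0
      exact pow_eq_zero_iff (by norm_num) |>.1 h2
    have hy : X 1 ≠ 0 := by
      intro hy
      refine hX (funext fun i => ?_)
      fin_cases i
      · exact hx
      · exact hy
      · exact hz
    refine ⟨0, X 1, hy, ?_⟩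
    rw [vec_zero]
    ext i
    fin_cases i <;> simp [hx, hz]
  · have heq : W.Equation (X 0 / X 2) (X 1 / X 2) := by
      rw [Affine.equation_iff]
      unfold wf at h0
      field_simp
      linear_combination h0
    have hns : W.Nonsingular (X 0 / X 2) (X 1 / X 2) := by
      rw [Affine.nonsingular_iff]
      refine ⟨heq, ?_⟩
      by_contra hcon
      push Not at hcon
      obtain ⟨h2, h3⟩ := hcon
      field_simp at h2 h3
      have hA : W.a₁ * X 1 * X 2 - (3 * X 0 ^ 2 + 2 * W.a₂ * X 0 * X 2 + W.a₄ * X 2 ^ 2) = 0 := by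
        linear_combination h2
      have hB : 2 * X 1 * X 2 + W.a₁ * X 0 * X 2 + W.a₃ * X 2 ^ 2 = 0 := by
        linear_combination X 2 * h3
      have hC : X 1 ^ 2 + W.a₁ * X 0 * X 1 + 2 * W.a₃ * X 1 * X 2 -
          (W.a₂ * X 0 ^ 2 + 2 * W.a₄ * X 0 * X 2 + 3 * W.a₆ * X 2 ^ 2) = 0 := by
        have h4 : X 2 * (X 1 ^ 2 + W.a₁ * X 0 * X 1 + 2 * W.a₃ * X 1 * X 2 -
          (W.a₂ * X 0 ^ 2 + 2 * W.a₄ * X 0 * X 2 + 3 * W.a₆ * X 2 ^ 2)) = 0 := by
          unfold wf at h0
          linear_combination 3 * h0 - X 0 * hA - X 1 * hB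
        exact (mul_eq_zero.1 h4).resolve_left hz
      apply h1
      unfold dwf
      rw [hA, hB, hC]
      ring
    refine ⟨Affine.Point.some _ _ hns, X 2, hz, ?_⟩
    rw [vec_some]
    ext i
    fin_cases i
    · simp; field_simp
    · simp; field_simp
    · simp

/-- Different points have independent vectors. -/
theorem vec_ind {W : Affine ℂ} {P Q : W.Point} (h : P ≠ Q) : LinearIndependent ℂ ![vec P, vec Q] := by
  rw [LinearIndependent.pair_iff]
  intro s t hst
  have e0 := congrFun hst 0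
  have e1 := congrFun hst 1
  have e2 := congrFun hst 2
  rcases P with _ | ⟨x, y, hP⟩ <;> rcases Q with _ | ⟨x', y', hQ⟩
  · exact absurd rfl h
  · simp [vec] at e0 e1 e2
    have ht : t = 0 := e2
    rw [ht] at e1
    exact ⟨by simpa using e1, ht⟩
  · simp [vec] at e0 e1 e2
    have hs : s = 0 := e2
    rw [hs] at e1
    exact ⟨hs, by simpa using e1⟩
  · simp only [vec, Pi.add_apply, Pi.smul_apply, smul_eq_mul, Matrix.cons_val_zero,
      Matrix.cons_val_one, Matrix.cons_val, Pi.zero_apply] at e0 e1 e2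
    by_cases hs : s = 0
    · rw [hs] at e2
      exact ⟨hs, by linear_combination e2⟩
    · exfalso
      have h1 : s * (x - x') = 0 := by linear_combination e0 - x' * e2
      have h2 : s * (y - y') = 0 := by linear_combination e1 - y' * e2
      have h3 := (mul_eq_zero.1 h1).resolve_left hs
      have h4 := (mul_eq_zero.1 h2).resolve_left hs
      apply h
      have hx : x = x' := by linear_combination h3
      have hy : y = y' := by linear_combination h4
      subst hx hy
      rfl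

end Pool.Agent.Lib.MP_214199_co.Eff
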