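import Pool.Agent.Lib.MP_214199_co.Eff.Form
import Pool.Agent.Lib.MP_214199_co.Eff.Weier

/-!
# The differential and linear changes of variables
-/

set_option autoImplicit false

namespace Pool.Agent.Lib.MP_214199_co.Eff

open MvPolynomial

theorem dfMul_odd (W : WeierstrassCurve.Affine ℂ) (X w : Fin 3 → ℂ) :
    wf W (X + (1 : ℂ) • w) - wf W (X + (-1 : ℂ) • w) = 2 * dwf W X w + 2 * wf W w := by
  simp only [wf, dwf, Pi.add_apply, Pi.smul_apply, smul_eq_mul]
  ring

/-- The differential and the linear change of variables.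
Proof.  Compare the coefficients of `t` in `F (M X + t M w) = wf W (X + t w)` (`taylor`; the two
sides are polynomials in `t` that agree for all `t`). -/
theorem df_mulVec (F : Poly3) (hF : F.IsHomogeneous 3) (M : Matrix (Fin 3) (Fin 3) ℂ)
    (W : WeierstrassCurve.Affine ℂ) (h : ∀ X : Fin 3 → ℂ, eval (M.mulVec X) F = wf W X)
    (X w : Fin 3 → ℂ) : df F (M.mulVec X) (M.mulVec w) = dwf W X w := by
  obtain ⟨q, hq⟩ := taylor F hF (M.mulVec X) (M.mulVec w)
  have h1 : ∀ t : ℂ, eval (M.mulVec X + t • M.mulVec w) F = wf W (X + t • w) := by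
    intro t
    rw [← h, Matrix.mulVec_add, Matrix.mulVec_smul]
  have e1 := hq 1
  have e2 := hq (-1)
  rw [h1, h, h] at e1 e2
  have e3 := dfMul_odd W X w
  linear_combination (e3 - e1 + e2) / 2

end Pool.Agent.Lib.MP_214199_co.Eff
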