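import Mathlib

/-!
# The Sylvester-Gallai theorem
-/

set_option autoImplicit false

namespace Pool.Agent.Lib.MP_214199_co.Eff

/-- twice the area of the triangle `a b c` -/
def det2 (a b c : ℝ × ℝ) : ℝ := (b.1 - a.1) * (c.2 - a.2) - (b.2 - a.2) * (c.1 - a.1)

/-- square of the distance -/
def sgN (a b : ℝ × ℝ) : ℝ := (a.1 - b.1) ^ 2 + (a.2 - b.2) ^ 2

theorem sgN_pos {a b : ℝ × ℝ} (h : a ≠ b) : 0 < sgN a b := by
  unfold sgN
  by_contra hcon
  push Not at hcon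
  have h1 := sq_nonneg (a.1 - b.1)
  have h2 := sq_nonneg (a.2 - b.2)
  have e1 : a.1 - b.1 = 0 := by
    apply pow_eq_zero_iff (two_ne_zero) |>.1
    linarith
  have e2 : a.2 - b.2 = 0 := by
    apply pow_eq_zero_iff (two_ne_zero) |>.1
    linarith
  exact h (Prod.ext (sub_eq_zero.1 e1) (sub_eq_zero.1 e2))

theorem sg_param {a b c : ℝ × ℝ} (hab : a ≠ b) (h : det2 a b c = 0) :
    ∃ s : ℝ, c = (a.1 + s * (b.1 - a.1), a.2 + s * (b.2 - a.2)) := by
  have hN := sgN_pos hab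
  refine ⟨((c.1 - a.1) * (b.1 - a.1) + (c.2 - a.2) * (b.2 - a.2)) / sgN a b, ?_⟩
  unfold det2 at h
  apply Prod.ext
  · show c.1 = a.1 + _
    have hN' := hN.ne'
    field_simp
    unfold sgN
    linear_combination (-(b.2 - a.2)) * h
  · show c.2 = a.2 + _
    have hN' := hN.ne'
    field_simp
    unfold sgN
    linear_combination (b.1 - a.1) * h

theorem sg_pair (r1 r2 r3 : ℝ) : r1 * (r1 - 2 * r2) ≤ 0 ∨ r2 * (r2 - 2 * r1) ≤ 0 ∨
    r1 * (r1 - 2 * r3) ≤ 0 ∨ r3 * (r3 - 2 * r1) ≤ 0 ∨ r2 * (r2 - 2 * r3) ≤ 0 ∨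
    r3 * (r3 - 2 * r2) ≤ 0 := by
  have key : ∀ x y : ℝ, 0 ≤ x * y → x * (x - 2 * y) ≤ 0 ∨ y * (y - 2 * x) ≤ 0 := by
    intro x y hxy
    rcases le_total (x ^ 2) (y ^ 2) with h | h
    · by_cases h2 : x ^ 2 ≤ 2 * (x * y)
      · left; linarith
      · exfalso
        push Not at h2
        -- `2 x y < x ^ 2 ≤ y ^ 2`, `x y ≥ 0`
        nlinarith [sq_nonneg (x * y), mul_nonneg hxy hxy, mul_self_nonneg (x ^ 2 - x * y),
          mul_le_mul_of_nonneg_left h (sq_nonneg x)]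
    · by_cases h2 : y ^ 2 ≤ 2 * (x * y)
      · right; linarith
      · exfalso
        push Not at h2
        nlinarith [sq_nonneg (x * y), mul_nonneg hxy hxy, mul_self_nonneg (y ^ 2 - x * y),
          mul_le_mul_of_nonneg_left h (sq_nonneg y)]
  rcases le_total 0 r1 with h1 | h1 <;> rcases le_total 0 r2 with h2 | h2 <;>
    rcases le_total 0 r3 with h3 | h3
  · rcases key r1 r2 (mul_nonneg h1 h2) with h | h <;> tauto
  · rcases key r1 r2 (mul_nonneg h1 h2) with h | h <;> tauto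
  · rcases key r1 r3 (mul_nonneg h1 h3) with h | h <;> tauto
  · rcases key r2 r3 (mul_nonneg_of_nonpos_of_nonpos h2 h3) with h | h <;> tauto
  · rcases key r2 r3 (mul_nonneg h2 h3) with h | h <;> tauto
  · rcases key r1 r3 (mul_nonneg_of_nonpos_of_nonpos h1 h3) with h | h <;> tauto
  · rcases key r1 r2 (mul_nonneg_of_nonpos_of_nonpos h1 h2) with h | h <;> tauto
  · rcases key r1 r2 (mul_nonneg_of_nonpos_of_nonpos h1 h2) with h | h <;> tauto

theorem sg_step {p a b x y : ℝ × ℝ} {s s' τ : ℝ} (hK : det2 p a b ≠ 0) (hN : 0 < sgN a b)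
    (hτ : τ * sgN a b = (p.1 - a.1) * (b.1 - a.1) + (p.2 - a.2) * (b.2 - a.2))
    (hx : x = (a.1 + s * (b.1 - a.1), a.2 + s * (b.2 - a.2)))
    (hy : y = (a.1 + s' * (b.1 - a.1), a.2 + s' * (b.2 - a.2))) (hs : s ≠ s')
    (h : (s - τ) * ((s - τ) - 2 * (s' - τ)) ≤ 0) :
    det2 x p y ≠ 0 ∧ det2 x p y ^ 2 / sgN p y < det2 p a b ^ 2 / sgN a b := by
  have e1 : det2 x p y = -((s' - s) * det2 p a b) := by
    rw [hx, hy]
    unfold det2
    ring
  have e2 : sgN p y * sgN a b = det2 p a b ^ 2 + ((τ - s') * sgN a b) ^ 2 := by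
    have e3 : (τ - s') * sgN a b = (p.1 - y.1) * (b.1 - a.1) + (p.2 - y.2) * (b.2 - a.2) := by
      rw [sub_mul, hτ, hy]
      unfold sgN
      ring
    rw [e3, hy]
    unfold det2 sgN
    ring
  have hne : det2 x p y ≠ 0 := by
    rw [e1]
    exact neg_ne_zero.2 (mul_ne_zero (sub_ne_zero.2 hs.symm) hK)
  refine ⟨hne, ?_⟩
  have hK2 : 0 < det2 p a b ^ 2 := by positivity
  have hPN : 0 < sgN p y * sgN a b := by
    rw [e2]
    positivity
  have hP : 0 < sgN p y := by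
    by_contra hcon
    push Not at hcon
    have := mul_nonpos_of_nonpos_of_nonneg hcon hN.le
    linarith
  rw [e1, div_lt_div_iff₀ hP hN]
  have h5 : (s' - s) ^ 2 * sgN a b ^ 2 < sgN p y * sgN a b := by
    rw [e2]
    have h6 : (s' - s) ^ 2 ≤ (τ - s') ^ 2 := by nlinarith
    have h7 := mul_le_mul_of_nonneg_right h6 (sq_nonneg (sgN a b))
    nlinarith
  have h8 : (s' - s) ^ 2 * sgN a b < sgN p y := by
    have : (s' - s) ^ 2 * sgN a b * sgN a b < sgN p y * sgN a b := by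
      calc (s' - s) ^ 2 * sgN a b * sgN a b = (s' - s) ^ 2 * sgN a b ^ 2 := by ring
        _ < _ := h5
    exact lt_of_mul_lt_mul_right this hN.le
  calc (-((s' - s) * det2 p a b)) ^ 2 * sgN a b
      = det2 p a b ^ 2 * ((s' - s) ^ 2 * sgN a b) := by ring
    _ < det2 p a b ^ 2 * sgN p y := by
      exact mul_lt_mul_of_pos_left h8 hK2

/-- Sylvester-Gallai.
Proof (Kelly).  Among the triples `(p, a, b)` of `T` with `det2 p a b ≠ 0` take one with the smallest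
`det2 p a b ^ 2 / |a - b| ^ 2` (`h^2`, `h > 0` the distance of `p` to the line `a b`).  Suppose that the
line contains a third point `c ∈ T`.  With the foot `q` of the perpendicular from `p` write
`a = q + t_a u`, ..., `|u| = 1`; two of the three different numbers `t_a, t_b, t_c` are `≥ 0` or two
are `≤ 0`, say (renaming) `0 ≤ t_a < t_b` (or `0 ≥ t_a > t_b`).  Then the distance of `a` to the line
`p b` is `h (t_b - t_a) / sqrt (h^2 + t_b^2) < h`, contradiction with the minimality. -/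
theorem sylvester_gallai (T : Finset (ℝ × ℝ))
    (h : ∃ a ∈ T, ∃ b ∈ T, ∃ c ∈ T, det2 a b c ≠ 0) :
    ∃ a ∈ T, ∃ b ∈ T, a ≠ b ∧ ∀ c ∈ T, det2 a b c = 0 → c = a ∨ c = b := by
  classical
  obtain ⟨a₀, ha₀, b₀, hb₀, c₀, hc₀, h₀⟩ := h
  obtain ⟨z, hz, hmin⟩ := Finset.exists_min_image
    ((T ×ˢ (T ×ˢ T)).filter (fun z => det2 z.1 z.2.1 z.2.2 ≠ 0))
    (fun z => det2 z.1 z.2.1 z.2.2 ^ 2 / sgN z.2.1 z.2.2)
    ⟨(a₀, b₀, c₀), by
      rw [Finset.mem_filter, Finset.mem_product, Finset.mem_product]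
      exact ⟨⟨ha₀, hb₀, hc₀⟩, h₀⟩⟩
  obtain ⟨p, a, b⟩ := z
  rw [Finset.mem_filter, Finset.mem_product, Finset.mem_product] at hz
  obtain ⟨⟨hp, ha, hb⟩, hK⟩ := hz
  simp only at hp ha hb hK hmin
  have hab : a ≠ b := by
    rintro rfl
    apply hK
    unfold det2
    ring
  have hN := sgN_pos hab
  have hm : ∀ x ∈ T, ∀ y ∈ T, det2 x p y ≠ 0 →
      det2 p a b ^ 2 / sgN a b ≤ det2 x p y ^ 2 / sgN p y := by
    intro x hx y hy hxy
    exact hmin (x, p, y) (by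
      rw [Finset.mem_filter, Finset.mem_product, Finset.mem_product]
      exact ⟨⟨hx, hp, hy⟩, hxy⟩)
  refine ⟨a, ha, b, hb, hab, fun c hc hd => ?_⟩
  by_contra hcon
  push Not at hcon
  obtain ⟨s, hs⟩ := sg_param hab hd
  have hs0 : s ≠ 0 := by
    rintro rfl
    apply hcon.1
    rw [hs]
    simp
  have hs1 : s ≠ 1 := by
    rintro rfl
    apply hcon.2
    rw [hs]
    simp
  obtain ⟨τ, hτ⟩ : ∃ τ, τ * sgN a b = (p.1 - a.1) * (b.1 - a.1) + (p.2 - a.2) * (b.2 - a.2) :=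
    ⟨((p.1 - a.1) * (b.1 - a.1) + (p.2 - a.2) * (b.2 - a.2)) / sgN a b, by
      rw [div_mul_cancel₀ _ hN.ne']⟩
  have pa : a = (a.1 + 0 * (b.1 - a.1), a.2 + 0 * (b.2 - a.2)) := by simp
  have pb : b = (a.1 + 1 * (b.1 - a.1), a.2 + 1 * (b.2 - a.2)) := by simp
  have fin : ∀ x ∈ T, ∀ y ∈ T, ∀ t t' : ℝ,
      x = (a.1 + t * (b.1 - a.1), a.2 + t * (b.2 - a.2)) →
      y = (a.1 + t' * (b.1 - a.1), a.2 + t' * (b.2 - a.2)) → t ≠ t' →
      (t - τ) * ((t - τ) - 2 * (t' - τ)) ≤ 0 → False := by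
    intro x hx y hy t t' hxt hyt htt hle
    obtain ⟨h1, h2⟩ := sg_step hK hN hτ hxt hyt htt hle
    exact absurd (hm x hx y hy h1) (not_le.2 h2)
  rcases sg_pair (0 - τ) (1 - τ) (s - τ) with h | h | h | h | h | h
  · exact fin a ha b hb 0 1 pa pb zero_ne_one h
  · exact fin b hb a ha 1 0 pb pa one_ne_zero h
  · exact fin a ha c hc 0 s pa hs hs0.symm h
  · exact fin c hc a ha s 0 hs pa hs0 h
  · exact fin b hb c hc 1 s pb hs hs1.symm h
  · exact fin c hc b hb s 1 hs pb hs1 h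

end Pool.Agent.Lib.MP_214199_co.Eff
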