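import Pool.Agent.Lib.MP_214199_co.Eff.CoreBlk
import Pool.Agent.Lib.MP_214199_co.Eff.SG

/-!
# A full coset
-/

set_option autoImplicit false

namespace Pool.Agent.Lib.MP_214199_co.Eff

open Finset

theorem endFin_det (a b c : Pt) : Col (cpt a) (cpt b) (cpt c) ↔ det2 a b c = 0 := by
  unfold Col
  have h : det3c (cpt a) (cpt b) (cpt c) = ((det2 a b c : ℝ) : ℂ) := by
    unfold det3c det2 cpt
    simp
  rw [h, Complex.ofReal_eq_zero]

theorem endFin_grp {G : Type} [AddCommGroup G] {u v : G} (h : u + u + u = 0)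
    (h2 : u = -(u + v)) : u = v := by
  have h3 : u + u + v = 0 := by
    calc u + u + v = u + (u + v) := by abel
      _ = -(u + v) + (u + v) := by rw [← h2]
      _ = 0 := by abel
  exact add_left_cancel (h.trans h3.symm)

/-- If `S` is a full coset then `dfc S ≥ |S| - 3`.
Proof.  All points of `S` are in the core, `|S| = |H|`, so `a ↦ θ (cpt a)` is a bijection from `S` to
`x + H`.  Let `K ⊆ S` be the set of the points with `3 θ a = 0`.  For `a ∈ S ∖ K` there is `b ∈ S` with
`θ b = -2 θ a` (as `x + x + x ∈ H`), `b ≠ a`, and the block of `a`, `b` contains no third point `c`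
(`core_third` would give `θ c = -θ a - θ b = θ a`); so it has exactly 2 points and weight 1; it
determines `a` (if it is also the block of `a' = b` and `b' = a` then `θ a = -2 θ b = 4 θ a`,
`a ∈ K`).  So `dfc S ≥ |S| - |K|`.
`|K| ≤ 3`: suppose `|K| ≥ 4`.  The points of `K` are not collinear (`core_blk`, `col_iff_blk`), so by
`sylvester_gallai` there are `a ≠ b` in `K` such that no other point of `K` is on their line.  Let
`c ∈ S` with `θ c = -(θ a + θ b)`: `3 θ c = 0`, `c ∈ K`, and `c ≠ a` (otherwise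
`θ b = -2 θ a = θ a`), `c ≠ b`; by `col` it is on the line, contradiction. -/
theorem full_coset {S : Finset Pt} (hS : Gen S) (f : Poly) (hf : Irreducible f)
    (h3 : f.totalDegree = 3) {G : Type} [AddCommGroup G] (θ : (Fin 2 → ℂ) → G)
    (hθ : CubicGroup f G θ) (H : AddSubgroup G) (x : G) (hH : (H : Set G).Finite)
    (hx : x + x + x ∈ H) (hSc : core S f θ H x = S) (hcard : S.card = Nat.card H) :
    S.card ≤ dfc S + 3 := by
  classical
  have hmem : ∀ a ∈ S, NS f (cpt a) ∧ θ (cpt a) - x ∈ H := by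
    intro a ha
    rw [← hSc, mem_core] at ha
    exact ha.2
  have hinj : ∀ a ∈ S, ∀ b ∈ S, θ (cpt a) = θ (cpt b) → a = b := fun a ha b hb h =>
    cpt_injective (hθ.inj _ _ (hmem a ha).1 (hmem b hb).1 h)
  -- surjectivity
  have hsurj : ∀ g ∈ H, ∃ a ∈ S, θ (cpt a) = x + g := by
    set T := hH.toFinset with hT
    have hTH : ∀ g, g ∈ T ↔ g ∈ H := fun g => by rw [hT, Set.Finite.mem_toFinset]; rfl
    have hcT : Nat.card H = T.card := by
      rw [hT]
      have := Nat.card_eq_card_finite_toFinset hH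
      exact this
    have him : S.image (fun a => θ (cpt a) - x) = T := by
      refine Finset.eq_of_subset_of_card_le ?_ ?_
      · intro g hg
        obtain ⟨a, ha, rfl⟩ := Finset.mem_image.1 hg
        exact (hTH _).2 (hmem a ha).2
      · rw [Finset.card_image_of_injOn, hcard, hcT]
        intro a ha b hb hab
        exact hinj a ha b hb (sub_left_injective hab)
    intro g hg
    have hg' := (hTH g).2 hg
    rw [← him] at hg'
    obtain ⟨a, ha, h⟩ := Finset.mem_image.1 hg'
    exact ⟨a, ha, by rw [← h]; abel⟩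
  -- the third point of a pair
  have hthird : ∀ a ∈ S, ∀ b ∈ S, ∃ c ∈ S, θ (cpt c) = -(θ (cpt a) + θ (cpt b)) := by
    intro a ha b hb
    have h1 : -(θ (cpt a) - x) - (θ (cpt b) - x) - (x + x + x) ∈ H :=
      H.sub_mem (H.sub_mem (H.neg_mem (hmem a ha).2) (hmem b hb).2) hx
    obtain ⟨c, hc, h2⟩ := hsurj _ h1
    exact ⟨c, hc, by rw [h2]; abel⟩
  set K := S.filter (fun a => θ (cpt a) + θ (cpt a) + θ (cpt a) = 0) with hK
  have hKS : K ⊆ S := Finset.filter_subset _ _
  have hK3 : ∀ a ∈ K, θ (cpt a) + θ (cpt a) + θ (cpt a) = 0 := fun a ha =>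
    (Finset.mem_filter.1 ha).2
  -- K is small
  have hKcard : K.card ≤ 3 := by
    by_contra hcon
    push Not at hcon
    have hnon : ∃ a ∈ K, ∃ b ∈ K, ∃ c ∈ K, det2 a b c ≠ 0 := by
      obtain ⟨a, ha, b, hb, hab⟩ := Finset.one_lt_card.1 (show 1 < K.card by omega)
      by_contra hall
      push Not at hall
      have h1 : K ⊆ blk S (vtx a b) ∩ core S f θ H x := by
        intro c hc
        rw [Finset.mem_inter, hSc]
        refine ⟨?_, hKS hc⟩
        rw [← col_iff_blk hS (hKS ha) (hKS hb) (hKS hc) hab, endFin_det]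
        exact hall a ha b hb c hc
      have h2 := (Finset.card_le_card h1).trans (core_blk hS f hf h3 θ H x (vtx a b))
      omega
    obtain ⟨a, ha, b, hb, hab, hline⟩ := sylvester_gallai K hnon
    have ha3 := hK3 a ha
    have hb3 := hK3 b hb
    obtain ⟨c, hc, hct⟩ := hthird a (hKS ha) b (hKS hb)
    have hcK : c ∈ K := by
      rw [hK, Finset.mem_filter]
      refine ⟨hc, ?_⟩
      rw [hct]
      have e : -(θ (cpt a) + θ (cpt b)) + -(θ (cpt a) + θ (cpt b)) + -(θ (cpt a) + θ (cpt b)) =
          -(θ (cpt a) + θ (cpt a) + θ (cpt a)) - (θ (cpt b) + θ (cpt b) + θ (cpt b)) := by abel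
      rw [e, ha3, hb3]
      simp
    have hca : c ≠ a := by
      intro h
      rw [h] at hct
      exact hab (hinj a (hKS ha) b (hKS hb) (endFin_grp ha3 hct))
    have hcb : c ≠ b := by
      intro h
      rw [h, add_comm] at hct
      exact hab (hinj a (hKS ha) b (hKS hb) (endFin_grp hb3 hct).symm)
    have hcol : Col (cpt a) (cpt b) (cpt c) := by
      rw [hθ.col _ _ _ (hmem a (hKS ha)).1 (hmem b (hKS hb)).1 (hmem c hc).1
        (fun h => hab (cpt_injective h)) (fun h => hca (cpt_injective h).symm)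
        (fun h => hcb (cpt_injective h).symm), hct]
      abel
    rcases hline c hcK ((endFin_det a b c).1 hcol) with h | h
    · exact hca h
    · exact hcb h
  -- the tangential partner
  have hpart : ∀ a : Pt, ∃ b : Pt, a ∈ S → b ∈ S ∧ θ (cpt b) = -(θ (cpt a) + θ (cpt a)) := by
    intro a
    by_cases ha : a ∈ S
    · obtain ⟨c, hc, h⟩ := hthird a ha a ha
      exact ⟨c, fun _ => ⟨hc, h⟩⟩
    · exact ⟨a, fun h => absurd h ha⟩
  choose P hP using hpart
  have hPne : ∀ a ∈ S \ K, P a ≠ a := by
    intro a ha h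
    rw [Finset.mem_sdiff] at ha
    have h1 := (hP a ha.1).2
    rw [h] at h1
    apply ha.2
    rw [hK, Finset.mem_filter]
    refine ⟨ha.1, ?_⟩
    calc θ (cpt a) + θ (cpt a) + θ (cpt a) = θ (cpt a) + (θ (cpt a) + θ (cpt a)) := by abel
      _ = -(θ (cpt a) + θ (cpt a)) + (θ (cpt a) + θ (cpt a)) := by rw [← h1]
      _ = 0 := by abel
  have hvm : ∀ a ∈ S \ K, vtx a (P a) ∈ verts S ∧ a ∈ blk S (vtx a (P a)) ∧
      P a ∈ blk S (vtx a (P a)) := by
    intro a ha
    have ha' := (Finset.mem_sdiff.1 ha).1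
    exact vtx_mem hS ha' (hP a ha').1 (hPne a ha).symm
  have hblk : ∀ a ∈ S \ K, blk S (vtx a (P a)) = {a, P a} := by
    intro a ha
    have ha' := (Finset.mem_sdiff.1 ha).1
    obtain ⟨-, h1, h2⟩ := hvm a ha
    ext c
    rw [Finset.mem_insert, Finset.mem_singleton]
    constructor
    · intro hc
      by_contra hcon
      push Not at hcon
      have hcS := (mem_blk.1 hc).1
      have h5 := (core_third hS f θ hθ H x hx (a := a) (b := P a) (c := c)
        (by rw [hSc]; exact ha') (by rw [hSc]; exact (hP a ha').1) (hPne a ha).symm h1 h2 hc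
        (hmem c hcS).1 hcon.1 hcon.2).1
      apply hcon.1
      apply hinj c hcS a ha'
      rw [(hP a ha').2] at h5
      have h6 : θ (cpt c) - θ (cpt a) = 0 := by
        rw [← h5]; abel
      exact sub_eq_zero.1 h6
    · rintro (rfl | rfl)
      · exact h1
      · exact h2
  have hinjv : Set.InjOn (fun a => vtx a (P a)) ((S \ K : Finset Pt) : Set Pt) := by
    intro a ha b hb hab
    rw [Finset.mem_coe] at ha hb
    by_contra hne
    have h1 := hblk a ha
    have h2 := hblk b hb
    simp only at hab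
    rw [hab, h2] at h1
    have hb1 : b ∈ ({a, P a} : Finset Pt) := by rw [← h1]; simp
    have ha1 : a ∈ ({b, P b} : Finset Pt) := by rw [h1]; simp
    rw [Finset.mem_insert, Finset.mem_singleton] at ha1 hb1
    have hb2 : b = P a := hb1.resolve_left (fun h => hne h.symm)
    have ha2 : a = P b := ha1.resolve_left hne
    have haS := (Finset.mem_sdiff.1 ha).1
    have hbS := (Finset.mem_sdiff.1 hb).1
    have q1 := (hP a haS).2
    have q2 := (hP b hbS).2
    rw [← hb2] at q1
    rw [← ha2] at q2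
    apply (Finset.mem_sdiff.1 ha).2
    rw [hK, Finset.mem_filter]
    refine ⟨haS, ?_⟩
    have q3 : θ (cpt a) = (θ (cpt a) + θ (cpt a) + θ (cpt a)) + θ (cpt a) := by
      calc θ (cpt a) = -(θ (cpt b) + θ (cpt b)) := q2
        _ = -(-(θ (cpt a) + θ (cpt a)) + -(θ (cpt a) + θ (cpt a))) := by rw [← q1]
        _ = _ := by abel
    have q4 : 0 + θ (cpt a) = (θ (cpt a) + θ (cpt a) + θ (cpt a)) + θ (cpt a) := by
      rw [zero_add]; exact q3
    exact (add_right_cancel q4).symm
  -- the sum
  have hsum : (S \ K).card ≤ dfc S := by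
    have h1 : ∑ v ∈ (S \ K).image (fun a => vtx a (P a)), wt (blk S v).card = (S \ K).card := by
      rw [Finset.sum_image hinjv, Finset.card_eq_sum_ones]
      refine Finset.sum_congr rfl fun a ha => ?_
      rw [hblk a ha, Finset.card_pair (hPne a ha).symm]
      rfl
    rw [← h1]
    unfold dfc
    refine Finset.sum_le_sum_of_subset ?_
    intro v hv
    obtain ⟨a, ha, rfl⟩ := Finset.mem_image.1 hv
    exact (hvm a ha).1
  have h7 := Finset.card_sdiff_of_subset hKS
  have h8 := Finset.card_le_card hKS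
  omega

end Pool.Agent.Lib.MP_214199_co.Eff
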