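import Mathlib

/-!
# The numerical end of the argument
-/

set_option autoImplicit false

namespace Pool.Agent.Lib.MP_214199_co.Eff

/-- Proof.  (1) From `h3`, `h2`, `hJ`, `hD`, `hA`: `μ (N - 2 μ - 2 e - 12) ≤ 14 e + 10`, where
`N - 2 μ - 2 e = 2 n - N - 4 e ≥ 0.076 n` (`μ = N - n + e`); so `μ (0.076 n - 12) ≤ 2.114 n + 10` and
`μ ≤ 28`.  (2) From `h3`, `h1`, `hJ`, `hD`, `hA`:
`2 e (N - 4 μ - e - 18) + μ (N - 2 μ - 12) ≤ 10`, where `N ≥ n - e ≥ 0.849 n`, so both brackets are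
`> 10`; hence `e = 0` and `μ = 0`. -/
theorem end_num (n N e μ L D J : ℤ) (hn : 5 * 10 ^ 7 ≤ n) (he : 1000 * e ≤ 151 * n) (he0 : 0 ≤ e)
    (hμ0 : 0 ≤ μ) (hN : 1000 * N ≤ 1320 * n) (hA : n = N - μ + e) (hD : D + 4 ≤ n)
    (h3 : μ * (N - 2 * μ - 4) + 2 * (N - 5 * μ - 9) ≤ 2 * L) (hJ : J ≤ e * (μ + 6))
    (h2 : L ≤ D + J) (h1 : e * (N - μ) + L ≤ D + e * (e - 1) + 3 * J) : e = 0 ∧ μ = 0 := by
  -- step 1
  have s1 : μ * (N - 2 * μ - 2 * e - 12) ≤ 14 * e + 10 := by nlinarith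
  have s2 : 76 * n ≤ 1000 * (N - 2 * μ - 2 * e) := by
    have : N - 2 * μ - 2 * e = 2 * n - N - 4 * e := by linarith
    rw [this]
    linarith
  have s3 : μ ≤ 28 := by
    by_contra hcon
    push Not at hcon
    have h4 : 29 ≤ μ := by linarith
    have h5 : 0 ≤ (N - 2 * μ - 2 * e - 12) := by linarith
    have h6 : 29 * (N - 2 * μ - 2 * e - 12) ≤ μ * (N - 2 * μ - 2 * e - 12) :=
      mul_le_mul_of_nonneg_right h4 h5
    linarith
  have s4 : 2 * (e * (N - 4 * μ - e - 18)) + μ * (N - 2 * μ - 12) ≤ 10 := by nlinarith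
  have s5 : 11 ≤ N - 4 * μ - e - 18 := by linarith
  have s6 : 11 ≤ N - 2 * μ - 12 := by linarith
  have s7 : 0 ≤ e * (N - 4 * μ - e - 18) := mul_nonneg he0 (by linarith)
  have s8 : 0 ≤ μ * (N - 2 * μ - 12) := mul_nonneg hμ0 (by linarith)
  constructor
  · by_contra hcon
    have h4 : 1 ≤ e := by omega
    have h5 : 1 * (N - 4 * μ - e - 18) ≤ e * (N - 4 * μ - e - 18) :=
      mul_le_mul_of_nonneg_right h4 (by linarith)
    linarith
  · by_contra hcon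
    have h4 : 1 ≤ μ := by omega
    have h5 : 1 * (N - 2 * μ - 12) ≤ μ * (N - 2 * μ - 12) :=
      mul_le_mul_of_nonneg_right h4 (by linarith)
    linarith

end Pool.Agent.Lib.MP_214199_co.Eff
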