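import Pool.Agent.Lib.MP_214199_co.Eff.ParCol

/-!
# Lines with the same third point
-/

set_option autoImplicit false

namespace Pool.Agent.Lib.MP_214199_co.Eff

open MvPolynomial

variable {f : Poly} {F : Poly3} {M : Matrix (Fin 3) (Fin 3) ℂ} {W : WeierstrassCurve.Affine ℂ}
  {θ : (Fin 2 → ℂ) → W.Point}

/-- A cubic form on multiples of a vector. -/
theorem pthird_smul (G : Poly3) (hG : G.IsHomogeneous 3) (k : ℂ) (X : Fin 3 → ℂ) :
    eval (k • X) G = k ^ 3 * eval X G := by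
  rw [MvPolynomial.eval_eq, MvPolynomial.eval_eq, Finset.mul_sum]
  refine Finset.sum_congr rfl fun d hd => ?_
  have h1 : ∑ i ∈ d.support, d i = 3 := by
    have h1 := hG (MvPolynomial.mem_support_iff.1 hd)
    rw [Finsupp.weight_apply] at h1
    refine Eq.trans ?_ h1
    unfold Finsupp.sum
    refine Finset.sum_congr rfl fun i _ => ?_
    simp
  have h2 : ∏ i ∈ d.support, (k • X) i ^ d i = k ^ 3 * ∏ i ∈ d.support, X i ^ d i := by
    have h3 : k ^ 3 = ∏ i ∈ d.support, k ^ d i := by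
      rw [Finset.prod_pow_eq_pow_sum, h1]
    rw [h3, ← Finset.prod_mul_distrib]
    refine Finset.prod_congr rfl fun i _ => ?_
    rw [Pi.smul_apply, smul_eq_mul, mul_pow]
  rw [h2]
  ring

/-- The determinant of three rows. -/
theorem pthird_det3 (u v w : Fin 3 → ℂ) : Matrix.det ![u, v, w] =
    u 0 * v 1 * w 2 - u 0 * v 2 * w 1 - u 1 * v 0 * w 2 + u 1 * v 2 * w 0 + u 2 * v 0 * w 1 -
      u 2 * v 1 * w 0 := Matrix.det_fin_three _

/-- Determinants and a linear change of variables. -/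
theorem pthird_det (N : Matrix (Fin 3) (Fin 3) ℂ) (u v w : Fin 3 → ℂ) :
    Matrix.det ![N.mulVec u, N.mulVec v, N.mulVec w] = N.det * Matrix.det ![u, v, w] := by
  rw [pthird_det3, pthird_det3, Matrix.det_fin_three]
  simp only [Matrix.mulVec, dotProduct, Fin.sum_univ_three]
  ring

/-- Determinants and multiples. -/
theorem pthird_det_smul (x y : ℂ) (u v w : Fin 3 → ℂ) :
    Matrix.det ![x • u, y • v, w] = x * y * Matrix.det ![u, v, w] := by
  rw [pthird_det3, pthird_det3]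
  simp only [Pi.smul_apply, smul_eq_mul]
  ring

/-- Two planes of `ℂ³` with two independent common vectors are equal. -/
theorem pthird_plane (A B C V Y n W : Fin 3 → ℂ)
    (hW0 : W 0 = V 1 * Y 2 - V 2 * Y 1) (hW1 : W 1 = V 2 * Y 0 - V 0 * Y 2)
    (hW2 : W 2 = V 0 * Y 1 - V 1 * Y 0) (hWne : ∃ i, W i ≠ 0)
    (hABV : Matrix.det ![A, B, V] = 0) (hABY : Matrix.det ![A, B, Y] = 0)
    (hn : ∃ i, n i ≠ 0)
    (hnV : n 0 * V 0 + n 1 * V 1 + n 2 * V 2 = 0) (hnY : n 0 * Y 0 + n 1 * Y 1 + n 2 * Y 2 = 0)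
    (hnC : n 0 * C 0 + n 1 * C 1 + n 2 * C 2 = 0) : Matrix.det ![A, B, C] = 0 := by
  -- `n` is a multiple of `W`
  have key : ∀ u : Fin 3 → ℂ, u 0 * V 0 + u 1 * V 1 + u 2 * V 2 = 0 →
      u 0 * Y 0 + u 1 * Y 1 + u 2 * Y 2 = 0 → u 0 * W 1 = u 1 * W 0 ∧ u 0 * W 2 = u 2 * W 0 ∧
      u 1 * W 2 = u 2 * W 1 := by
    intro u h1 h2
    rw [hW0, hW1, hW2]
    refine ⟨?_, ?_, ?_⟩
    · linear_combination V 2 * h2 - Y 2 * h1
    · linear_combination Y 1 * h1 - V 1 * h2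
    · linear_combination V 0 * h2 - Y 0 * h1
  have e1 : ∀ X : Fin 3 → ℂ, Matrix.det ![A, B, X] =
      (A 1 * B 2 - A 2 * B 1) * X 0 + (A 2 * B 0 - A 0 * B 2) * X 1 +
        (A 0 * B 1 - A 1 * B 0) * X 2 := by
    intro X
    rw [pthird_det3]
    ring
  rw [e1] at hABV hABY ⊢
  obtain ⟨a1, a2, a3⟩ := key ![A 1 * B 2 - A 2 * B 1, A 2 * B 0 - A 0 * B 2,
    A 0 * B 1 - A 1 * B 0] hABV hABY
  obtain ⟨b1, b2, b3⟩ := key n hnV hnY
  simp only [Matrix.cons_val_zero, Matrix.cons_val_one, Matrix.cons_val] at a1 a2 a3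
  obtain ⟨p, hp⟩ : ∃ p, p = A 1 * B 2 - A 2 * B 1 := ⟨_, rfl⟩
  obtain ⟨q, hq⟩ : ∃ q, q = A 2 * B 0 - A 0 * B 2 := ⟨_, rfl⟩
  obtain ⟨r, hr⟩ : ∃ r, r = A 0 * B 1 - A 1 * B 0 := ⟨_, rfl⟩
  rw [← hp, ← hq] at a1
  rw [← hp, ← hr] at a2
  rw [← hq, ← hr] at a3
  rw [← hp, ← hq, ← hr]
  -- `W · C = 0`
  have hWC : W 0 * C 0 + W 1 * C 1 + W 2 * C 2 = 0 := by
    obtain ⟨j, hj⟩ := hn
    refine (mul_eq_zero.1 (?_ : n j * (W 0 * C 0 + W 1 * C 1 + W 2 * C 2) = 0)).resolve_left hj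
    fin_cases j
    · simp only [Fin.zero_eta, Fin.isValue]
      linear_combination W 0 * hnC + C 1 * b1 + C 2 * b2
    · simp only [Fin.mk_one, Fin.isValue]
      linear_combination W 1 * hnC - C 0 * b1 + C 2 * b3
    · simp only [Fin.reduceFinMk, Fin.isValue]
      linear_combination W 2 * hnC - C 0 * b2 - C 1 * b3
  obtain ⟨i, hi⟩ := hWne
  refine (mul_eq_zero.1 (?_ : W i * (p * C 0 + q * C 1 + r * C 2) = 0)).resolve_left hi
  fin_cases i
  · simp only [Fin.zero_eta, Fin.isValue]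
    linear_combination p * hWC - C 1 * a1 - C 2 * a2
  · simp only [Fin.mk_one, Fin.isValue]
    linear_combination q * hWC + C 0 * a1 - C 2 * a3
  · simp only [Fin.reduceFinMk, Fin.isValue]
    linear_combination r * hWC + C 0 * a2 + C 1 * a3

/-- `Col` as a determinant. -/
theorem pthird_col (a b c : Fin 2 → ℂ) :
    Matrix.det ![![a 0, a 1, 1], ![b 0, b 1, 1], ![c 0, c 1, 1]] = det3c a b c := by
  unfold det3c
  rw [pthird_det3]
  simp only [Matrix.cons_val_zero, Matrix.cons_val_one, Matrix.cons_val]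
  ring

/-- Proof.  `m = -(θ a + θ b) = -(θ c + θ d)`, `V = M (vec m) ≠ 0`, a zero of `F` (`wf_vec`).  Write
`A = ![a 0, a 1, 1]`, ..., `Y = ![y 0, y 1, 1]`.  By `det_of_sum`, `V` is in the span of `A`, `B`
(linearly independent) and in the span of `C`, `D`; `Y` too (`Col`).  `V` and `Y` are linearly
independent because `F V = 0`, `F Y = f(y) ≠ 0` and `F` is homogeneous.  So both spans are the span
of `V`, `Y`, and `C`, `D` are in the span of `A`, `B`: `Col a b c`, `Col a b d`.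
(With determinants: two planes of `ℂ³` with two linearly independent common vectors are equal.) -/
theorem par_third (h : Par f F M W θ) (a b c d y : Fin 2 → ℂ) (ha : NS f a) (hb : NS f b)
    (hc : NS f c) (hd : NS f d) (hab : a ≠ b) (hcd : c ≠ d) (he : θ a + θ b = θ c + θ d)
    (h1 : Col a b y) (h2 : Col c d y) (hy : ¬ Zr f y) : Col a b c ∧ Col a b d := by
  have _ := hab
  obtain ⟨m, hm⟩ : ∃ m : W.Point, m = -(θ a + θ b) := ⟨_, rfl⟩
  obtain ⟨V, hV⟩ : ∃ V : Fin 3 → ℂ, V = M.mulVec (vec m) := ⟨_, rfl⟩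
  obtain ⟨Y, hY⟩ : ∃ Y : Fin 3 → ℂ, Y = ![y 0, y 1, 1] := ⟨_, rfl⟩
  have hFV : eval V F = 0 := by
    rw [hV, h.mul]
    exact (wf_vec m).1
  have hFY : eval Y F ≠ 0 := by
    rw [hY, h.ev]
    exact hy
  have hvec : vec m ≠ 0 := by
    intro h0
    obtain ⟨w, hw⟩ := (wf_vec m).2
    apply hw
    rw [h0]
    simp [dwf]
  have hV0 : V ≠ 0 := by
    intro h0
    apply hvec
    rw [hV] at h0
    have h3 : M⁻¹.mulVec (M.mulVec (vec m)) = vec m := by
      rw [Matrix.mulVec_mulVec, Matrix.nonsing_inv_mul M h.det, Matrix.one_mulVec]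
    rw [← h3, h0, Matrix.mulVec_zero]
  -- the determinants with `V`
  have hdet : ∀ u v : Fin 2 → ℂ, NS f u → NS f v → θ u + θ v + m = 0 →
      Matrix.det ![![u 0, u 1, 1], ![v 0, v 1, 1], V] = 0 := by
    intro u v hu hv h0
    obtain ⟨k, -, hk⟩ := h.lift u hu
    obtain ⟨l, -, hl⟩ := h.lift v hv
    rw [hk, hl, hV, pthird_det_smul, pthird_det, det_of_sum _ _ _ h0]
    ring
  have d1 := hdet a b ha hb (by rw [hm]; abel)
  have d2 := hdet c d hc hd (by rw [hm, he]; abel)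
  have d3 : Matrix.det ![![a 0, a 1, 1], ![b 0, b 1, 1], Y] = 0 := by
    rw [hY, pthird_col]; exact h1
  have d4 : Matrix.det ![![c 0, c 1, 1], ![d 0, d 1, 1], Y] = 0 := by
    rw [hY, pthird_col]; exact h2
  -- `V` and `Y` are independent
  obtain ⟨X, hX⟩ : ∃ X : Fin 3 → ℂ, X = ![V 1 * Y 2 - V 2 * Y 1, V 2 * Y 0 - V 0 * Y 2,
    V 0 * Y 1 - V 1 * Y 0] := ⟨_, rfl⟩
  have hX0 : X 0 = V 1 * Y 2 - V 2 * Y 1 := by rw [hX]; rfl
  have hX1 : X 1 = V 2 * Y 0 - V 0 * Y 2 := by rw [hX]; rfl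
  have hX2 : X 2 = V 0 * Y 1 - V 1 * Y 0 := by rw [hX]; rfl
  have hXne : ∃ i, X i ≠ 0 := by
    by_contra hcon
    push Not at hcon
    have hY2 : Y 2 = 1 := by rw [hY]; rfl
    have g0 := hcon 0
    have g1 := hcon 1
    rw [hX0, hY2] at g0
    rw [hX1, hY2] at g1
    have hVY : V = V 2 • Y := by
      funext i
      fin_cases i
      · simp only [Fin.zero_eta, Fin.isValue, Pi.smul_apply, smul_eq_mul]
        linear_combination -g1
      · simp only [Fin.mk_one, Fin.isValue, Pi.smul_apply, smul_eq_mul]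
        linear_combination g0
      · simp only [Fin.reduceFinMk, Fin.isValue, Pi.smul_apply, smul_eq_mul]
        rw [hY2]; ring
    have hV2 : V 2 ≠ 0 := by
      intro h0
      apply hV0
      rw [hVY, h0, zero_smul]
    have h3 : eval V F = V 2 ^ 3 * eval Y F := by
      conv_lhs => rw [hVY]
      exact pthird_smul F h.homog _ _
    rw [hFV] at h3
    rcases mul_eq_zero.1 h3.symm with h4 | h4
    · exact hV2 (pow_eq_zero_iff (by norm_num) |>.1 h4)
    · exact hFY h4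
  -- the normal vector of the plane of `c`, `d`
  obtain ⟨n, hn⟩ : ∃ n : Fin 3 → ℂ, n = ![c 1 - d 1, d 0 - c 0, c 0 * d 1 - c 1 * d 0] := ⟨_, rfl⟩
  have hn0 : n 0 = c 1 - d 1 := by rw [hn]; rfl
  have hn1 : n 1 = d 0 - c 0 := by rw [hn]; rfl
  have hn2 : n 2 = c 0 * d 1 - c 1 * d 0 := by rw [hn]; rfl
  have hnne : ∃ i, n i ≠ 0 := by
    by_contra hcon
    push Not at hcon
    apply hcd
    have g0 := hcon 0
    have g1 := hcon 1
    rw [hn0] at g0
    rw [hn1] at g1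
    funext i
    fin_cases i
    · simp only [Fin.zero_eta, Fin.isValue]
      linear_combination -g1
    · simp only [Fin.mk_one, Fin.isValue]
      linear_combination g0
  have hn' : ∀ X : Fin 3 → ℂ, Matrix.det ![![c 0, c 1, 1], ![d 0, d 1, 1], X] =
      n 0 * X 0 + n 1 * X 1 + n 2 * X 2 := by
    intro X
    rw [hn0, hn1, hn2, pthird_det3]
    simp only [Matrix.cons_val_zero, Matrix.cons_val_one, Matrix.cons_val]
    ring
  have e1 := hn' V
  rw [d2] at e1
  have e2 := hn' Y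
  rw [d4] at e2
  constructor
  · have e3 := pthird_plane ![a 0, a 1, 1] ![b 0, b 1, 1] ![c 0, c 1, 1] V Y n X hX0 hX1 hX2 hXne
      d1 d3 hnne e1.symm e2.symm (by
        rw [← hn', pthird_det3]
        ring)
    rw [pthird_col] at e3
    exact e3
  · have e3 := pthird_plane ![a 0, a 1, 1] ![b 0, b 1, 1] ![d 0, d 1, 1] V Y n X hX0 hX1 hX2 hXne
      d1 d3 hnne e1.symm e2.symm (by
        rw [← hn', pthird_det3]
        ring)
    rw [pthird_col] at e3
    exact e3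

end Pool.Agent.Lib.MP_214199_co.Eff
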