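import Pool.Agent.Lib.MP_214199_co.Eff.Weier

/-!
# 3-torsion
-/

set_option autoImplicit false

namespace Pool.Agent.Lib.MP_214199_co.Eff

open WeierstrassCurve

/-- the abscissa of a point (`0` for the zero point) -/
def torsThree_x {W : Affine ℂ} : W.Point → ℂ
  | .zero => 0
  | .some x _ _ => x

theorem torsThree_root {W : Affine ℂ} {x y : ℂ} (h : W.Nonsingular x y)
    (h3 : Affine.Point.some x y h + Affine.Point.some x y h + Affine.Point.some x y h = 0) :
    W.Ψ₃.eval x = 0 := by
  have h3' : Affine.Point.some x y h + Affine.Point.some x y h = -Affine.Point.some x y h :=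
    eq_neg_of_add_eq_zero_left h3
  by_cases hy : y = W.negY x y
  · rw [Affine.Point.add_self_of_Y_eq hy, eq_comm, neg_eq_zero] at h3'
    exact absurd h3' (Affine.Point.some_ne_zero h)
  · rw [Affine.Point.add_self_of_Y_ne hy, Affine.Point.neg_some] at h3'
    have h1 : W.addX x x (W.slope x x y y) = x := by
      have := Affine.Point.some.inj h3'
      exact this.1
    rw [Affine.slope_of_Y_ne rfl hy] at h1
    have hD : y - W.negY x y ≠ 0 := sub_ne_zero.2 hy
    have heq := (Affine.equation_iff _ _).1 h.1
    unfold Affine.addX at h1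
    field_simp at h1
    simp only [Affine.negY] at h1 hD
    simp only [WeierstrassCurve.Ψ₃, Polynomial.eval_add, Polynomial.eval_mul, Polynomial.eval_pow,
      Polynomial.eval_X, Polynomial.eval_C, Polynomial.eval_ofNat, WeierstrassCurve.b₂,
      WeierstrassCurve.b₄, WeierstrassCurve.b₆, WeierstrassCurve.b₈]
    linear_combination (-1 : ℂ) * h1 + (-W.a₁ ^ 2 - 4 * (W.a₂ + 3 * x)) * heq

/-- At most nine points with `P + P + P = 0`.
Proof.  `P = 0` or `P = (x, y)`, `P + P = -P`, so `y ≠ negY x y` and `addX x x l = x` with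
`l = slope`; multiply by `(2 y + a₁ x + a₃)^2` and use the equation of the curve:
`3 x^4 + b₂ x^3 + 3 b₄ x^2 + 3 b₆ x + b₈ = 0` (the third division polynomial), at most four `x`, and
at most two `y` for each `x`. -/
theorem tors_three {W : Affine ℂ} (T : Finset W.Point) (h : ∀ P ∈ T, P + P + P = 0) :
    T.card ≤ 9 := by
  classical
  have hne : W.Ψ₃ ≠ 0 := W.Ψ₃_ne_zero (by norm_num)
  have hdeg : W.Ψ₃.natDegree ≤ 4 := W.natDegree_Ψ₃_le
  have himg : ((T.erase 0).image torsThree_x).card ≤ 4 := by
    refine le_trans ?_ hdeg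
    refine le_trans ?_ (Polynomial.card_roots' W.Ψ₃)
    refine le_trans ?_ (Multiset.toFinset_card_le _)
    apply Finset.card_le_card
    intro x hx
    obtain ⟨P, hP, rfl⟩ := Finset.mem_image.1 hx
    rw [Finset.mem_erase] at hP
    rw [Multiset.mem_toFinset, Polynomial.mem_roots hne, Polynomial.IsRoot.def]
    rcases P with _ | ⟨x, y, hxy⟩
    · exact absurd rfl hP.1
    · exact torsThree_root hxy (h _ hP.2)
  have h2 : (T.erase 0).card ≤ 2 * ((T.erase 0).image torsThree_x).card := by
    apply Finset.card_le_mul_card_image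
    intro b hb
    obtain ⟨P, hP, rfl⟩ := Finset.mem_image.1 hb
    have hsub : (T.erase 0).filter (fun Q => torsThree_x Q = torsThree_x P) ⊆ {P, -P} := by
      intro Q hQ
      rw [Finset.mem_filter, Finset.mem_erase] at hQ
      rw [Finset.mem_erase] at hP
      rcases P with _ | ⟨x, y, hxy⟩
      · exact absurd rfl hP.1
      rcases Q with _ | ⟨x', y', hxy'⟩
      · exact absurd rfl hQ.1.1
      have hx : x' = x := hQ.2
      rw [Finset.mem_insert, Finset.mem_singleton]
      exact Affine.Point.X_eq_iff.1 hx
    exact (Finset.card_le_card hsub).trans Finset.card_le_two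
  have h3 : T.card ≤ (T.erase 0).card + 1 := by
    rw [Finset.card_erase_eq_ite]
    split_ifs <;> omega
  omega

end Pool.Agent.Lib.MP_214199_co.Eff
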