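import Pool.Agent.Lib.MP_214199_co.Eff.Weier

/-!
# 2-torsion
-/

set_option autoImplicit false

namespace Pool.Agent.Lib.MP_214199_co.Eff

open WeierstrassCurve

/-- the abscissa of a point (`0` for the zero point) -/
def torsTwo_x {W : Affine ℂ} : W.Point → ℂ
  | .zero => 0
  | .some x _ _ => x

theorem torsTwo_negY {W : Affine ℂ} {x y : ℂ} (h : W.Nonsingular x y)
    (h2 : Affine.Point.some x y h + Affine.Point.some x y h = 0) : y = W.negY x y := by
  by_contra hy
  rw [Affine.Point.add_self_of_Y_ne hy] at h2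
  exact absurd h2 (Affine.Point.some_ne_zero _)

theorem torsTwo_root {W : Affine ℂ} {x y : ℂ} (h : W.Nonsingular x y)
    (h2 : Affine.Point.some x y h + Affine.Point.some x y h = 0) : W.Ψ₂Sq.eval x = 0 := by
  have hy := torsTwo_negY h h2
  have heq := (Affine.equation_iff _ _).1 h.1
  simp only [Affine.negY] at hy
  simp only [WeierstrassCurve.Ψ₂Sq, Polynomial.eval_add, Polynomial.eval_mul, Polynomial.eval_pow,
    Polynomial.eval_X, Polynomial.eval_C, WeierstrassCurve.b₂,
    WeierstrassCurve.b₄, WeierstrassCurve.b₆]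
  linear_combination (-4 : ℂ) * heq + (2 * y + W.a₁ * x + W.a₃) * hy

/-- At most four points with `P + P = 0`.
Proof.  `P = 0` or `P = (x, y)` with `y = negY x y`, `2 y + a₁ x + a₃ = 0`, so
`4 x^3 + b₂ x^2 + 2 b₄ x + b₆ = 0` (at most three `x`), and `y` is determined by `x`. -/
theorem tors_two {W : Affine ℂ} (T : Finset W.Point) (h : ∀ P ∈ T, P + P = 0) : T.card ≤ 4 := by
  classical
  have hne : W.Ψ₂Sq ≠ 0 := W.Ψ₂Sq_ne_zero (by norm_num)
  have hdeg : W.Ψ₂Sq.natDegree ≤ 3 := W.natDegree_Ψ₂Sq_le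
  have himg : ((T.erase 0).image torsTwo_x).card ≤ 3 := by
    refine le_trans ?_ hdeg
    refine le_trans ?_ (Polynomial.card_roots' W.Ψ₂Sq)
    refine le_trans ?_ (Multiset.toFinset_card_le _)
    apply Finset.card_le_card
    intro x hx
    obtain ⟨P, hP, rfl⟩ := Finset.mem_image.1 hx
    rw [Finset.mem_erase] at hP
    rw [Multiset.mem_toFinset, Polynomial.mem_roots hne, Polynomial.IsRoot.def]
    rcases P with _ | ⟨x, y, hxy⟩
    · exact absurd rfl hP.1
    · exact torsTwo_root hxy (h _ hP.2)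
  have h2 : ((T.erase 0).image torsTwo_x).card = (T.erase 0).card := by
    apply Finset.card_image_of_injOn
    intro P hP Q hQ hPQ
    rw [Finset.mem_coe, Finset.mem_erase] at hP hQ
    rcases P with _ | ⟨x, y, hxy⟩
    · exact absurd rfl hP.1
    rcases Q with _ | ⟨x', y', hxy'⟩
    · exact absurd rfl hQ.1
    have hx : x = x' := hPQ
    subst hx
    have h1 := torsTwo_negY hxy (h _ hP.2)
    have h2 := torsTwo_negY hxy' (h _ hQ.2)
    have h3 : y = y' := by
      simp only [Affine.negY] at h1 h2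
      linear_combination (1 / 2 : ℂ) * h1 - (1 / 2 : ℂ) * h2
    subst h3
    rfl
  have h3 : T.card ≤ (T.erase 0).card + 1 := by
    rw [Finset.card_erase_eq_ite]
    split_ifs <;> omega
  omega

end Pool.Agent.Lib.MP_214199_co.Eff
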