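import Pool.Agent.Lib.MP_214199_co.Eff.ParTan
import Pool.Agent.Lib.MP_214199_co.Eff.ParThird
import Pool.Agent.Lib.MP_214199_co.Eff.TorsTwo
import Pool.Agent.Lib.MP_214199_co.Eff.TorsThree

/-!
# The group law on a plane cubic
-/

set_option autoImplicit false

namespace Pool.Agent.Lib.MP_214199_co.Eff

open MvPolynomial

theorem exists_cubicGroup (f : Poly) (hf : Irreducible f) (h3 : f.totalDegree = 3) :
    ∃ (G : Type) (_ : AddCommGroup G) (θ : (Fin 2 → ℂ) → G), CubicGroup f G θ := by
  obtain ⟨F, M, W, θ, h⟩ := exists_par f hf h3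
  exact ⟨W.Point, inferInstance, θ, {
    inj := par_inj h
    col := par_col h
    tan := par_tan h
    third := par_third h
    two := tors_two
    three := tors_three }⟩

end Pool.Agent.Lib.MP_214199_co.Eff
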