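import Mathlib

/-!
# Pairs of elements of a coset whose third point is missing
-/

set_option autoImplicit false

namespace Pool.Agent.Lib.MP_214199_co.Eff

open Finset

theorem pairs_cover {α : Type*} [DecidableEq α] {Cs T B1 B2 B3 : Finset α}
    (h : Cs ⊆ T ∪ (B1 ∪ (B2 ∪ B3))) : Cs.card ≤ T.card + (B1.card + (B2.card + B3.card)) := by
  have h1 := card_le_card h
  have h2 := card_union_le T (B1 ∪ (B2 ∪ B3))
  have h3 := card_union_le B1 (B2 ∪ B3)
  have h4 := card_union_le B2 B3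
  omega

theorem pairs_two {G : Type*} [AddCommGroup G]
    (two : ∀ T : Finset G, (∀ g ∈ T, g + g = 0) → T.card ≤ 4) (T : Finset G) (c : G)
    (hT : ∀ g ∈ T, g + g = c) : T.card ≤ 4 := by
  classical
  rcases T.eq_empty_or_nonempty with h | ⟨g0, h0⟩
  · rw [h]
    exact Nat.zero_le _
  · rw [← card_image_of_injective T (sub_left_injective (b := g0))]
    refine two _ fun g hg => ?_
    obtain ⟨a, ha, rfl⟩ := mem_image.1 hg
    have h1 := hT a ha
    have h2 := hT g0 h0
    have h3 : a - g0 + (a - g0) = (a + a) - (g0 + g0) := by abel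
    rw [h3, h1, h2, sub_self]

open Classical in
/-- the pairs of the first kind -/
theorem pairs_first {G : Type*} [AddCommGroup G] (Cs A M : Finset G) (hM : M = Cs \ A)
    (hthird : ∀ g ∈ Cs, ∀ h ∈ Cs, -(g + h) ∈ Cs)
    (two : ∀ T : Finset G, (∀ g ∈ T, g + g = 0) → T.card ≤ 4) :
    (M.card : ℤ) * (Cs.card - 2 * M.card - 4) ≤
      (((A ×ˢ A).filter (fun z => z.1 ≠ z.2 ∧ -(z.1 + z.2) ∈ M)).card : ℤ) := by
  have h1 : ∀ m ∈ M, (Cs.card : ℤ) - 2 * M.card - 4 ≤
      ((A.filter (fun g => -(m + g) ∈ A ∧ g ≠ -(m + g))).card : ℤ) := by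
    intro m hm
    have hmC : m ∈ Cs := by
      rw [hM, mem_sdiff] at hm
      exact hm.1
    have h2 : Cs ⊆ A.filter (fun g => -(m + g) ∈ A ∧ g ≠ -(m + g)) ∪
        (M ∪ (Cs.filter (fun g => -(m + g) ∈ M) ∪ Cs.filter (fun g => g + g = -m))) := by
      intro g hg
      simp only [mem_union, mem_filter]
      by_cases hgA : g ∈ A
      · by_cases hgA' : -(m + g) ∈ A
        · by_cases hgg : g = -(m + g)
          · right; right; right
            refine ⟨hg, ?_⟩
            nth_rewrite 2 [hgg]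
            abel
          · exact Or.inl ⟨hgA, hgA', hgg⟩
        · right; right; left
          refine ⟨hg, ?_⟩
          rw [hM, mem_sdiff]
          exact ⟨hthird m hmC g hg, hgA'⟩
      · right; left
        rw [hM, mem_sdiff]
        exact ⟨hg, hgA⟩
    have h3 := pairs_cover h2
    have h4 : (Cs.filter (fun g => -(m + g) ∈ M)).card ≤ M.card := by
      refine card_le_card_of_injOn (fun g => -(m + g)) (fun g hg => ?_) ?_
      · exact mem_coe.2 (mem_filter.1 (mem_coe.1 hg)).2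
      · intro g _ g' _ h
        exact add_left_cancel (neg_injective h)
    have h5 : (Cs.filter (fun g => g + g = -m)).card ≤ 4 :=
      pairs_two two _ (-m) fun g hg => (mem_filter.1 hg).2
    omega
  have h6 : (M.card : ℤ) * (Cs.card - 2 * M.card - 4) ≤
      ∑ m ∈ M, ((A.filter (fun g => -(m + g) ∈ A ∧ g ≠ -(m + g))).card : ℤ) := by
    rw [← nsmul_eq_mul]
    exact card_nsmul_le_sum _ _ _ h1
  refine h6.trans ?_
  rw [← Nat.cast_sum, ← card_sigma]
  norm_cast
  refine card_le_card_of_injOn (fun z => (z.2, -(z.1 + z.2))) ?_ ?_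
  · rintro ⟨m, g⟩ hz
    have hz' := mem_coe.1 hz
    simp only [mem_sigma, mem_filter] at hz'
    rw [mem_coe, mem_filter, mem_product]
    refine ⟨⟨hz'.2.1, hz'.2.2.1⟩, hz'.2.2.2, ?_⟩
    have : -(g + -(m + g)) = m := by abel
    rw [this]
    exact hz'.1
  · rintro ⟨m, g⟩ _ ⟨m', g'⟩ _ h
    simp only [Prod.mk.injEq] at h
    obtain ⟨rfl, h⟩ := h
    have h' := add_right_cancel (neg_injective h)
    rw [h']

open Classical in
/-- the elements whose double is in the set -/
theorem pairs_second {G : Type*} [AddCommGroup G] (Cs A M : Finset G) (hM : M = Cs \ A)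
    (hthird : ∀ g ∈ Cs, ∀ h ∈ Cs, -(g + h) ∈ Cs)
    (two : ∀ T : Finset G, (∀ g ∈ T, g + g = 0) → T.card ≤ 4)
    (three : ∀ T : Finset G, (∀ g ∈ T, g + g + g = 0) → T.card ≤ 9) :
    (Cs.card : ℤ) - 5 * M.card - 9 ≤
      ((A.filter (fun g => -(g + g) ∈ A ∧ g ≠ -(g + g))).card : ℤ) := by
  have h2 : Cs ⊆ A.filter (fun g => -(g + g) ∈ A ∧ g ≠ -(g + g)) ∪
      (M ∪ (Cs.filter (fun g => -(g + g) ∈ M) ∪ Cs.filter (fun g => g + g + g = 0))) := by
    intro g hg
    simp only [mem_union, mem_filter]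
    by_cases hgA : g ∈ A
    · by_cases hgA' : -(g + g) ∈ A
      · by_cases hgg : g = -(g + g)
        · right; right; right
          refine ⟨hg, ?_⟩
          nth_rewrite 3 [hgg]
          abel
        · exact Or.inl ⟨hgA, hgA', hgg⟩
      · right; right; left
        refine ⟨hg, ?_⟩
        rw [hM, mem_sdiff]
        exact ⟨hthird g hg g hg, hgA'⟩
    · right; left
      rw [hM, mem_sdiff]
      exact ⟨hg, hgA⟩
  have h3 := pairs_cover h2
  have h4 : (Cs.filter (fun g => -(g + g) ∈ M)).card ≤ 4 * M.card := by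
    refine card_le_mul_card_image_of_maps_to (f := fun g => -(g + g)) (fun g hg => ?_) 4
      fun b _ => ?_
    · exact (mem_filter.1 hg).2
    · refine pairs_two two _ (-b) fun g hg => ?_
      rw [← (mem_filter.1 hg).2, neg_neg]
  have h5 : (Cs.filter (fun g => g + g + g = 0)).card ≤ 9 :=
    three _ fun g hg => (mem_filter.1 hg).2
  omega

open Classical in
/-- Proof.  `N = |H|`, `Cs = x + H` (a finite set with `N` elements), `M = Cs ∖ A`, `|M| = μ`.  The
third element `-(g + h)` of `g, h ∈ Cs` is in `Cs` (`x + x + x ∈ H`).  The set on the right contains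
three disjoint sets of pairs `g ≠ h` in `A`: (1) `-(g + h) ∈ M`, (2) `h = -(g + g)`, (3)
`g = -(h + h)` ((2) and (3) are disjoint because `g = -2h = 4g` means `3g = 0`, `h = -2g = g`; in (2)
`-(g+h) = g ∈ A`, in (3) `-(g+h) = h ∈ A`).
(1): for `m ∈ M` the pairs `(g, -m-g)`, `g ∈ Cs`: `N`, at most `μ` with `g ∈ M`, at most `μ` with
`h ∈ M`, at most `4` with `g = h` (`two` for the differences of the solutions of `2g = -m`):
`≥ N - 2 μ - 4`.  (2): `g ∈ Cs`: at most `μ` are in `M`, at most `4 μ` have `-2g ∈ M` (`two`), at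
most `9` have `3g = 0` (`three`; then `h = g`): `≥ N - 5 μ - 9`.  (3) the same. -/
theorem pairs_count {G : Type*} [AddCommGroup G] (H : AddSubgroup G) (x : G)
    (hH : (H : Set G).Finite) (hx : x + x + x ∈ H)
    (two : ∀ T : Finset G, (∀ g ∈ T, g + g = 0) → T.card ≤ 4)
    (three : ∀ T : Finset G, (∀ g ∈ T, g + g + g = 0) → T.card ≤ 9)
    (A : Finset G) (hA : ∀ a ∈ A, a - x ∈ H) (μ : ℤ) (hμ : μ = (Nat.card H : ℤ) - A.card) :
    μ * (Nat.card H - 2 * μ - 4) + 2 * (Nat.card H - 5 * μ - 9) ≤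
      (((A ×ˢ A).filter (fun z => z.1 ≠ z.2 ∧
        (-(z.1 + z.2) ∉ A ∨ -(z.1 + z.2) = z.1 ∨ -(z.1 + z.2) = z.2))).card : ℤ) := by
  set Cs : Finset G := hH.toFinset.image (fun h => x + h) with hCs
  have hmem : ∀ g, g ∈ Cs ↔ g - x ∈ H := by
    intro g
    rw [hCs, mem_image]
    constructor
    · rintro ⟨h, hh, rfl⟩
      rw [add_sub_cancel_left]
      exact hH.mem_toFinset.1 hh
    · intro h
      exact ⟨g - x, hH.mem_toFinset.2 h, by abel⟩
  have hcard : Cs.card = Nat.card H := by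
    rw [hCs, card_image_of_injective _ (add_right_injective x), ← Set.ncard_eq_toFinset_card _ hH]
    rfl
  have hthird : ∀ g ∈ Cs, ∀ h ∈ Cs, -(g + h) ∈ Cs := by
    intro g hg h hh
    rw [hmem] at hg hh ⊢
    have h1 : -(g + h) - x = -((g - x) + (h - x) + (x + x + x)) := by abel
    rw [h1]
    exact H.neg_mem (H.add_mem (H.add_mem hg hh) hx)
  have hAC : A ⊆ Cs := fun a ha => (hmem a).2 (hA a ha)
  set M : Finset G := Cs \ A with hM
  have hMc : (M.card : ℤ) = μ := by
    have h1 := card_sdiff_add_card_eq_card hAC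
    rw [← hM] at h1
    rw [hμ, ← hcard]
    omega
  have h1 := pairs_first Cs A M hM hthird two
  have h2 := pairs_second Cs A M hM hthird two three
  rw [hcard, hMc] at h1 h2
  set T : Finset G := A.filter (fun g => -(g + g) ∈ A ∧ g ≠ -(g + g)) with hT
  set P1 : Finset (G × G) := (A ×ˢ A).filter (fun z => z.1 ≠ z.2 ∧ -(z.1 + z.2) ∈ M) with hP1
  set P2 : Finset (G × G) := T.image (fun g => (g, -(g + g))) with hP2
  set P3 : Finset (G × G) := T.image (fun g => (-(g + g), g)) with hP3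
  have hP2c : P2.card = T.card :=
    card_image_of_injective _ fun a b h => (Prod.mk.injEq _ _ _ _ ▸ h).1
  have hP3c : P3.card = T.card :=
    card_image_of_injective _ fun a b h => (Prod.mk.injEq _ _ _ _ ▸ h).2
  have hMA : ∀ g ∈ M, g ∉ A := by
    intro g hg
    rw [hM, mem_sdiff] at hg
    exact hg.2
  have d12 : Disjoint P1 P2 := by
    rw [disjoint_left]
    rintro z hz1 hz2
    rw [hP1, mem_filter] at hz1
    rw [hP2, mem_image] at hz2
    obtain ⟨g, hg, rfl⟩ := hz2
    rw [hT, mem_filter] at hg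
    have h3 : -(g + -(g + g)) = g := by abel
    have h4 := hz1.2.2
    simp only [h3] at h4
    exact hMA g h4 hg.1
  have d13 : Disjoint P1 P3 := by
    rw [disjoint_left]
    rintro z hz1 hz2
    rw [hP1, mem_filter] at hz1
    rw [hP3, mem_image] at hz2
    obtain ⟨g, hg, rfl⟩ := hz2
    rw [hT, mem_filter] at hg
    have h3 : -(-(g + g) + g) = g := by abel
    have h4 := hz1.2.2
    simp only [h3] at h4
    exact hMA g h4 hg.1
  have d23 : Disjoint P2 P3 := by
    rw [disjoint_left]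
    rintro z hz1 hz2
    rw [hP2, mem_image] at hz1
    rw [hP3, mem_image] at hz2
    obtain ⟨g, hg, rfl⟩ := hz1
    obtain ⟨h, hh, he⟩ := hz2
    rw [hT, mem_filter] at hg
    simp only [Prod.mk.injEq] at he
    obtain ⟨e1, e2⟩ := he
    rw [e2] at e1
    -- e1 : -(-(g+g) + -(g+g)) = g
    apply hg.2.2
    have h5 : g + g + g = 0 := by
      have h6 : -(-(g + g) + -(g + g)) = g + g + g + g := by abel
      rw [h6] at e1
      have h7 : g + g + g + g = 0 + g := by rw [e1, zero_add]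
      exact add_right_cancel h7
    have h8 : g = (g + g + g) + -(g + g) := by abel
    rw [h5, zero_add] at h8
    exact h8
  have hsub : (P1 ∪ P2) ∪ P3 ⊆ (A ×ˢ A).filter (fun z => z.1 ≠ z.2 ∧
      (-(z.1 + z.2) ∉ A ∨ -(z.1 + z.2) = z.1 ∨ -(z.1 + z.2) = z.2)) := by
    intro z hz
    rw [mem_union, mem_union] at hz
    rw [mem_filter, mem_product]
    rcases hz with (hz | hz) | hz
    · rw [hP1, mem_filter, mem_product] at hz
      exact ⟨hz.1, hz.2.1, Or.inl (hMA _ hz.2.2)⟩
    · rw [hP2, mem_image] at hz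
      obtain ⟨g, hg, rfl⟩ := hz
      rw [hT, mem_filter] at hg
      refine ⟨⟨hg.1, hg.2.1⟩, hg.2.2, Or.inr (Or.inl ?_)⟩
      show -(g + -(g + g)) = g
      abel
    · rw [hP3, mem_image] at hz
      obtain ⟨g, hg, rfl⟩ := hz
      rw [hT, mem_filter] at hg
      refine ⟨⟨hg.2.1, hg.1⟩, hg.2.2.symm, Or.inr (Or.inr ?_)⟩
      show -(-(g + g) + g) = g
      abel
  have hfin := card_le_card hsub
  rw [card_union_of_disjoint (disjoint_union_left.2 ⟨d13, d23⟩), card_union_of_disjoint d12,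
    hP2c, hP3c] at hfin
  have hfin' : (P1.card : ℤ) + T.card + T.card ≤ (((A ×ˢ A).filter (fun z => z.1 ≠ z.2 ∧
      (-(z.1 + z.2) ∉ A ∨ -(z.1 + z.2) = z.1 ∨ -(z.1 + z.2) = z.2))).card : ℤ) := by
    exact_mod_cast hfin
  linarith

end Pool.Agent.Lib.MP_214199_co.Eff
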