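import Pool.Agent.Lib.MP_214199_co.Eff.CoreBlk
import Pool.Agent.Lib.MP_214199_co.Eff.Pairs

/-!
# Lines with exactly two points of the core
-/

set_option autoImplicit false

namespace Pool.Agent.Lib.MP_214199_co.Eff

open Finset

/-- The number of blocks with exactly two points of the core.
Proof.  `A = core`, `A' = θ(cpt A)` (injective: `inj`, `cpt_injective`), `pairs_count` for `A'`.  For
a pair `(g, h)` counted there, `g = θ a`, `h = θ b`, `a ≠ b`, the block of `a`, `b` has exactly two
points of the core: a third one `c` would satisfy `θ c = -(g + h)` (`core_third`), so `-(g+h) ∈ A'`,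
and `θ c ≠ g, h`.  Every block in `L2` comes from exactly two ordered pairs. -/
theorem lines_two {S : Finset Pt} (hS : Gen S) (f : Poly) (hf : Irreducible f)
    (h3 : f.totalDegree = 3) {G : Type} [AddCommGroup G] (θ : (Fin 2 → ℂ) → G)
    (hθ : CubicGroup f G θ) (H : AddSubgroup G) (x : G) (hH : (H : Set G).Finite)
    (hx : x + x + x ∈ H) (μ : ℤ) (hμ : μ = (Nat.card H : ℤ) - (core S f θ H x).card) :
    μ * (Nat.card H - 2 * μ - 4) + 2 * (Nat.card H - 5 * μ - 9) ≤
      2 * ((L2 S (core S f θ H x)).card : ℤ) := by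
  classical
  set A := core S f θ H x with hAdef
  have hinj : Set.InjOn (fun a => θ (cpt a)) (A : Set Pt) := by
    intro a ha b hb hab
    have ha' := mem_core.1 (Finset.mem_coe.1 ha)
    have hb' := mem_core.1 (Finset.mem_coe.1 hb)
    exact cpt_injective (hθ.inj _ _ ha'.2.1 hb'.2.1 hab)
  set A' := A.image (fun a => θ (cpt a)) with hA'
  have hcard : A'.card = A.card := Finset.card_image_of_injOn hinj
  have hA'x : ∀ g ∈ A', g - x ∈ H := by
    intro g hg
    obtain ⟨a, ha, rfl⟩ := Finset.mem_image.1 hg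
    exact (mem_core.1 ha).2.2
  have hpc := pairs_count H x hH hx hθ.two hθ.three A' hA'x μ (by rw [hμ, hcard])
  refine hpc.trans ?_
  -- pairs of points
  set P := (A ×ˢ A).filter (fun z => z.1 ≠ z.2 ∧
    (-(θ (cpt z.1) + θ (cpt z.2)) ∉ A' ∨ -(θ (cpt z.1) + θ (cpt z.2)) = θ (cpt z.1) ∨
      -(θ (cpt z.1) + θ (cpt z.2)) = θ (cpt z.2))) with hP
  have h1 : ((A' ×ˢ A').filter (fun z => z.1 ≠ z.2 ∧
        (-(z.1 + z.2) ∉ A' ∨ -(z.1 + z.2) = z.1 ∨ -(z.1 + z.2) = z.2))) ⊆
      P.image (fun z => (θ (cpt z.1), θ (cpt z.2))) := by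
    rintro ⟨g, h⟩ hz
    rw [Finset.mem_filter, Finset.mem_product] at hz
    obtain ⟨⟨hg, hh⟩, hne, h2⟩ := hz
    obtain ⟨a, ha, rfl⟩ := Finset.mem_image.1 hg
    obtain ⟨b, hb, rfl⟩ := Finset.mem_image.1 hh
    rw [Finset.mem_image]
    refine ⟨(a, b), ?_, rfl⟩
    rw [hP, Finset.mem_filter, Finset.mem_product]
    refine ⟨⟨ha, hb⟩, ?_, h2⟩
    intro hab
    exact hne (congrArg (fun c => θ (cpt c)) hab)
  have h2 : P.card ≤ 2 * (L2 S A).card := by
    apply Finset.card_le_mul_card_image_of_maps_to (f := fun z => vtx z.1 z.2)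
    · rintro ⟨a, b⟩ hz
      rw [hP, Finset.mem_filter, Finset.mem_product] at hz
      obtain ⟨⟨ha, hb⟩, hne, h2⟩ := hz
      have haS := (mem_core.1 ha).1
      have hbS := (mem_core.1 hb).1
      obtain ⟨hv, hav, hbv⟩ := vtx_mem hS haS hbS hne
      unfold L2
      rw [Finset.mem_filter]
      refine ⟨hv, ?_⟩
      have hsub : blk S (vtx a b) ∩ A = {a, b} := by
        apply Finset.Subset.antisymm
        · intro c hc
          rw [Finset.mem_inter] at hc
          by_contra hcab
          rw [Finset.mem_insert, Finset.mem_singleton, not_or] at hcab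
          have hcc := mem_core.1 hc.2
          obtain ⟨h3, -⟩ := core_third hS f θ hθ H x hx ha hb hne hav hbv hc.1 hcc.2.1
            hcab.1 hcab.2
          have h4 : -(θ (cpt a) + θ (cpt b)) = θ (cpt c) := by
            rw [neg_eq_iff_add_eq_zero]
            exact h3
          rcases h2 with h2 | h2 | h2
          · apply h2
            simp only [h4]
            exact Finset.mem_image.2 ⟨c, hc.2, rfl⟩
          · simp only [h4] at h2
            exact hcab.1 (hinj (Finset.mem_coe.2 hc.2) (Finset.mem_coe.2 ha) h2)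
          · simp only [h4] at h2
            exact hcab.2 (hinj (Finset.mem_coe.2 hc.2) (Finset.mem_coe.2 hb) h2)
        · intro c hc
          rw [Finset.mem_insert, Finset.mem_singleton] at hc
          rcases hc with rfl | rfl
          · exact Finset.mem_inter.2 ⟨hav, ha⟩
          · exact Finset.mem_inter.2 ⟨hbv, hb⟩
      rw [hsub]
      exact Finset.card_pair hne
    · intro v hv
      unfold L2 at hv
      rw [Finset.mem_filter] at hv
      calc (P.filter (fun z => vtx z.1 z.2 = v)).card ≤ ((blk S v ∩ A).offDiag).card := by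
            apply Finset.card_le_card
            rintro ⟨a, b⟩ hz
            rw [Finset.mem_filter, hP, Finset.mem_filter, Finset.mem_product] at hz
            obtain ⟨⟨⟨ha, hb⟩, hne, -⟩, rfl⟩ := hz
            obtain ⟨-, hav, hbv⟩ := vtx_mem hS (mem_core.1 ha).1 (mem_core.1 hb).1 hne
            rw [Finset.mem_offDiag]
            exact ⟨Finset.mem_inter.2 ⟨hav, ha⟩, Finset.mem_inter.2 ⟨hbv, hb⟩, hne⟩
        _ = 2 := by
            rw [Finset.offDiag_card, hv.2]
  have h3 : (((A' ×ˢ A').filter (fun z => z.1 ≠ z.2 ∧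
        (-(z.1 + z.2) ∉ A' ∨ -(z.1 + z.2) = z.1 ∨ -(z.1 + z.2) = z.2))).card : ℤ) ≤
        (P.card : ℤ) := by
    exact_mod_cast (Finset.card_le_card h1).trans Finset.card_image_le
  refine le_trans (le_of_eq ?_) (h3.trans ?_)
  · congr!
  · exact_mod_cast h2

end Pool.Agent.Lib.MP_214199_co.Eff
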