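import Pool.Agent.Lib.MP_214199_co.Eff.Bezout
import Pool.Agent.Lib.MP_214199_co.Eff.Defs

/-!
# Six tangents
-/

set_option autoImplicit false

namespace Pool.Agent.Lib.MP_214199_co.Eff

open Finset MvPolynomial

theorem sixTan_sum (f : Poly) (h3 : f.totalDegree = 3) :
    f = ∑ i ∈ Finset.range 4, homogeneousComponent i f := by
  have h := sum_homogeneousComponent f
  rw [h3] at h
  exact h.symm

theorem sixTan_pderiv (f : Poly) (h3 : f.totalDegree = 3) (j : Fin 2) :
    (pderiv j f).totalDegree ≤ 2 := by
  have h : pderiv j f = ∑ i ∈ Finset.range 4, pderiv j (homogeneousComponent i f) := by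
    conv_lhs => rw [sixTan_sum f h3]
    rw [map_sum]
  rw [h]
  apply totalDegree_finsetSum_le
  intro i hi
  rw [Finset.mem_range] at hi
  have h1 := (homogeneousComponent_isHomogeneous i f).pderiv (i := j)
  exact h1.totalDegree_le.trans (by omega)

theorem sixTan_euler (f : Poly) (h3 : f.totalDegree = 3) :
    (3 * f - (X 0 * pderiv 0 f + X 1 * pderiv 1 f)).totalDegree ≤ 2 := by
  have h : 3 * f - (X 0 * pderiv 0 f + X 1 * pderiv 1 f) =
      ∑ i ∈ Finset.range 4, (3 * homogeneousComponent i f - i • homogeneousComponent i f) := by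
    have e : ∀ i, i • homogeneousComponent i f =
        X 0 * pderiv 0 (homogeneousComponent i f) + X 1 * pderiv 1 (homogeneousComponent i f) := by
      intro i
      rw [← (homogeneousComponent_isHomogeneous i f).sum_X_mul_pderiv, Fin.sum_univ_two]
    simp_rw [e]
    rw [Finset.sum_sub_distrib, Finset.sum_add_distrib, ← Finset.mul_sum, ← Finset.mul_sum,
      ← Finset.mul_sum, ← map_sum, ← map_sum, ← sixTan_sum f h3]
  rw [h]
  apply totalDegree_finsetSum_le
  intro i hi
  rw [Finset.mem_range] at hi
  rcases Nat.lt_or_ge i 3 with h' | h'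
  · refine (totalDegree_sub _ _).trans (max_le ?_ ?_)
    · have e : (3 : Poly) * homogeneousComponent i f = (3 : ℂ) • homogeneousComponent i f := by
        rw [smul_eq_C_mul]
        rfl
      rw [e]
      refine (totalDegree_smul_le _ _).trans ?_
      exact (homogeneousComponent_isHomogeneous i f).totalDegree_le.trans (by omega)
    · refine (totalDegree_smul_le _ _).trans ?_
      exact (homogeneousComponent_isHomogeneous i f).totalDegree_le.trans (by omega)
  · have : i = 3 := by omega
    subst this
    have e : (3 : Poly) * homogeneousComponent 3 f - 3 • homogeneousComponent 3 f = 0 := by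
      rw [nsmul_eq_mul]
      push_cast
      ring
    rw [e, totalDegree_zero]
    exact Nat.zero_le _

/-- Six tangents.
Proof.  Let `g = (C (y 0) - X 0) * pderiv 0 f + (C (y 1) - X 1) * pderiv 1 f + 3 * f`.  Its total
degree is at most 2 (the homogeneous part of degree 3 of `g` is `3 f_3 - X 0 ∂_0 f_3 - X 1 ∂_1 f_3
= 0` by Euler's formula, `f_3` the homogeneous part of degree 3 of `f`), and
`g(y) = 3 f(y) ≠ 0`, so `g ≠ 0` is not divisible by `f`.  Points `a` with `f(a) = 0` and
`dr f a (y - a) = 0` are common zeros of `f` and `g`; `bezout`: at most `3 * 2`. -/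
theorem six_tangents (f : Poly) (hf : Irreducible f) (h3 : f.totalDegree = 3) (y : Fin 2 → ℂ)
    (hy : ¬ Zr f y) (T : Finset (Fin 2 → ℂ)) (hT : ∀ a ∈ T, Zr f a ∧ dr f a (y - a) = 0) :
    T.card ≤ 6 := by
  set g : Poly := (C (y 0) * pderiv 0 f + C (y 1) * pderiv 1 f) +
    (3 * f - (X 0 * pderiv 0 f + X 1 * pderiv 1 f)) with hg
  have hdeg : g.totalDegree ≤ 2 := by
    have h0 : ∀ (c : ℂ) (j : Fin 2), (C c * pderiv j f).totalDegree ≤ 2 := by
      intro c j
      refine (totalDegree_mul _ _).trans ?_
      rw [totalDegree_C, zero_add]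
      exact sixTan_pderiv f h3 j
    exact (totalDegree_add _ _).trans (max_le ((totalDegree_add _ _).trans
      (max_le (h0 _ _) (h0 _ _))) (sixTan_euler f h3))
  have heval : ∀ a, eval a g = dr f a (y - a) + 3 * eval a f := by
    intro a
    have e3 : eval a (3 : Poly) = 3 := map_ofNat _ _
    simp only [hg, map_add, map_sub, map_mul, eval_C, eval_X, e3, dr, Pi.sub_apply]
    ring
  have hgy : eval y g ≠ 0 := by
    rw [heval, sub_self]
    have : dr f y 0 = 0 := by simp [dr]
    rw [this, zero_add]
    exact mul_ne_zero (by norm_num) hy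
  have hndvd : ¬ f ∣ g := by
    intro hd
    have hg0 : g ≠ 0 := by
      intro h
      rw [h, map_zero] at hgy
      exact hgy rfl
    have := totalDegree_le_of_dvd_of_isDomain hd hg0
    omega
  have hb := bezout f g hf hndvd T (by
    intro a ha
    refine ⟨(hT a ha).1, ?_⟩
    rw [heval, (hT a ha).2, (hT a ha).1]
    ring)
  rw [h3] at hb
  omega

end Pool.Agent.Lib.MP_214199_co.Eff
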