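import Pool.Agent.Lib.MP_214199_co.Eff.CoreBlk
import Pool.Agent.Lib.MP_214199_co.Eff.SixTan

/-!
# Lines with exactly two points of the core through another point
-/

set_option autoImplicit false

namespace Pool.Agent.Lib.MP_214199_co.Eff

open Finset MvPolynomial

theorem tang_dr {S : Finset Pt} (f : Poly) {a q v : Pt} (ha : a ∈ blk S v) (hq : q ∈ blk S v) :
    dr f (cpt a) (cpt q - cpt a) = ((q.1 - a.1 : ℝ) : ℂ) *
      (MvPolynomial.eval (cpt a) (MvPolynomial.pderiv 0 f) +
        (v.1 : ℂ) * MvPolynomial.eval (cpt a) (MvPolynomial.pderiv 1 f)) := by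
  have h1 := (mem_blk.1 ha).2
  have h2 := (mem_blk.1 hq).2
  unfold ht at h1 h2
  have h3 : q.2 - a.2 = (q.1 - a.1) * v.1 := by linarith
  have h4 : (cpt q - cpt a) 1 = ((q.1 - a.1 : ℝ) : ℂ) * (v.1 : ℂ) := by
    rw [← Complex.ofReal_mul, ← h3]
    simp [cpt]
  have h5 : (cpt q - cpt a) 0 = ((q.1 - a.1 : ℝ) : ℂ) := by simp [cpt]
  unfold dr
  rw [h4, h5]
  ring

theorem tang_col {S : Finset Pt} (hS : Gen S) {a b c v : Pt} (ha : a ∈ blk S v) (hb : b ∈ blk S v)
    (hab : a ≠ b) (hc : c ∈ S) : Col (cpt a) (cpt b) (cpt c) ↔ c ∈ blk S v := by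
  have haS := (mem_blk.1 ha).1
  have hbS := (mem_blk.1 hb).1
  obtain ⟨-, h1, h2⟩ := vtx_mem hS haS hbS hab
  rw [col_iff_blk hS haS hbS hc hab, vert_unique hS hab h1 h2 ha hb]

/-- The blocks through `y` with exactly two points of the core.
Proof.  `A = core`.  Let `v` be such a block, `a ≠ b` its two points of `A`.  `y` is not a nonsingular
zero of `f` (`core_third`), nor a singular zero (`sing_line`, `col_iff_blk`); so if there is such a
block, `f(y) ≠ 0`.  Let `m = -(θ a + θ b) ∈ x + H` (`x + x + x ∈ H`).  If `m = θ c` with `c ∈ A`,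
`c ≠ a`, `c ≠ b` then `c` is in the block by `col`, contradiction.  So `m ∈ M = (x + H) ∖ θ(A)`,
`|M| = μ`, or `m = θ a` or `m = θ b`.  The number of blocks of the first kind is at most `μ`: if two
blocks `v`, `v'` with the points `a`, `b` and `c`, `d` have the same `m`, then
`Col a b c ∧ Col a b d` by `third`, so `v = v'` (`col_iff_blk`, `vert_unique`).  In the other case
say `m = θ a` (otherwise exchange `a`, `b`): `tan`: `dr f a (b - a) = 0`, and `y - a` is a multiple
of `b - a` (`y`, `a`, `b` collinear), so `dr f a (y - a) = 0`; the block is determined by `a`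
(`vert_unique`), so by `six_tangents` there are at most 6 blocks of this kind. -/
theorem J2_le {S : Finset Pt} (hS : Gen S) (f : Poly) (hf : Irreducible f)
    (h3 : f.totalDegree = 3) {G : Type} [AddCommGroup G] (θ : (Fin 2 → ℂ) → G)
    (hθ : CubicGroup f G θ) (H : AddSubgroup G) (x : G) (hH : (H : Set G).Finite)
    (hx : x + x + x ∈ H) (μ : ℤ) (hμ : μ = (Nat.card H : ℤ) - (core S f θ H x).card) (y : Pt)
    (hy : y ∈ S) (hy' : y ∉ core S f θ H x) :
    (J2 S (core S f θ H x) y : ℤ) ≤ μ + 6 := by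
  classical
  set A := core S f θ H x with hA
  set T := (L2 S A).filter (fun v => y ∈ blk S v) with hT
  have hJ : J2 S A y = T.card := rfl
  rw [hJ]
  -- data of a block
  have hdat : ∀ v : Pt, ∃ a b : Pt, v ∈ T → a ≠ b ∧ blk S v ∩ A = {a, b} := by
    intro v
    by_cases hv : v ∈ T
    · have h1 := (Finset.mem_filter.1 hv).1
      unfold L2 at h1
      obtain ⟨a, b, h2, h3⟩ := Finset.card_eq_two.1 (Finset.mem_filter.1 h1).2
      exact ⟨a, b, fun _ => ⟨h2, h3⟩⟩
    · exact ⟨v, v, fun h => absurd h hv⟩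
  choose pa pb hpab using hdat
  have hyv : ∀ v ∈ T, y ∈ blk S v := fun v hv => (Finset.mem_filter.1 hv).2
  have ha : ∀ v ∈ T, pa v ∈ blk S v ∧ pa v ∈ A := by
    intro v hv
    have : pa v ∈ blk S v ∩ A := by rw [(hpab v hv).2]; simp
    exact Finset.mem_inter.1 this
  have hb : ∀ v ∈ T, pb v ∈ blk S v ∧ pb v ∈ A := by
    intro v hv
    have : pb v ∈ blk S v ∩ A := by rw [(hpab v hv).2]; simp
    exact Finset.mem_inter.1 this
  have hne : ∀ v ∈ T, pa v ≠ pb v := fun v hv => (hpab v hv).1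
  have honly : ∀ v ∈ T, ∀ c ∈ blk S v, c ∈ A → c = pa v ∨ c = pb v := by
    intro v hv c hc hcA
    have : c ∈ blk S v ∩ A := Finset.mem_inter.2 ⟨hc, hcA⟩
    rw [(hpab v hv).2] at this
    simpa using this
  have hyA : ∀ c ∈ A, c ≠ y := by rintro c hc rfl; exact hy' hc
  have hNS : ∀ c ∈ A, NS f (cpt c) := fun c hc => (mem_core.1 hc).2.1
  have hZr : ∀ c ∈ A, Zr f (cpt c) := fun c hc => (hNS c hc).1
  -- `y` is not a zero
  have hfy : ∀ v ∈ T, ¬ Zr f (cpt y) := by
    intro v hv hz
    by_cases hns : NS f (cpt y)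
    · exact hy' (core_third hS f θ hθ H x hx (ha v hv).2 (hb v hv).2 (hne v hv) (ha v hv).1
        (hb v hv).1 (hyv v hv) hns (hyA _ (ha v hv).2).symm (hyA _ (hb v hv).2).symm).2
    · refine sing_line f hf h3 (cpt (pa v)) (cpt (pb v)) (cpt y) (hZr _ (ha v hv).2)
        (hZr _ (hb v hv).2) hz hns (fun h => hyA _ (ha v hv).2 (cpt_injective h))
        (fun h => hyA _ (hb v hv).2 (cpt_injective h))
        (fun h => hne v hv (cpt_injective h)) ?_
      exact (tang_col hS (hyv v hv) (ha v hv).1 (hyA _ (ha v hv).2).symm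
        (mem_blk.1 (hb v hv).1).1).2 (hb v hv).1
  -- the coset
  set m : Pt → G := fun v => -(θ (cpt (pa v)) + θ (cpt (pb v))) with hm
  set C : Finset G := hH.toFinset.image (fun h => x + h) with hC
  set B : Finset G := A.image (fun a => θ (cpt a)) with hB
  have hCcard : C.card = Nat.card H := by
    rw [hC, Finset.card_image_of_injective _ (fun a b h => add_left_cancel h),
      ← Set.ncard_eq_toFinset_card _ hH]
    rfl
  have hinj : ∀ c ∈ A, ∀ d ∈ A, θ (cpt c) = θ (cpt d) → c = d := fun c hc d hd h =>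
    cpt_injective (hθ.inj _ _ (hNS c hc) (hNS d hd) h)
  have hBcard : B.card = A.card := Finset.card_image_of_injOn
    (fun c hc d hd h => hinj c (Finset.mem_coe.1 hc) d (Finset.mem_coe.1 hd) h)
  have hBC : B ⊆ C := by
    intro g hg
    rw [hB, Finset.mem_image] at hg
    obtain ⟨c, hc, rfl⟩ := hg
    rw [hC, Finset.mem_image]
    exact ⟨θ (cpt c) - x, by simpa using (mem_core.1 hc).2.2, by abel⟩
  have hmC : ∀ v ∈ T, m v ∈ C := by
    intro v hv
    rw [hC, Finset.mem_image]
    refine ⟨m v - x, ?_, by abel⟩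
    have h1 := (mem_core.1 (ha v hv).2).2.2
    have h2 := (mem_core.1 (hb v hv).2).2.2
    have h4 : m v - x = -((θ (cpt (pa v)) - x) + (θ (cpt (pb v)) - x) + (x + x + x)) := by
      simp only [hm]; abel
    have h5 : m v - x ∈ H := by
      rw [h4]
      exact H.neg_mem (H.add_mem (H.add_mem h1 h2) hx)
    simpa using h5
  set T1 := T.filter (fun v => m v ∉ B) with hT1
  set T2 := T.filter (fun v => m v ∈ B) with hT2
  have hsum : T.card = T2.card + T1.card := by
    rw [hT1, hT2]
    exact (Finset.card_filter_add_card_filter_not (s := T) (fun v => m v ∈ B)).symm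
  have hc1 : T1.card ≤ (C \ B).card := by
    refine Finset.card_le_card_of_injOn m ?_ ?_
    · intro v hv
      have hv' := Finset.mem_filter.1 (Finset.mem_coe.1 hv)
      exact Finset.mem_coe.2 (Finset.mem_sdiff.2 ⟨hmC v hv'.1, hv'.2⟩)
    · intro v hv u hu h
      have hv' := (Finset.mem_filter.1 (Finset.mem_coe.1 hv)).1
      have hu' := (Finset.mem_filter.1 (Finset.mem_coe.1 hu)).1
      have h0 : θ (cpt (pa v)) + θ (cpt (pb v)) = θ (cpt (pa u)) + θ (cpt (pb u)) := neg_injective h
      have h1 := hθ.third (cpt (pa v)) (cpt (pb v)) (cpt (pa u)) (cpt (pb u)) (cpt y)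
        (hNS _ (ha v hv').2) (hNS _ (hb v hv').2) (hNS _ (ha u hu').2) (hNS _ (hb u hu').2)
        (fun h => hne v hv' (cpt_injective h)) (fun h => hne u hu' (cpt_injective h)) h0
        ((tang_col hS (ha v hv').1 (hb v hv').1 (hne v hv') hy).2 (hyv v hv'))
        ((tang_col hS (ha u hu').1 (hb u hu').1 (hne u hu') hy).2 (hyv u hu')) (hfy v hv')
      have h2 := (tang_col hS (ha v hv').1 (hb v hv').1 (hne v hv')
        (mem_blk.1 (ha u hu').1).1).1 h1.1
      have h3 := (tang_col hS (ha v hv').1 (hb v hv').1 (hne v hv')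
        (mem_blk.1 (hb u hu').1).1).1 h1.2
      exact vert_unique hS (hne u hu') h2 h3 (ha u hu').1 (hb u hu').1
  have hc1' : (T1.card : ℤ) ≤ μ := by
    rw [Finset.card_sdiff_of_subset hBC, hCcard, hBcard] at hc1
    have h1 := core_card_le (S := S) hθ H x hH
    rw [← hA] at h1
    rw [hμ]
    omega
  -- tangents
  have hg : ∀ v : Pt, ∃ c : Pt, v ∈ T2 → c ∈ A ∧ θ (cpt c) = m v := by
    intro v
    by_cases hv : v ∈ T2
    · have h1 := (Finset.mem_filter.1 hv).2
      rw [hB, Finset.mem_image] at h1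
      obtain ⟨c, hc, h2⟩ := h1
      exact ⟨c, fun _ => ⟨hc, h2⟩⟩
    · exact ⟨v, fun h => absurd h hv⟩
  choose g hg using hg
  have hgv : ∀ v ∈ T2, g v = pa v ∨ g v = pb v := by
    intro v hv
    obtain ⟨h1, h2⟩ := hg v hv
    have hvT := (Finset.mem_filter.1 hv).1
    by_contra hcon
    push Not at hcon
    have h5 : θ (cpt (pa v)) + θ (cpt (pb v)) + θ (cpt (g v)) = 0 := by
      rw [h2]; simp only [hm]; abel
    have h6 := (hθ.col _ _ _ (hNS _ (ha v hvT).2) (hNS _ (hb v hvT).2) (hNS _ h1)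
      (fun h => hne v hvT (cpt_injective h)) (fun h => hcon.1 (cpt_injective h).symm)
      (fun h => hcon.2 (cpt_injective h).symm)).2 h5
    have h7 := (tang_col hS (ha v hvT).1 (hb v hvT).1 (hne v hvT) (mem_core.1 h1).1).1 h6
    rcases honly v hvT _ h7 h1 with h | h
    · exact hcon.1 h
    · exact hcon.2 h
  have hgb : ∀ v ∈ T2, g v ∈ blk S v := by
    intro v hv
    have hvT := (Finset.mem_filter.1 hv).1
    rcases hgv v hv with h | h <;> rw [h]
    · exact (ha v hvT).1
    · exact (hb v hvT).1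
  have hginj : Set.InjOn (fun v => cpt (g v)) (T2 : Set Pt) := by
    intro v hv u hu h
    have hv' := Finset.mem_coe.1 hv
    have hu' := Finset.mem_coe.1 hu
    have h1 : g v = g u := cpt_injective h
    refine vert_unique hS (hyA _ (hg v hv').1) (hgb v hv') (hyv v (Finset.mem_filter.1 hv').1)
      (by rw [h1]; exact hgb u hu') (hyv u (Finset.mem_filter.1 hu').1)
  have hc2 : T2.card ≤ 6 := by
    by_cases hem : T2 = ∅
    · rw [hem]; simp
    · obtain ⟨v0, hv0⟩ := Finset.nonempty_iff_ne_empty.2 hem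
      rw [← Finset.card_image_of_injOn hginj]
      refine six_tangents f hf h3 (cpt y) (hfy v0 (Finset.mem_filter.1 hv0).1) _ ?_
      intro c hc
      rw [Finset.mem_image] at hc
      obtain ⟨v, hv, rfl⟩ := hc
      have hvT := (Finset.mem_filter.1 hv).1
      obtain ⟨h1, h2⟩ := hg v hv
      refine ⟨hZr _ h1, ?_⟩
      -- the other point
      have key : ∀ p q : Pt, p ∈ blk S v → q ∈ blk S v → p ∈ A → q ∈ A → p ≠ q →
          θ (cpt p) + θ (cpt p) + θ (cpt q) = 0 → dr f (cpt p) (cpt y - cpt p) = 0 := by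
        intro p q hp hq hpA hqA hpq h0
        have h4 := hθ.tan _ _ (hNS p hpA) (hNS q hqA) (fun h => hpq (cpt_injective h)) h0
        rw [tang_dr f hp hq] at h4
        rw [tang_dr f hp (hyv v hvT)]
        have h5 : ((q.1 - p.1 : ℝ) : ℂ) ≠ 0 := by
          rw [Complex.ofReal_ne_zero]
          exact sub_ne_zero.2 (blk_fst_ne hS hq hp hpq.symm)
        rcases mul_eq_zero.1 h4 with h6 | h6
        · exact absurd h6 h5
        · rw [h6, mul_zero]
      rcases hgv v hv with h | h
      · rw [h] at h2 ⊢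
        refine key (pa v) (pb v) (ha v hvT).1 (hb v hvT).1 (ha v hvT).2 (hb v hvT).2 (hne v hvT) ?_
        have : θ (cpt (pa v)) + θ (cpt (pa v)) + θ (cpt (pb v)) =
            θ (cpt (pa v)) + θ (cpt (pb v)) + m v := by rw [← h2]; abel
        rw [this]; simp only [hm]; abel
      · rw [h] at h2 ⊢
        refine key (pb v) (pa v) (hb v hvT).1 (ha v hvT).1 (hb v hvT).2 (ha v hvT).2
          (hne v hvT).symm ?_
        have : θ (cpt (pb v)) + θ (cpt (pb v)) + θ (cpt (pa v)) =
            θ (cpt (pa v)) + θ (cpt (pb v)) + m v := by rw [← h2]; abel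
        rw [this]; simp only [hm]; abel
  rw [hsum]
  push_cast
  omega

end Pool.Agent.Lib.MP_214199_co.Eff
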