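import Pool.Agent.Lib.MP_214199_co.Eff.Select
import Pool.Agent.Lib.MP_214199_co.Eff.Group
import Pool.Agent.Lib.MP_214199_co.Eff.Tang
import Pool.Agent.Lib.MP_214199_co.Eff.LinesTwo
import Pool.Agent.Lib.MP_214199_co.Eff.EndNum
import Pool.Agent.Lib.MP_214199_co.Eff.EndFin

/-!
# The lower bound for the defect
-/

set_option autoImplicit false

namespace Pool.Agent.Lib.MP_214199_co.Eff

open Finset

/-- The defect of a set of at least `5 * 10^7` points is at least `n - 3`. -/
theorem no_such {S : Finset Pt} (hS : Gen S) (hn : 5 * 10 ^ 7 ≤ S.card)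
    (hD : dfc S + 4 ≤ S.card) : False := by
  classical
  obtain ⟨f, hf, h3, hoff⟩ := exists_cubic hS hn (by omega)
  obtain ⟨G, hG, θ, hθ⟩ := exists_cubicGroup f hf h3
  obtain ⟨H, x, hH, hx, he, hN⟩ := exists_coset hS hn (by omega) f hf h3 hoff θ hθ
  have hle := core_card_le (S := S) hθ H x hH
  set A := core S f θ H x with hA
  have hAS : A ⊆ S := fun a ha => (mem_core.1 ha).1
  have hAS' := Finset.card_le_card hAS
  have hsd : (S \ A).card = S.card - A.card := Finset.card_sdiff_of_subset hAS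
  have hb : ∀ v ∈ verts S, ((blk S v) ∩ A).card ≤ 3 := fun v _ => core_blk hS f hf h3 θ H x v
  have h1 := weights hS A hAS hb
  have h2 := weights_two hS A hAS
  have h4 := lines_two hS f hf h3 θ hθ H x hH hx ((Nat.card H : ℤ) - A.card) rfl
  have hJ : ((∑ y ∈ S \ A, J2 S A y : ℕ) : ℤ) ≤
      ((S \ A).card : ℤ) * (((Nat.card H : ℤ) - A.card) + 6) := by
    push_cast
    calc (∑ y ∈ S \ A, (J2 S A y : ℤ)) ≤ ∑ y ∈ S \ A, (((Nat.card H : ℤ) - A.card) + 6) := by
          apply Finset.sum_le_sum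
          intro y hy
          rw [Finset.mem_sdiff] at hy
          exact J2_le hS f hf h3 θ hθ H x hH hx _ rfl y hy.1 hy.2
      _ = _ := by
          rw [Finset.sum_const, nsmul_eq_mul]
  have hcast : ((S \ A).card : ℤ) = (S.card : ℤ) - A.card := by
    rw [hsd, Nat.cast_sub hAS']
  have hee : (((S \ A).card * ((S \ A).card - 1) : ℕ) : ℤ) =
      ((S.card : ℤ) - A.card) * (((S.card : ℤ) - A.card) - 1) := by
    rcases Nat.eq_zero_or_pos (S \ A).card with h0 | h0
    · rw [h0] at hcast
      rw [h0, ← hcast]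
      simp
    · rw [Nat.cast_mul, Nat.cast_sub h0, hcast]
      simp
  obtain ⟨h5, h6⟩ := end_num (S.card : ℤ) (Nat.card H : ℤ) ((S.card : ℤ) - A.card)
    ((Nat.card H : ℤ) - A.card) ((L2 S A).card : ℤ) (dfc S : ℤ)
    ((∑ y ∈ S \ A, J2 S A y : ℕ) : ℤ) (by exact_mod_cast hn) (by omega) (by omega) (by omega)
    (by omega) (by ring) (by omega) (by linarith [h4]) (by rw [← hcast]; exact hJ)
    (by exact_mod_cast h2)
    (by
      have h1' : (((S \ A).card * A.card + (L2 S A).card : ℕ) : ℤ) ≤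
        ((dfc S + (S \ A).card * ((S \ A).card - 1) + 3 * ∑ y ∈ S \ A, J2 S A y : ℕ) : ℤ) := by
        exact_mod_cast h1
      rw [Nat.cast_add, Nat.cast_mul, hcast, Nat.cast_add, Nat.cast_add, hee, Nat.cast_mul] at h1'
      have h7 : ((Nat.card H : ℤ) - ((Nat.card H : ℤ) - A.card)) = A.card := by ring
      rw [h7]
      push_cast at h1' ⊢
      linarith)
  have hcard : A.card = S.card := by omega
  have hSA : A = S := Finset.eq_of_subset_of_card_le hAS hcard.ge
  have := full_coset hS f hf h3 θ hθ H x hH hx hSA (by omega)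
  omega

end Pool.Agent.Lib.MP_214199_co.Eff
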