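import Pool.Agent.Lib.MP_214199_co.Eff.Defs

/-!
# Factorisation of a polynomial of degree at most 3
-/

set_option autoImplicit false

namespace Pool.Agent.Lib.MP_214199_co.Eff

open MvPolynomial

theorem factor_unit {a : Poly} (h0 : a ≠ 0) (hu : ¬ IsUnit a) : 1 ≤ a.totalDegree := by
  by_contra h
  have h1 : a.totalDegree = 0 := by omega
  rw [totalDegree_eq_zero_iff_eq_C] at h1
  apply hu
  rw [h1]
  apply IsUnit.map C
  rw [isUnit_iff_ne_zero]
  intro h2
  rw [h2, C_0] at h1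
  exact h0 h1

theorem factor_split {F : Poly} (h0 : F ≠ 0) (h1 : 1 ≤ F.totalDegree) (hF : ¬ Irreducible F) :
    ∃ a b : Poly, a ≠ 0 ∧ b ≠ 0 ∧ 1 ≤ a.totalDegree ∧ 1 ≤ b.totalDegree ∧
      a.totalDegree + b.totalDegree = F.totalDegree ∧ F = a * b := by
  have hnu : ¬ IsUnit F := by
    intro hu
    have := (isUnit_iff_totalDegree_of_isReduced.1 hu).2
    omega
  rw [irreducible_iff] at hF
  push Not at hF
  obtain ⟨a, b, hab, ha, hb⟩ := hF hnu
  have ha0 : a ≠ 0 := by
    rintro rfl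
    rw [zero_mul] at hab
    exact h0 hab
  have hb0 : b ≠ 0 := by
    rintro rfl
    rw [mul_zero] at hab
    exact h0 hab
  refine ⟨a, b, ha0, hb0, factor_unit ha0 ha, factor_unit hb0 hb, ?_, hab⟩
  rw [hab, totalDegree_mul_of_isDomain ha0 hb0]

/-- Factorisation of a polynomial of degree at most 3.
Proof.  `MvPolynomial` over a field is a UFD, total degrees add.  Take the irreducible factors of
positive degree; if there is one of degree 3 the first case, if there is one of degree 2 the second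
case (`h` the cofactor), otherwise there are at most three factors, all of degree 1. -/
theorem cubic_types (F : Poly) (h0 : F ≠ 0) (h3 : F.totalDegree ≤ 3) :
    (∃ f : Poly, Irreducible f ∧ f.totalDegree = 3 ∧ f ∣ F) ∨
    (∃ g h : Poly, Irreducible g ∧ g.totalDegree = 2 ∧ h ≠ 0 ∧ h.totalDegree ≤ 1 ∧ F = g * h) ∨
    (∃ h1 h2 h3 : Poly, h1 ≠ 0 ∧ h2 ≠ 0 ∧ h3 ≠ 0 ∧ h1.totalDegree ≤ 1 ∧ h2.totalDegree ≤ 1 ∧
      h3.totalDegree ≤ 1 ∧ F = h1 * h2 * h3) := by
  have hone : (1 : Poly).totalDegree ≤ 1 := by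
    rw [totalDegree_one]
    exact Nat.zero_le _
  have key : ∀ a b : Poly, a ≠ 0 → b ≠ 0 → a.totalDegree = 1 → b.totalDegree = 2 → F = a * b →
      (∃ f : Poly, Irreducible f ∧ f.totalDegree = 3 ∧ f ∣ F) ∨
      (∃ g h : Poly, Irreducible g ∧ g.totalDegree = 2 ∧ h ≠ 0 ∧ h.totalDegree ≤ 1 ∧
        F = g * h) ∨
      (∃ h1 h2 h3 : Poly, h1 ≠ 0 ∧ h2 ≠ 0 ∧ h3 ≠ 0 ∧ h1.totalDegree ≤ 1 ∧
        h2.totalDegree ≤ 1 ∧ h3.totalDegree ≤ 1 ∧ F = h1 * h2 * h3) := by
    intro a b ha hb da db hab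
    by_cases hirr : Irreducible b
    · exact Or.inr (Or.inl ⟨b, a, hirr, db, ha, by omega, by rw [hab, mul_comm]⟩)
    · obtain ⟨c, d, hc, hd, dc, dd, dcd, hcd⟩ := factor_split hb (by omega) hirr
      exact Or.inr (Or.inr ⟨a, c, d, ha, hc, hd, by omega, by omega, by omega, by
        rw [hab, hcd, mul_assoc]⟩)
  rcases Nat.lt_or_ge F.totalDegree 2 with h | h
  · exact Or.inr (Or.inr ⟨F, 1, 1, h0, one_ne_zero, one_ne_zero, by omega, hone, hone, by
      rw [mul_one, mul_one]⟩)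
  · by_cases hirr : Irreducible F
    · rcases Nat.lt_or_ge F.totalDegree 3 with h' | h'
      · exact Or.inr (Or.inl ⟨F, 1, hirr, by omega, one_ne_zero, hone, by rw [mul_one]⟩)
      · exact Or.inl ⟨F, hirr, by omega, dvd_rfl⟩
    · obtain ⟨a, b, ha, hb, da, db, dab, hab⟩ := factor_split h0 (by omega) hirr
      rcases Nat.lt_or_ge a.totalDegree 2 with h' | h'
      · rcases Nat.lt_or_ge b.totalDegree 2 with h'' | h''
        · exact Or.inr (Or.inr ⟨a, b, 1, ha, hb, one_ne_zero, by omega, by omega, hone, by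
            rw [mul_one, hab]⟩)
        · exact key a b ha hb (by omega) (by omega) hab
      · exact key b a hb ha (by omega) (by omega) (by rw [hab, mul_comm])

end Pool.Agent.Lib.MP_214199_co.Eff
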