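import Mathlib

/-!
# The lower bound: triples with sum zero
-/

set_option autoImplicit false

namespace Pool.Agent.Lib.MP_214199_co.Eff

open Finset

/-- the triples with sum `0` modulo `n` -/
def trip (n : ℕ) : Finset (Finset (Fin n)) :=
  ((univ : Finset (Fin n)).powersetCard 3).filter (fun T => n ∣ ∑ i ∈ T, (i : ℕ))

theorem lowTrip_dvd_iff {n : ℕ} [NeZero n] (i j c : Fin n) :
    n ∣ (i : ℕ) + j + c ↔ c = -(i + j) := by
  have h1 : n ∣ (i : ℕ) + j + c ↔ (i + j) + c = 0 := by
    rw [Fin.ext_iff, Fin.val_add, Fin.val_add, Nat.dvd_iff_mod_eq_zero]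
    simp [Nat.add_mod]
  rw [h1, eq_neg_iff_add_eq_zero, add_comm c]

/-- the ordered pairs which begin a triple of different residues with sum zero -/
def lowTripP (n : ℕ) [NeZero n] : Finset (Fin n × Fin n) :=
  univ.filter (fun x => x.1 ≠ x.2 ∧ x.1 ≠ -(x.1 + x.2) ∧ x.2 ≠ -(x.1 + x.2))

theorem lowTrip_card_six (n : ℕ) [NeZero n] : (lowTripP n).card = 6 * (trip n).card := by
  have hmap : ∀ x ∈ lowTripP n, ({x.1, x.2, -(x.1 + x.2)} : Finset (Fin n)) ∈ trip n := by
    rintro ⟨i, j⟩ hx
    simp only [lowTripP, mem_filter, mem_univ, true_and] at hx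
    obtain ⟨h1, h2, h3⟩ := hx
    rw [trip, mem_filter, mem_powersetCard]
    refine ⟨⟨subset_univ _, ?_⟩, ?_⟩
    · exact Finset.card_eq_three.2 ⟨i, j, -(i + j), h1, h2, h3, rfl⟩
    · rw [Finset.sum_insert (by
          rw [Finset.mem_insert, Finset.mem_singleton]
          exact fun h => h.elim h1 h2), Finset.sum_insert (by
          rw [Finset.mem_singleton]; exact h3),
        Finset.sum_singleton, ← add_assoc]
      exact (lowTrip_dvd_iff i j _).2 rfl
  rw [Finset.card_eq_sum_card_fiberwise (f := fun x : Fin n × Fin n =>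
    ({x.1, x.2, -(x.1 + x.2)} : Finset (Fin n))) (t := trip n) hmap]
  have hfib : ∀ T ∈ trip n, ((lowTripP n).filter (fun x : Fin n × Fin n =>
      ({x.1, x.2, -(x.1 + x.2)} : Finset (Fin n)) = T)).card = 6 := by
    intro T hT
    have hT' := hT
    rw [trip, mem_filter, mem_powersetCard] at hT'
    obtain ⟨⟨-, hc⟩, hd⟩ := hT'
    have h6 : T.offDiag.card = 6 := by rw [Finset.offDiag_card, hc]
    rw [← h6]
    congr 1
    ext ⟨i, j⟩
    rw [mem_filter, mem_offDiag]
    constructor
    · rintro ⟨hP, hE⟩
      simp only [lowTripP, mem_filter, mem_univ, true_and] at hP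
      simp only at hE ⊢
      rw [← hE]
      refine ⟨by simp, by simp, hP.1⟩
    · rintro ⟨hi, hj, hij⟩
      simp only at hi hj hij ⊢
      have hex : ∃ c, c ∉ ({i, j} : Finset (Fin n)) ∧ T = {i, j, c} := by
        have hsub : ({i, j} : Finset (Fin n)) ⊆ T := by
          intro a ha
          rcases Finset.mem_insert.1 ha with rfl | ha
          · exact hi
          · rw [Finset.mem_singleton.1 ha]; exact hj
        have h2 : ({i, j} : Finset (Fin n)).card = 2 := Finset.card_pair hij
        have h3 : (T \ {i, j}).card = 1 := by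
          rw [Finset.card_sdiff_of_subset hsub, hc, h2]
        obtain ⟨c, hc'⟩ := Finset.card_eq_one.1 h3
        have hcm : c ∈ T \ {i, j} := by rw [hc']; exact Finset.mem_singleton_self c
        refine ⟨c, (Finset.mem_sdiff.1 hcm).2, ?_⟩
        rw [← Finset.sdiff_union_of_subset hsub, hc']
        ext a
        simp only [mem_union, mem_singleton, mem_insert]
        tauto
      obtain ⟨c, hcn, rfl⟩ := hex
      have hci : i ≠ c := by
        rintro rfl; simp at hcn
      have hcj : j ≠ c := by
        rintro rfl; simp at hcn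
      rw [Finset.sum_insert (by simp [hij, hci]), Finset.sum_insert (by simpa using hcj),
        Finset.sum_singleton, ← add_assoc, lowTrip_dvd_iff] at hd
      subst hd
      refine ⟨?_, rfl⟩
      simp only [lowTripP, mem_filter, mem_univ, true_and]
      exact ⟨hij, hci, hcj⟩
  rw [Finset.sum_congr rfl hfib, Finset.sum_const, smul_eq_mul, mul_comm]

theorem lowTrip_card_three (n : ℕ) [NeZero n] :
    ((univ : Finset (Fin n)).filter (fun i => i = -(i + i))).card = if 3 ∣ n then 3 else 1 := by
  have hpos : 0 < n := Nat.pos_of_ne_zero (NeZero.ne n)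
  have hiff : ∀ i : Fin n, i = -(i + i) ↔ n ∣ 3 * (i : ℕ) := by
    intro i
    rw [← lowTrip_dvd_iff]
    constructor <;> intro h <;> convert h using 1 <;> ring
  simp only [hiff]
  split_ifs with h3
  · obtain ⟨m, rfl⟩ := h3
    have hm : 0 < m := by omega
    have : (univ : Finset (Fin (3 * m))).filter (fun i : Fin (3 * m) => 3 * m ∣ 3 * (i : ℕ)) =
        {⟨0, by omega⟩, ⟨m, by omega⟩, ⟨2 * m, by omega⟩} := by
      ext i
      simp only [mem_filter, mem_univ, true_and, mem_insert, mem_singleton, Fin.ext_iff]
      constructor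
      · intro h
        have h' : m ∣ (i : ℕ) := Nat.dvd_of_mul_dvd_mul_left (by norm_num) h
        obtain ⟨c, hc⟩ := h'
        have hi := i.2
        have hc3 : c < 3 := by
          by_contra hge
          push Not at hge
          have : m * 3 ≤ m * c := Nat.mul_le_mul_left _ hge
          omega
        interval_cases c
        · left; omega
        · right; left; omega
        · right; right; omega
      · rintro (h | h | h) <;> rw [h]
        · simp
        · exact ⟨2, by ring⟩
    rw [this]
    apply Finset.card_eq_three.2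
    refine ⟨_, _, _, ?_, ?_, ?_, rfl⟩ <;> rw [Ne, Fin.ext_iff] <;> simp <;> omega
  · have : (univ : Finset (Fin n)).filter (fun i : Fin n => n ∣ 3 * (i : ℕ)) = {⟨0, hpos⟩} := by
      ext i
      simp only [mem_filter, mem_univ, true_and, mem_singleton, Fin.ext_iff]
      constructor
      · intro h
        have hcop : Nat.Coprime n 3 :=
          ((Nat.Prime.coprime_iff_not_dvd Nat.prime_three).2 h3).symm
        have h' : n ∣ (i : ℕ) := hcop.dvd_of_dvd_mul_left h
        exact Nat.eq_zero_of_dvd_of_lt h' i.2
      · intro h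
        rw [h]; simp
    rw [this, Finset.card_singleton]

theorem lowTrip_cardP (n : ℕ) [NeZero n] :
    (lowTripP n).card + 3 * n = n * n +
      2 * ((univ : Finset (Fin n)).filter (fun i => i = -(i + i))).card := by
  set A : Finset (Fin n × Fin n) := univ.filter (fun x => x.1 = x.2) with hA
  set B : Finset (Fin n × Fin n) := univ.filter (fun x => x.1 = -(x.1 + x.2)) with hB
  set C : Finset (Fin n × Fin n) := univ.filter (fun x => x.2 = -(x.1 + x.2)) with hC
  set Z : Finset (Fin n) := univ.filter (fun i => i = -(i + i)) with hZ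
  have cA : A.card = n := by
    have : A = (univ : Finset (Fin n)).image (fun i => (i, i)) := by
      ext ⟨i, j⟩
      simp only [hA, mem_filter, mem_univ, true_and, mem_image, Prod.mk.injEq]
      constructor
      · intro h; exact ⟨i, rfl, h⟩
      · rintro ⟨k, rfl, rfl⟩; rfl
    rw [this, Finset.card_image_of_injective _ (fun a b h => (Prod.mk.injEq _ _ _ _ ▸ h).1)]
    simp
  have cB : B.card = n := by
    have : B = (univ : Finset (Fin n)).image (fun i => (i, -(i + i))) := by
      ext ⟨i, j⟩
      simp only [hB, mem_filter, mem_univ, true_and, mem_image, Prod.mk.injEq]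
      constructor
      · intro h; refine ⟨i, rfl, ?_⟩
        have h' : i + (i + j) = 0 := by
          nth_rewrite 1 [h]; exact neg_add_cancel _
        have h2 : (i + i) + j = 0 := by rw [add_assoc]; exact h'
        exact (eq_neg_of_add_eq_zero_right h2).symm
      · rintro ⟨k, rfl, rfl⟩
        abel
    rw [this, Finset.card_image_of_injective _ (fun a b h => (Prod.mk.injEq _ _ _ _ ▸ h).1)]
    simp
  have cC : C.card = n := by
    have : C = (univ : Finset (Fin n)).image (fun i => (-(i + i), i)) := by
      ext ⟨i, j⟩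
      simp only [hC, mem_filter, mem_univ, true_and, mem_image, Prod.mk.injEq]
      constructor
      · intro h; refine ⟨j, ?_, rfl⟩
        have h' : j + (i + j) = 0 := by
          nth_rewrite 1 [h]; exact neg_add_cancel _
        have h2 : (j + j) + i = 0 := by rw [← h']; abel
        exact (eq_neg_of_add_eq_zero_right h2).symm
      · rintro ⟨k, rfl, rfl⟩
        abel
    rw [this, Finset.card_image_of_injective _ (fun a b h => (Prod.mk.injEq _ _ _ _ ▸ h).2)]
    simp
  have cAB : (A ∩ B).card = Z.card := by
    have : A ∩ B = Z.image (fun i => (i, i)) := by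
      ext ⟨i, j⟩
      simp only [hA, hB, hZ, mem_inter, mem_filter, mem_univ, true_and, mem_image, Prod.mk.injEq]
      constructor
      · rintro ⟨rfl, h⟩; exact ⟨i, h, rfl, rfl⟩
      · rintro ⟨k, hk, rfl, rfl⟩; exact ⟨rfl, hk⟩
    rw [this, Finset.card_image_of_injective _ (fun a b h => (Prod.mk.injEq _ _ _ _ ▸ h).1)]
  have cABC : ((A ∪ B) ∩ C).card = Z.card := by
    have : (A ∪ B) ∩ C = Z.image (fun i => (i, i)) := by
      ext ⟨i, j⟩
      simp only [hA, hB, hC, hZ, mem_inter, mem_union, mem_filter, mem_univ, true_and, mem_image,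
        Prod.mk.injEq]
      constructor
      · rintro ⟨rfl | h, h'⟩
        · exact ⟨i, h', rfl, rfl⟩
        · have : i = j := h.trans h'.symm
          subst this
          exact ⟨i, h, rfl, rfl⟩
      · rintro ⟨k, hk, rfl, rfl⟩; exact ⟨Or.inl rfl, hk⟩
    rw [this, Finset.card_image_of_injective _ (fun a b h => (Prod.mk.injEq _ _ _ _ ▸ h).1)]
  have hP : lowTripP n = univ \ (A ∪ B ∪ C) := by
    ext x
    simp only [lowTripP, hA, hB, hC, mem_sdiff, mem_union, mem_filter, mem_univ, true_and]
    tauto
  have h1 := Finset.card_union_add_card_inter A B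
  have h2 := Finset.card_union_add_card_inter (A ∪ B) C
  have h3 : (lowTripP n).card + (A ∪ B ∪ C).card = n * n := by
    rw [hP, Finset.card_sdiff_add_card_eq_card (Finset.subset_univ _)]
    simp
  omega

/-- Proof.  Count the pairs `(i, j)` of residues: `n^2`; the third one is `k = -i-j`.  `i = j`:
`n` pairs, `i = k`: `n`, `j = k`: `n`, all equal: `3 i = 0`, `1` or `3` residues.  So the number of
ordered triples with different entries is `n^2 - 3 n + 2` or `n^2 - 3 n + 6`, which is `6 |trip|`. -/
theorem trip_card (n : ℕ) (hn : 3 ≤ n) : (trip n).card = n * (n - 3) / 6 + 1 := by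
  have : NeZero n := ⟨by omega⟩
  have h1 := lowTrip_card_six n
  have h2 := lowTrip_cardP n
  rw [lowTrip_card_three, h1] at h2
  obtain ⟨m, rfl⟩ := Nat.exists_eq_add_of_le hn
  have h3 : (3 + m) * (3 + m) = (3 + m) * m + 3 * (3 + m) := by ring
  rw [h3] at h2
  rw [Nat.add_sub_cancel_left]
  generalize (3 + m) * m = q at h2 ⊢
  split_ifs at h2 <;> omega

end Pool.Agent.Lib.MP_214199_co.Eff
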