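import Pool.Agent.Lib.MP_214199_co.Plane
import Pool.Agent.Lib.MP_214199_co.Eff.LowTrip

/-!
# The lower bound: heavy lines and triples
-/

set_option autoImplicit false

namespace Pool.Agent.Lib.MP_214199_co.Eff

open Finset

/-- the third index is determined by the other two -/
theorem lowHeavy_unique {n : ℕ} {i j k l : Fin n} (hk : n ∣ (i : ℕ) + j + k)
    (hl : n ∣ (i : ℕ) + j + l) : k = l := by
  apply Fin.ext
  have h1 := (Nat.modEq_zero_iff_dvd.2 hk).trans (Nat.modEq_zero_iff_dvd.2 hl).symm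
  have h2 : (k : ℕ) ≡ (l : ℕ) [MOD n] := Nat.ModEq.add_left_cancel' _ h1
  exact Nat.ModEq.eq_of_lt_of_lt h2 k.2 l.2

/-- the points of the line through `P i` and `P j` -/
theorem lowHeavy_ln {n : ℕ} {P : Fin n → EuclideanSpace ℝ (Fin 2)} (hP : Function.Injective P)
    (hdet : ∀ i j k, det3 (P i) (P j) (P k) = 0 ↔ i = j ∨ j = k ∨ k = i ∨ n ∣ (i : ℕ) + j + k)
    {i j : Fin n} (hij : i ≠ j) (x : EuclideanSpace ℝ (Fin 2)) :
    x ∈ ln (univ.map ⟨P, hP⟩) (P i) (P j) ↔
      ∃ k : Fin n, P k = x ∧ (k = i ∨ k = j ∨ n ∣ (i : ℕ) + j + k) := by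
  rw [ln, Finset.mem_filter, Finset.mem_map]
  constructor
  · rintro ⟨⟨k, -, rfl⟩, h⟩
    refine ⟨k, rfl, ?_⟩
    change det3 (P i) (P j) (P k) = 0 at h
    rw [hdet] at h
    rcases h with h | h | h | h
    · exact absurd h hij
    · exact Or.inr (Or.inl h.symm)
    · exact Or.inl h
    · exact Or.inr (Or.inr h)
  · rintro ⟨k, rfl, h⟩
    refine ⟨⟨k, mem_univ _, rfl⟩, ?_⟩
    rw [hdet]
    rcases h with h | h | h
    · exact Or.inr (Or.inr (Or.inl h))
    · exact Or.inr (Or.inl h.symm)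
    · exact Or.inr (Or.inr (Or.inr h))

theorem lowHeavy_trip {n : ℕ} {P : Fin n → EuclideanSpace ℝ (Fin 2)} (hP : Function.Injective P)
    (hdet : ∀ i j k, det3 (P i) (P j) (P k) = 0 ↔ i = j ∨ j = k ∨ k = i ∨ n ∣ (i : ℕ) + j + k)
    {i j k : Fin n} (hij : i ≠ j) (hk : n ∣ (i : ℕ) + j + k) :
    ln (univ.map ⟨P, hP⟩) (P i) (P j) = ({i, j, k} : Finset (Fin n)).map ⟨P, hP⟩ := by
  ext x
  rw [lowHeavy_ln hP hdet hij, Finset.mem_map]
  constructor
  · rintro ⟨l, rfl, h⟩
    refine ⟨l, ?_, rfl⟩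
    rw [mem_insert, mem_insert, mem_singleton]
    rcases h with h | h | h
    · exact Or.inl h
    · exact Or.inr (Or.inl h)
    · exact Or.inr (Or.inr (lowHeavy_unique h hk))
  · rintro ⟨l, hl, rfl⟩
    refine ⟨l, rfl, ?_⟩
    rw [mem_insert, mem_insert, mem_singleton] at hl
    rcases hl with h | h | h
    · exact Or.inl h
    · exact Or.inr (Or.inl h)
    · rw [h]
      exact Or.inr (Or.inr hk)

/-- Proof.  The heavy lines of `S = univ.image P` are the images of the triples: by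
`ncard_heavyLines` count the `L ∈ lns S` with `3 ≤ |L|`; `T ↦ T.image P` is a bijection from `trip n`
to these (two points determine the third index modulo `n`, so `|L| ≤ 3`). -/
theorem heavy_eq_trip (n : ℕ) (P : Fin n → EuclideanSpace ℝ (Fin 2)) (hP : Function.Injective P)
    (hdet : ∀ i j k, det3 (P i) (P j) (P k) = 0 ↔ i = j ∨ j = k ∨ k = i ∨ n ∣ (i : ℕ) + j + k) :
    (heavyLines (univ.map ⟨P, hP⟩)).ncard = (trip n).card := by
  classical
  rw [ncard_heavyLines]
  symm
  apply Finset.card_bij (fun T _ => T.map ⟨P, hP⟩)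
  · intro T hT
    rw [trip, Finset.mem_filter, Finset.mem_powersetCard] at hT
    obtain ⟨⟨-, hc⟩, hs⟩ := hT
    obtain ⟨i, j, k, hij, hik, hjk, rfl⟩ := Finset.card_eq_three.1 hc
    rw [Finset.sum_insert (by simp [hij, hik]), Finset.sum_insert (by simp [hjk]),
      Finset.sum_singleton, ← add_assoc] at hs
    rw [Finset.mem_filter, Finset.card_map, hc]
    refine ⟨plane_mem_lns.2 ⟨P i, ?_, P j, ?_, fun h => hij (hP h), ?_⟩, le_rfl⟩
    · exact Finset.mem_map.2 ⟨i, mem_univ _, rfl⟩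
    · exact Finset.mem_map.2 ⟨j, mem_univ _, rfl⟩
    · exact lowHeavy_trip hP hdet hij hs
  · intro T _ T' _ h
    exact Finset.map_injective _ h
  · intro L hL
    rw [Finset.mem_filter] at hL
    obtain ⟨hL, h3⟩ := hL
    obtain ⟨p, hp, q, hq, hpq, rfl⟩ := plane_mem_lns.1 hL
    obtain ⟨i, -, rfl⟩ := Finset.mem_map.1 hp
    obtain ⟨j, -, rfl⟩ := Finset.mem_map.1 hq
    change P i ≠ P j at hpq
    have hij : i ≠ j := fun h => hpq (by rw [h])
    have hex : ∃ k : Fin n, k ≠ i ∧ k ≠ j ∧ n ∣ (i : ℕ) + j + k := by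
      by_contra hcon
      push Not at hcon
      have hsub : ln (univ.map ⟨P, hP⟩) (P i) (P j) ⊆ {P i, P j} := by
        intro x hx
        obtain ⟨k, rfl, hk⟩ := (lowHeavy_ln hP hdet hij x).1 hx
        rw [mem_insert, mem_singleton]
        by_cases h1 : k = i
        · left; rw [h1]
        by_cases h2 : k = j
        · right; rw [h2]
        rcases hk with h | h | h
        · exact absurd h h1
        · exact absurd h h2
        · exact absurd h (hcon k h1 h2)
      have h4 := Finset.card_le_card hsub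
      have h5 : ({P i, P j} : Finset (EuclideanSpace ℝ (Fin 2))).card ≤ 2 := Finset.card_le_two
      change 3 ≤ (ln (univ.map ⟨P, hP⟩) (P i) (P j)).card at h3
      omega
    obtain ⟨k, hki, hkj, hk⟩ := hex
    refine ⟨{i, j, k}, ?_, (lowHeavy_trip hP hdet hij hk).symm⟩
    rw [trip, Finset.mem_filter, Finset.mem_powersetCard]
    refine ⟨⟨subset_univ _, Finset.card_eq_three.2 ⟨i, j, k, hij, hki.symm, hkj.symm, rfl⟩⟩, ?_⟩
    rw [Finset.sum_insert (by simp [hij, hki.symm]), Finset.sum_insert (by simp [hkj.symm]),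
      Finset.sum_singleton, ← add_assoc]
    exact hk

end Pool.Agent.Lib.MP_214199_co.Eff
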