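import Pool.Agent.Lib.MP_214199_co.Eff.LowTrig
import Pool.Agent.Lib.MP_214199_co.Eff.LowHeavy

/-!
# The lower bound: `n` points with `n (n - 3) / 6 + 1` heavy lines
-/

set_option autoImplicit false

namespace Pool.Agent.Lib.MP_214199_co.Eff

open Finset

theorem lower_bound (n : ℕ) (hn : 3 ≤ n) : ∃ S : Finset (EuclideanSpace ℝ (Fin 2)),
    S.card = n ∧ (heavyLines S).ncard = n * (n - 3) / 6 + 1 := by
  refine ⟨univ.map ⟨lowP n, lowP_injective n⟩, ?_, ?_⟩
  · rw [Finset.card_map, Finset.card_univ, Fintype.card_fin]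
  · rw [heavy_eq_trip n (lowP n) (lowP_injective n) (lowP_det n), trip_card n hn]

end Pool.Agent.Lib.MP_214199_co.Eff
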