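import Pool.Agent.Lib.MP_214199_co.Plane
import Pool.Agent.Lib.MP_214199_co.Eff.Base

/-!
# Reduction to sets with distinct abscissae
-/

set_option autoImplicit false

namespace Pool.Agent.Lib.MP_214199_co.Eff

open Finset

/-- Proof.  For `p ≠ q` at most one `t` satisfies `p 0 + t * p 1 = q 0 + t * q 1`; take a `t` that is
not one of these finitely many. -/
theorem exists_shear (S : Finset (EuclideanSpace ℝ (Fin 2))) :
    ∃ t : ℝ, ∀ p ∈ S, ∀ q ∈ S, p 0 + t * p 1 = q 0 + t * q 1 → p = q := by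
  classical
  obtain ⟨t, ht⟩ := Infinite.exists_notMem_finset
    ((S ×ˢ S).image (fun x => -(x.1 0 - x.2 0) / (x.1 1 - x.2 1)))
  refine ⟨t, fun p hp q hq h => ?_⟩
  have h1 : p 1 = q 1 := by
    by_contra hne
    apply ht
    rw [Finset.mem_image]
    refine ⟨(p, q), Finset.mem_product.2 ⟨hp, hq⟩, ?_⟩
    have h2 : p 1 - q 1 ≠ 0 := sub_ne_zero.2 hne
    simp only
    rw [div_eq_iff h2]
    linarith
  have h0 : p 0 = q 0 := by
    rw [h1] at h
    linarith
  ext i
  fin_cases i
  · exact h0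
  · exact h1

/-- the shear -/
def shearMap (t : ℝ) (p : EuclideanSpace ℝ (Fin 2)) : Pt := (p 0 + t * p 1, p 1)

theorem shearMap_injective (t : ℝ) : Function.Injective (shearMap t) := by
  intro p q h
  simp only [shearMap, Prod.mk.injEq] at h
  have h0 : p 0 = q 0 := by
    have := h.1
    rw [h.2] at this
    linarith
  ext i
  fin_cases i
  · exact h0
  · exact h.2

open Classical in
/-- Proof.  With `t` from `exists_shear` let `φ p = (p 0 + t * p 1, p 1)`, `S' = S.image φ`; `φ` is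
injective and `det3 p q r = (twice the area of the triangle φ p, φ q, φ r)`; for `p ≠ q` in `S`
`φ r ∈ blk S' (vtx (φ p) (φ q)) ↔ det3 p q r = 0` (`mem_blk`, `vtx`, `ht`, `field_simp`).  So
`v ↦ {p ∈ S | φ p ∈ blk S' v}` is a bijection from the `v ∈ verts S'` with `3 ≤ |blk S' v|` to the
`L ∈ lns S` with `3 ≤ |L|` (`vert_unique`); `ncard_heavyLines`. -/
theorem exists_gen (S : Finset (EuclideanSpace ℝ (Fin 2))) :
    ∃ S' : Finset Pt, Gen S' ∧ S'.card = S.card ∧
      ((verts S').filter (fun v => 3 ≤ (blk S' v).card)).card = (heavyLines S).ncard := by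
  obtain ⟨t, hshear⟩ := exists_shear S
  set φ := shearMap t with hφ
  have hinj : Function.Injective φ := shearMap_injective t
  set S' := S.image φ with hS'
  have hG : Gen S' := by
    intro P hP Q hQ h
    rw [hS', Finset.coe_image] at hP hQ
    obtain ⟨p, hp, rfl⟩ := hP
    obtain ⟨q, hq, rfl⟩ := hQ
    rw [hshear p hp q hq h]
  have hmem : ∀ p, φ p ∈ S' ↔ p ∈ S := by
    intro p
    rw [hS', Finset.mem_image]
    constructor
    · rintro ⟨q, hq, h⟩
      rwa [← hinj h]
    · intro h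
      exact ⟨p, h, rfl⟩
  have hkey : ∀ p ∈ S, ∀ q ∈ S, p ≠ q → ∀ r ∈ S,
      (φ r ∈ blk S' (vtx (φ p) (φ q)) ↔ det3 p q r = 0) := by
    intro p hp q hq hpq r hr
    have h1 : (φ p).1 ≠ (φ q).1 := fun h => hpq (hshear p hp q hq h)
    have h2 : (φ q).1 - (φ p).1 ≠ 0 := sub_ne_zero.2 h1.symm
    rw [mem_blk]
    constructor
    · rintro ⟨-, h3⟩
      unfold vtx ht at h3
      simp only at h3
      field_simp at h3
      simp only [hφ, shearMap] at h3 h2
      unfold det3
      linear_combination -h3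
    · intro h3
      refine ⟨(hmem r).2 hr, ?_⟩
      unfold vtx ht
      simp only
      field_simp
      simp only [hφ, shearMap]
      unfold det3 at h3
      linear_combination -h3
  set F : Pt → Finset (EuclideanSpace ℝ (Fin 2)) := fun v => S.filter (fun p => φ p ∈ blk S' v)
    with hF
  have hFm : ∀ v p, p ∈ F v ↔ φ p ∈ blk S' v := by
    intro v p
    simp only [hF, Finset.mem_filter]
    constructor
    · exact fun h => h.2
    · exact fun h => ⟨(hmem p).1 (mem_blk.1 h).1, h⟩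
  have himg : ∀ v, blk S' v = (F v).image φ := by
    intro v
    ext P
    rw [Finset.mem_image]
    constructor
    · intro hP
      have h1 := (mem_blk.1 hP).1
      rw [hS', Finset.mem_image] at h1
      obtain ⟨p, hp, rfl⟩ := h1
      exact ⟨p, (hFm v p).2 hP, rfl⟩
    · rintro ⟨p, hp, rfl⟩
      exact (hFm v p).1 hp
  have hcard : ∀ v, (blk S' v).card = (F v).card := by
    intro v
    rw [himg v, Finset.card_image_of_injective _ hinj]
  have hln : ∀ p ∈ S, ∀ q ∈ S, p ≠ q → F (vtx (φ p) (φ q)) = ln S p q := by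
    intro p hp q hq hpq
    ext r
    rw [hFm, ln, Finset.mem_filter]
    constructor
    · intro h
      have hr := (hmem r).1 (mem_blk.1 h).1
      exact ⟨hr, (hkey p hp q hq hpq r hr).1 h⟩
    · rintro ⟨hr, h⟩
      exact (hkey p hp q hq hpq r hr).2 h
  refine ⟨S', hG, Finset.card_image_of_injective _ hinj, ?_⟩
  rw [ncard_heavyLines]
  refine Finset.card_bij (fun v _ => F v) ?_ ?_ ?_
  · intro v hv
    obtain ⟨hv1, hv3⟩ := Finset.mem_filter.1 hv
    rw [Finset.mem_filter]
    refine ⟨?_, by rw [← hcard]; exact hv3⟩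
    rw [hcard] at hv3
    obtain ⟨p, hp, q, hq, hpq⟩ := Finset.one_lt_card.1 (lt_of_lt_of_le (by norm_num) hv3)
    have hpb := (hFm v p).1 hp
    have hqb := (hFm v q).1 hq
    have hpS := (hmem p).1 (mem_blk.1 hpb).1
    have hqS := (hmem q).1 (mem_blk.1 hqb).1
    have hpq' : φ p ≠ φ q := fun h => hpq (hinj h)
    obtain ⟨-, h1, h2⟩ := vtx_mem hG (mem_blk.1 hpb).1 (mem_blk.1 hqb).1 hpq'
    rw [plane_mem_lns]
    refine ⟨p, hpS, q, hqS, hpq, ?_⟩
    rw [← hln p hpS q hqS hpq, vert_unique hG hpq' h1 h2 hpb hqb]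
  · intro v hv u hu h
    obtain ⟨hv1, hv3⟩ := Finset.mem_filter.1 hv
    rw [hcard] at hv3
    obtain ⟨p, hp, q, hq, hpq⟩ := Finset.one_lt_card.1 (lt_of_lt_of_le (by norm_num) hv3)
    have hpb := (hFm v p).1 hp
    have hqb := (hFm v q).1 hq
    have h' : F v = F u := h
    rw [h'] at hp hq
    exact vert_unique hG (fun h => hpq (hinj h)) hpb hqb ((hFm u p).1 hp) ((hFm u q).1 hq)
  · intro L hL
    obtain ⟨hL1, hL3⟩ := Finset.mem_filter.1 hL
    obtain ⟨p, hp, q, hq, hpq, rfl⟩ := plane_mem_lns.1 hL1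
    have hpq' : φ p ≠ φ q := fun h => hpq (hinj h)
    obtain ⟨h0, -, -⟩ := vtx_mem hG ((hmem p).2 hp) ((hmem q).2 hq) hpq'
    refine ⟨vtx (φ p) (φ q), ?_, hln p hp q hq hpq⟩
    rw [Finset.mem_filter]
    refine ⟨h0, ?_⟩
    rw [hcard, hln p hp q hq hpq]
    exact hL3

end Pool.Agent.Lib.MP_214199_co.Eff
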