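import Pool.Agent.Lib.MP_214199_co.Eff.End
import Pool.Agent.Lib.MP_214199_co.Eff.Low
import Pool.Agent.Lib.MP_214199_co.Eff.Shear

/-!
# The effective orchard theorem
-/

set_option autoImplicit false

namespace Pool.Agent.Lib.MP_214199_co.Eff

open Finset

theorem n_mod (n : ℕ) (hn : 3 ≤ n) : n * (n - 3) % 6 = 0 ∨ n * (n - 3) % 6 = 4 := by
  obtain ⟨m, rfl⟩ : ∃ m, n = m + 3 := ⟨n - 3, by omega⟩
  rw [Nat.add_sub_cancel]
  have h : (m + 3) * m % 6 = ((m % 6 + 3) * (m % 6)) % 6 := by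
    rw [Nat.mul_mod, Nat.add_mod, Nat.mul_mod ((m % 6 + 3)), Nat.add_mod (m % 6)]
    simp
  rw [h]
  have : m % 6 < 6 := Nat.mod_lt _ (by norm_num)
  interval_cases (m % 6) <;> simp

theorem upper_bound (S : Finset (EuclideanSpace ℝ (Fin 2))) (hn : 5 * 10 ^ 7 ≤ S.card) :
    (heavyLines S).ncard ≤ S.card * (S.card - 3) / 6 + 1 := by
  by_contra hcon
  push Not at hcon
  obtain ⟨S', hG, hc, hh⟩ := exists_gen S
  have h1 := dfc_eq hG
  rw [hh, hc] at h1
  have h2 := n_mod S.card (by omega)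
  have h3 : S.card * (S.card - 1) = S.card * (S.card - 3) + 2 * S.card := by
    obtain ⟨m, hm⟩ : ∃ m, S.card = m + 3 := ⟨S.card - 3, by omega⟩
    rw [hm]
    simp only [Nat.add_sub_cancel]
    have : m + 3 - 1 = m + 2 := by omega
    rw [this]
    ring
  rw [h3] at h1
  generalize S.card * (S.card - 3) = X at *
  exact no_such hG (by omega) (by omega)

/-- The effective orchard theorem. -/
theorem orchard (n : ℕ) (hn : 5 * 10 ^ 7 ≤ n) :
    IsGreatest {m : ℕ | ∃ S : Finset (EuclideanSpace ℝ (Fin 2)), S.card = n ∧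
      (heavyLines S).ncard = m} (n * (n - 3) / 6 + 1) := by
  constructor
  · exact lower_bound n (by omega)
  · rintro m ⟨S, rfl, rfl⟩
    exact upper_bound S hn

end Pool.Agent.Lib.MP_214199_co.Eff
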