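import Pool.Agent.Lib.MP_214199_co.Eff.Rot
import Pool.Agent.Lib.MP_214199_co.Eff.Rev

/-!
# The hexagon around a flat vertex
-/

set_option autoImplicit false

namespace Pool.Agent.Lib.MP_214199_co.Eff

open Finset

variable {S : Finset Pt}

/-- `Flat` depends only on the vertex. -/
theorem flat_of_v_eq {sg al : Equiv.Perm (D S)} {d e : D S} (h : Flat sg al d)
    (he : e.1.v = d.1.v) : Flat sg al e := by
  unfold Flat at *
  rw [he]
  exact h

/-- The relation of the hexagon: the dart from the head of `d` to the head of `sg d` and back.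
Proof.  With `φ = sg⁻¹ ∘ al`, `φ (φ (φ d)) = d`, so `φ (φ d) = φ⁻¹ d = al (sg d)`; that is
`sg⁻¹ (al (sg⁻¹ (al d))) = al (sg d)`. -/
theorem hex_rel {sg al : Equiv.Perm (D S)} (ha : IsRev S al) {d : D S} (h : Flat sg al d) :
    al (sg.symm (al d)) = sg (al (sg d)) := by
  obtain ⟨⟨-, -, -, h4⟩, -⟩ := h.2 d rfl
  unfold phi at h4
  rw [Equiv.symm_apply_eq] at h4
  have h5 : sg.symm (al (sg.symm (al d))) = al (sg d) := by
    rw [← h4, ha.al_al]
  rwa [Equiv.symm_apply_eq] at h5

/-- The block of the head of `d`: the line of `d` and two outer lines.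
Proof.  The head is a triple point with the darts `al d`, `sg⁻¹ (al d)` (line `out d`),
`sg (al d)`, whose line is that of `al (sg⁻¹ (al (sg⁻¹ d)))` by `hex_rel` for `sg⁻¹ d`, that is
`out (sg⁻¹ d)`.  Use `rot3` at `sg⁻¹ (al d)`. -/
theorem hex_blk (hS : Gen S) {sg al : Equiv.Perm (D S)} (hr : IsRot S sg) (ha : IsRev S al)
    {d : D S} (h : Flat sg al d) :
    blk S (al d).1.v = {d.1.p, out sg al (sg.symm d), out sg al d} ∧
      d.1.p ≠ out sg al (sg.symm d) ∧ d.1.p ≠ out sg al d ∧
      out sg al (sg.symm d) ≠ out sg al d := by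
  have hc : (blk S (sg.symm (al d)).1.v).card = 3 := by
    rw [rot_symm_v hr]
    exact (h.2 d rfl).2
  obtain ⟨-, h1, h2, h3, h4⟩ := rot3 hS hr (sg.symm (al d)) hc
  have hrel := hex_rel ha (flat_of_v_eq h (rot_symm_v hr d))
  rw [Equiv.apply_symm_apply] at hrel
  have e1 : (sg (al d)).1.p = out sg al (sg.symm d) := by
    rw [← hrel, ha.p]
    rfl
  rw [Equiv.apply_symm_apply, rot_symm_v hr, e1, ha.p] at h1
  rw [Equiv.apply_symm_apply, ha.p] at h2
  rw [Equiv.apply_symm_apply, e1] at h3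
  rw [Equiv.apply_symm_apply, e1, ha.p] at h4
  refine ⟨?_, h4, ?_, ?_⟩
  · rw [h1]
    ext x
    simp only [Finset.mem_insert, Finset.mem_singleton]
    unfold out
    tauto
  · exact h2.symm
  · exact h3.symm

theorem hex_ne (sg al : Equiv.Perm (D S)) {d : D S} (h : Flat sg al d) : al d ≠ d :=
  (h.2 d rfl).1.1

theorem hex_flat {sg al : Equiv.Perm (D S)} (hr : IsRot S sg) {d : D S} (h : Flat sg al d) :
    Flat sg al (sg d) := flat_of_v_eq h (hr.v d)

theorem hex_p_mem (hS : Gen S) {sg al : Equiv.Perm (D S)} (hr : IsRot S sg) (ha : IsRev S al)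
    {d : D S} (h : Flat sg al d) : d.1.p ∈ blk S (al d).1.v := by
  rw [(hex_blk hS hr ha h).1]
  simp

theorem hex_o_mem (hS : Gen S) {sg al : Equiv.Perm (D S)} (hr : IsRot S sg) (ha : IsRev S al)
    {d : D S} (h : Flat sg al d) : out sg al d ∈ blk S (al d).1.v := by
  rw [(hex_blk hS hr ha h).1]
  simp

theorem hex_o_mem' (hS : Gen S) {sg al : Equiv.Perm (D S)} (hr : IsRot S sg) (ha : IsRev S al)
    {d : D S} (h : Flat sg al d) : out sg al d ∈ blk S (al (sg d)).1.v := by
  rw [(hex_blk hS hr ha (hex_flat hr h)).1, Equiv.symm_apply_apply]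
  simp

theorem hex_o_notMem (hS : Gen S) {sg al : Equiv.Perm (D S)} (hr : IsRot S sg) (ha : IsRev S al)
    {d : D S} (h : Flat sg al d) : out sg al d ∉ blk S d.1.v := by
  intro ho
  exact rev_v_ne ha (hex_ne sg al h) (vert_unique hS (hex_blk hS hr ha h).2.2.1
    (hex_p_mem hS hr ha h) (hex_o_mem hS hr ha h) d.2.2 ho)

theorem hex_o_ne1 (hS : Gen S) {sg al : Equiv.Perm (D S)} (hr : IsRot S sg) (ha : IsRev S al)
    {d : D S} (h : Flat sg al d) : out sg al d ≠ out sg al (sg d) := by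
  have := (hex_blk hS hr ha (hex_flat hr h)).2.2.2
  rwa [Equiv.symm_apply_apply] at this

theorem hex_key (hS : Gen S) {sg al : Equiv.Perm (D S)} (hr : IsRot S sg) (ha : IsRev S al)
    {d : D S} (h : Flat sg al d) : out sg al d ∉ blk S (al (op d)).1.v := by
  intro ho
  have hop : Flat sg al (op d) := flat_of_v_eq h rfl
  exact rev_heads_ne ha (hex_ne sg al h) (hex_ne sg al hop)
    (vert_unique hS (hex_blk hS hr ha h).2.2.1
      (hex_p_mem hS hr ha h) (hex_o_mem hS hr ha h) (hex_p_mem hS hr ha hop) ho)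

theorem hex_o_ne2 (hS : Gen S) {sg al : Equiv.Perm (D S)} (hr : IsRot S sg) (ha : IsRev S al)
    {d : D S} (h : Flat sg al d) : out sg al d ≠ out sg al (sg (sg d)) := by
  intro he
  have h2 := hex_flat hr (hex_flat hr h)
  have h3 := hex_o_mem' hS hr ha h2
  rw [(rot3 hS hr d h.1).1, ← he] at h3
  exact hex_key hS hr ha h h3

theorem hex_o_ne3 (hS : Gen S) {sg al : Equiv.Perm (D S)} (hr : IsRot S sg) (ha : IsRev S al)
    {d : D S} (h : Flat sg al d) : out sg al d ≠ out sg al (sg (sg (sg d))) := by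
  intro he
  have h2 := hex_flat hr (hex_flat hr (hex_flat hr h))
  have h3 := hex_o_mem hS hr ha h2
  rw [← he, (rot3 hS hr d h.1).1] at h3
  exact hex_key hS hr ha h h3

/-- The nine lines of a hexagon are different.
Proof.  Write `x k` for the head of `sg^k d` and `o k = out (sg^k d)`, `k = 0, ..., 5`
(`sg^3 = op` at `d.v`, `sg^6 = 1`).  `blk (x k) = {line (sg^k d), o (k-1), o k}` has three elements.
`x k ≠ d.v`; the `x k` are pairwise different (`x k = x (k+3)` is excluded by `rev_heads_ne`; for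
different lines use `vert_unique` with `d.v`).  `o k` is different from the three lines of `d.v`:
from `line (sg^k d)` and `line (sg^(k+1) d)` by `hex_blk`; if it were the third one it would contain
`d.v` and, with `line (sg^k d)`, also `x k`: `x k = d.v`.  `o k ≠ o (k+1)` by `hex_blk`.
`o k = o j` for `j = k+2` or `j = k+3`: `o k` passes through `x k`, `x (k+1)`, and `o j` through
`x j`, `x (j+1)`; one of these is opposite to one of those (`x k`, `x (k+3)` are both on
`line (sg^k d)`), so the line `o k` has two vertices in common with `line (sg^k d)`, so it is equal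
to it; contradiction. -/
theorem hex_card (hS : Gen S) {sg al : Equiv.Perm (D S)} (hr : IsRot S sg) (ha : IsRev S al)
    {d : D S} (h : Flat sg al d) : (hex sg al d).card = 9 := by
  have f1 := hex_flat hr h
  have f2 := hex_flat hr f1
  have f3 := hex_flat hr f2
  have f4 := hex_flat hr f3
  have f5 := hex_flat hr f4
  have h6 : sg (sg (sg (sg (sg (sg d))))) = d := by
    rw [(rot3 hS hr d h.1).1, (rot3 hS hr (op d) (flat_of_v_eq h rfl).1).1]
    apply Subtype.ext
    simp [op]
  obtain ⟨-, hb, p01, p02, p12⟩ := rot3 hS hr d h.1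
  -- the outer lines are not in the block of the vertex
  have v1 : (sg d).1.v = d.1.v := hr.v d
  have v2 : (sg (sg d)).1.v = d.1.v := (hr.v _).trans v1
  have v3 : (sg (sg (sg d))).1.v = d.1.v := (hr.v _).trans v2
  have v4 : (sg (sg (sg (sg d)))).1.v = d.1.v := (hr.v _).trans v3
  have v5 : (sg (sg (sg (sg (sg d))))).1.v = d.1.v := (hr.v _).trans v4
  have n0 := hex_o_notMem hS hr ha h
  have n1 := hex_o_notMem hS hr ha f1
  have n2 := hex_o_notMem hS hr ha f2
  have n3 := hex_o_notMem hS hr ha f3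
  have n4 := hex_o_notMem hS hr ha f4
  have n5 := hex_o_notMem hS hr ha f5
  rw [v1, hb] at n1
  rw [v2, hb] at n2
  rw [v3, hb] at n3
  rw [v4, hb] at n4
  rw [v5, hb] at n5
  rw [hb] at n0
  simp only [Finset.mem_insert, Finset.mem_singleton, not_or] at n0 n1 n2 n3 n4 n5
  have a0 := hex_o_ne1 hS hr ha h
  have a1 := hex_o_ne1 hS hr ha f1
  have a2 := hex_o_ne1 hS hr ha f2
  have a3 := hex_o_ne1 hS hr ha f3
  have a4 := hex_o_ne1 hS hr ha f4
  have a5 := hex_o_ne1 hS hr ha f5
  have b0 := hex_o_ne2 hS hr ha h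
  have b1 := hex_o_ne2 hS hr ha f1
  have b2 := hex_o_ne2 hS hr ha f2
  have b3 := hex_o_ne2 hS hr ha f3
  have b4 := hex_o_ne2 hS hr ha f4
  have b5 := hex_o_ne2 hS hr ha f5
  have c0 := hex_o_ne3 hS hr ha h
  have c1 := hex_o_ne3 hS hr ha f1
  have c2 := hex_o_ne3 hS hr ha f2
  rw [h6] at a5 b4 b5
  unfold hex
  rw [Finset.card_insert_of_notMem, Finset.card_insert_of_notMem, Finset.card_insert_of_notMem,
    Finset.card_insert_of_notMem, Finset.card_insert_of_notMem, Finset.card_insert_of_notMem,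
    Finset.card_insert_of_notMem, Finset.card_insert_of_notMem, Finset.card_singleton]
  all_goals simp only [Finset.mem_insert, Finset.mem_singleton, not_or]
  · exact a4
  · exact ⟨a3, b3⟩
  · exact ⟨a2, b2, c2⟩
  · exact ⟨a1, b1, c1, b5.symm⟩
  · exact ⟨a0, b0, c0, b4.symm, a5.symm⟩
  · exact ⟨Ne.symm n0.2.2, Ne.symm n1.2.2, Ne.symm n2.2.2, Ne.symm n3.2.2, Ne.symm n4.2.2,
      Ne.symm n5.2.2⟩
  · exact ⟨p12, Ne.symm n0.2.1, Ne.symm n1.2.1, Ne.symm n2.2.1, Ne.symm n3.2.1, Ne.symm n4.2.1,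
      Ne.symm n5.2.1⟩
  · exact ⟨p01, p02, Ne.symm n0.1, Ne.symm n1.1, Ne.symm n2.1, Ne.symm n3.1, Ne.symm n4.1,
      Ne.symm n5.1⟩

theorem hex_subset (sg al : Equiv.Perm (D S)) (d : D S) : hex sg al d ⊆ S := by
  have h : ∀ e : D S, e.1.p ∈ S := fun e => blk_subset _ e.2.2
  intro x hx
  simp only [hex, out, Finset.mem_insert, Finset.mem_singleton] at hx
  rcases hx with rfl | rfl | rfl | rfl | rfl | rfl | rfl | rfl | rfl <;> exact h _

end Pool.Agent.Lib.MP_214199_co.Eff
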