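import Pool.Agent.Lib.MP_214199_co.Eff.Count
import Pool.Agent.Lib.MP_214199_co.Eff.Hex

/-!
# The number of bad darts
-/

set_option autoImplicit false

namespace Pool.Agent.Lib.MP_214199_co.Eff

open Finset

variable {S : Finset Pt}

/-- the number of bad darts caused by a vertex of multiplicity `m` -/
def cw (m : ℕ) : ℤ := if m = 3 then 0 else 288 - 46 * m

theorem fc_low_v {sg al : Equiv.Perm (D S)} (hr : IsRot S sg) (d : D S) :
    (low sg al d).1.v = (al (sg.symm d)).1.v := by
  unfold low
  rw [rot_symm_v hr, rot_symm_v hr]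

theorem fc_low_inj (sg al : Equiv.Perm (D S)) : Function.Injective (low sg al) := by
  intro a b h
  unfold low at h
  exact sg.symm.injective (al.injective (sg.symm.injective (sg.symm.injective h)))

/-- a triple point has six darts -/
theorem fc_six (v : Pt) (hv : (blk S v).card = 3) :
    ({d : D S | d.1.v = v}).ncard ≤ 6 := by
  classical
  have h : ({d : D S | d.1.v = v}).ncard ≤
      (((blk S v) ×ˢ (Finset.univ : Finset Bool) : Finset (Pt × Bool)) : Set (Pt × Bool)).ncard := by
    apply Set.ncard_le_ncard_of_injOn (fun d => (d.1.p, d.1.s))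
    · intro d hd
      have hd' : d.1.v = v := hd
      rw [Finset.mem_coe, Finset.mem_product]
      exact ⟨hd' ▸ d.2.2, Finset.mem_univ _⟩
    · intro a ha b hb hab
      have ha' : a.1.v = v := ha
      have hb' : b.1.v = v := hb
      rw [Prod.mk.injEq] at hab
      exact Subtype.ext (Dart.ext (ha'.trans hb'.symm) hab.1 hab.2)
  rw [Set.ncard_coe_finset, Finset.card_product, hv] at h
  simpa using h

/-- the darts at triple points that are not flat -/
def fcE (sg al : Equiv.Perm (D S)) : Set (D S) :=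
  {d | (blk S d.1.v).card = 3 ∧ ¬ Flat sg al d}

/-- the darts at the other vertices -/
def fcQ (S : Finset Pt) : Set (D S) := {d | (blk S d.1.v).card ≠ 3}

theorem fc_E_le (sg al : Equiv.Perm (D S)) :
    (fcE sg al).ncard ≤ 6 * ({d : D S | ¬ Tri sg al d}.ncard + (fcQ S).ncard) := by
  classical
  set B : Set (D S) := {e | (blk S e.1.v).card = 3 ∧
    (¬ Tri sg al e ∨ (blk S (al e).1.v).card ≠ 3)} with hB
  have hB1 : B.ncard ≤ {d : D S | ¬ Tri sg al d}.ncard + (fcQ S).ncard := by
    have h1 : B ⊆ {d : D S | ¬ Tri sg al d} ∪ al ⁻¹' (fcQ S) := by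
      rintro e ⟨-, h | h⟩
      · exact Or.inl h
      · exact Or.inr h
    have h2 : (al ⁻¹' (fcQ S)).ncard = (fcQ S).ncard :=
      Set.ncard_preimage_of_injective_subset_range al.injective
        (fun x _ => ⟨al.symm x, al.apply_symm_apply x⟩)
    calc B.ncard ≤ ({d : D S | ¬ Tri sg al d} ∪ al ⁻¹' (fcQ S)).ncard :=
          Set.ncard_le_ncard h1 (Set.toFinite _)
      _ ≤ {d : D S | ¬ Tri sg al d}.ncard + (al ⁻¹' (fcQ S)).ncard := Set.ncard_union_le _ _
      _ = _ := by rw [h2]
  have hE : (fcE sg al).ncard ≤ B.ncard * 6 := by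
    have h1 : (fcE sg al).toFinite.toFinset ⊆ B.toFinite.toFinset.biUnion
        (fun e => ({d : D S | d.1.v = e.1.v}).toFinite.toFinset) := by
      intro d hd
      rw [Set.Finite.mem_toFinset] at hd
      obtain ⟨h3, h4⟩ := hd
      have h5 : ∃ e : D S, e.1.v = d.1.v ∧ (¬ Tri sg al e ∨ (blk S (al e).1.v).card ≠ 3) := by
        by_contra hcon
        push Not at hcon
        exact h4 ⟨h3, hcon⟩
      obtain ⟨e, he, he'⟩ := h5
      rw [Finset.mem_biUnion]
      refine ⟨e, ?_, ?_⟩
      · rw [Set.Finite.mem_toFinset]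
        exact ⟨by rw [he]; exact h3, he'⟩
      · rw [Set.Finite.mem_toFinset]
        exact he.symm
    have h2 := Finset.card_le_card h1
    have h3 := Finset.card_biUnion_le_card_mul B.toFinite.toFinset
      (fun e => ({d : D S | d.1.v = e.1.v}).toFinite.toFinset) 6 (fun e he => by
        rw [Set.Finite.mem_toFinset] at he
        rw [← Set.ncard_eq_toFinset_card]
        exact fc_six _ he.1)
    rw [← Set.ncard_eq_toFinset_card] at h2
    rw [← Set.ncard_eq_toFinset_card] at h3
    exact h2.trans h3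
  calc (fcE sg al).ncard ≤ B.ncard * 6 := hE
    _ ≤ ({d : D S | ¬ Tri sg al d}.ncard + (fcQ S).ncard) * 6 := Nat.mul_le_mul_right 6 hB1
    _ = _ := Nat.mul_comm _ _

theorem fc_Q_eq : (fcQ S).ncard = ∑ v ∈ verts S, if (blk S v).card = 3 then 0 else
    2 * (blk S v).card := by
  classical
  have h1 : (fcQ S).ncard = ∑ d : D S, (if (blk S d.1.v).card = 3 then 0 else 1) := by
    rw [Set.ncard_eq_toFinset_card (fcQ S) (Set.toFinite _), Finset.card_eq_sum_ones,
      ← Finset.sum_subset (Finset.subset_univ (Set.toFinite (fcQ S)).toFinset)]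
    · apply Finset.sum_congr rfl
      intro d hd
      rw [Set.Finite.mem_toFinset] at hd
      have hd' : (blk S d.1.v).card ≠ 3 := hd
      rw [if_neg hd']
    · intro d _ hd
      rw [Set.Finite.mem_toFinset] at hd
      have hd' : ¬ (blk S d.1.v).card ≠ 3 := hd
      rw [if_pos (not_not.1 hd')]
  rw [h1, sum_darts (fun v _ _ => if (blk S v).card = 3 then 0 else 1)]
  apply Finset.sum_congr rfl
  intro v _
  rw [Finset.sum_const, smul_eq_mul]
  split_ifs <;> omega

/-- Proof.  `m = (blk S d.v).card`; `NT` the number of darts with `¬ Tri` (`count_tri`),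
`Q = ∑_{m_v ≠ 3} 2 m_v` the number of darts at vertices with `m ≠ 3`.
(a) Darts `d` with `¬ Flat d`:
 * `m ≠ 3`: `Q` darts;
 * `m = 3` and some dart `e` with `e.v = d.v` has `¬ Tri e`: at most `NT` such vertices, six darts
   each: at most `6 NT` darts `d`;
 * `m = 3` and some dart `e` with `e.v = d.v` has `(blk S (al e).v).card ≠ 3`: `al` maps
   these `e` injectively to the darts at vertices with `m ≠ 3`, so at most `Q` such vertices and
   `6 Q` darts `d`.
 Sum `7 Q + 6 NT`.
(b) `Flat d`, `¬ Flat (low d)`: `(low d).v` is the vertex of `al (sg⁻¹ d)`, a triple point since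
 `Flat d` (`rot_symm_v`), and `low` is injective; this vertex is triple and not flat: by (a) there
 are at most `NT + Q` such vertices, each with six darts: at most `6 (NT + Q)` darts `d`.
(c), (d) the same bound for `Flat d`, `Flat (low d)`, `¬ Flat (low (low d))` and for the third row
 (each time `d ↦ low ... d` is injective and its vertex is a triple point which is not flat).
Total `24 NT + 25 Q ≤ 96 ∑ (3 - m_v) + 72 n + 50 ∑_{m_v ≠ 3} m_v`; for `m ≠ 3`:
`96 (3 - m) + 50 m = 288 - 46 m = cw m`. -/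
theorem count_good (hS : Gen S) (h1 : 1 < (verts S).card) {sg al : Equiv.Perm (D S)}
    (hr : IsRot S sg) (ha : IsRev S al) :
    ({d : D S | ¬ Good sg al d}.ncard : ℤ) ≤
      ∑ v ∈ verts S, cw (blk S v).card + 72 * S.card := by
  have hNT := count_tri hS h1 hr ha
  have hE := fc_E_le sg al
  have hQ := fc_Q_eq (S := S)
  set E := fcE sg al with hEdef
  set f : D S → D S := low sg al with hf
  have hfi : Function.Injective f := fc_low_inj sg al
  -- a step from a flat dart lands in a triple point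
  have hstep : ∀ d : D S, Flat sg al d → ¬ Flat sg al (f d) → f d ∈ E := by
    intro d hd hd'
    refine ⟨?_, hd'⟩
    rw [hf, fc_low_v hr]
    exact (hd.2 (sg.symm d) (rot_symm_v hr d)).2
  have hsub : {d : D S | ¬ Good sg al d} ⊆
      fcQ S ∪ (E ∪ (f ⁻¹' E ∪ (f ⁻¹' (f ⁻¹' E) ∪ f ⁻¹' (f ⁻¹' (f ⁻¹' E))))) := by
    intro d hd
    have hd' : ¬ Good sg al d := hd
    by_cases c0 : (blk S d.1.v).card = 3
    · right
      by_cases c1 : Flat sg al d
      · right
        by_cases c2 : Flat sg al (f d)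
        · right
          by_cases c3 : Flat sg al (f (f d))
          · right
            by_cases c4 : Flat sg al (f (f (f d)))
            · exact absurd ⟨c1, c2, c3, c4⟩ hd'
            · exact hstep _ c3 c4
          · left
            exact hstep _ c2 c3
        · left
          exact hstep _ c1 c2
      · left
        exact ⟨c0, c1⟩
    · left
      exact c0
  have hpre : ∀ A : Set (D S), (f ⁻¹' A).ncard = A.ncard := by
    intro A
    have hsur : Function.Surjective f := Finite.surjective_of_injective hfi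
    exact Set.ncard_preimage_of_injective_subset_range hfi (fun x _ => hsur x)
  have hle : {d : D S | ¬ Good sg al d}.ncard ≤ (fcQ S).ncard + 4 * E.ncard := by
    calc {d : D S | ¬ Good sg al d}.ncard ≤ _ := Set.ncard_le_ncard hsub (Set.toFinite _)
      _ ≤ (fcQ S).ncard + (E ∪ (f ⁻¹' E ∪ (f ⁻¹' (f ⁻¹' E) ∪ f ⁻¹' (f ⁻¹' (f ⁻¹' E))))).ncard :=
          Set.ncard_union_le _ _
      _ ≤ (fcQ S).ncard + (E.ncard +
          (f ⁻¹' E ∪ (f ⁻¹' (f ⁻¹' E) ∪ f ⁻¹' (f ⁻¹' (f ⁻¹' E)))).ncard) :=
          Nat.add_le_add_left (Set.ncard_union_le _ _) _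
      _ ≤ (fcQ S).ncard + (E.ncard + ((f ⁻¹' E).ncard +
          (f ⁻¹' (f ⁻¹' E) ∪ f ⁻¹' (f ⁻¹' (f ⁻¹' E))).ncard)) :=
          Nat.add_le_add_left (Nat.add_le_add_left (Set.ncard_union_le _ _) _) _
      _ ≤ (fcQ S).ncard + (E.ncard + ((f ⁻¹' E).ncard +
          ((f ⁻¹' (f ⁻¹' E)).ncard + (f ⁻¹' (f ⁻¹' (f ⁻¹' E))).ncard))) :=
          Nat.add_le_add_left (Nat.add_le_add_left (Nat.add_le_add_left
            (Set.ncard_union_le _ _) _) _) _
      _ = (fcQ S).ncard + 4 * E.ncard := by
          rw [hpre, hpre, hpre, hpre, hpre, hpre]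
          ring
  have hcw : ∑ v ∈ verts S, cw (blk S v).card =
      96 * ∑ v ∈ verts S, (3 - ((blk S v).card : ℤ)) +
        25 * ∑ v ∈ verts S, ((if (blk S v).card = 3 then 0 else 2 * (blk S v).card : ℕ) : ℤ) := by
    rw [Finset.mul_sum, Finset.mul_sum, ← Finset.sum_add_distrib]
    apply Finset.sum_congr rfl
    intro v _
    unfold cw
    split_ifs with h3
    · rw [h3]
      norm_num
    · push_cast
      ring
  have hQ' : ((fcQ S).ncard : ℤ) =
      ∑ v ∈ verts S, ((if (blk S v).card = 3 then 0 else 2 * (blk S v).card : ℕ) : ℤ) := by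
    rw [hQ]
    push_cast
    rfl
  rw [hcw, ← hQ']
  have hle' : ({d : D S | ¬ Good sg al d}.ncard : ℤ) ≤ (fcQ S).ncard + 4 * E.ncard := by
    exact_mod_cast hle
  have hE' : (E.ncard : ℤ) ≤ 6 * ({d : D S | ¬ Tri sg al d}.ncard + (fcQ S).ncard) := by
    exact_mod_cast hE
  linarith

end Pool.Agent.Lib.MP_214199_co.Eff
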