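import Pool.Agent.Lib.MP_214199_co.Eff.Form

/-!
# Flexes of a singular cubic
-/

set_option autoImplicit false

namespace Pool.Agent.Lib.MP_214199_co.Eff

open MvPolynomial

private theorem flexB_smul (F : Poly3) (hF : F.IsHomogeneous 3) (c : ℂ) (X : Fin 3 → ℂ) :
    eval (c • X) F = c ^ 3 * eval X F := by
  rw [MvPolynomial.eval_eq', MvPolynomial.eval_eq', Finset.mul_sum]
  apply Finset.sum_congr rfl
  intro d hd
  have h1 : ∑ i, d i = 3 := by
    have h := hF (MvPolynomial.mem_support_iff.1 hd)
    have h' : d.degree = 3 := by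
      rw [Finsupp.degree_eq_weight_one]
      exact h
    rw [Finsupp.degree_eq_sum] at h'
    exact h'
  have h2 : ∏ i, (c • X) i ^ d i = c ^ 3 * ∏ i, X i ^ d i := by
    have h3 : ∀ i ∈ (Finset.univ : Finset (Fin 3)), (c • X) i ^ d i = c ^ d i * X i ^ d i := by
      intro i _
      rw [Pi.smul_apply, smul_eq_mul, mul_pow]
    rw [Finset.prod_congr rfl h3, Finset.prod_mul_distrib, Finset.prod_pow_eq_pow_sum, h1]
  rw [h2]
  ring

/-- the symmetric Taylor expansion -/
private theorem flexB_taylor (F : Poly3) (hF : F.IsHomogeneous 3) (X w : Fin 3 → ℂ) (t : ℂ) :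
    eval (X + t • w) F = eval X F + t * df F X w + t ^ 2 * df F w X + t ^ 3 * eval w F := by
  obtain ⟨q, hq⟩ := taylor F hF X w
  obtain ⟨q', hq'⟩ := taylor F hF w X
  have h1 : ∀ t : ℂ, t ≠ 0 → t * df F X w + t ^ 2 * q = t ^ 2 * df F w X + t * q' := by
    intro t ht
    have h2 : X + t • w = t • (w + t⁻¹ • X) := by
      rw [smul_add, smul_smul, mul_inv_cancel₀ ht, one_smul, add_comm]
    have h3 := hq t
    rw [h2, flexB_smul F hF, hq' t⁻¹] at h3
    field_simp at h3
    linear_combination -h3
  have e1 := h1 1 one_ne_zero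
  have e2 := h1 (-1) (by norm_num)
  have hqq : q = df F w X := by linear_combination (e1 + e2) / 2
  rw [hq t, hqq]

private theorem flexB_df_lin (F : Poly3) (X v w : Fin 3 → ℂ) :
    df F X (v + w) = df F X v + df F X w := by
  unfold df
  rw [← Finset.sum_add_distrib]
  apply Finset.sum_congr rfl
  intro i _
  rw [Pi.add_apply]
  ring

/-- a root of a binary quadratic form -/
private theorem flexB_quad (a b c : ℂ) : ∃ x y : ℂ, (x ≠ 0 ∨ y ≠ 0) ∧
    a * x ^ 2 + b * (x * y) + c * y ^ 2 = 0 := by
  by_cases ha : a = 0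
  · exact ⟨1, 0, Or.inl one_ne_zero, by rw [ha]; ring⟩
  · obtain ⟨x, hx⟩ := exists_quadratic_eq_zero (b := b) (c := c) ha
      (IsAlgClosed.exists_eq_mul_self _)
    exact ⟨x, 1, Or.inr one_ne_zero, by linear_combination hx⟩

/-- a root of a binary cubic form -/
private theorem flexB_cub (a b c d : ℂ) : ∃ x y : ℂ, (x ≠ 0 ∨ y ≠ 0) ∧
    a * x ^ 3 + b * (x ^ 2 * y) + c * (x * y ^ 2) + d * y ^ 3 = 0 := by
  by_cases ha : a = 0
  · exact ⟨1, 0, Or.inl one_ne_zero, by rw [ha]; ring⟩
  · obtain ⟨x, hx⟩ := IsAlgClosed.exists_root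
      (Polynomial.C a * Polynomial.X ^ 3 + Polynomial.C b * Polynomial.X ^ 2 +
        Polynomial.C c * Polynomial.X + Polynomial.C d)
      (by rw [Polynomial.degree_cubic ha]; norm_num)
    refine ⟨x, 1, Or.inr one_ne_zero, ?_⟩
    simp only [Polynomial.IsRoot, Polynomial.eval_add, Polynomial.eval_mul, Polynomial.eval_C,
      Polynomial.eval_pow, Polynomial.eval_X] at hx
    linear_combination hx

/-- linear independence of three vectors -/
private def FlexBInd (u v p : Fin 3 → ℂ) : Prop :=
  ∀ x y z : ℂ, x • u + y • v + z • p = 0 → x = 0 ∧ y = 0 ∧ z = 0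

private theorem flexB_basis (p : Fin 3 → ℂ) (hp : p ≠ 0) : ∃ u v, FlexBInd u v p := by
  obtain ⟨i, hi⟩ := Function.ne_iff.1 hp
  rw [Pi.zero_apply] at hi
  fin_cases i
  · refine ⟨![0, 1, 0], ![0, 0, 1], fun x y z h => ?_⟩
    have h0 := congrFun h 0
    have h1 := congrFun h 1
    have h2 := congrFun h 2
    simp [Matrix.cons_val_zero] at h0 h1 h2
    have hz : z = 0 := by
      rcases h0 with h | h
      · exact h
      · exact absurd h hi
    subst hz
    simp at h1 h2
    exact ⟨h1, h2, rfl⟩
  · refine ⟨![1, 0, 0], ![0, 0, 1], fun x y z h => ?_⟩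
    have h0 := congrFun h 0
    have h1 := congrFun h 1
    have h2 := congrFun h 2
    simp [Matrix.cons_val_zero] at h0 h1 h2
    have hz : z = 0 := by
      rcases h1 with h | h
      · exact h
      · exact absurd h hi
    subst hz
    simp at h0 h2
    exact ⟨h0, h2, rfl⟩
  · refine ⟨![1, 0, 0], ![0, 1, 0], fun x y z h => ?_⟩
    have h0 := congrFun h 0
    have h1 := congrFun h 1
    have h2 := congrFun h 2
    simp [Matrix.cons_val_zero] at h0 h1 h2
    have hz : z = 0 := by
      rcases h2 with h | h
      · exact h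
      · exact absurd h hi
    subst hz
    simp at h0 h1
    exact ⟨h0, h1, rfl⟩

/-- The data of the cubic in a basis. -/
private theorem flexB_form (F : Poly3) (hF : F.IsHomogeneous 3) (p : Fin 3 → ℂ)
    (hs : ∀ i, eval p (pderiv i F) = 0) :
    (∀ X z, eval (X + z • p) F = eval X F + z * df F X p) ∧
    ∀ u v : Fin 3 → ℂ, ∃ β γ B : ℂ, ∀ x y z : ℂ, eval (x • u + y • v + z • p) F =
      eval u F * x ^ 3 + β * (x ^ 2 * y) + γ * (x * y ^ 2) + eval v F * y ^ 3 +
        z * (df F u p * x ^ 2 + B * (x * y) + df F v p * y ^ 2) := by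
  have hd : ∀ X, df F p X = 0 := by
    intro X
    unfold df
    simp [hs]
  have hp0 : eval p F = 0 := by
    have h1 := euler F hF p
    rw [hd p] at h1
    have h2 : (3 : ℂ) ≠ 0 := by norm_num
    exact (mul_eq_zero.1 h1.symm).resolve_left h2
  have hS : ∀ X z, eval (X + z • p) F = eval X F + z * df F X p := by
    intro X z
    rw [flexB_taylor F hF X p z, hd, hp0]
    ring
  refine ⟨hS, fun u v => ?_⟩
  -- the quadratic form
  have hQ1 : ∀ X t, df F (X + t • v) p
      = df F X p + t * (df F (X + p) v - df F X v) + t ^ 2 * df F v p := by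
    intro X t
    have h1 := hS (X + t • v) 1
    have h2 := flexB_taylor F hF (X + p) v t
    have h3 := flexB_taylor F hF X v t
    have h4 := hS X 1
    rw [one_smul, one_mul] at h1 h4
    have h5 : X + t • v + p = X + p + t • v := by abel
    rw [h5, h2, h3, h4, flexB_df_lin] at h1
    linear_combination -h1
  have hQ2 : ∀ c X, c ≠ 0 → df F (c • X) p = c ^ 2 * df F X p := by
    intro c X hc
    have h1 := hS (c • X) c
    rw [← smul_add, flexB_smul F hF, flexB_smul F hF] at h1
    have h4 := hS X 1
    rw [one_smul, one_mul] at h4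
    rw [h4] at h1
    have h2 : c * (df F (c • X) p - c ^ 2 * df F X p) = 0 := by linear_combination -h1
    exact sub_eq_zero.1 ((mul_eq_zero.1 h2).resolve_left hc)
  have h00 : eval (0 : Fin 3 → ℂ) F = 0 := by
    have := flexB_smul F hF 0 p
    rw [zero_smul, hp0, mul_zero] at this
    exact this
  have hQ0 : df F 0 p = 0 := by
    have h1 := hS 0 1
    rw [zero_add, one_smul, hp0, h00, zero_add, one_mul] at h1
    exact h1.symm
  refine ⟨df F u v, df F v u, df F (u + p) v - df F u v, ?_⟩
  intro x y z
  rw [hS]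
  have hC : eval (x • u + y • v) F = eval u F * x ^ 3 + df F u v * (x ^ 2 * y) +
      df F v u * (x * y ^ 2) + eval v F * y ^ 3 := by
    by_cases hx : x = 0
    · subst hx
      rw [zero_smul, zero_add, flexB_smul F hF]
      ring
    · have h1 : x • u + y • v = x • (u + (y / x) • v) := by
        rw [smul_add, smul_smul, mul_div_cancel₀ _ hx]
      rw [h1, flexB_smul F hF, flexB_taylor F hF]
      field_simp
  have hQ : df F (x • u + y • v) p = df F u p * x ^ 2 +
      (df F (u + p) v - df F u v) * (x * y) + df F v p * y ^ 2 := by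
    by_cases hx : x = 0
    · subst hx
      rw [zero_smul, zero_add]
      by_cases hy : y = 0
      · subst hy
        rw [zero_smul, hQ0]
        ring
      · rw [hQ2 y v hy]
        ring
    · have h1 : x • u + y • v = x • (u + (y / x) • v) := by
        rw [smul_add, smul_smul, mul_div_cancel₀ _ hx]
      rw [h1, hQ2 x _ hx, hQ1]
      field_simp
  rw [hC, hQ]

/-- independence of two combinations -/
private theorem flexB_ind {u v p : Fin 3 → ℂ} (h : FlexBInd u v p) (x y z x' y' z' : ℂ)
    (hne : x * y' - x' * y ≠ 0) :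
    LinearIndependent ℂ ![x • u + y • v + z • p, x' • u + y' • v + z' • p] := by
  rw [LinearIndependent.pair_iff]
  intro s t hst
  have h1 := h (s * x + t * x') (s * y + t * y') (s * z + t * z') (by
    rw [← hst]
    module)
  obtain ⟨h2, h3, -⟩ := h1
  constructor
  · have h4 : s * (x * y' - x' * y) = 0 := by linear_combination y' * h2 - x' * h3
    exact (mul_eq_zero.1 h4).resolve_right hne
  · have h4 : t * (x * y' - x' * y) = 0 := by linear_combination x * h3 - y * h2
    exact (mul_eq_zero.1 h4).resolve_right hne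

/-- a point with a nonzero derivative in some direction is nonsingular -/
private theorem flexB_ns {F : Poly3} {q p : Fin 3 → ℂ} (h : df F q p ≠ 0) :
    ∃ i, eval q (pderiv i F) ≠ 0 := by
  by_contra hcon
  push Not at hcon
  apply h
  unfold df
  simp [hcon]

/-- Proof.  Choose a linear change of coordinates `M` with `M e_2 = p`.  `F ∘ M` has no terms
with `z^3`, `z^2` (the value and the differential in `e_2` vanish), so
`F (M (x, y, z)) = Q(x,y) z + C(x,y)`, `Q` a binary quadratic form, `C` a binary cubic form.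
`Q ≠ 0`: otherwise `C` has a linear factor (over `ℂ`) and `F` vanishes on a line.  Over `ℂ` we can
change `x, y` linearly such that `Q = x y` or `Q = y^2`.
Case `Q = x y`: `C = α x^3 + β x^2 y + γ x y^2 + δ y^3`; `α ≠ 0` (otherwise `F` vanishes on `y = 0`)
and `δ ≠ 0`; with `z' = z + β x + γ y`: `x y z' + α x^3 + δ y^3`.  Take `t = 1` and `s` with
`α s^3 = -δ`; the point `(s, 1, 0)` (coordinates `x, y, z'`) is nonsingular (`∂/∂z' = s ≠ 0`), its
tangent is `3 α s^2 x + 3 δ y + s z' = 0`, and on the tangent
`x y z' + α x^3 + δ y^3 = α (x - s y)^3`: a flex.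
Case `Q = y^2`: `C = α x^3 + ...`, `α ≠ 0` (otherwise it vanishes on `y = 0`); with
`x' = x + (β / (3 α)) y` and a suitable `z' = z + ...` the form is `y^2 z' + α x'^3`; the point
`(x', y, z') = (0, 1, 0)` is nonsingular with the tangent `z' = 0`: a flex. -/
theorem flex_of_sing (F : Poly3) (hF : F.IsHomogeneous 3) (hN : NoLine F) (p : Fin 3 → ℂ)
    (hp : p ≠ 0) (hs : ∀ i, eval p (pderiv i F) = 0) : ∃ q w, IsFlex F q w := by
  obtain ⟨hS, hform⟩ := flexB_form F hF p hs
  obtain ⟨u₀, v₀, hind₀⟩ := flexB_basis p hp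
  -- no line through `p` is contained in the cubic
  have hline : ∀ u : Fin 3 → ℂ, LinearIndependent ℂ ![u, p] → eval u F = 0 → df F u p ≠ 0 := by
    intro u hu h0 h1
    obtain ⟨s, t, hst⟩ := hN u p hu
    apply hst
    by_cases hs0 : s = 0
    · subst hs0
      have h2 := hS 0 t
      have h3 : eval (0 : Fin 3 → ℂ) F = 0 := by
        have := flexB_smul F hF 0 p
        rw [zero_smul] at this
        rw [this]
        ring
      have h4 : eval p F = 0 := by
        have h5 := euler F hF p
        have h6 : df F p p = 0 := by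
          unfold df
          simp [hs]
        rw [h6] at h5
        exact (mul_eq_zero.1 h5.symm).resolve_left (by norm_num)
      rw [zero_smul, zero_add, flexB_smul F hF, h4, mul_zero]
    · have h2 : s • u + t • p = s • (u + (t / s) • p) := by
        rw [smul_add, smul_smul, mul_div_cancel₀ _ hs0]
      rw [h2, flexB_smul F hF, hS, h0, h1]
      ring
  -- a basis with `Q v = 0`
  obtain ⟨u, v, hind, hv0⟩ : ∃ u v, FlexBInd u v p ∧ df F v p = 0 := by
    obtain ⟨β, γ, B, h⟩ := hform u₀ v₀
    obtain ⟨x, y, hxy, hr⟩ := flexB_quad (df F u₀ p) B (df F v₀ p)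
    have hQ : df F (x • u₀ + y • v₀) p = 0 := by
      have h1 := h x y 1
      have h2 := h x y 0
      rw [hS, zero_mul] at h2
      rw [hS] at h1
      linear_combination h1 - h2 + hr
    rcases hxy with hx | hy
    · refine ⟨v₀, x • u₀ + y • v₀, fun a b c h1 => ?_, hQ⟩
      have h2 := hind₀ (b * x) (a + b * y) c (by rw [← h1]; module)
      have hb : b = 0 := (mul_eq_zero.1 h2.1).resolve_right hx
      have ha : a = 0 := by
        have := h2.2.1
        rw [hb, zero_mul, add_zero] at this
        exact this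
      exact ⟨ha, hb, h2.2.2⟩
    · refine ⟨u₀, x • u₀ + y • v₀, fun a b c h1 => ?_, hQ⟩
      have h2 := hind₀ (a + b * x) (b * y) c (by rw [← h1]; module)
      have hb : b = 0 := (mul_eq_zero.1 h2.2.1).resolve_right hy
      have ha : a = 0 := by
        have := h2.1
        rw [hb, zero_mul, add_zero] at this
        exact this
      exact ⟨ha, hb, h2.2.2⟩
  obtain ⟨β, γ, B, h⟩ := hform u v
  have hvne : eval v F ≠ 0 := by
    intro h0
    refine hline v ?_ h0 hv0
    rw [LinearIndependent.pair_iff]
    intro s t hst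
    have := hind 0 s t (by rw [← hst]; module)
    exact this.2
  by_cases hB : B = 0
  · -- `Q = a x ^ 2`
    have hQu : df F u p ≠ 0 := by
      intro h0
      obtain ⟨x, y, hxy, hr⟩ := flexB_cub (eval u F) β γ (eval v F)
      have h1 : eval (x • u + y • v) F = 0 := by
        have h2 := h x y 0
        rw [hS, zero_mul] at h2
        linear_combination h2 + hr
      have h2 : df F (x • u + y • v) p = 0 := by
        have h2 := h x y 1
        rw [hS, h1, h0, hv0, hB] at h2
        linear_combination h2 + hr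
      refine hline _ ?_ h1 h2
      rw [LinearIndependent.pair_iff]
      intro s t hst
      have h3 := hind (s * x) (s * y) t (by rw [← hst]; module)
      refine ⟨?_, h3.2.2⟩
      rcases hxy with hx | hy
      · exact (mul_eq_zero.1 h3.1).resolve_right hx
      · exact (mul_eq_zero.1 h3.2.1).resolve_right hy
    set a := df F u p with ha
    set α := eval u F with hα
    set δ := eval v F with hδ
    -- `y0`, `z0`, `z1`
    let y0 : ℂ := -(γ / (3 * δ))
    let z1 : ℂ := -((β - γ ^ 2 / (3 * δ)) / a)
    let z0 : ℂ := -(((β - γ ^ 2 / (3 * δ)) * y0 + (α - γ ^ 3 / (27 * δ ^ 2))) / a)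
    refine ⟨(1 : ℂ) • u + y0 • v + z0 • p, (0 : ℂ) • u + (1 : ℂ) • v + z1 • p, ?_, ?_, ?_⟩
    · exact flexB_ind hind _ _ _ _ _ _ (by ring_nf; norm_num)
    · apply flexB_ns (p := p)
      have h1 := hS ((1 : ℂ) • u + y0 • v + z0 • p) 1
      have h2 : (1 : ℂ) • u + y0 • v + z0 • p + (1 : ℂ) • p
          = (1 : ℂ) • u + y0 • v + (z0 + 1) • p := by module
      rw [h2, h, h, hv0, hB] at h1
      have h3 : df F ((1 : ℂ) • u + y0 • v + z0 • p) p = a := by linear_combination -h1
      rw [h3]
      exact hQu
    · intro s t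
      have h2 : s • ((1 : ℂ) • u + y0 • v + z0 • p) + t • ((0 : ℂ) • u + (1 : ℂ) • v + z1 • p)
          = s • u + (s * y0 + t) • v + (s * z0 + t * z1) • p := by module
      rw [h2, h, h, hv0, hB]
      simp only [y0, z0, z1]
      field_simp
      ring
  · -- `Q = B x y` after a change of `u`
    obtain ⟨u', hind', hu'0⟩ : ∃ u', FlexBInd u' v p ∧ df F u' p = 0 := by
      refine ⟨u + (-(df F u p / B)) • v, fun x y z h1 => ?_, ?_⟩
      · have h2 := hind x (x * (-(df F u p / B)) + y) z (by rw [← h1]; module)
        have hx := h2.1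
        subst hx
        have h3 := h2.2.1
        rw [zero_mul, zero_add] at h3
        exact ⟨rfl, h3, h2.2.2⟩
      · have h1 := h 1 (-(df F u p / B)) 1
        have h2 := h 1 (-(df F u p / B)) 0
        rw [hS, zero_mul] at h2
        rw [hS, one_smul, hv0] at h1
        rw [one_smul, hv0] at h2
        have h3 : df F (u + (-(df F u p / B)) • v) p
            = df F u p + B * (-(df F u p / B)) := by linear_combination h1 - h2
        rw [h3]
        field_simp
        ring
    obtain ⟨β', γ', B', h'⟩ := hform u' v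
    have hB' : B' ≠ 0 := by
      intro h0
      obtain ⟨x, y, hxy, hr⟩ := flexB_cub (eval u' F) β' γ' (eval v F)
      have h1 : eval (x • u' + y • v) F = 0 := by
        have h2 := h' x y 0
        rw [hS, zero_mul] at h2
        linear_combination h2 + hr
      have h2 : df F (x • u' + y • v) p = 0 := by
        have h2 := h' x y 1
        rw [hS, h1, hu'0, hv0, h0] at h2
        linear_combination h2 + hr
      refine hline _ ?_ h1 h2
      rw [LinearIndependent.pair_iff]
      intro s t hst
      have h3 := hind' (s * x) (s * y) t (by rw [← hst]; module)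
      refine ⟨?_, h3.2.2⟩
      rcases hxy with hx | hy
      · exact (mul_eq_zero.1 h3.1).resolve_right hx
      · exact (mul_eq_zero.1 h3.2.1).resolve_right hy
    have hune : eval u' F ≠ 0 := by
      intro h0
      refine hline u' ?_ h0 hu'0
      rw [LinearIndependent.pair_iff]
      intro s t hst
      have := hind' s 0 t (by rw [← hst]; module)
      exact ⟨this.1, this.2.2⟩
    set α := eval u' F with hα
    set δ := eval v F with hδ
    obtain ⟨σ, hσ⟩ := IsAlgClosed.exists_pow_nat_eq (-δ / α) (n := 3) (by norm_num)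
    have hσ' : α * σ ^ 3 = -δ := by
      rw [hσ]
      field_simp
    have hσ0 : σ ≠ 0 := by
      intro h0
      rw [h0] at hσ'
      apply hvne
      linear_combination hσ'
    let z0 : ℂ := -((β' * σ + γ') / B')
    let z1 : ℂ := -((β' + 3 * α * σ) / B')
    have hz0 : B' * z0 = -(β' * σ + γ') := by
      simp only [z0]
      field_simp
    have hz1 : B' * z1 = -(β' + 3 * α * σ) := by
      simp only [z1]
      field_simp
    refine ⟨σ • u' + (1 : ℂ) • v + z0 • p, (1 : ℂ) • u' + (0 : ℂ) • v + z1 • p, ?_, ?_, ?_⟩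
    · exact flexB_ind hind' _ _ _ _ _ _ (by ring_nf; norm_num)
    · apply flexB_ns (p := p)
      have h1 := hS (σ • u' + (1 : ℂ) • v + z0 • p) 1
      have h2 : σ • u' + (1 : ℂ) • v + z0 • p + (1 : ℂ) • p
          = σ • u' + (1 : ℂ) • v + (z0 + 1) • p := by module
      rw [h2, h', h', hv0, hu'0] at h1
      have h3 : df F (σ • u' + (1 : ℂ) • v + z0 • p) p = B' * σ := by linear_combination -h1
      rw [h3]
      exact mul_ne_zero hB' hσ0
    · intro s t
      have h2 : s • (σ • u' + (1 : ℂ) • v + z0 • p) + t • ((1 : ℂ) • u' + (0 : ℂ) • v + z1 • p)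
          = (s * σ + t) • u' + s • v + (s * z0 + t * z1) • p := by module
      rw [h2, h', h', hv0, hu'0]
      linear_combination (s ^ 3) * hσ' + (s * σ + t) * s * s * hz0 + (s * σ + t) * s * t * hz1

end Pool.Agent.Lib.MP_214199_co.Eff
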