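import Pool.Agent.Lib.MP_214199_co.Eff.FlexA
import Pool.Agent.Lib.MP_214199_co.Eff.FlexB

/-!
# A cubic without a line has a flex
-/

set_option autoImplicit false

namespace Pool.Agent.Lib.MP_214199_co.Eff

open MvPolynomial

/-- A cubic without a line has a flex.
Proof.  If there is `p ≠ 0` with all partial derivatives `0`: `flex_of_sing`.  Otherwise take a
common zero `p ≠ 0` of `F` and the Hessian determinant (`common_zero`, `hess_homog`) and apply
`flex_of_hess`. -/
theorem exists_flex (F : Poly3) (hF : F.IsHomogeneous 3) (hN : NoLine F) :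
    ∃ p w, IsFlex F p w := by
  by_cases hs : ∃ p : Fin 3 → ℂ, p ≠ 0 ∧ ∀ i, eval p (pderiv i F) = 0
  · obtain ⟨p, hp, h⟩ := hs
    exact flex_of_sing F hF hN p hp h
  · obtain ⟨p, hp, h0, h1⟩ := common_zero F (hess F).det 3 3 (by norm_num) (by norm_num) hF
      (hess_homog F hF)
    refine ⟨p, flex_of_hess F hF p hp h0 ?_ h1⟩
    by_contra hcon
    push Not at hcon
    exact hs ⟨p, hp, hcon⟩

end Pool.Agent.Lib.MP_214199_co.Eff
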