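import Pool.Agent.Lib.MP_214199_co.Eff.Form
import Pool.Agent.Lib.MP_214199_co.Eff.CommonZero

/-!
# Flexes of a nonsingular cubic
-/

set_option autoImplicit false

namespace Pool.Agent.Lib.MP_214199_co.Eff

open MvPolynomial

/-- the Hessian matrix -/
noncomputable def hess (F : Poly3) : Matrix (Fin 3) (Fin 3) Poly3 :=
  fun i j => pderiv i (pderiv j F)

/-- The Hessian determinant is a form of degree 3. -/
theorem hess_homog (F : Poly3) (hF : F.IsHomogeneous 3) : (hess F).det.IsHomogeneous 3 := by
  have h : ∀ i j, (hess F i j).IsHomogeneous 1 := by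
    intro i j
    have h1 : (pderiv j F).IsHomogeneous 2 := hF.pderiv
    exact h1.pderiv
  have h3 : ∀ i j i' j' i'' j'', (hess F i j * hess F i' j' * hess F i'' j'').IsHomogeneous 3 :=
    fun i j i' j' i'' j'' => ((h i j).mul (h i' j')).mul (h i'' j'')
  rw [Matrix.det_fin_three]
  exact (((((h3 _ _ _ _ _ _).sub (h3 _ _ _ _ _ _)).sub (h3 _ _ _ _ _ _)).add
    (h3 _ _ _ _ _ _)).add (h3 _ _ _ _ _ _)).sub (h3 _ _ _ _ _ _)

/-- the directional derivative as a derivation -/
noncomputable def flexD (w : Fin 3 → ℂ) : Derivation ℂ Poly3 Poly3 :=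
  mkDerivation ℂ (fun i => C (w i))

theorem flexD_eq (w : Fin 3 → ℂ) (F : Poly3) : flexD w F = ∑ i, C (w i) * pderiv i F := by
  have h2 : ∀ (G : Poly3) (T : Finset (Fin 3)), (∑ i ∈ T, (C (w i) : Poly3) •
      (pderiv i : Derivation ℂ Poly3 Poly3)) G = ∑ i ∈ T, C (w i) * pderiv i G := by
    intro G T
    induction T using Finset.induction_on with
    | empty => rfl
    | insert a T ha ih =>
      rw [Finset.sum_insert ha, Finset.sum_insert ha, ← ih]
      rfl
  have h : flexD w = ∑ i, (C (w i) : Poly3) • (pderiv i : Derivation ℂ Poly3 Poly3) := by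
    refine MvPolynomial.derivation_ext fun j => ?_
    rw [flexD, mkDerivation_X, h2, Finset.sum_eq_single j]
    · rw [pderiv_X, Pi.single_eq_same, mul_one]
    · intro b _ hb
      rw [pderiv_X, Pi.single_eq_of_ne (Ne.symm hb), mul_zero]
    · intro hj
      exact absurd (Finset.mem_univ _) hj
  rw [h]
  exact h2 F _

theorem flex_comm (i j : Fin 3) (F : Poly3) :
    pderiv i (pderiv j F) = pderiv j (pderiv i F) := by
  have e : ∀ (a b c : Fin 3), pderiv a (pderiv b (X c : Poly3)) = 0 := by
    intro a b c
    rw [pderiv_X]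
    by_cases hbc : c = b
    · subst hbc
      rw [Pi.single_eq_same]
      exact pderiv_one
    · rw [Pi.single_eq_of_ne hbc, map_zero]
  have h : ⁅(pderiv i : Derivation ℂ Poly3 Poly3), (pderiv j : Derivation ℂ Poly3 Poly3)⁆ = 0 := by
    refine MvPolynomial.derivation_ext fun k => ?_
    rw [Derivation.commutator_apply, e, e]
    simp
  have h2 := congrArg (fun D : Derivation ℂ Poly3 Poly3 => D F) h
  simp only [Derivation.commutator_apply, Derivation.zero_apply] at h2
  exact sub_eq_zero.1 h2

theorem flex_span (F : Poly3) (hF : F.IsHomogeneous 3) :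
    F ∈ Submodule.span ℂ (Set.range fun a : Fin 3 × Fin 3 × Fin 3 =>
      (X a.1 * X a.2.1 * X a.2.2 : Poly3)) := by
  rw [← support_sum_monomial_coeff F]
  refine Submodule.sum_mem _ fun d hd => ?_
  have hd3 : d.degree = 3 := by
    have := hF (mem_support_iff.1 hd)
    rw [Finsupp.degree_eq_weight_one]
    exact this
  have hc : Multiset.card (Finsupp.toMultiset d) = 3 := by
    rw [Finsupp.card_toMultiset]
    exact hd3
  obtain ⟨a, b, c, habc⟩ := Multiset.card_eq_three.1 hc
  have hdd : d = Finsupp.single a 1 + Finsupp.single b 1 + Finsupp.single c 1 := by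
    have h1 : Multiset.toFinsupp (Finsupp.toMultiset d) = d := Finsupp.toMultiset_toFinsupp d
    rw [habc] at h1
    rw [← h1]
    have h2 : ({a, b, c} : Multiset (Fin 3)) = {a} + {b} + {c} := by
      simp [Multiset.insert_eq_cons]
    rw [h2, Multiset.toFinsupp_add, Multiset.toFinsupp_add, Multiset.toFinsupp_singleton,
      Multiset.toFinsupp_singleton, Multiset.toFinsupp_singleton]
  have hm : monomial d (coeff d F) = coeff d F • (X a * X b * X c : Poly3) := by
    rw [hdd, smul_eq_C_mul, X, X, X, monomial_mul, monomial_mul, C_mul_monomial]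
    simp
  rw [hm]
  exact Submodule.smul_mem _ _ (Submodule.subset_span ⟨(a, b, c), rfl⟩)

/-- the expansion along a line -/
theorem flex_expand (F : Poly3) (hF : F.IsHomogeneous 3) (p w : Fin 3 → ℂ) (s t : ℂ) :
    eval (s • p + t • w) F = s ^ 3 * eval p F + s ^ 2 * t * eval p (flexD w F) +
      s * t ^ 2 / 2 * eval p (flexD w (flexD w F)) + t ^ 3 * eval w F := by
  refine Submodule.span_induction (p := fun F _ => eval (s • p + t • w) F = s ^ 3 * eval p F +
    s ^ 2 * t * eval p (flexD w F) + s * t ^ 2 / 2 * eval p (flexD w (flexD w F)) +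
    t ^ 3 * eval w F) ?_ ?_ ?_ ?_ (flex_span F hF)
  · rintro _ ⟨⟨a, b, c⟩, rfl⟩
    simp only [flexD, Derivation.leibniz, mkDerivation_X, smul_eq_mul, map_add, map_mul,
      eval_X, eval_C, Pi.add_apply, Pi.smul_apply, derivation_C, mul_zero, zero_add]
    ring
  · simp
  · intro x y _ _ hx hy
    simp only [map_add]
    rw [hx, hy]
    ring
  · intro c x _ hx
    simp only [Derivation.map_smul, smul_eval]
    rw [hx]
    ring

/-- Proof.  `M = Hess F (p)` (a symmetric matrix), `F (X + t w) = F X + t df F X w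
+ (t^2 / 2) w^T M(X) w + t^3 F w`.  Euler: `M p = 2 ∇F(p)`.  The tangent plane
`T = {v | ∇F(p) · v = 0}` is two-dimensional and contains `p` (Euler, `F p = 0`); choose `w ∈ T`
independent of `p`, and `u ∉ T`.  In the basis `p, w, u` the matrix `M` is
`[0, 0, α; 0, c, β; α, β, δ]`, `α = p^T M u = 2 ∇F(p) · u ≠ 0`, `p^T M p = 6 F(p) = 0`,
`p^T M w = 2 ∇F(p) · w = 0`, `c = w^T M w`; its determinant is `-α^2 c`, and it is `det M` times the
square of the determinant of the basis, so `c = 0`.  Hence
`F (s p + t w) = s^3 F(p) + s^2 t ∇F(p) · w + s t^2 c / 2 + t^3 F(w) = t^3 F(w)`. -/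
theorem flex_of_hess (F : Poly3) (hF : F.IsHomogeneous 3) (p : Fin 3 → ℂ) (hp : p ≠ 0)
    (h0 : eval p F = 0) (hns : ∃ i, eval p (pderiv i F) ≠ 0)
    (hH : eval p (hess F).det = 0) : ∃ w, IsFlex F p w := by
  set M : Matrix (Fin 3) (Fin 3) ℂ := (hess F).map (eval p) with hM
  have hdet : M.det = 0 := by
    rw [hM, ← hH, RingHom.map_det]
    rfl
  obtain ⟨w, hw0, hw⟩ := Matrix.exists_mulVec_eq_zero_iff.2 hdet
  have hMs : ∀ i j, M i j = M j i := by
    intro i j
    simp only [hM, Matrix.map_apply, hess]
    rw [flex_comm]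
  have hMw : ∀ i, ∑ j, M i j * w j = 0 := fun i => congrFun hw i
  -- Euler for the partial derivatives
  have hE : ∀ j, ∑ i, p i * M i j = 2 * eval p (pderiv j F) := by
    intro j
    have h1 : (pderiv j F).IsHomogeneous 2 := hF.pderiv
    have h2 := congrArg (eval p) h1.sum_X_mul_pderiv
    simpa [hM, hess, map_sum] using h2
  have htan : ∑ j, w j * eval p (pderiv j F) = 0 := by
    have h1 : ∑ j, w j * (2 * eval p (pderiv j F)) = 0 := by
      simp_rw [← hE, Finset.mul_sum]
      rw [Finset.sum_comm]
      refine Finset.sum_eq_zero fun i _ => ?_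
      have h2 : ∑ j, w j * (p i * M i j) = p i * ∑ j, M i j * w j := by
        rw [Finset.mul_sum]
        exact Finset.sum_congr rfl fun j _ => by ring
      rw [h2, hMw, mul_zero]
    have h3 : (2 : ℂ) * ∑ j, w j * eval p (pderiv j F) = 0 := by
      rw [← h1, Finset.mul_sum]
      exact Finset.sum_congr rfl fun j _ => by ring
    exact (mul_eq_zero.1 h3).resolve_left two_ne_zero
  refine ⟨w, ?_, hns, ?_⟩
  · rw [LinearIndependent.pair_iff]
    intro s t hst
    have hs : s = 0 := by
      by_contra hs
      obtain ⟨i, hi⟩ := hns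
      apply hi
      have hp' : ∀ j, s * p j = - (t * w j) := by
        intro j
        have := congrFun hst j
        simp only [Pi.add_apply, Pi.smul_apply, smul_eq_mul, Pi.zero_apply] at this
        linear_combination this
      have h1 : s * (2 * eval p (pderiv i F)) = 0 := by
        rw [← hE, Finset.mul_sum]
        have h2 : ∑ j, s * (p j * M j i) = - t * ∑ j, M i j * w j := by
          rw [Finset.mul_sum]
          refine Finset.sum_congr rfl fun j _ => ?_
          rw [hMs j i]
          linear_combination (M i j) * hp' j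
        rw [h2, hMw, mul_zero]
      have h3 := (mul_eq_zero.1 h1).resolve_left hs
      exact (mul_eq_zero.1 h3).resolve_left two_ne_zero
    refine ⟨hs, ?_⟩
    rw [hs, zero_smul, zero_add] at hst
    exact (smul_eq_zero.1 hst).resolve_right hw0
  · intro s t
    rw [flex_expand F hF p w s t, h0]
    have h1 : eval p (flexD w F) = 0 := by
      rw [flexD_eq, map_sum, ← htan]
      exact Finset.sum_congr rfl fun j _ => by rw [map_mul, eval_C]
    have h2 : eval p (flexD w (flexD w F)) = 0 := by
      rw [flexD_eq w (flexD w F), map_sum]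
      have h3 : ∀ i, eval p (C (w i) * pderiv i (flexD w F)) = w i * ∑ j, M i j * w j := by
        intro i
        rw [map_mul, eval_C, flexD_eq, map_sum, map_sum]
        congr 1
        refine Finset.sum_congr rfl fun j _ => ?_
        rw [pderiv_C_mul, map_mul, eval_C, mul_comm]
        rfl
      simp_rw [h3, hMw]
      simp
    rw [h1, h2]
    ring

end Pool.Agent.Lib.MP_214199_co.Eff
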