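import Mathlib

/-!
# Cubic forms
-/

set_option autoImplicit false

namespace Pool.Agent.Lib.MP_214199_co.Eff

open MvPolynomial

/-- polynomials in three variables -/
abbrev Poly3 := MvPolynomial (Fin 3) ℂ

/-- `F` does not vanish on a line of the projective plane. -/
def NoLine (F : Poly3) : Prop :=
  ∀ p w : Fin 3 → ℂ, LinearIndependent ℂ ![p, w] → ∃ s t : ℂ, eval (s • p + t • w) F ≠ 0

/-- The differential of `F` in `X`. -/
noncomputable def df (F : Poly3) (X w : Fin 3 → ℂ) : ℂ := ∑ i, w i * eval X (pderiv i F)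

/-- `p` is a flex with the tangent spanned by `p` and `w`. -/
structure IsFlex (F : Poly3) (p w : Fin 3 → ℂ) : Prop where
  ind : LinearIndependent ℂ ![p, w]
  ns : ∃ i, eval p (pderiv i F) ≠ 0
  tan : ∀ s t : ℂ, eval (s • p + t • w) F = t ^ 3 * eval w F

theorem form_prod (n0 n1 n2 : ℕ) (h : n0 + n1 + n2 = 3) (c : ℂ) : ∃ i j k : Fin 3,
    (C c * (X 0 ^ n0 * X 1 ^ n1 * X 2 ^ n2) : Poly3) = C c * X i * X j * X k := by
  have hc : (n0 = 3 ∧ n1 = 0 ∧ n2 = 0) ∨ (n0 = 0 ∧ n1 = 3 ∧ n2 = 0) ∨ (n0 = 0 ∧ n1 = 0 ∧ n2 = 3) ∨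
      (n0 = 2 ∧ n1 = 1 ∧ n2 = 0) ∨ (n0 = 2 ∧ n1 = 0 ∧ n2 = 1) ∨ (n0 = 1 ∧ n1 = 2 ∧ n2 = 0) ∨
      (n0 = 0 ∧ n1 = 2 ∧ n2 = 1) ∨ (n0 = 1 ∧ n1 = 0 ∧ n2 = 2) ∨ (n0 = 0 ∧ n1 = 1 ∧ n2 = 2) ∨
      (n0 = 1 ∧ n1 = 1 ∧ n2 = 1) := by
    have h0 : n0 ≤ 3 := by omega
    have h1 : n1 ≤ 3 := by omega
    have h2 : n2 = 3 - n0 - n1 := by omega
    subst h2
    interval_cases n0 <;> interval_cases n1 <;> revert h <;> decide
  rcases hc with ⟨rfl, rfl, rfl⟩ | ⟨rfl, rfl, rfl⟩ | ⟨rfl, rfl, rfl⟩ | ⟨rfl, rfl, rfl⟩ |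
    ⟨rfl, rfl, rfl⟩ | ⟨rfl, rfl, rfl⟩ | ⟨rfl, rfl, rfl⟩ | ⟨rfl, rfl, rfl⟩ | ⟨rfl, rfl, rfl⟩ |
    ⟨rfl, rfl, rfl⟩
  · exact ⟨0, 0, 0, by ring⟩
  · exact ⟨1, 1, 1, by ring⟩
  · exact ⟨2, 2, 2, by ring⟩
  · exact ⟨0, 0, 1, by ring⟩
  · exact ⟨0, 0, 2, by ring⟩
  · exact ⟨0, 1, 1, by ring⟩
  · exact ⟨1, 1, 2, by ring⟩
  · exact ⟨0, 2, 2, by ring⟩
  · exact ⟨1, 2, 2, by ring⟩
  · exact ⟨0, 1, 2, by ring⟩

/-- Induction for cubic forms. -/
theorem form_induct {P : Poly3 → Prop} (h0 : P 0) (hadd : ∀ f g, P f → P g → P (f + g))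
    (hm : ∀ (c : ℂ) (i j k : Fin 3), P (C c * X i * X j * X k)) (F : Poly3)
    (hF : F.IsHomogeneous 3) : P F := by
  have key : ∀ s : Finset (Fin 3 →₀ ℕ), s ⊆ F.support → P (∑ m ∈ s, monomial m (F.coeff m)) := by
    intro s
    induction s using Finset.induction with
    | empty =>
      intro _
      rw [Finset.sum_empty]
      exact h0
    | insert m s hms ih =>
      intro hs
      rw [Finset.sum_insert hms]
      apply hadd _ _ _ (ih ((Finset.subset_insert _ _).trans hs))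
      have hmF : m ∈ F.support := hs (Finset.mem_insert_self _ _)
      have hdeg : m 0 + m 1 + m 2 = 3 := by
        have h1 := hF (mem_support_iff.1 hmF)
        rw [Finsupp.weight_apply, Finsupp.sum_fintype _ _ (by simp), Fin.sum_univ_three] at h1
        simpa using h1
      obtain ⟨i, j, k, hijk⟩ := form_prod (m 0) (m 1) (m 2) hdeg (F.coeff m)
      rw [monomial_eq, Finsupp.prod_fintype _ _ (by simp), Fin.prod_univ_three, hijk]
      exact hm _ _ _ _
  have := key F.support (Finset.Subset.refl _)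
  rwa [support_sum_monomial_coeff] at this

theorem form_df_add (f g : Poly3) (x w : Fin 3 → ℂ) : df (f + g) x w = df f x w + df g x w := by
  unfold df
  simp only [map_add, mul_add, Finset.sum_add_distrib]

theorem form_df_mul (f g : Poly3) (x w : Fin 3 → ℂ) :
    df (f * g) x w = eval x f * df g x w + df f x w * eval x g := by
  unfold df
  rw [Finset.mul_sum, Finset.sum_mul, ← Finset.sum_add_distrib]
  apply Finset.sum_congr rfl
  intro i _
  rw [pderiv_mul, map_add, map_mul, map_mul]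
  ring

theorem form_df_C (c : ℂ) (x w : Fin 3 → ℂ) : df (C c) x w = 0 := by
  unfold df
  simp

theorem form_df_X (i : Fin 3) (x w : Fin 3 → ℂ) : df (X i) x w = w i := by
  unfold df
  rw [Finset.sum_eq_single i]
  · simp
  · intro j _ hj
    rw [pderiv_X_of_ne hj.symm]
    simp
  · intro h
    exact absurd (Finset.mem_univ i) h

/-- The Taylor expansion in direction `w`: there is a `q` (a function of `X` and `w`) with
`F (X + t w) = F X + t * df F X w + t^2 * q + t^3 * F w` for a cubic form.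
Proof: for monomials of degree 3, or from `MvPolynomial` expansions. -/
theorem taylor (F : Poly3) (hF : F.IsHomogeneous 3) (X w : Fin 3 → ℂ) :
    ∃ q : ℂ, ∀ t : ℂ, eval (X + t • w) F = eval X F + t * df F X w + t ^ 2 * q + t ^ 3 * eval w F := by
  refine form_induct (P := fun F => ∃ q : ℂ, ∀ t : ℂ, eval (X + t • w) F =
    eval X F + t * df F X w + t ^ 2 * q + t ^ 3 * eval w F) ?_ ?_ ?_ F hF
  · refine ⟨0, fun t => ?_⟩
    have : df (0 : Poly3) X w = 0 := by unfold df; simp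
    rw [this]
    simp
  · rintro f g ⟨q1, h1⟩ ⟨q2, h2⟩
    refine ⟨q1 + q2, fun t => ?_⟩
    rw [map_add, map_add, map_add, h1, h2, form_df_add]
    ring
  · intro c i j k
    refine ⟨c * (w i * w j * X k + w i * X j * w k + X i * w j * w k), fun t => ?_⟩
    simp only [form_df_mul, form_df_C, form_df_X, map_mul, eval_C, eval_X, Pi.add_apply,
      Pi.smul_apply, smul_eq_mul]
    ring

/-- Euler: `df F X X = 3 F X`. -/
theorem euler (F : Poly3) (hF : F.IsHomogeneous 3) (X : Fin 3 → ℂ) : df F X X = 3 * eval X F := by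
  refine form_induct (P := fun F => df F X X = 3 * eval X F) ?_ ?_ ?_ F hF
  · have : df (0 : Poly3) X X = 0 := by unfold df; simp
    rw [this]
    simp
  · intro f g h1 h2
    rw [form_df_add, h1, h2, map_add]
    ring
  · intro c i j k
    simp only [form_df_mul, form_df_C, form_df_X, map_mul, eval_C, eval_X]
    ring

end Pool.Agent.Lib.MP_214199_co.Eff
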