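import Pool.Agent.Lib.MP_214199_co.Eff.Hex
import Pool.Agent.Lib.MP_214199_co.Eff.Chasles

/-!
# Cubics are closed under hexagons
-/

set_option autoImplicit false

namespace Pool.Agent.Lib.MP_214199_co.Eff

open Finset

variable {S : Finset Pt}

theorem hexZ_col {v a b c : Pt} (ha : a ∈ blk S v) (hb : b ∈ blk S v) (hc : c ∈ blk S v) :
    Col (cpt a) (cpt b) (cpt c) := by
  have h1 : a.2 = a.1 * v.1 - v.2 := by have := (mem_blk.1 ha).2; unfold ht at this; linarith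
  have h2 : b.2 = b.1 * v.1 - v.2 := by have := (mem_blk.1 hb).2; unfold ht at this; linarith
  have h3 : c.2 = c.1 * v.1 - v.2 := by have := (mem_blk.1 hc).2; unfold ht at this; linarith
  unfold Col det3c cpt
  simp only [Matrix.cons_val_zero, Matrix.cons_val_one, h1, h2, h3]
  push_cast
  ring

theorem hexZ_mem (hS : Gen S) {v a b c : Pt} (ha : a ∈ blk S v) (hb : b ∈ blk S v) (hab : a ≠ b)
    (hc : c ∈ S) (h : Col (cpt a) (cpt b) (cpt c)) : c ∈ blk S v := by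
  have h1 : a.2 = a.1 * v.1 - v.2 := by have := (mem_blk.1 ha).2; unfold ht at this; linarith
  have h2 : b.2 = b.1 * v.1 - v.2 := by have := (mem_blk.1 hb).2; unfold ht at this; linarith
  have hne : b.1 - a.1 ≠ 0 := sub_ne_zero.2 (blk_fst_ne hS ha hb hab).symm
  have h4 : (b.1 - a.1) * (c.2 - a.2) - (b.2 - a.2) * (c.1 - a.1) = 0 := by
    unfold Col det3c cpt at h
    simp only [Matrix.cons_val_zero, Matrix.cons_val_one] at h
    exact_mod_cast h
  rw [h1, h2] at h4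
  have h5 : (b.1 - a.1) * (c.2 - (c.1 * v.1 - v.2)) = 0 := by linear_combination h4
  have h6 : c.2 - (c.1 * v.1 - v.2) = 0 := by
    rcases mul_eq_zero.1 h5 with h | h
    · exact absurd h hne
    · exact h
  refine mem_blk.2 ⟨hc, ?_⟩
  unfold ht
  linarith

/-- the grid of nine points -/
theorem hexZ_grid (hS : Gen S) (F : Poly) (hF : F.totalDegree ≤ 3) (Q : Fin 3 → Fin 3 → Pt)
    (hQ : ∀ i j i' j', Q i j = Q i' j' → i = i' ∧ j = j') (hQS : ∀ i j, Q i j ∈ S)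
    (u w : Fin 3 → Pt) (hu : ∀ i, blk S (u i) = {Q i 0, Q i 1, Q i 2})
    (hw : ∀ j, blk S (w j) = {Q 0 j, Q 1 j, Q 2 j}) (i0 j0 : Fin 3)
    (h8 : ∀ i j, (i, j) ≠ (i0, j0) → Zr F (cpt (Q i j))) : Zr F (cpt (Q i0 j0)) := by
  have hu' : ∀ i j, Q i j ∈ blk S (u i) := by
    intro i j
    rw [hu i]
    fin_cases j <;> simp
  have hw' : ∀ i j, Q i j ∈ blk S (w j) := by
    intro i j
    rw [hw j]
    fin_cases i <;> simp
  have hu2 : ∀ i i' j, Q i' j ∈ blk S (u i) → i' = i := by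
    intro i i' j h
    rw [hu i, Finset.mem_insert, Finset.mem_insert, Finset.mem_singleton] at h
    rcases h with h | h | h <;> exact (hQ _ _ _ _ h).1
  have hw2 : ∀ i j j', Q i j' ∈ blk S (w j) → j' = j := by
    intro i j j' h
    rw [hw j, Finset.mem_insert, Finset.mem_insert, Finset.mem_singleton] at h
    rcases h with h | h | h <;> exact (hQ _ _ _ _ h).2
  refine chasles F hF (fun i j => cpt (Q i j)) (fun i => hexZ_col (hu' i 0) (hu' i 1) (hu' i 2))
    (fun j => hexZ_col (hw' 0 j) (hw' 1 j) (hw' 2 j)) ?_ ?_ i0 j0 h8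
  · intro i i' j j₁ j₂ hi hj h
    have hne : Q i j₁ ≠ Q i j₂ := fun h' => hj (hQ _ _ _ _ h').2
    exact hi (hu2 i i' j (hexZ_mem hS (hu' i j₁) (hu' i j₂) hne (hQS i' j) h)).symm
  · intro j j' i i₁ i₂ hj hi h
    have hne : Q i₁ j ≠ Q i₂ j := fun h' => hi (hQ _ _ _ _ h').1
    exact hj (hw2 i j j' (hexZ_mem hS (hw' i₁ j) (hw' i₂ j) hne (hQS i j') h)).symm

theorem hexZ_rot (a b c : Pt) : ({a, b, c} : Finset Pt) = {b, c, a} := by
  ext y
  simp only [Finset.mem_insert, Finset.mem_singleton]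
  tauto

/-- the nine points of the hexagon as a grid -/
def hexZ_Q (l0 l1 l2 o0 o1 o2 o3 o4 o5 : Pt) : Fin 3 → Fin 3 → Pt :=
  ![![o0, l0, o5], ![o1, o2, l2], ![l1, o3, o4]]

theorem hexZ_img (l0 l1 l2 o0 o1 o2 o3 o4 o5 : Pt) :
    (Finset.univ : Finset (Fin 3 × Fin 3)).image
      (fun z => hexZ_Q l0 l1 l2 o0 o1 o2 o3 o4 o5 z.1 z.2) =
      {l0, l1, l2, o0, o1, o2, o3, o4, o5} := by
  ext y
  rw [Finset.mem_image]
  constructor
  · rintro ⟨⟨i, j⟩, -, rfl⟩
    fin_cases i <;> fin_cases j <;> simp [hexZ_Q]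
  · intro h
    simp only [Finset.mem_insert, Finset.mem_singleton] at h
    rcases h with h | h | h | h | h | h | h | h | h
    · exact ⟨(0, 1), Finset.mem_univ _, h.symm⟩
    · exact ⟨(2, 0), Finset.mem_univ _, h.symm⟩
    · exact ⟨(1, 2), Finset.mem_univ _, h.symm⟩
    · exact ⟨(0, 0), Finset.mem_univ _, h.symm⟩
    · exact ⟨(1, 0), Finset.mem_univ _, h.symm⟩
    · exact ⟨(1, 1), Finset.mem_univ _, h.symm⟩
    · exact ⟨(2, 1), Finset.mem_univ _, h.symm⟩
    · exact ⟨(2, 2), Finset.mem_univ _, h.symm⟩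
    · exact ⟨(0, 2), Finset.mem_univ _, h.symm⟩

theorem hexZ_op_op (d : D S) : op (op d) = d := by
  apply Subtype.ext
  apply Dart.ext
  · rfl
  · rfl
  · simp [op]

/-- The zeros of a polynomial of degree at most 3 are closed under hexagons.
Proof.  Chasles (`chasles`) with the rows `x 0, x 2, x 4` and the columns `x 1, x 3, x 5` of the
proof of `hex_card`: `row 0 = {l0, o5, o0}`, `row 1 = {l2, o1, o2}`, `row 2 = {l1, o3, o4}`
(`l k = line (sg^k d)`, `l (k+3) = l k`), `column 0 = {l1, o0, o1}`, `column 1 = {l0, o2, o3}`,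
`column 2 = {l2, o4, o5}`, so
`P = ![![o0, l0, o5], ![o1, o2, l2], ![l1, o3, o4]]`.
Points of a block are collinear (they satisfy `a.1 * v.1 - a.2 = v.2`), and a point of `S` on the
line through two points of a block belongs to the block. -/
theorem hexClosed_zr (hS : Gen S) {sg al : Equiv.Perm (D S)} (hr : IsRot S sg) (ha : IsRev S al)
    (F : Poly) (hF : F.totalDegree ≤ 3) : HexClosed sg al {a : Pt | Zr F (cpt a)} := by
  intro d hd x hx hy
  have hcard := hex_card hS hr ha hd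
  have hsub := hex_subset sg al d
  have r3 := (rot3 hS hr d hd.1).1
  have r4 : sg (sg (sg (sg d))) = op (sg d) := by rw [r3, rot_op hS hr]
  have r5 : sg (sg (sg (sg (sg d)))) = op (sg (sg d)) := by rw [r4, rot_op hS hr]
  have r6 : sg.symm d = sg (sg (sg (sg (sg d)))) := by
    rw [Equiv.symm_apply_eq, r5, rot_op hS hr, r3, hexZ_op_op]
  have p3 : (sg (sg (sg d))).1.p = d.1.p := by rw [r3]; rfl
  have p4 : (sg (sg (sg (sg d)))).1.p = (sg d).1.p := by rw [r4]; rfl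
  have p5 : (sg (sg (sg (sg (sg d))))).1.p = (sg (sg d)).1.p := by rw [r5]; rfl
  have f1 : Flat sg al (sg d) := flat_of_v_eq hd (hr.v d)
  have f2 : Flat sg al (sg (sg d)) := flat_of_v_eq f1 (hr.v _)
  have f3 : Flat sg al (sg (sg (sg d))) := flat_of_v_eq f2 (hr.v _)
  have f4 : Flat sg al (sg (sg (sg (sg d)))) := flat_of_v_eq f3 (hr.v _)
  have f5 : Flat sg al (sg (sg (sg (sg (sg d))))) := flat_of_v_eq f4 (hr.v _)
  have b0 := (hex_blk hS hr ha hd).1
  have b1 := (hex_blk hS hr ha f1).1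
  have b2 := (hex_blk hS hr ha f2).1
  have b3 := (hex_blk hS hr ha f3).1
  have b4 := (hex_blk hS hr ha f4).1
  have b5 := (hex_blk hS hr ha f5).1
  rw [r6] at b0
  rw [Equiv.symm_apply_apply] at b1 b2 b3 b4 b5
  rw [p3] at b3
  rw [p4] at b4
  rw [p5] at b5
  unfold hex at hcard hsub hx hy
  generalize out sg al d = o0 at *
  generalize out sg al (sg d) = o1 at *
  generalize out sg al (sg (sg d)) = o2 at *
  generalize out sg al (sg (sg (sg d))) = o3 at *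
  generalize out sg al (sg (sg (sg (sg d)))) = o4 at *
  generalize out sg al (sg (sg (sg (sg (sg d))))) = o5 at *
  generalize hl0 : d.1.p = l0 at *
  generalize hl1 : (sg d).1.p = l1 at *
  generalize hl2 : (sg (sg d)).1.p = l2 at *
  have himg := hexZ_img l0 l1 l2 o0 o1 o2 o3 o4 o5
  have q00 : hexZ_Q l0 l1 l2 o0 o1 o2 o3 o4 o5 0 0 = o0 := rfl
  have q01 : hexZ_Q l0 l1 l2 o0 o1 o2 o3 o4 o5 0 1 = l0 := rfl
  have q02 : hexZ_Q l0 l1 l2 o0 o1 o2 o3 o4 o5 0 2 = o5 := rfl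
  have q10 : hexZ_Q l0 l1 l2 o0 o1 o2 o3 o4 o5 1 0 = o1 := rfl
  have q11 : hexZ_Q l0 l1 l2 o0 o1 o2 o3 o4 o5 1 1 = o2 := rfl
  have q12 : hexZ_Q l0 l1 l2 o0 o1 o2 o3 o4 o5 1 2 = l2 := rfl
  have q20 : hexZ_Q l0 l1 l2 o0 o1 o2 o3 o4 o5 2 0 = l1 := rfl
  have q21 : hexZ_Q l0 l1 l2 o0 o1 o2 o3 o4 o5 2 1 = o3 := rfl
  have q22 : hexZ_Q l0 l1 l2 o0 o1 o2 o3 o4 o5 2 2 = o4 := rfl
  generalize hexZ_Q l0 l1 l2 o0 o1 o2 o3 o4 o5 = Q at *
  have hinj : ∀ i j i' j', Q i j = Q i' j' → i = i' ∧ j = j' := by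
    have h1 : (Finset.univ.image (fun z : Fin 3 × Fin 3 => Q z.1 z.2)).card =
        (Finset.univ : Finset (Fin 3 × Fin 3)).card := by
      rw [himg, hcard]
      rfl
    have h2 := Finset.card_image_iff.1 h1
    intro i j i' j' h
    have h3 := h2 (Finset.mem_coe.2 (Finset.mem_univ (i, j)))
      (Finset.mem_coe.2 (Finset.mem_univ (i', j'))) h
    exact ⟨congrArg Prod.fst h3, congrArg Prod.snd h3⟩
  have hmem : ∀ i j, Q i j ∈ ({l0, l1, l2, o0, o1, o2, o3, o4, o5} : Finset Pt) := by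
    intro i j
    rw [← himg]
    exact Finset.mem_image.2 ⟨(i, j), Finset.mem_univ _, rfl⟩
  rw [← himg] at hx
  obtain ⟨⟨i0, j0⟩, -, rfl⟩ := Finset.mem_image.1 hx
  show Zr F (cpt (Q i0 j0))
  refine hexZ_grid hS F hF Q hinj (fun i j => hsub (hmem i j))
    ![(al d).1.v, (al (sg (sg d))).1.v, (al (sg (sg (sg (sg d))))).1.v]
    ![(al (sg d)).1.v, (al (sg (sg (sg d)))).1.v, (al (sg (sg (sg (sg (sg d)))))).1.v]
    ?_ ?_ i0 j0 ?_
  · intro i
    fin_cases i
    · show blk S (al d).1.v = {Q 0 0, Q 0 1, Q 0 2}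
      rw [b0, q00, q01, q02]
      exact (hexZ_rot _ _ _).trans (hexZ_rot _ _ _)
    · show blk S (al (sg (sg d))).1.v = {Q 1 0, Q 1 1, Q 1 2}
      rw [b2, q10, q11, q12]
      exact hexZ_rot _ _ _
    · show blk S (al (sg (sg (sg (sg d))))).1.v = {Q 2 0, Q 2 1, Q 2 2}
      rw [b4, q20, q21, q22]
  · intro j
    fin_cases j
    · show blk S (al (sg d)).1.v = {Q 0 0, Q 1 0, Q 2 0}
      rw [b1, q00, q10, q20]
      exact hexZ_rot _ _ _
    · show blk S (al (sg (sg (sg d)))).1.v = {Q 0 1, Q 1 1, Q 2 1}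
      rw [b3, q01, q11, q21]
    · show blk S (al (sg (sg (sg (sg (sg d)))))).1.v = {Q 0 2, Q 1 2, Q 2 2}
      rw [b5, q02, q12, q22]
      exact (hexZ_rot _ _ _).trans (hexZ_rot _ _ _)
  · intro i j hij
    refine hy (Q i j) (hmem i j) fun h => hij ?_
    obtain ⟨h1, h2⟩ := hinj _ _ _ _ h
    rw [h1, h2]

end Pool.Agent.Lib.MP_214199_co.Eff
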