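import Pool.Agent.Lib.MP_214199_co.Eff.Base

/-!
# Reversal of darts: existence
-/

set_option autoImplicit false

namespace Pool.Agent.Lib.MP_214199_co.Eff

open Finset

variable {S : Finset Pt}

/-- the sign of a direction -/
private noncomputable def revexSgn (s : Bool) : ℝ := if s then 1 else -1

private lemma revexSgn_not (s : Bool) : revexSgn (!s) = - revexSgn s := by
  cases s <;> simp [revexSgn]

/-- the vertices of the line of `d` in the direction of `d` -/
private noncomputable def revexCand (d : D S) : Finset Pt :=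
  (verts S).filter (fun u => d.1.p ∈ blk S u ∧ revexSgn d.1.s * d.1.v.1 < revexSgn d.1.s * u.1)

private lemma mem_revexCand (d : D S) (u : Pt) : u ∈ revexCand d ↔ u ∈ verts S ∧ d.1.p ∈ blk S u ∧
    revexSgn d.1.s * d.1.v.1 < revexSgn d.1.s * u.1 := by
  unfold revexCand
  rw [Finset.mem_filter]

private lemma revex_exists (d : D S) : ∃ e : D S, ((revexCand d).Nonempty → ∃ u ∈ revexCand d,
    (∀ w ∈ revexCand d, revexSgn d.1.s * u.1 ≤ revexSgn d.1.s * w.1) ∧
      e.1 = ⟨u, d.1.p, !d.1.s⟩) ∧ (¬ (revexCand d).Nonempty → e = d) := by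
  by_cases h : (revexCand d).Nonempty
  · obtain ⟨u, hu, hmin⟩ := Finset.exists_min_image (revexCand d)
      (fun u => revexSgn d.1.s * u.1) h
    have hu' := (mem_revexCand d u).1 hu
    exact ⟨⟨⟨u, d.1.p, !d.1.s⟩, hu'.1, hu'.2.1⟩, fun _ => ⟨u, hu, hmin, rfl⟩,
      fun h' => absurd h h'⟩
  · exact ⟨d, fun h' => absurd h' h, fun _ => rfl⟩

private noncomputable def revexFun (d : D S) : D S := Classical.choose (revex_exists d)

private lemma revexFun_spec (d : D S) (h : (revexCand d).Nonempty) : ∃ u ∈ revexCand d,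
    (∀ w ∈ revexCand d, revexSgn d.1.s * u.1 ≤ revexSgn d.1.s * w.1) ∧
      (revexFun d).1 = ⟨u, d.1.p, !d.1.s⟩ := (Classical.choose_spec (revex_exists d)).1 h

private lemma revexFun_of_empty (d : D S) (h : ¬ (revexCand d).Nonempty) : revexFun d = d :=
  (Classical.choose_spec (revex_exists d)).2 h

private lemma revexFun_invol (d : D S) : revexFun (revexFun d) = d := by
  by_cases h : (revexCand d).Nonempty
  · obtain ⟨u, hu, hmin, he⟩ := revexFun_spec d h
    have hu' := (mem_revexCand d u).1 hu
    have hep : (revexFun d).1.p = d.1.p := by rw [he]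
    have hes : (revexFun d).1.s = !d.1.s := by rw [he]
    have hev : (revexFun d).1.v = u := by rw [he]
    have hv : d.1.v ∈ revexCand (revexFun d) := by
      rw [mem_revexCand, hep, hes, hev, revexSgn_not]
      refine ⟨d.2.1, d.2.2, ?_⟩
      linarith [hu'.2.2]
    obtain ⟨w, hw, hmin', he'⟩ := revexFun_spec (revexFun d) ⟨_, hv⟩
    have hw' := (mem_revexCand _ w).1 hw
    rw [hep, hes, hev, revexSgn_not] at hw'
    have h1 := hmin' _ hv
    rw [hes, revexSgn_not] at h1
    have h2 : ¬ revexSgn d.1.s * d.1.v.1 < revexSgn d.1.s * w.1 := by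
      intro h3
      have h4 := hmin w ((mem_revexCand d w).2 ⟨hw'.1, hw'.2.1, h3⟩)
      linarith [hw'.2.2]
    have h5 : revexSgn d.1.s * (w.1 - d.1.v.1) = 0 := by
      rw [mul_sub]
      linarith
    have h6 : revexSgn d.1.s ≠ 0 := by
      cases d.1.s <;> simp [revexSgn]
    have h7 : w.1 = d.1.v.1 := by
      rcases mul_eq_zero.1 h5 with h8 | h8
      · exact absurd h8 h6
      · linarith
    have h9 : w = d.1.v := vert_eq_of_fst hw'.2.1 d.2.2 h7
    apply Subtype.ext
    rw [he', hep, hes, h9, Bool.not_not]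
  · rw [revexFun_of_empty d h, revexFun_of_empty d h]

private lemma revexFun_ne (d : D S) (h : revexFun d ≠ d) : (revexCand d).Nonempty := by
  by_contra h'
  exact h (revexFun_of_empty d h')

/-- The reversal exists.
Proof.  If `d.s = true` and there is `u ∈ verts S`, `d.p ∈ blk S u`, `d.v.1 < u.1`, take the `u`
with the smallest `u.1` (unique by `vert_eq_of_fst`) and `al d = (u, p, false)`; if there is none
`al d = d`.  Symmetrically for `d.s = false` (largest `u.1 < d.v.1`).  This is an involution. -/
theorem exists_rev (hS : Gen S) : ∃ al : Equiv.Perm (D S), IsRev S al := by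
  have _ := hS
  refine ⟨⟨revexFun, revexFun, revexFun_invol, revexFun_invol⟩, ?_⟩
  constructor
  · intro d
    exact revexFun_invol d
  · intro d
    change (revexFun d).1.p = d.1.p
    by_cases h : (revexCand d).Nonempty
    · obtain ⟨u, _, _, he⟩ := revexFun_spec d h
      rw [he]
    · rw [revexFun_of_empty d h]
  · intro d hd
    obtain ⟨u, _, _, he⟩ := revexFun_spec d (revexFun_ne d hd)
    change (revexFun d).1.s = _
    rw [he]
  · intro d hd hs
    obtain ⟨u, hu, _, he⟩ := revexFun_spec d (revexFun_ne d hd)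
    change d.1.v.1 < (revexFun d).1.v.1
    rw [he]
    have h1 := ((mem_revexCand d u).1 hu).2.2
    rw [hs] at h1
    simpa [revexSgn] using h1
  · intro d hd hs
    obtain ⟨u, hu, _, he⟩ := revexFun_spec d (revexFun_ne d hd)
    change (revexFun d).1.v.1 < d.1.v.1
    rw [he]
    have h1 := ((mem_revexCand d u).1 hu).2.2
    rw [hs] at h1
    simpa [revexSgn] using h1
  · intro d hs u hu hp hlt
    have hmem : u ∈ revexCand d := by
      rw [mem_revexCand, hs]
      exact ⟨hu, hp, by simpa [revexSgn] using hlt⟩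
    obtain ⟨w, _, hmin, he⟩ := revexFun_spec d ⟨u, hmem⟩
    change revexFun d ≠ d ∧ (revexFun d).1.v.1 ≤ u.1
    constructor
    · intro h
      have h1 : (revexFun d).1.s = !d.1.s := by rw [he]
      rw [h] at h1
      exact absurd h1.symm (Bool.not_ne_self _)
    · rw [he]
      have h1 := hmin u hmem
      rw [hs] at h1
      simpa [revexSgn] using h1
  · intro d hs u hu hp hlt
    have hmem : u ∈ revexCand d := by
      rw [mem_revexCand, hs]
      exact ⟨hu, hp, by simpa [revexSgn] using hlt⟩
    obtain ⟨w, _, hmin, he⟩ := revexFun_spec d ⟨u, hmem⟩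
    change revexFun d ≠ d ∧ u.1 ≤ (revexFun d).1.v.1
    constructor
    · intro h
      have h1 : (revexFun d).1.s = !d.1.s := by rw [he]
      rw [h] at h1
      exact absurd h1.symm (Bool.not_ne_self _)
    · rw [he]
      have h1 := hmin u hmem
      rw [hs] at h1
      simpa [revexSgn] using h1

end Pool.Agent.Lib.MP_214199_co.Eff
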