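import Pool.Agent.Lib.MP_214199_co.Eff.Base

/-!
# Rotation of the darts around a vertex: existence
-/

set_option autoImplicit false

namespace Pool.Agent.Lib.MP_214199_co.Eff

open Finset

variable {S : Finset Pt}

/-- The rotation exists.
Proof.  For `d` not maximal let `sg d` be `(v, q, s)`, `q` the point of `blk S v` with the smallest
abscissa `> d.p.1`; for `d` maximal let it be `(v, q, !s)`, `q` the point of `blk S v` with the
smallest abscissa.  The abscissae in a block are distinct (`blk_fst_inj`), so this map is injective: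
(two non-maximal darts with the same successor have the same `s` and the same predecessor `p`; the
image of a maximal dart is minimal, the image of a non-maximal dart is not), hence a permutation
(`Finite.injective_iff_bijective`). -/
theorem exists_rot (hS : Gen S) : ∃ sg : Equiv.Perm (D S), IsRot S sg := by
  classical
  have hex : ∀ d : D S, ∃ e : D S, e.1.v = d.1.v ∧
      ((IsMax d ∧ e.1.s = !d.1.s ∧ IsMin e) ∨
        (¬ IsMax d ∧ e.1.s = d.1.s ∧ d.1.p.1 < e.1.p.1 ∧
          ∀ q ∈ blk S d.1.v, d.1.p.1 < q.1 → e.1.p.1 ≤ q.1)) := by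
    intro d
    by_cases hd : IsMax d
    · obtain ⟨q, hq, hmin⟩ := Finset.exists_min_image (blk S d.1.v) (fun q => q.1)
        ⟨d.1.p, d.2.2⟩
      exact ⟨⟨⟨d.1.v, q, !d.1.s⟩, d.2.1, hq⟩, rfl, Or.inl ⟨hd, rfl, fun r hr => hmin r hr⟩⟩
    · have hne : ((blk S d.1.v).filter (fun q => d.1.p.1 < q.1)).Nonempty := by
        unfold IsMax at hd
        push Not at hd
        obtain ⟨q, hq, hlt⟩ := hd
        exact ⟨q, Finset.mem_filter.2 ⟨hq, hlt⟩⟩
      obtain ⟨q, hq, hmin⟩ := Finset.exists_min_image _ (fun q : Pt => q.1) hne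
      rw [Finset.mem_filter] at hq
      exact ⟨⟨⟨d.1.v, q, d.1.s⟩, d.2.1, hq.1⟩, rfl, Or.inr ⟨hd, rfl, hq.2,
        fun r hr hlt => hmin r (Finset.mem_filter.2 ⟨hr, hlt⟩)⟩⟩
  choose f hv hf using hex
  have hinj : Function.Injective f := by
    intro a b hab
    have hvab : a.1.v = b.1.v := by rw [← hv a, ← hv b, hab]
    have hbp : b.1.p ∈ blk S a.1.v := by rw [hvab]; exact b.2.2
    have hap : a.1.p ∈ blk S b.1.v := by rw [← hvab]; exact a.2.2
    rcases hf a with ⟨ha, has, hamin⟩ | ⟨ha, has, halt, hanext⟩
    · rcases hf b with ⟨hb, hbs, hbmin⟩ | ⟨hb, hbs, hblt, hbnext⟩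
      · have hs : a.1.s = b.1.s := by
          rw [hab, hbs] at has
          exact (Bool.not_inj has).symm
        have h1 : a.1.p.1 = b.1.p.1 := le_antisymm (hb _ hap) (ha _ hbp)
        have hp : a.1.p = b.1.p := blk_fst_inj hS a.2.2 hbp h1
        exact Subtype.ext (Dart.ext hvab hp hs)
      · exfalso
        have h1 : (f a).1.p.1 ≤ b.1.p.1 := by
          apply hamin
          rw [hv a]
          exact hbp
        rw [hab] at h1
        exact absurd hblt (not_lt.2 h1)
    · rcases hf b with ⟨hb, hbs, hbmin⟩ | ⟨hb, hbs, hblt, hbnext⟩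
      · exfalso
        have h1 : (f b).1.p.1 ≤ a.1.p.1 := by
          apply hbmin
          rw [hv b]
          exact hap
        rw [← hab] at h1
        exact absurd halt (not_lt.2 h1)
      · have hs : a.1.s = b.1.s := by rw [← has, ← hbs, hab]
        have h1 : a.1.p.1 = b.1.p.1 := by
          rcases lt_trichotomy a.1.p.1 b.1.p.1 with h | h | h
          · exfalso
            have h2 := hanext _ hbp h
            rw [hab] at h2
            exact absurd hblt (not_lt.2 h2)
          · exact h
          · exfalso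
            have h2 := hbnext _ hap h
            rw [← hab] at h2
            exact absurd halt (not_lt.2 h2)
        have hp : a.1.p = b.1.p := blk_fst_inj hS a.2.2 hbp h1
        exact Subtype.ext (Dart.ext hvab hp hs)
  have hbij : Function.Bijective f := Finite.injective_iff_bijective.1 hinj
  refine ⟨Equiv.ofBijective f hbij, ?_⟩
  constructor
  · intro d
    exact hv d
  · intro d hd
    rcases hf d with ⟨h, -⟩ | ⟨-, h, -⟩
    · exact absurd h hd
    · exact h
  · intro d hd
    rcases hf d with ⟨h, -⟩ | ⟨-, -, h, -⟩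
    · exact absurd h hd
    · exact h
  · intro d hd
    rcases hf d with ⟨h, -⟩ | ⟨-, -, -, h⟩
    · exact absurd h hd
    · exact h
  · intro d hd
    rcases hf d with ⟨-, h, -⟩ | ⟨h, -⟩
    · exact h
    · exact absurd hd h
  · intro d hd
    rcases hf d with ⟨-, -, h⟩ | ⟨h, -⟩
    · exact h
    · exact absurd hd h

end Pool.Agent.Lib.MP_214199_co.Eff
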