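import Pool.Agent.Lib.MP_214199_co.Eff.Strip

/-!
# Runs of good vertices on a line
-/

set_option autoImplicit false

namespace Pool.Agent.Lib.MP_214199_co.Eff

open Finset

variable {S : Finset Pt}

/-- maximal runs of a predicate on `ℕ` with support in `[0, n)` -/
theorem runs_abs (n : ℕ) (G : ℕ → Prop) (hG : ∀ i, G i → i < n) :
    ∃ (St : Finset ℕ) (L : ℕ → ℕ), (∀ s ∈ St, ∀ i ≤ L s, G (s + i)) ∧
      (∀ i, G i → ∃ s ∈ St, s ≤ i ∧ i ≤ s + L s) ∧
      St.card ≤ {i | i < n ∧ ¬ G i}.ncard + 1 := by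
  classical
  have hex : ∀ s, ∃ k, ¬ G (s + k) := fun s => ⟨n, fun h => by have := hG _ h; omega⟩
  refine ⟨(Finset.range n).filter (fun s => G s ∧ (s = 0 ∨ ¬ G (s - 1))),
    fun s => Nat.find (hex s) - 1, ?_, ?_, ?_⟩
  · intro s hs i hi
    rw [Finset.mem_filter] at hs
    by_contra hn
    have h1 : Nat.find (hex s) ≤ i := Nat.find_min' (hex s) hn
    have h0 : Nat.find (hex s) ≠ 0 := by
      intro h0
      have := Nat.find_spec (hex s)
      rw [h0] at this
      exact this hs.2.1
    dsimp only at hi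
    omega
  · intro i hi
    have hex2 : ∃ s, s ≤ i ∧ ∀ j, s ≤ j → j ≤ i → G j :=
      ⟨i, le_rfl, fun j h1 h2 => by rwa [le_antisymm h2 h1]⟩
    have hsp := Nat.find_spec hex2
    have hmin : ∀ m, m < Nat.find hex2 → ¬ (m ≤ i ∧ ∀ j, m ≤ j → j ≤ i → G j) :=
      fun m hm => Nat.find_min hex2 hm
    generalize Nat.find hex2 = s at hsp hmin
    have hGs : G s := hsp.2 s le_rfl hsp.1
    refine ⟨s, ?_, hsp.1, ?_⟩
    · rw [Finset.mem_filter, Finset.mem_range]
      refine ⟨hG s hGs, hGs, ?_⟩
      by_contra hcon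
      push Not at hcon
      refine hmin (s - 1) (by omega) ⟨by omega, fun j h1 h2 => ?_⟩
      rcases Nat.lt_or_ge j s with h | h
      · have : j = s - 1 := by omega
        rw [this]
        exact hcon.2
      · exact hsp.2 j h h2
    · have h1 : i - s < Nat.find (hex s) := by
        rw [Nat.lt_find_iff]
        intro m hm
        rw [not_not]
        exact hsp.2 (s + m) (by omega) (by omega)
      dsimp only
      omega
  · have hfin : {i | i < n ∧ ¬ G i}.Finite :=
      (Set.finite_lt_nat n).subset (fun i hi => hi.1)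
    rw [Set.ncard_eq_toFinset_card _ hfin]
    calc ((Finset.range n).filter (fun s => G s ∧ (s = 0 ∨ ¬ G (s - 1)))).card
        ≤ (insert 0 (hfin.toFinset.image (fun i => i + 1))).card := by
          apply Finset.card_le_card
          intro s hs
          rw [Finset.mem_filter, Finset.mem_range] at hs
          rw [Finset.mem_insert, Finset.mem_image]
          rcases Nat.eq_zero_or_pos s with h | h
          · exact Or.inl h
          · right
            refine ⟨s - 1, ?_, by omega⟩
            rw [Set.Finite.mem_toFinset]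
            refine ⟨by omega, ?_⟩
            rcases hs.2.2 with h' | h'
            · omega
            · exact h'
      _ ≤ (hfin.toFinset.image (fun i => i + 1)).card + 1 := Finset.card_insert_le _ _
      _ ≤ hfin.toFinset.card + 1 := by
          have := Finset.card_image_le (s := hfin.toFinset) (f := fun i => i + 1)
          omega

/-- the position of a dart in the direction `s0` -/
noncomputable def runs_c (s0 : Bool) (d : D S) : ℝ := if s0 = true then d.1.v.1 else -d.1.v.1

theorem runs_c_inj {s0 : Bool} {p : Pt} {d e : D S} (hd : d.1.p = p ∧ d.1.s = s0)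
    (he : e.1.p = p ∧ e.1.s = s0) (h : runs_c s0 d = runs_c s0 e) : d = e := by
  have h1 : d.1.v.1 = e.1.v.1 := by
    unfold runs_c at h
    split_ifs at h
    · exact h
    · linarith
  have h2 : d.1.v = e.1.v := by
    have := e.2.2
    rw [he.1, ← hd.1] at this
    exact vert_eq_of_fst d.2.2 this h1
  exact Subtype.ext (Dart.ext h2 (hd.1.trans he.1.symm) (hd.2.trans he.2.symm))

theorem runs_next {al : Equiv.Perm (D S)} (ha : IsRev S al) {s0 : Bool} {p : Pt} {d t : D S}
    (hd : d.1.p = p ∧ d.1.s = s0) (ht : t.1.p = p ∧ t.1.s = s0)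
    (h : runs_c s0 d < runs_c s0 t) :
    ((op (al d)).1.p = p ∧ (op (al d)).1.s = s0) ∧
      runs_c s0 d < runs_c s0 (op (al d)) ∧ runs_c s0 (op (al d)) ≤ runs_c s0 t := by
  have hb : d.1.p ∈ blk S t.1.v := by
    rw [hd.1, ← ht.1]
    exact t.2.2
  have hp : (op (al d)).1.p = p := (ha.p d).trans hd.1
  cases s0 with
  | true =>
    simp only [runs_c, if_true] at h ⊢
    obtain ⟨h1, h2⟩ := ha.next_lt d hd.2 t.1.v t.2.1 hb h
    refine ⟨⟨hp, ?_⟩, ha.lt d h1 hd.2, h2⟩
    change (!(al d).1.s) = true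
    rw [ha.s d h1, hd.2]
    rfl
  | false =>
    simp only [runs_c, Bool.false_eq_true, if_false, neg_lt_neg_iff, neg_le_neg_iff] at h ⊢
    obtain ⟨h1, h2⟩ := ha.next_gt d hd.2 t.1.v t.2.1 hb h
    refine ⟨⟨hp, ?_⟩, ha.gt d h1 hd.2, h2⟩
    change (!(al d).1.s) = false
    rw [ha.s d h1, hd.2]
    rfl

/-- The good vertices of the line `p` form at most `b + 1` runs, `b` the number of bad vertices.
Proof.  Let `T` be the finite set of the darts with line `p` and direction `s0`; `d.1.v.1` is
injective on `T` (`vert_eq_of_fst`).  A run start is a good `d ∈ T` such that there is no good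
`e ∈ T` with `d = op (al e)`, `al e ≠ e`.  Map every run start except the first element of `T` (in
direction `s0`) to its predecessor `e` in `T` (the dart with `op (al e) = d`), which is bad: so at
most `b + 1` run starts.  For a run start `d` let `d 0 = d`, `d (i+1) = op (al (d i))` (go on as long
as `al (d i) ≠ d i` and the next one is good); `L` the last index such that all `d i`, `i ≤ L`, are
good (the abscissae are strictly monotone, so `L` exists).  Every good `e ∈ T` is in the run of a
run start: go back from `e` through good predecessors as long as possible.  A good dart has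
`al d ≠ d` because `Flat` implies `Tri`. -/
theorem exists_runs (hS : Gen S) {sg al : Equiv.Perm (D S)} (hr : IsRot S sg) (ha : IsRev S al)
    (s0 : Bool) (p : Pt) :
    ∃ RR : Finset (Finset Pt),
      RR.card ≤ {d : D S | d.1.p = p ∧ d.1.s = s0 ∧ ¬ Good sg al d}.ncard + 1 ∧
      (∀ R ∈ RR, ∃ (L : ℕ) (d : ℕ → D S), IsSeq al s0 d L ∧ (∀ i ≤ L, Good sg al (d i)) ∧
        (∀ i ≤ L, (d i).1.p = p) ∧ R = (Finset.range (L + 1)).image (fun i => (d i).1.v) ∧
        R.card = L + 1) ∧
      (∀ d : D S, d.1.p = p → d.1.s = s0 → Good sg al d → ∃ R ∈ RR, d.1.v ∈ R) := by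
  classical
  by_cases hT : ∃ d : D S, d.1.p = p ∧ d.1.s = s0
  swap
  · refine ⟨∅, by simp, by simp, ?_⟩
    intro d h1 h2
    exact absurd ⟨d, h1, h2⟩ hT
  obtain ⟨d0, hd0⟩ := hT
  -- the darts of the line in order
  let K : Finset ℝ := (Finset.univ.filter (fun d : D S => d.1.p = p ∧ d.1.s = s0)).image
    (runs_c s0)
  have hK : ∀ x, x ∈ K ↔ ∃ d : D S, (d.1.p = p ∧ d.1.s = s0) ∧ runs_c s0 d = x := by
    intro x
    simp [K]
  let n := K.card
  let κ : Fin n ↪o ℝ := K.orderEmbOfFin rfl
  have hκ : ∀ i : Fin n, ∃ d : D S, (d.1.p = p ∧ d.1.s = s0) ∧ runs_c s0 d = κ i := by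
    intro i
    rw [← hK]
    exact K.orderEmbOfFin_mem rfl i
  choose f hf1 hf2 using hκ
  have hsurj : ∀ d : D S, (d.1.p = p ∧ d.1.s = s0) → ∃ i, f i = d := by
    intro d hd
    have h1 : runs_c s0 d ∈ (K : Set ℝ) := Finset.mem_coe.2 ((hK _).2 ⟨d, hd, rfl⟩)
    rw [← Finset.range_orderEmbOfFin K rfl] at h1
    obtain ⟨i, hi⟩ := h1
    exact ⟨i, runs_c_inj (hf1 i) hd ((hf2 i).trans hi)⟩
  let e : ℕ → D S := fun i => if h : i < n then f ⟨i, h⟩ else d0
  have he : ∀ i (h : i < n), e i = f ⟨i, h⟩ := fun i h => by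
    simp only [e, dif_pos h]
  have heT : ∀ i, (e i).1.p = p ∧ (e i).1.s = s0 := by
    intro i
    by_cases h : i < n
    · rw [he i h]
      exact hf1 _
    · simp only [e, dif_neg h]
      exact hd0
  have hec : ∀ i j, i < n → j < n → (i < j ↔ runs_c s0 (e i) < runs_c s0 (e j)) := by
    intro i j hi hj
    rw [he i hi, he j hj, hf2, hf2, κ.lt_iff_lt]
    rfl
  have heinj : ∀ i j, i < n → j < n → (e i).1.v = (e j).1.v → i = j := by
    intro i j hi hj hv
    have hc : runs_c s0 (e i) = runs_c s0 (e j) := by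
      unfold runs_c
      rw [hv]
    by_contra hne
    rcases Nat.lt_or_gt_of_ne hne with h | h
    · have := (hec i j hi hj).1 h
      rw [hc] at this
      exact lt_irrefl _ this
    · have := (hec j i hj hi).1 h
      rw [hc] at this
      exact lt_irrefl _ this
  have hnext : ∀ i, i + 1 < n → e (i + 1) = op (al (e i)) := by
    intro i hi
    obtain ⟨h1, h2, h3⟩ := runs_next ha (heT i) (heT (i + 1))
      ((hec i (i + 1) (by omega) hi).1 (Nat.lt_succ_self i))
    obtain ⟨j, hj⟩ := hsurj _ h1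
    have hj' : e j.1 = op (al (e i)) := (he j.1 j.2).trans hj
    rw [← hj'] at h2 h3
    have h4 : i < j.1 := (hec i j.1 (by omega) j.2).2 h2
    have h5 : ¬ (i + 1 < j.1) := fun h => absurd h3 (not_le.2 ((hec (i + 1) j.1 hi j.2).1 h))
    have h6 : i + 1 = j.1 := by omega
    rw [h6]
    exact hj'
  -- the runs
  obtain ⟨St, L, hSt1, hSt2, hSt3⟩ := runs_abs n (fun i => i < n ∧ Good sg al (e i))
    (fun i h => h.1)
  have hle : {i | i < n ∧ ¬ (i < n ∧ Good sg al (e i))}.ncard ≤
      {d : D S | d.1.p = p ∧ d.1.s = s0 ∧ ¬ Good sg al d}.ncard := by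
    apply Set.ncard_le_ncard_of_injOn e
    · rintro i ⟨h1, h2⟩
      exact ⟨(heT i).1, (heT i).2, fun h => h2 ⟨h1, h⟩⟩
    · intro i hi j hj h
      exact heinj i j hi.1 hj.1 (by rw [h])
  refine ⟨St.image (fun s => (Finset.range (L s + 1)).image (fun i => (e (s + i)).1.v)), ?_, ?_, ?_⟩
  · exact (Finset.card_image_le.trans hSt3).trans (by omega)
  · intro R hR
    rw [Finset.mem_image] at hR
    obtain ⟨s, hs, rfl⟩ := hR
    refine ⟨L s, fun i => e (s + i), ⟨fun i _ => (heT _).2, ?_, ?_⟩, ?_, fun i _ => (heT _).1,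
      rfl, ?_⟩
    · intro i hi
      exact ((hSt1 s hs i hi).2.1.2 _ rfl).1.1
    · intro i hi
      exact hnext (s + i) (hSt1 s hs (i + 1) hi).1
    · intro i hi
      exact (hSt1 s hs i hi).2
    · rw [Finset.card_image_of_injOn, Finset.card_range]
      intro i hi j hj h
      have hi' : i ≤ L s := Nat.lt_succ_iff.1 (Finset.mem_range.1 (Finset.mem_coe.1 hi))
      have hj' : j ≤ L s := Nat.lt_succ_iff.1 (Finset.mem_range.1 (Finset.mem_coe.1 hj))
      have := heinj _ _ (hSt1 s hs i hi').1 (hSt1 s hs j hj').1 h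
      omega
  · intro d h1 h2 hg
    obtain ⟨i, hi⟩ := hsurj d ⟨h1, h2⟩
    have hi' : e i.1 = d := (he i.1 i.2).trans hi
    obtain ⟨s, hs, hsi, his⟩ := hSt2 i.1 ⟨i.2, by rw [hi']; exact hg⟩
    refine ⟨_, Finset.mem_image_of_mem _ hs, ?_⟩
    rw [Finset.mem_image]
    refine ⟨i.1 - s, Finset.mem_range.2 (by omega), ?_⟩
    rw [show s + (i.1 - s) = i.1 by omega, hi']

end Pool.Agent.Lib.MP_214199_co.Eff
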