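import Pool.Agent.Lib.MP_214199_co.Eff.StripMain
import Pool.Agent.Lib.MP_214199_co.Eff.Runs
import Pool.Agent.Lib.MP_214199_co.Eff.FlatCount
import Pool.Agent.Lib.MP_214199_co.Eff.RotEx
import Pool.Agent.Lib.MP_214199_co.Eff.RevEx
import Pool.Agent.Lib.MP_214199_co.Eff.HexZ
import Pool.Agent.Lib.MP_214199_co.Eff.BezoutDim

/-!
# The geometric half
-/

set_option autoImplicit false

namespace Pool.Agent.Lib.MP_214199_co.Eff

open Finset

variable {S : Finset Pt}

/-- Nine points lie on a cubic: the space of the polynomials of total degree at most 3 has dimension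
ten (monomials `X^i Y^j`, `i + j ≤ 3`), so the evaluation at at most nine points has a kernel. -/
theorem exists_cubic_nine (B : Finset Pt) (hB : B.card ≤ 9) :
    ∃ F : Poly, F ≠ 0 ∧ F.totalDegree ≤ 3 ∧ ∀ b ∈ B, Zr F (cpt b) := by
  classical
  let ev : MvPolynomial.restrictTotalDegree (Fin 2) ℂ 3 →ₗ[ℂ] (B → ℂ) :=
    (LinearMap.pi (fun b : B => (MvPolynomial.aeval (R := ℂ) (cpt b.1)).toLinearMap)).comp
      (Submodule.subtype _)
  have hfr : Module.finrank ℂ (B → ℂ) <
      Module.finrank ℂ (MvPolynomial.restrictTotalDegree (Fin 2) ℂ 3) := by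
    have h := finrank_restrict ℂ 3
    rw [Module.finrank_fintype_fun_eq_card, Fintype.card_coe]
    omega
  obtain ⟨F, hF, hF0⟩ := (Submodule.ne_bot_iff _).1 (LinearMap.ker_ne_bot_of_finrank_lt (f := ev) hfr)
  refine ⟨F.1, fun h => hF0 (Subtype.ext h), (MvPolynomial.mem_restrictTotalDegree _ _ _).1 F.2, ?_⟩
  intro b hb
  have h1 := congrFun (LinearMap.mem_ker.1 hF) ⟨b, hb⟩
  simpa [ev, Zr, MvPolynomial.aeval_eq_eval] using h1

/-- The set of bad darts of the line `p` in direction `s0`. -/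
def geomBad (sg al : Equiv.Perm (D S)) (s0 : Bool) (p : Pt) : Set (D S) :=
  {d : D S | d.1.p = p ∧ d.1.s = s0 ∧ ¬ Good sg al d}

theorem geom_sum (sg al : Equiv.Perm (D S)) :
    ∑ p ∈ S, (geomBad sg al true p).ncard + ∑ p ∈ S, (geomBad sg al false p).ncard =
      {d : D S | ¬ Good sg al d}.ncard := by
  classical
  have h : ∀ s0 : Bool, ∑ p ∈ S, (geomBad sg al s0 p).ncard =
      (Finset.univ.filter (fun d : D S => ¬ Good sg al d ∧ d.1.s = s0)).card := by
    intro s0
    rw [Finset.card_eq_sum_card_fiberwise (f := fun d : D S => d.1.p) (t := S)]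
    · apply Finset.sum_congr rfl
      intro p _
      rw [← Set.ncard_coe_finset]
      congr 1
      ext d
      simp only [geomBad, Set.mem_ofPred_eq, Finset.coe_filter, Finset.mem_filter,
        Finset.mem_univ, true_and]
      tauto
    · intro d _
      exact Finset.mem_coe.2 (blk_subset _ d.2.2)
  rw [h true, h false]
  have h2 : {d : D S | ¬ Good sg al d}.ncard =
      (Finset.univ.filter (fun d : D S => ¬ Good sg al d)).card := by
    rw [← Set.ncard_coe_finset]
    congr 1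
    ext d
    simp
  rw [h2, ← Finset.card_filter_add_card_filter_not (s := Finset.univ.filter
    (fun d : D S => ¬ Good sg al d)) (fun d => d.1.s = true), Finset.filter_filter,
    Finset.filter_filter]
  congr 2
  ext d
  simp

/-- Proof.  Take `sg`, `al` from `exists_rot`, `exists_rev`.  By `count_good` there is a direction
`s0` such that `2 #{d | d.s = s0, ¬ Good d} ≤ ∑ cw m_v + 72 n`.  Let
`b p = {d | d.p = p, d.s = s0, ¬ Good d}.ncard`.  For `p ∈ S` take `exists_runs`; for a run `strip`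
gives `B`, `exists_cubic_nine` gives `F`, its zero set is `HexClosed` (`hexClosed_zr`).  The blocks of
good vertices have three points.  A vertex `v` of the line `p` which is in no run is the vertex of a
bad dart `(v, p, s0)`, and different `v` give different darts.  (`10 ≤ R.card` means `9 ≤ L`.) -/
theorem geom_half (hS : Gen S) (h1 : 1 < (verts S).card) :
    ∃ b : Pt → ℕ, (2 * ∑ p ∈ S, (b p : ℤ)) ≤ ∑ v ∈ verts S, cw (blk S v).card + 72 * S.card ∧
      ∀ p ∈ S, ∃ RR : Finset (Finset Pt), RR.card ≤ b p + 1 ∧ (∀ R ∈ RR, RunData S p R) ∧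
        {v : Pt | v ∈ verts S ∧ p ∈ blk S v ∧ ∀ R ∈ RR, v ∉ R}.ncard ≤ b p := by
  classical
  obtain ⟨sg, hr⟩ := exists_rot hS
  obtain ⟨al, ha⟩ := exists_rev hS
  have hcg := count_good hS h1 hr ha
  have hsum := geom_sum sg al
  have hdir : ∃ s0 : Bool, (2 * ∑ p ∈ S, ((geomBad sg al s0 p).ncard : ℤ)) ≤
      ∑ v ∈ verts S, cw (blk S v).card + 72 * S.card := by
    have hsum' : (∑ p ∈ S, ((geomBad sg al true p).ncard : ℤ)) +
        ∑ p ∈ S, ((geomBad sg al false p).ncard : ℤ) =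
        ({d : D S | ¬ Good sg al d}.ncard : ℤ) := by
      rw [← hsum]
      push_cast
      rfl
    rcases le_total (∑ p ∈ S, ((geomBad sg al true p).ncard : ℤ))
      (∑ p ∈ S, ((geomBad sg al false p).ncard : ℤ)) with h | h
    · exact ⟨true, by linarith⟩
    · exact ⟨false, by linarith⟩
  obtain ⟨s0, hs0⟩ := hdir
  refine ⟨fun p => (geomBad sg al s0 p).ncard, hs0, ?_⟩
  intro p hp
  obtain ⟨RR, hRR, hR, hcov⟩ := exists_runs hS hr ha s0 p
  refine ⟨RR, hRR, ?_, ?_⟩
  · intro R hRm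
    obtain ⟨L, d, hseq, hgood, hdp, hReq, hRc⟩ := hR R hRm
    have hcard3 : ∀ i ≤ L, (blk S (d i).1.v).card = 3 := fun i hi => (hgood i hi).1.1
    have hmemR : ∀ v, v ∈ R ↔ ∃ i ≤ L, (d i).1.v = v := by
      intro v
      rw [hReq, Finset.mem_image]
      constructor
      · rintro ⟨i, hi, rfl⟩
        exact ⟨i, Nat.lt_succ_iff.1 (Finset.mem_range.1 hi), rfl⟩
      · rintro ⟨i, hi, rfl⟩
        exact ⟨i, Finset.mem_range.2 (Nat.lt_succ_of_le hi), rfl⟩
    refine ⟨?_, ?_⟩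
    · intro v hv
      obtain ⟨i, hi, rfl⟩ := (hmemR v).1 hv
      refine ⟨(d i).2.1, ?_, hcard3 i hi⟩
      have h := (d i).2.2
      rw [hdp i hi] at h
      exact h
    · obtain ⟨B, hB9, hBS, hZ, hP⟩ := strip hS hr ha s0 d L hseq hgood
      obtain ⟨F, hF0, hF3, hFB⟩ := exists_cubic_nine B hB9
      have hcl := hexClosed_zr hS hr ha F hF3
      refine ⟨F, hF0, hF3, ?_, ?_⟩
      · intro v hv a hav
        obtain ⟨i, hi, rfl⟩ := (hmemR v).1 hv
        exact hZ _ hcl (fun b hb => hFB b hb) i hi a hav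
      · intro h10
        obtain ⟨P, hPi, hPk⟩ := hP (by omega)
        refine ⟨P, hPi, ?_⟩
        intro k
        obtain ⟨hk1, hk2, hk3, hk4⟩ := hPk k
        rw [hdp 0 (Nat.zero_le L)] at hk2
        refine ⟨hk1, hk2, hk3 _ hcl (fun b hb => hFB b hb), ?_⟩
        intro v0
        obtain ⟨i, hi, j, hj, h1, h2, a, ha', b, hb', h3, h4, h5, h6, h7, h8⟩ := hk4 v0
        rw [hdp 0 (Nat.zero_le L)] at h3 h4
        exact ⟨(d i).1.v, (hmemR _).2 ⟨i, hi, rfl⟩, (d j).1.v, (hmemR _).2 ⟨j, hj, rfl⟩, h1, h2,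
          a, ha', b, hb', h3, h4, h5, h6, h7, h8⟩
  · apply Set.ncard_le_ncard_of_injOn (fun v =>
      if h : v ∈ verts S ∧ p ∈ blk S v then (⟨⟨v, p, s0⟩, h⟩ : D S) else
        Classical.choice (by
          obtain ⟨v, hv⟩ := Finset.card_pos.1 (by omega : 0 < (verts S).card)
          have h2 := (mem_verts hS).1 hv
          obtain ⟨q, hq⟩ := Finset.card_pos.1 (by omega : 0 < (blk S v).card)
          exact ⟨(⟨⟨v, q, true⟩, ⟨hv, hq⟩⟩ : D S)⟩))
    · rintro v ⟨hv1, hv2, hv3⟩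
      rw [dif_pos ⟨hv1, hv2⟩]
      refine ⟨rfl, rfl, ?_⟩
      intro hg
      obtain ⟨R, hRm, hvR⟩ := hcov ⟨⟨v, p, s0⟩, ⟨hv1, hv2⟩⟩ rfl rfl hg
      exact hv3 R hRm hvR
    · rintro v ⟨hv1, hv2, hv3⟩ w ⟨hw1, hw2, hw3⟩ hvw
      simp only [dif_pos (⟨hv1, hv2⟩ : v ∈ verts S ∧ p ∈ blk S v),
        dif_pos (⟨hw1, hw2⟩ : w ∈ verts S ∧ p ∈ blk S w)] at hvw
      have := congrArg (fun d : D S => d.1.v) hvw
      exact this

end Pool.Agent.Lib.MP_214199_co.Eff
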