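import Pool.Agent.Lib.MP_214199_co.Eff.Types
import Pool.Agent.Lib.MP_214199_co.Eff.Form

/-!
# Homogenisation
-/

set_option autoImplicit false

namespace Pool.Agent.Lib.MP_214199_co.Eff

open MvPolynomial

/-- dehomogenisation -/
noncomputable def homogPhi : Poly3 →ₐ[ℂ] Poly := aeval ![X 0, X 1, 1]

theorem homog_eval (G : Poly3) (a : Fin 2 → ℂ) : eval ![a 0, a 1, 1] G = eval a (homogPhi G) := by
  induction G using MvPolynomial.induction_on with
  | C c => simp [homogPhi]
  | add p q hp hq => rw [map_add, map_add, map_add, hp, hq]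
  | mul_X p n hp =>
    rw [map_mul, map_mul, map_mul, hp, eval_X]
    congr 1
    fin_cases n <;> simp [homogPhi]

theorem homog_pderiv (i : Fin 2) (G : Poly3) :
    homogPhi (pderiv i.castSucc G) = pderiv i (homogPhi G) := by
  induction G using MvPolynomial.induction_on with
  | C c => simp [homogPhi]
  | add p q hp hq => rw [map_add, map_add, map_add, map_add, hp, hq]
  | mul_X p n hp =>
    rw [pderiv_mul, map_add, map_mul, map_mul, map_mul, pderiv_mul, hp]
    congr 2
    fin_cases i <;> fin_cases n <;> simp [homogPhi, pderiv_X]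

/-- the homogenisation of a cubic polynomial -/
noncomputable def homogF (f : Poly) : Poly3 :=
  ∑ d ∈ f.support, C (coeff d f) * (X 0 ^ d 0 * X 1 ^ d 1 * X 2 ^ (3 - (d 0 + d 1)))

theorem homog_phi (f : Poly) : homogPhi (homogF f) = f := by
  rw [homogF, map_sum]
  conv_rhs => rw [← support_sum_monomial_coeff f]
  refine Finset.sum_congr rfl fun d _ => ?_
  rw [monomial_eq]
  simp only [homogPhi, map_mul, map_pow, aeval_X, Matrix.cons_val_zero, Matrix.cons_val_one,
    Matrix.cons_val, one_pow, mul_one]
  rw [Finsupp.prod_fintype _ _ (fun i => pow_zero _), Fin.prod_univ_two]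
  congr 1
  exact aeval_C _ _

theorem homog_deg (f : Poly) (h3 : f.totalDegree = 3) {d : Fin 2 →₀ ℕ} (hd : d ∈ f.support) :
    d 0 + d 1 ≤ 3 := by
  have h := le_totalDegree hd
  rw [h3] at h
  rwa [Finsupp.sum_fintype _ _ (fun _ => rfl), Fin.sum_univ_two] at h

theorem homog_top (f : Poly) (h3 : f.totalDegree = 3) :
    ∃ d ∈ f.support, d 0 + d 1 = 3 := by
  have hne : f.support.Nonempty := by
    rw [Finset.nonempty_iff_ne_empty]
    intro h
    rw [support_eq_empty] at h
    rw [h, totalDegree_zero] at h3
    omega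
  obtain ⟨d, hd, hd'⟩ := Finset.exists_mem_eq_sup f.support hne (fun s => s.sum fun _ e => e)
  refine ⟨d, hd, ?_⟩
  have h : f.totalDegree = d.sum fun _ e => e := hd'
  rw [h3, Finsupp.sum_fintype _ _ (fun _ => rfl), Fin.sum_univ_two] at h
  exact h.symm

theorem homog_noline_aux (f : Poly) (hf : Irreducible f) (h3 : f.totalDegree = 3)
    (p w : Fin 3 → ℂ) (hind : LinearIndependent ℂ ![p, w]) (hp : p 2 ≠ 0)
    (h : ∀ s t : ℂ, eval (s • p + t • w) (homogF f) = 0) : False := by
  set u : Fin 2 → ℂ := ![p 0 / p 2, p 1 / p 2] with hu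
  set v : Fin 2 → ℂ := ![w 0 - w 2 * p 0 / p 2, w 1 - w 2 * p 1 / p 2] with hv
  have hz : ∀ t : ℂ, Zr f (u + t • v) := by
    intro t
    have h1 := h ((1 - t * w 2) / p 2) t
    have h2 : ((1 - t * w 2) / p 2) • p + t • w =
        ![(u + t • v) 0, (u + t • v) 1, 1] := by
      ext i
      fin_cases i
      · simp [hu, hv]
        field_simp
        ring
      · simp [hu, hv]
        field_simp
        ring
      · simp
        field_simp
        ring
    rw [h2, homog_eval, homog_phi] at h1
    exact h1
  have hv0 : v ≠ 0 := by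
    intro hv0
    rw [LinearIndependent.pair_iff] at hind
    have e0 : w 0 - w 2 * p 0 / p 2 = 0 := congrFun hv0 0
    have e1 : w 1 - w 2 * p 1 / p 2 = 0 := congrFun hv0 1
    have h1 := (hind (- (w 2 / p 2)) 1 (by
      ext i
      fin_cases i
      · simp
        linear_combination e0
      · simp
        linear_combination e1
      · simp
        field_simp
        ring)).2
    exact one_ne_zero h1
  have hinj : Function.Injective (fun k : ℂ => u + k • v) := by
    intro k k' hk
    have h1 : k • v = k' • v := add_left_cancel hk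
    exact smul_left_injective ℂ hv0 h1
  classical
  have h4 := irr_line f hf (by omega) u (u + (1 : ℂ) • v) (by
    intro h1
    apply hv0
    have h2 : u + 0 = u + (1 : ℂ) • v := by rw [add_zero]; exact h1
    have h5 := add_left_cancel h2
    rw [one_smul] at h5
    exact h5.symm)
    ((Finset.range 4).image fun k : ℕ => u + ((k : ℂ)) • v) (by
      intro c hc
      obtain ⟨k, -, rfl⟩ := Finset.mem_image.1 hc
      refine ⟨hz _, ?_⟩
      simp only [Col, det3c, Pi.add_apply, Pi.smul_apply, smul_eq_mul]
      ring)
  rw [Finset.card_image_of_injective _ (fun k k' hk => by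
    have := hinj hk
    exact_mod_cast this), Finset.card_range, h3] at h4
  omega

/-- Homogenisation.
Proof.  `F = ∑ c_(i,j) X 0 ^ i * X 1 ^ j * X 2 ^ (3 - i - j)` if `f = ∑ c_(i,j) X 0 ^ i * X 1 ^ j`
(sum over the support).  `NoLine`: suppose `F` vanishes on the plane spanned by `p`, `w`.  If this
plane is `X 2 = 0`, then the homogeneous part of degree 3 of `f` vanishes identically,
contradiction to `f.totalDegree = 3`.  Otherwise it contains infinitely many vectors
`(x, y, 1)`, on an affine line, so `f` has more than three collinear zeros: `irr_line`. -/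
theorem exists_homog (f : Poly) (hf : Irreducible f) (h3 : f.totalDegree = 3) :
    ∃ F : Poly3, F.IsHomogeneous 3 ∧ NoLine F ∧
      (∀ a : Fin 2 → ℂ, eval ![a 0, a 1, 1] F = eval a f) ∧
      (∀ a : Fin 2 → ℂ, eval ![a 0, a 1, 1] (pderiv 0 F) = eval a (pderiv 0 f)) ∧
      (∀ a : Fin 2 → ℂ, eval ![a 0, a 1, 1] (pderiv 1 F) = eval a (pderiv 1 f)) := by
  refine ⟨homogF f, ?_, ?_, ?_, ?_, ?_⟩
  · refine IsHomogeneous.sum _ _ _ fun d hd => ?_
    have h1 := homog_deg f h3 hd
    have h2 : (C (coeff d f) * (X 0 ^ d 0 * X 1 ^ d 1 * X 2 ^ (3 - (d 0 + d 1))) : Poly3).IsHomogeneous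
        (0 + (1 * d 0 + 1 * d 1 + 1 * (3 - (d 0 + d 1)))) :=
      (isHomogeneous_C _ _).mul ((((isHomogeneous_X ℂ 0).pow _).mul
        ((isHomogeneous_X ℂ 1).pow _)).mul ((isHomogeneous_X ℂ 2).pow _))
    have h4 : 0 + (1 * d 0 + 1 * d 1 + 1 * (3 - (d 0 + d 1))) = 3 := by omega
    rwa [h4] at h2
  · intro p w hind
    by_contra hno
    push Not at hno
    by_cases hp : p 2 = 0
    swap
    · exact homog_noline_aux f hf h3 p w hind hp hno
    by_cases hw : w 2 = 0
    swap
    · refine homog_noline_aux f hf h3 w p ?_ hw fun s t => ?_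
      · rw [LinearIndependent.pair_iff] at hind ⊢
        intro s t hst
        exact (hind t s (by rw [add_comm]; exact hst)).symm
      · rw [add_comm]
        exact hno t s
    -- the plane at infinity
    rw [LinearIndependent.pair_iff] at hind
    have hD : p 0 * w 1 - p 1 * w 0 ≠ 0 := by
      intro hD
      have h1 := hind (w 1) (- p 1) (by
        ext i
        fin_cases i
        · simp
          linear_combination hD
        · simp
          ring
        · simp [hp, hw])
      have h2 := hind (w 0) (- p 0) (by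
        ext i
        fin_cases i
        · simp
          ring
        · simp
          linear_combination - hD
        · simp [hp, hw])
      have h4 := hind 1 0 (by
        ext i
        fin_cases i
        · simpa using h2.2
        · simpa using h1.2
        · simpa using hp)
      exact one_ne_zero h4.1
    obtain ⟨d₀, hd₀, hd₀'⟩ := homog_top f h3
    have hg : (∑ d ∈ f.support with d 0 + d 1 = 3, monomial d (coeff d f) : Poly) = 0 := by
      refine MvPolynomial.funext fun x => ?_
      rw [map_zero, map_sum]
      have h1 := hno ((x 0 * w 1 - x 1 * w 0) / (p 0 * w 1 - p 1 * w 0))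
        ((p 0 * x 1 - p 1 * x 0) / (p 0 * w 1 - p 1 * w 0))
      have h2 : (((x 0 * w 1 - x 1 * w 0) / (p 0 * w 1 - p 1 * w 0)) • p +
          ((p 0 * x 1 - p 1 * x 0) / (p 0 * w 1 - p 1 * w 0)) • w) = ![x 0, x 1, 0] := by
        ext i
        fin_cases i
        · simp only [Pi.add_apply, Pi.smul_apply, smul_eq_mul, Fin.zero_eta, Matrix.cons_val_zero]
          rw [div_mul_eq_mul_div, div_mul_eq_mul_div, ← add_div, div_eq_iff hD]
          ring
        · simp only [Pi.add_apply, Pi.smul_apply, smul_eq_mul, Fin.mk_one, Matrix.cons_val_one]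
          rw [div_mul_eq_mul_div, div_mul_eq_mul_div, ← add_div, div_eq_iff hD]
          simp
          ring
        · simp [hp, hw]
      rw [h2, homogF, map_sum] at h1
      rw [Finset.sum_filter]
      refine Eq.trans ?_ h1
      refine Finset.sum_congr rfl fun d hd => ?_
      have h4 := homog_deg f h3 hd
      simp only [map_mul, map_pow, eval_C, eval_X, Matrix.cons_val_zero, Matrix.cons_val_one,
        Matrix.cons_val]
      split_ifs with h5
      · rw [eval_monomial, Finsupp.prod_fintype _ _ (fun i => pow_zero _), Fin.prod_univ_two, h5]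
        simp
      · rw [zero_pow (by omega)]
        ring
    have h5 := congrArg (coeff d₀) hg
    rw [coeff_sum, coeff_zero, Finset.sum_eq_single d₀] at h5
    · rw [coeff_monomial, if_pos rfl] at h5
      exact (mem_support_iff.1 hd₀) h5
    · intro b _ hb
      rw [coeff_monomial, if_neg hb]
    · intro h6
      exact absurd (Finset.mem_filter.2 ⟨hd₀, hd₀'⟩) h6
  · intro a
    rw [homog_eval, homog_phi]
  · intro a
    have h := homog_pderiv 0 (homogF f)
    rw [homog_phi] at h
    rw [homog_eval, ← h]
    rfl
  · intro a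
    have h := homog_pderiv 1 (homogF f)
    rw [homog_phi] at h
    rw [homog_eval, ← h]
    rfl

end Pool.Agent.Lib.MP_214199_co.Eff
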