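import Mathlib

/-!
# Finite families of large sets with small intersections
-/

set_option autoImplicit false

namespace Pool.Agent.Lib.MP_214199_co.Eff

open Finset

/-- Proof by induction on `J` (a finset of indices): adding `A j` to the union adds at least
`|A j| - c |J|` points. -/
theorem incl_excl {α ι : Type*} [DecidableEq α] [DecidableEq ι] (J : Finset ι) (A : ι → Finset α)
    (c : ℕ) (hc : ∀ i ∈ J, ∀ j ∈ J, i ≠ j → (A i ∩ A j).card ≤ c) :
    2 * ∑ j ∈ J, (A j).card ≤ 2 * (J.biUnion A).card + c * (J.card * (J.card - 1)) := by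
  induction J using Finset.induction_on with
  | empty => simp
  | insert a J ha ih =>
    have ih' := ih (fun i hi j hj hij => hc i (Finset.mem_insert_of_mem hi) j
      (Finset.mem_insert_of_mem hj) hij)
    rw [Finset.sum_insert ha, Finset.biUnion_insert, Finset.card_insert_of_notMem ha]
    have h1 := Finset.card_union_add_card_inter (A a) (J.biUnion A)
    have h2 : (A a ∩ J.biUnion A).card ≤ J.card * c := by
      rw [Finset.inter_biUnion]
      refine le_trans Finset.card_biUnion_le ?_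
      refine le_trans (Finset.sum_le_card_nsmul _ _ c ?_) (by rw [smul_eq_mul])
      intro j hj
      exact hc a (Finset.mem_insert_self _ _) j (Finset.mem_insert_of_mem hj)
        (fun h => ha (h ▸ hj))
    have h3 : c * ((J.card + 1) * (J.card + 1 - 1)) = c * (J.card * (J.card - 1)) +
        2 * (J.card * c) := by
      rcases Nat.eq_zero_or_pos J.card with h | h
      · rw [h]
        simp
      · obtain ⟨m, hm⟩ : ∃ m, J.card = m + 1 := ⟨J.card - 1, by omega⟩
        rw [hm]
        simp only [Nat.add_sub_cancel]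
        ring
    rw [h3]
    omega

/-- Let `Good` be a set of objects (here: irreducible cubics) with a finite set `Zs f ⊆ U` for
each, `|U| = n`, such that two objects that are not equivalent have at most 9 points in common, and
every object in question has at least `a` points.  If `k0 * a ≥ n + 9 * k0 * (k0 - 1) / 2 + 1`,
there are less than `k0` pairwise inequivalent objects, and if every point of `T` belongs to two
inequivalent ones, then `2 |T| ≤ 9 k0 (k0 - 1)`.
Proof.  Take a maximal (by cardinality) finset `J` of pairwise inequivalent objects; `incl_excl`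
excludes `k0` of them, so `|J| < k0` (and finiteness: all such finsets have less than `k0`
elements).  Every object is equivalent to one in `J` (maximality).  Every point of `T` is in
`Zs f ∩ Zs g` for two different `f, g ∈ J` (equivalent objects have the same `Zs`). -/
theorem many_points {α ι : Type*} [DecidableEq α] (U T : Finset α) (Ob : Set ι) (Zs : ι → Finset α)
    (eqv : ι → ι → Prop) (he : Equivalence eqv) (hZ : ∀ f g, eqv f g → Zs f = Zs g)
    (hU : ∀ f, Zs f ⊆ U) (a k0 : ℕ) (ha : ∀ f ∈ Ob, a ≤ (Zs f).card)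
    (h9 : ∀ f ∈ Ob, ∀ g ∈ Ob, ¬ eqv f g → (Zs f ∩ Zs g).card ≤ 9)
    (hk : 2 * U.card + 9 * (k0 * (k0 - 1)) < 2 * (k0 * a))
    (hT : ∀ x ∈ T, ∃ f ∈ Ob, ∃ g ∈ Ob, ¬ eqv f g ∧ x ∈ Zs f ∧ x ∈ Zs g) :
    2 * T.card ≤ 9 * (k0 * (k0 - 1)) := by
  classical
  let P : ℕ → Prop := fun m => ∃ J : Finset ι, J.card = m ∧ (∀ f ∈ J, f ∈ Ob) ∧
    ∀ f ∈ J, ∀ g ∈ J, f ≠ g → ¬ eqv f g
  have hsub : ∀ m, P m → ∀ m' ≤ m, P m' := by
    rintro m ⟨J, hJ, hJ1, hJ2⟩ m' hm'
    obtain ⟨K, hKJ, hK⟩ := Finset.exists_subset_card_eq (hJ ▸ hm' : m' ≤ J.card)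
    exact ⟨K, hK, fun f hf => hJ1 f (hKJ hf), fun f hf g hg => hJ2 f (hKJ hf) g (hKJ hg)⟩
  have hk0 : ¬ P k0 := by
    rintro ⟨J, hJ, hJ1, hJ2⟩
    have h1 := incl_excl J Zs 9 (fun i hi j hj hij => h9 i (hJ1 i hi) j (hJ1 j hj)
      (hJ2 i hi j hj hij))
    have h2 : J.card * a ≤ ∑ j ∈ J, (Zs j).card := by
      have := Finset.card_nsmul_le_sum J (fun j => (Zs j).card) a (fun j hj => ha j (hJ1 j hj))
      rwa [smul_eq_mul] at this
    have h3 : (J.biUnion Zs).card ≤ U.card :=
      Finset.card_le_card (Finset.biUnion_subset.2 (fun j _ => hU j))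
    rw [hJ] at h1 h2
    omega
  have hlt : ∀ m, P m → m < k0 := by
    intro m hm
    by_contra hcon
    exact hk0 (hsub m hm k0 (not_lt.1 hcon))
  have hP0 : P 0 := ⟨∅, rfl, by simp, by simp⟩
  -- a maximal family
  obtain ⟨m, hPm, hmax⟩ : ∃ m, P m ∧ ∀ m', P m' → m' ≤ m := by
    have hfin : {m | P m}.Finite := (Set.finite_Iio k0).subset (fun m hm => hlt m hm)
    obtain ⟨m, hm1, hm2⟩ := hfin.exists_maximalFor id {m | P m} ⟨0, hP0⟩
    refine ⟨m, hm1, fun m' hm' => ?_⟩
    by_contra hcon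
    push Not at hcon
    have := hm2 hm' (le_of_lt hcon)
    simp only [id] at this
    omega
  obtain ⟨J, hJ, hJ1, hJ2⟩ := hPm
  have hrep : ∀ f ∈ Ob, ∃ g ∈ J, eqv f g := by
    intro f hf
    by_contra hcon
    push Not at hcon
    have hfJ : f ∉ J := fun h => hcon f h (he.refl f)
    have : P (m + 1) := by
      refine ⟨insert f J, by rw [Finset.card_insert_of_notMem hfJ, hJ], ?_, ?_⟩
      · intro g hg
        rcases Finset.mem_insert.1 hg with rfl | hg
        · exact hf
        · exact hJ1 g hg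
      · intro g hg g' hg' hne
        rcases Finset.mem_insert.1 hg with h1 | hg
        · rcases Finset.mem_insert.1 hg' with h2 | hg'
          · exact absurd (h1.trans h2.symm) hne
          · rw [h1]
            exact hcon g' hg'
        · rcases Finset.mem_insert.1 hg' with h2 | hg'
          · rw [h2]
            exact fun h => hcon g hg (he.symm h)
          · exact hJ2 g hg g' hg' hne
    have := hmax _ this
    omega
  have hT2 : ∀ x ∈ T, 2 ≤ (J.offDiag.filter (fun z => x ∈ Zs z.1 ∩ Zs z.2)).card := by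
    intro x hx
    obtain ⟨f, hf, g, hg, hfg, hxf, hxg⟩ := hT x hx
    obtain ⟨f', hf', hff'⟩ := hrep f hf
    obtain ⟨g', hg', hgg'⟩ := hrep g hg
    have hne : f' ≠ g' := by
      intro h
      apply hfg
      rw [← h] at hgg'
      exact he.trans hff' (he.symm hgg')
    have hxf' : x ∈ Zs f' := hZ f f' hff' ▸ hxf
    have hxg' : x ∈ Zs g' := hZ g g' hgg' ▸ hxg
    apply Finset.one_lt_card.2
    refine ⟨(f', g'), ?_, (g', f'), ?_, ?_⟩
    · exact Finset.mem_filter.2 ⟨Finset.mem_offDiag.2 ⟨hf', hg', hne⟩,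
        Finset.mem_inter.2 ⟨hxf', hxg'⟩⟩
    · exact Finset.mem_filter.2 ⟨Finset.mem_offDiag.2 ⟨hg', hf', hne.symm⟩,
        Finset.mem_inter.2 ⟨hxg', hxf'⟩⟩
    · intro h
      exact hne (congrArg Prod.fst h)
  have h1 : T.card * 2 ≤ ∑ x ∈ T, (J.offDiag.filter (fun z => x ∈ Zs z.1 ∩ Zs z.2)).card := by
    have := Finset.card_nsmul_le_sum T _ 2 hT2
    rwa [smul_eq_mul] at this
  have h2 : ∑ x ∈ T, (J.offDiag.filter (fun z => x ∈ Zs z.1 ∩ Zs z.2)).card =
      ∑ z ∈ J.offDiag, (T.filter (fun x => x ∈ Zs z.1 ∩ Zs z.2)).card := by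
    simp_rw [Finset.card_filter]
    exact Finset.sum_comm
  have h3 : ∑ z ∈ J.offDiag, (T.filter (fun x => x ∈ Zs z.1 ∩ Zs z.2)).card ≤
      J.offDiag.card • 9 := by
    apply Finset.sum_le_card_nsmul
    intro z hz
    obtain ⟨hz1, hz2, hz3⟩ := Finset.mem_offDiag.1 hz
    refine le_trans (Finset.card_le_card ?_) (h9 z.1 (hJ1 _ hz1) z.2 (hJ1 _ hz2)
      (hJ2 _ hz1 _ hz2 hz3))
    intro x hx
    exact (Finset.mem_filter.1 hx).2
  rw [Finset.offDiag_card, smul_eq_mul, hJ] at h3
  have hm : m < k0 := hlt m ⟨J, hJ, hJ1, hJ2⟩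
  have h4 : m * m - m = m * (m - 1) := by
    rw [Nat.mul_sub, mul_one]
  have h5 : m * (m - 1) ≤ k0 * (k0 - 1) := Nat.mul_le_mul (by omega) (by omega)
  rw [h4] at h3
  omega

end Pool.Agent.Lib.MP_214199_co.Eff
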