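import Pool.Agent.Lib.MP_214199_co.Plane

/-!
# The lower bound: the points
-/

set_option autoImplicit false

namespace Pool.Agent.Lib.MP_214199_co.Eff

open Finset

/-- the points `(cos (s + δ) / sin (s + δ), sin (3 s) / sin (s + δ))`, `s = j π / n`,
`δ = π / (2 n)` -/
noncomputable def lowP (n : ℕ) (j : Fin n) : EuclideanSpace ℝ (Fin 2) :=
  !₂[Real.cos ((2 * (j : ℕ) + 1) * Real.pi / (2 * n)) /
      Real.sin ((2 * (j : ℕ) + 1) * Real.pi / (2 * n)),
    Real.sin (3 * ((j : ℕ) * Real.pi / n)) /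
      Real.sin ((2 * (j : ℕ) + 1) * Real.pi / (2 * n))]

theorem lt_poly (s c s' c' s'' c'' : ℝ) (h : s ^ 2 + c ^ 2 = 1) (h' : s' ^ 2 + c' ^ 2 = 1)
    (h'' : s'' ^ 2 + c'' ^ 2 = 1) :
    s * (c' * (3 * s'' * c'' ^ 2 - s'' ^ 3) - (3 * s' * c' ^ 2 - s' ^ 3) * c'') -
      c * (s' * (3 * s'' * c'' ^ 2 - s'' ^ 3) - (3 * s' * c' ^ 2 - s' ^ 3) * s'') +
      (3 * s * c ^ 2 - s ^ 3) * (s' * c'' - c' * s'') =
    4 * ((s * c' - c * s') * (s' * c'' - c' * s'') * (s'' * c - c'' * s) *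
      ((s * c' + c * s') * c'' + (c * c' - s * s') * s'')) := by
  calc _ = s * (s ^ 2 + c ^ 2) * (c' * (s' ^ 2 + c' ^ 2) * (3 * s'' * c'' ^ 2 - s'' ^ 3) -
          (3 * s' * c' ^ 2 - s' ^ 3) * (c'' * (s'' ^ 2 + c'' ^ 2))) -
        c * (s ^ 2 + c ^ 2) * (s' * (s' ^ 2 + c' ^ 2) * (3 * s'' * c'' ^ 2 - s'' ^ 3) -
          (3 * s' * c' ^ 2 - s' ^ 3) * (s'' * (s'' ^ 2 + c'' ^ 2))) +
        (3 * s * c ^ 2 - s ^ 3) * (s' * (s' ^ 2 + c' ^ 2) * (c'' * (s'' ^ 2 + c'' ^ 2)) -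
          c' * (s' ^ 2 + c' ^ 2) * (s'' * (s'' ^ 2 + c'' ^ 2))) := by
        rw [h, h', h'']
        ring
    _ = _ := by ring

theorem lt_sin_three (x : ℝ) :
    Real.sin (3 * x) = 3 * Real.sin x * Real.cos x ^ 2 - Real.sin x ^ 3 := by
  rw [Real.sin_three_mul]
  have h := Real.sin_sq_add_cos_sq x
  linear_combination (-3 * Real.sin x) * h

/-- Proof.  Both sides are trigonometric polynomials; e.g. expand everything in `sin`, `cos` of
`a`, `b`, `c` and use `sin^2 + cos^2 = 1` (`linear_combination`). -/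
theorem trig_det (a b c : ℝ) :
    Real.sin a * (Real.cos b * Real.sin (3 * c) - Real.sin (3 * b) * Real.cos c) -
      Real.cos a * (Real.sin b * Real.sin (3 * c) - Real.sin (3 * b) * Real.sin c) +
      Real.sin (3 * a) * (Real.sin b * Real.cos c - Real.cos b * Real.sin c) =
    4 * (Real.sin (a - b) * Real.sin (b - c) * Real.sin (c - a) * Real.sin (a + b + c)) := by
  rw [lt_sin_three, lt_sin_three, lt_sin_three, Real.sin_sub, Real.sin_sub, Real.sin_sub,
    Real.sin_add (a + b) c, Real.sin_add a b, Real.cos_add a b]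
  exact lt_poly _ _ _ _ _ _ (Real.sin_sq_add_cos_sq a) (Real.sin_sq_add_cos_sq b)
    (Real.sin_sq_add_cos_sq c)

/-- `sin (m π / n) = 0` iff `n ∣ m`. -/
theorem lt_sin_zero (n : ℕ) (hn : 0 < n) (m : ℤ) :
    Real.sin (m * Real.pi / n) = 0 ↔ (n : ℤ) ∣ m := by
  rw [Real.sin_eq_zero_iff]
  have hn' : (n : ℝ) ≠ 0 := Nat.cast_ne_zero.2 hn.ne'
  have hpi := Real.pi_ne_zero
  constructor
  · rintro ⟨t, ht⟩
    refine ⟨t, ?_⟩
    rw [eq_div_iff hn'] at ht
    have h1 : ((n : ℝ) * t - m) * Real.pi = 0 := by linear_combination ht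
    have h2 := (mul_eq_zero.1 h1).resolve_right hpi
    have h3 : (m : ℝ) = n * t := by linarith
    exact_mod_cast h3
  · rintro ⟨t, rfl⟩
    refine ⟨t, ?_⟩
    push_cast
    field_simp

theorem lt_sin_pos (n : ℕ) (j : Fin n) :
    0 < Real.sin ((2 * (j : ℕ) + 1) * Real.pi / (2 * n)) := by
  have hj : (j : ℕ) < n := j.2
  have hn : 0 < n := by omega
  have hn' : (0 : ℝ) < n := Nat.cast_pos.2 hn
  have hpi := Real.pi_pos
  apply Real.sin_pos_of_pos_of_lt_pi
  · positivity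
  · rw [div_lt_iff₀ (by positivity)]
    have h1 : (2 * ((j : ℕ) : ℝ) + 1) < 2 * n := by
      have : 2 * (j : ℕ) + 1 < 2 * n := by omega
      exact_mod_cast this
    nlinarith

theorem lt_sub (n : ℕ) (hn : 0 < n) (i j : Fin n) :
    Real.sin ((i : ℕ) * Real.pi / n - (j : ℕ) * Real.pi / n) = 0 ↔ i = j := by
  have h1 : ((i : ℕ) : ℝ) * Real.pi / n - (j : ℕ) * Real.pi / n =
      (((i : ℕ) : ℤ) - ((j : ℕ) : ℤ) : ℤ) * Real.pi / n := by
    push_cast
    ring
  rw [h1, lt_sin_zero n hn]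
  constructor
  · intro h
    have hi := i.2
    have hj := j.2
    have h2 : ((i : ℕ) : ℤ) - ((j : ℕ) : ℤ) = 0 := by
      apply Int.eq_zero_of_abs_lt_dvd h
      rw [abs_lt]
      constructor <;> omega
    apply Fin.ext
    omega
  · rintro rfl
    simp

/-- Proof.  `sin (s + δ) ≠ 0`.  Multiply the rows of the determinant by `sin (s + δ)`:
`det3 = 0` iff the determinant of the rows `(sin (s + δ), cos (s + δ), sin 3 s)` is `0`; the first
two columns are a rotation of `(sin s, cos s)`, so it is the one in `trig_det`.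
`sin (a - b) = 0` iff the indices agree (`|a - b| < π`), `sin (a + b + c) = 0` iff
`n ∣ i + j + k`. -/
theorem lowP_det (n : ℕ) (i j k : Fin n) :
    det3 (lowP n i) (lowP n j) (lowP n k) = 0 ↔
      i = j ∨ j = k ∨ k = i ∨ n ∣ (i : ℕ) + j + k := by
  have hn : 0 < n := by
    have := i.2
    omega
  have hn' : (n : ℝ) ≠ 0 := Nat.cast_ne_zero.2 hn.ne'
  have hSi := (lt_sin_pos n i).ne'
  have hSj := (lt_sin_pos n j).ne'
  have hSk := (lt_sin_pos n k).ne'
  have harg : ∀ l : Fin n, (2 * ((l : ℕ) : ℝ) + 1) * Real.pi / (2 * n) =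
      (l : ℕ) * Real.pi / n + Real.pi / (2 * n) := by
    intro l
    field_simp
  have hdet := trig_det ((i : ℕ) * Real.pi / n) ((j : ℕ) * Real.pi / n) ((k : ℕ) * Real.pi / n)
  have hsum : Real.sin ((i : ℕ) * Real.pi / n + (j : ℕ) * Real.pi / n + (k : ℕ) * Real.pi / n) = 0 ↔
      n ∣ (i : ℕ) + j + k := by
    have h1 : ((i : ℕ) : ℝ) * Real.pi / n + (j : ℕ) * Real.pi / n + (k : ℕ) * Real.pi / n =
        (((i : ℕ) + (j : ℕ) + (k : ℕ) : ℕ) : ℤ) * Real.pi / n := by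
      push_cast
      ring
    rw [h1, lt_sin_zero n hn, Int.natCast_dvd_natCast]
  have hδ := Real.sin_sq_add_cos_sq (Real.pi / (2 * n))
  have hmain : det3 (lowP n i) (lowP n j) (lowP n k) *
      (Real.sin ((2 * (i : ℕ) + 1) * Real.pi / (2 * n)) *
        Real.sin ((2 * (j : ℕ) + 1) * Real.pi / (2 * n)) *
        Real.sin ((2 * (k : ℕ) + 1) * Real.pi / (2 * n))) =
      4 * (Real.sin ((i : ℕ) * Real.pi / n - (j : ℕ) * Real.pi / n) *
        Real.sin ((j : ℕ) * Real.pi / n - (k : ℕ) * Real.pi / n) *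
        Real.sin ((k : ℕ) * Real.pi / n - (i : ℕ) * Real.pi / n) *
        Real.sin ((i : ℕ) * Real.pi / n + (j : ℕ) * Real.pi / n + (k : ℕ) * Real.pi / n)) := by
    rw [← hdet]
    have e : det3 (lowP n i) (lowP n j) (lowP n k) *
      (Real.sin ((2 * (i : ℕ) + 1) * Real.pi / (2 * n)) *
        Real.sin ((2 * (j : ℕ) + 1) * Real.pi / (2 * n)) *
        Real.sin ((2 * (k : ℕ) + 1) * Real.pi / (2 * n))) =
      Real.sin ((2 * (i : ℕ) + 1) * Real.pi / (2 * n)) *
        (Real.cos ((2 * (j : ℕ) + 1) * Real.pi / (2 * n)) * Real.sin (3 * ((k : ℕ) * Real.pi / n)) -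
          Real.sin (3 * ((j : ℕ) * Real.pi / n)) *
            Real.cos ((2 * (k : ℕ) + 1) * Real.pi / (2 * n))) -
      Real.cos ((2 * (i : ℕ) + 1) * Real.pi / (2 * n)) *
        (Real.sin ((2 * (j : ℕ) + 1) * Real.pi / (2 * n)) * Real.sin (3 * ((k : ℕ) * Real.pi / n)) -
          Real.sin (3 * ((j : ℕ) * Real.pi / n)) *
            Real.sin ((2 * (k : ℕ) + 1) * Real.pi / (2 * n))) +
      Real.sin (3 * ((i : ℕ) * Real.pi / n)) *
        (Real.sin ((2 * (j : ℕ) + 1) * Real.pi / (2 * n)) *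
          Real.cos ((2 * (k : ℕ) + 1) * Real.pi / (2 * n)) -
          Real.cos ((2 * (j : ℕ) + 1) * Real.pi / (2 * n)) *
            Real.sin ((2 * (k : ℕ) + 1) * Real.pi / (2 * n))) := by
      unfold det3 lowP
      generalize Real.sin ((2 * ((i : ℕ) : ℝ) + 1) * Real.pi / (2 * n)) = Si at *
      generalize Real.sin ((2 * ((j : ℕ) : ℝ) + 1) * Real.pi / (2 * n)) = Sj at *
      generalize Real.sin ((2 * ((k : ℕ) : ℝ) + 1) * Real.pi / (2 * n)) = Sk at *
      generalize Real.cos ((2 * ((i : ℕ) : ℝ) + 1) * Real.pi / (2 * n)) = Ci at *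
      generalize Real.cos ((2 * ((j : ℕ) : ℝ) + 1) * Real.pi / (2 * n)) = Cj at *
      generalize Real.cos ((2 * ((k : ℕ) : ℝ) + 1) * Real.pi / (2 * n)) = Ck at *
      generalize Real.sin (3 * (((i : ℕ) : ℝ) * Real.pi / n)) = Ti at *
      generalize Real.sin (3 * (((j : ℕ) : ℝ) * Real.pi / n)) = Tj at *
      generalize Real.sin (3 * (((k : ℕ) : ℝ) * Real.pi / n)) = Tk at *
      show ((Cj / Sj - Ci / Si) * (Tk / Sk - Ti / Si) - (Tj / Sj - Ti / Si) * (Ck / Sk - Ci / Si)) *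
        (Si * Sj * Sk) = _
      field_simp
      ring
    rw [e, harg i, harg j, harg k]
    simp only [Real.sin_add, Real.cos_add]
    generalize Real.sin (Real.pi / (2 * n)) = sd at *
    generalize Real.cos (Real.pi / (2 * n)) = cd at *
    generalize Real.sin (3 * (((i : ℕ) : ℝ) * Real.pi / n)) = Ti
    generalize Real.sin (3 * (((j : ℕ) : ℝ) * Real.pi / n)) = Tj
    generalize Real.sin (3 * (((k : ℕ) : ℝ) * Real.pi / n)) = Tk
    generalize Real.sin (((i : ℕ) : ℝ) * Real.pi / n) = si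
    generalize Real.sin (((j : ℕ) : ℝ) * Real.pi / n) = sj
    generalize Real.sin (((k : ℕ) : ℝ) * Real.pi / n) = sk
    generalize Real.cos (((i : ℕ) : ℝ) * Real.pi / n) = ci
    generalize Real.cos (((j : ℕ) : ℝ) * Real.pi / n) = cj
    generalize Real.cos (((k : ℕ) : ℝ) * Real.pi / n) = ck
    linear_combination (si * (cj * Tk - Tj * ck) - ci * (sj * Tk - Tj * sk) +
      Ti * (sj * ck - cj * sk)) * hδ
  constructor
  · intro h
    rw [h, zero_mul] at hmain
    have h0 := (mul_eq_zero.1 hmain.symm).resolve_left (by norm_num)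
    rcases mul_eq_zero.1 h0 with h1 | h1
    · rcases mul_eq_zero.1 h1 with h2 | h2
      · rcases mul_eq_zero.1 h2 with h3 | h3
        · exact Or.inl ((lt_sub n hn i j).1 h3)
        · exact Or.inr (Or.inl ((lt_sub n hn j k).1 h3))
      · exact Or.inr (Or.inr (Or.inl ((lt_sub n hn k i).1 h2)))
    · exact Or.inr (Or.inr (Or.inr (hsum.1 h1)))
  · intro h
    have h0 : Real.sin ((i : ℕ) * Real.pi / n - (j : ℕ) * Real.pi / n) *
        Real.sin ((j : ℕ) * Real.pi / n - (k : ℕ) * Real.pi / n) *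
        Real.sin ((k : ℕ) * Real.pi / n - (i : ℕ) * Real.pi / n) *
        Real.sin ((i : ℕ) * Real.pi / n + (j : ℕ) * Real.pi / n + (k : ℕ) * Real.pi / n) = 0 := by
      rcases h with h | h | h | h
      · rw [(lt_sub n hn i j).2 h]
        ring
      · rw [(lt_sub n hn j k).2 h]
        ring
      · rw [(lt_sub n hn k i).2 h]
        ring
      · rw [hsum.2 h]
        ring
    rw [h0, mul_zero] at hmain
    exact (mul_eq_zero.1 hmain).resolve_right (mul_ne_zero (mul_ne_zero hSi hSj) hSk)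

/-- Proof.  The cotangent is injective on `(0, π)`. -/
theorem lowP_injective (n : ℕ) : Function.Injective (lowP n) := by
  intro i j hij
  have hn : 0 < n := by
    have := i.2
    omega
  have hn' : (n : ℝ) ≠ 0 := Nat.cast_ne_zero.2 hn.ne'
  have hSi := (lt_sin_pos n i).ne'
  have hSj := (lt_sin_pos n j).ne'
  have h0 : Real.cos ((2 * (i : ℕ) + 1) * Real.pi / (2 * n)) /
      Real.sin ((2 * (i : ℕ) + 1) * Real.pi / (2 * n)) =
      Real.cos ((2 * (j : ℕ) + 1) * Real.pi / (2 * n)) /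
      Real.sin ((2 * (j : ℕ) + 1) * Real.pi / (2 * n)) := congrArg (fun x => x 0) hij
  rw [div_eq_div_iff hSi hSj] at h0
  apply (lt_sub n hn i j).1
  have h1 : (i : ℕ) * Real.pi / n - (j : ℕ) * Real.pi / n =
      (2 * ((i : ℕ) : ℝ) + 1) * Real.pi / (2 * n) - (2 * ((j : ℕ) : ℝ) + 1) * Real.pi / (2 * n) := by
    field_simp
    ring
  rw [h1, Real.sin_sub]
  linarith

end Pool.Agent.Lib.MP_214199_co.Eff
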