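import Pool.Agent.Lib.MP_214199_co.Eff.Rot
import Pool.Agent.Lib.MP_214199_co.Eff.Rev

/-!
# The first middle corner of a cell
-/

set_option autoImplicit false

namespace Pool.Agent.Lib.MP_214199_co.Eff

open Finset

variable {S : Finset Pt}

lemma mid_cross {p q : Pt} (h : p.1 ≠ q.1) {x y : ℝ} (hxy : x < y)
    (hn : (ht p x - ht q x) * (ht p y - ht q y) < 0) :
    x < (vtx p q).1 ∧ (vtx p q).1 < y := by
  have h1 : ht q (vtx p q).1 = ht p (vtx p q).1 := ht_vtx_right h
  set w := (vtx p q).1 with hw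
  unfold ht at h1 hn
  have e1 : p.1 * x - p.2 - (q.1 * x - q.2) = (p.1 - q.1) * (x - w) := by linear_combination (-1 : ℝ) * h1
  have e2 : p.1 * y - p.2 - (q.1 * y - q.2) = (p.1 - q.1) * (y - w) := by linear_combination (-1 : ℝ) * h1
  rw [e1, e2] at hn
  have h2 : 0 < (p.1 - q.1) ^ 2 := by
    have : p.1 - q.1 ≠ 0 := sub_ne_zero.2 h
    positivity
  have h3 : (x - w) * (y - w) < 0 := by
    by_contra h4
    push Not at h4
    have : 0 ≤ (p.1 - q.1) * (x - w) * ((p.1 - q.1) * (y - w)) := by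
      have := mul_nonneg h2.le h4
      linarith
    linarith
  rcases mul_neg_iff.1 h3 with ⟨ha, hb⟩ | ⟨ha, hb⟩
  · exfalso; linarith
  · exact ⟨by linarith, by linarith⟩

lemma mid_setup {sg : Equiv.Perm (D S)} (hr : IsRot S sg) (d : D S) (hm : ¬ IsMax d) :
    d.1.p ∈ S ∧ (sg d).1.p ∈ S ∧ ht d.1.p d.1.v.1 = d.1.v.2 ∧
      ht (sg d).1.p d.1.v.1 = d.1.v.2 ∧ d.1.p.1 < (sg d).1.p.1 := by
  have h1 := mem_blk.1 d.2.2
  have h2 := mem_blk.1 (sg d).2.2
  rw [hr.v d] at h2
  exact ⟨h1.1, h2.1, h1.2, h2.2, hr.p_lt d hm⟩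

lemma mid_end {al : Equiv.Perm (D S)} (ha : IsRev S al) (d : D S) :
    ht d.1.p (al d).1.v.1 = (al d).1.v.2 := by
  have h := mem_blk.1 (al d).2.2
  rw [ha.p d] at h
  exact h.2

/-- Let `a = d.p`, `b = (sg d).p`, `v = d.v`, `u` the next vertex on `a` to the right; `b.1 > a.1`,
no slope of the block of `v` lies between.
Proof.  Suppose `c ∈ blk S u`, `c.1 < a.1`.  `ht c x - ht a x = (c.1 - a.1)(x - u.1) > 0` for
`x < u.1`; so at `x = v.1` the line `c` is above `v`, that is above `b`, and at `x = u.1` it is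
below `b` (`ht c u.1 = ht a u.1 < ht b u.1` because `b.1 > a.1` and `u.1 > v.1`).  So the vertex
`vtx c b` has its abscissa in the open interval `(v.1, u.1)`: contradiction to `next_lt` for
`sg d` (whose next vertex does not exist or has abscissa `≥ u.1`). -/
theorem mid_A (hS : Gen S) {sg al : Equiv.Perm (D S)} (hr : IsRot S sg) (ha : IsRev S al)
    (d : D S) (hs : d.1.s = true) (hm : ¬ IsMax d) (h : al d ≠ d)
    (h' : al (sg d) = sg d ∨ (al d).1.v.1 ≤ (al (sg d)).1.v.1) : IsMin (al d) := by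
  intro c hc
  rw [ha.p d]
  by_contra hlt
  push Not at hlt
  obtain ⟨haS, hbS, hav, hbv, hab⟩ := mid_setup hr d hm
  have hcS := (mem_blk.1 hc).1
  have hcu := (mem_blk.1 hc).2
  have hau := mid_end ha d
  have hvu := ha.lt d h hs
  have hcb : c.1 < (sg d).1.p.1 := hlt.trans hab
  have hcb' : c ≠ (sg d).1.p := fun e => by rw [e] at hcb; exact lt_irrefl _ hcb
  obtain ⟨hw1, hw2, hw3⟩ := vtx_mem hS hcS hbS hcb'
  have hx := mid_cross (p := c) (q := (sg d).1.p) hcb.ne hvu (by
    have e1 : 0 < ht c d.1.v.1 - ht (sg d).1.p d.1.v.1 := by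
      rw [hbv, ← hav]
      have : ht c d.1.v.1 - ht d.1.p d.1.v.1 =
          (c.1 - d.1.p.1) * (d.1.v.1 - (al d).1.v.1) := by
        unfold ht at *
        linear_combination hcu - hau
      rw [this]
      exact mul_pos_of_neg_of_neg (by linarith) (by linarith)
    have e2 : ht c (al d).1.v.1 - ht (sg d).1.p (al d).1.v.1 < 0 := by
      rw [hcu, ← hau]
      have : ht d.1.p (al d).1.v.1 - ht (sg d).1.p (al d).1.v.1 =
          (d.1.p.1 - (sg d).1.p.1) * ((al d).1.v.1 - d.1.v.1) := by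
        unfold ht at *
        linear_combination hav - hbv
      rw [this]
      exact mul_neg_of_neg_of_pos (by linarith) (by linarith)
    exact mul_neg_of_pos_of_neg e1 e2)
  have hn := ha.next_lt (sg d) (by rw [hr.s_lt d hm, hs]) _ hw1 hw3 (by rw [hr.v d]; exact hx.1)
  rcases h' with h' | h'
  · exact hn.1 h'
  · linarith [hn.2, hx.2]

/-- The same with `w` the next vertex on `b`.
Proof.  Suppose `c ∈ blk S w`, `c.1 > b.1`.  At `v.1` the line `c` is below `b`, hence below `a`
(both pass through `v`), at `w.1` it is on `b`, above `a`: so `c` and `a` meet in the open interval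
`(v.1, w.1)`, but the next vertex on `a` does not exist or is to the right of `w`. -/
theorem mid_B (hS : Gen S) {sg al : Equiv.Perm (D S)} (hr : IsRot S sg) (ha : IsRev S al)
    (d : D S) (hs : d.1.s = true) (hm : ¬ IsMax d) (h : al (sg d) ≠ sg d)
    (h' : al d = d ∨ (al (sg d)).1.v.1 < (al d).1.v.1) : IsMax (al (sg d)) := by
  intro c hc
  rw [ha.p (sg d)]
  by_contra hlt
  push Not at hlt
  obtain ⟨haS, hbS, hav, hbv, hab⟩ := mid_setup hr d hm
  have hcS := (mem_blk.1 hc).1
  have hcu := (mem_blk.1 hc).2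
  have hbu := mid_end ha (sg d)
  have hvu := ha.lt (sg d) h (by rw [hr.s_lt d hm, hs])
  rw [hr.v d] at hvu
  have hca : d.1.p.1 < c.1 := hab.trans hlt
  have hca' : c ≠ d.1.p := fun e => by rw [e] at hca; exact lt_irrefl _ hca
  obtain ⟨hw1, hw2, hw3⟩ := vtx_mem hS hcS haS hca'
  have hx := mid_cross (p := c) (q := d.1.p) hca.ne' hvu (by
    have e1 : ht c d.1.v.1 - ht d.1.p d.1.v.1 < 0 := by
      rw [hav, ← hbv]
      have : ht c d.1.v.1 - ht (sg d).1.p d.1.v.1 =
          (c.1 - (sg d).1.p.1) * (d.1.v.1 - (al (sg d)).1.v.1) := by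
        unfold ht at *
        linear_combination hcu - hbu
      rw [this]
      exact mul_neg_of_pos_of_neg (by linarith) (by linarith)
    have e2 : 0 < ht c (al (sg d)).1.v.1 - ht d.1.p (al (sg d)).1.v.1 := by
      rw [hcu, ← hbu]
      have : ht (sg d).1.p (al (sg d)).1.v.1 - ht d.1.p (al (sg d)).1.v.1 =
          ((sg d).1.p.1 - d.1.p.1) * ((al (sg d)).1.v.1 - d.1.v.1) := by
        unfold ht at *
        linear_combination hbv - hav
      rw [this]
      exact mul_pos (by linarith) (by linarith)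
    exact mul_neg_of_neg_of_pos e1 e2)
  have hn := ha.next_lt d hs _ hw1 hw3 hx.1
  rcases h' with h' | h'
  · exact hn.1 h'
  · linarith [hn.2, hx.2]

/-- The version of `mid_A` for darts to the left (everything rotated by 180 degrees: to the left of
`v` the line `b` with the larger slope is below `a`). -/
theorem mid_A' (hS : Gen S) {sg al : Equiv.Perm (D S)} (hr : IsRot S sg) (ha : IsRev S al)
    (d : D S) (hs : d.1.s = false) (hm : ¬ IsMax d) (h : al d ≠ d)
    (h' : al (sg d) = sg d ∨ (al (sg d)).1.v.1 ≤ (al d).1.v.1) : IsMin (al d) := by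
  intro c hc
  rw [ha.p d]
  by_contra hlt
  push Not at hlt
  obtain ⟨haS, hbS, hav, hbv, hab⟩ := mid_setup hr d hm
  have hcS := (mem_blk.1 hc).1
  have hcu := (mem_blk.1 hc).2
  have hau := mid_end ha d
  have hvu := ha.gt d h hs
  have hcb : c.1 < (sg d).1.p.1 := hlt.trans hab
  have hcb' : c ≠ (sg d).1.p := fun e => by rw [e] at hcb; exact lt_irrefl _ hcb
  obtain ⟨hw1, hw2, hw3⟩ := vtx_mem hS hcS hbS hcb'
  have hx := mid_cross (p := c) (q := (sg d).1.p) hcb.ne hvu (by
    have e1 : ht c d.1.v.1 - ht (sg d).1.p d.1.v.1 < 0 := by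
      rw [hbv, ← hav]
      have : ht c d.1.v.1 - ht d.1.p d.1.v.1 =
          (c.1 - d.1.p.1) * (d.1.v.1 - (al d).1.v.1) := by
        unfold ht at *
        linear_combination hcu - hau
      rw [this]
      exact mul_neg_of_neg_of_pos (by linarith) (by linarith)
    have e2 : 0 < ht c (al d).1.v.1 - ht (sg d).1.p (al d).1.v.1 := by
      rw [hcu, ← hau]
      have : ht d.1.p (al d).1.v.1 - ht (sg d).1.p (al d).1.v.1 =
          (d.1.p.1 - (sg d).1.p.1) * ((al d).1.v.1 - d.1.v.1) := by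
        unfold ht at *
        linear_combination hav - hbv
      rw [this]
      exact mul_pos_of_neg_of_neg (by linarith) (by linarith)
    exact mul_neg_of_pos_of_neg e2 e1)
  have hn := ha.next_gt (sg d) (by rw [hr.s_lt d hm, hs]) _ hw1 hw3 (by rw [hr.v d]; exact hx.2)
  rcases h' with h' | h'
  · exact hn.1 h'
  · linarith [hn.2, hx.1]

/-- The version of `mid_B` for darts to the left. -/
theorem mid_B' (hS : Gen S) {sg al : Equiv.Perm (D S)} (hr : IsRot S sg) (ha : IsRev S al)
    (d : D S) (hs : d.1.s = false) (hm : ¬ IsMax d) (h : al (sg d) ≠ sg d)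
    (h' : al d = d ∨ (al d).1.v.1 < (al (sg d)).1.v.1) : IsMax (al (sg d)) := by
  intro c hc
  rw [ha.p (sg d)]
  by_contra hlt
  push Not at hlt
  obtain ⟨haS, hbS, hav, hbv, hab⟩ := mid_setup hr d hm
  have hcS := (mem_blk.1 hc).1
  have hcu := (mem_blk.1 hc).2
  have hbu := mid_end ha (sg d)
  have hvu := ha.gt (sg d) h (by rw [hr.s_lt d hm, hs])
  rw [hr.v d] at hvu
  have hca : d.1.p.1 < c.1 := hab.trans hlt
  have hca' : c ≠ d.1.p := fun e => by rw [e] at hca; exact lt_irrefl _ hca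
  obtain ⟨hw1, hw2, hw3⟩ := vtx_mem hS hcS haS hca'
  have hx := mid_cross (p := c) (q := d.1.p) hca.ne' hvu (by
    have e1 : 0 < ht c d.1.v.1 - ht d.1.p d.1.v.1 := by
      rw [hav, ← hbv]
      have : ht c d.1.v.1 - ht (sg d).1.p d.1.v.1 =
          (c.1 - (sg d).1.p.1) * (d.1.v.1 - (al (sg d)).1.v.1) := by
        unfold ht at *
        linear_combination hcu - hbu
      rw [this]
      exact mul_pos (by linarith) (by linarith)
    have e2 : ht c (al (sg d)).1.v.1 - ht d.1.p (al (sg d)).1.v.1 < 0 := by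
      rw [hcu, ← hbu]
      have : ht (sg d).1.p (al (sg d)).1.v.1 - ht d.1.p (al (sg d)).1.v.1 =
          ((sg d).1.p.1 - d.1.p.1) * ((al (sg d)).1.v.1 - d.1.v.1) := by
        unfold ht at *
        linear_combination hbv - hav
      rw [this]
      exact mul_neg_of_pos_of_neg (by linarith) (by linarith)
    exact mul_neg_of_neg_of_pos e2 e1)
  have hn := ha.next_gt d hs _ hw1 hw3 hx.2
  rcases h' with h' | h'
  · exact hn.1 h'
  · linarith [hn.2, hx.1]

end Pool.Agent.Lib.MP_214199_co.Eff
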