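import Pool.Agent.Lib.MP_214199_co.Eff.Form
import Pool.Agent.Lib.MP_214199_co.Eff.Weier

/-!
# The normal form of a cubic with a flex
-/

set_option autoImplicit false

namespace Pool.Agent.Lib.MP_214199_co.Eff

open MvPolynomial

/-- a ternary cubic form with explicit coefficients -/
def nfForm (d : Fin 10 → ℂ) (x y z : ℂ) : ℂ :=
  d 0 * x ^ 3 + d 1 * y ^ 3 + d 2 * z ^ 3 + d 3 * (x ^ 2 * y) + d 4 * (x ^ 2 * z) +
    d 5 * (x * y ^ 2) + d 6 * (y ^ 2 * z) + d 7 * (x * z ^ 2) + d 8 * (y * z ^ 2) +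
    d 9 * (x * y * z)

/-- a linear form -/
def nfLin (a : Fin 3 → ℂ) (x y z : ℂ) : ℂ := a 0 * x + a 1 * y + a 2 * z

theorem nf_lin3 (k : ℂ) (a b c : Fin 3 → ℂ) : ∃ d : Fin 10 → ℂ, ∀ x y z : ℂ,
    k * (nfLin a x y z * nfLin b x y z * nfLin c x y z) = nfForm d x y z := by
  refine ⟨![k * (a 0 * b 0 * c 0), k * (a 1 * b 1 * c 1), k * (a 2 * b 2 * c 2),
    k * (a 0 * b 0 * c 1 + a 0 * b 1 * c 0 + a 1 * b 0 * c 0),
    k * (a 0 * b 0 * c 2 + a 0 * b 2 * c 0 + a 2 * b 0 * c 0),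
    k * (a 0 * b 1 * c 1 + a 1 * b 0 * c 1 + a 1 * b 1 * c 0),
    k * (a 1 * b 1 * c 2 + a 1 * b 2 * c 1 + a 2 * b 1 * c 1),
    k * (a 0 * b 2 * c 2 + a 2 * b 0 * c 2 + a 2 * b 2 * c 0),
    k * (a 1 * b 2 * c 2 + a 2 * b 1 * c 2 + a 2 * b 2 * c 1),
    k * (a 0 * b 1 * c 2 + a 0 * b 2 * c 1 + a 1 * b 0 * c 2 + a 1 * b 2 * c 0 +
      a 2 * b 0 * c 1 + a 2 * b 1 * c 0)], ?_⟩
  intro x y z
  show k * (nfLin a x y z * nfLin b x y z * nfLin c x y z) =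
    (k * (a 0 * b 0 * c 0)) * x ^ 3 + (k * (a 1 * b 1 * c 1)) * y ^ 3 +
    (k * (a 2 * b 2 * c 2)) * z ^ 3 +
    (k * (a 0 * b 0 * c 1 + a 0 * b 1 * c 0 + a 1 * b 0 * c 0)) * (x ^ 2 * y) +
    (k * (a 0 * b 0 * c 2 + a 0 * b 2 * c 0 + a 2 * b 0 * c 0)) * (x ^ 2 * z) +
    (k * (a 0 * b 1 * c 1 + a 1 * b 0 * c 1 + a 1 * b 1 * c 0)) * (x * y ^ 2) +
    (k * (a 1 * b 1 * c 2 + a 1 * b 2 * c 1 + a 2 * b 1 * c 1)) * (y ^ 2 * z) +
    (k * (a 0 * b 2 * c 2 + a 2 * b 0 * c 2 + a 2 * b 2 * c 0)) * (x * z ^ 2) +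
    (k * (a 1 * b 2 * c 2 + a 2 * b 1 * c 2 + a 2 * b 2 * c 1)) * (y * z ^ 2) +
    (k * (a 0 * b 1 * c 2 + a 0 * b 2 * c 1 + a 1 * b 0 * c 2 + a 1 * b 2 * c 0 +
      a 2 * b 0 * c 1 + a 2 * b 1 * c 0)) * (x * y * z)
  unfold nfLin
  ring

theorem nf_mono (n0 n1 n2 : ℕ) (h : n0 + n1 + n2 = 3) (k : ℂ) (a b c : Fin 3 → ℂ) :
    ∃ d : Fin 10 → ℂ, ∀ x y z : ℂ,
      k * (nfLin a x y z ^ n0 * nfLin b x y z ^ n1 * nfLin c x y z ^ n2) = nfForm d x y z := by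
  have hc : (n0 = 3 ∧ n1 = 0 ∧ n2 = 0) ∨ (n0 = 0 ∧ n1 = 3 ∧ n2 = 0) ∨ (n0 = 0 ∧ n1 = 0 ∧ n2 = 3) ∨
      (n0 = 2 ∧ n1 = 1 ∧ n2 = 0) ∨ (n0 = 2 ∧ n1 = 0 ∧ n2 = 1) ∨ (n0 = 1 ∧ n1 = 2 ∧ n2 = 0) ∨
      (n0 = 0 ∧ n1 = 2 ∧ n2 = 1) ∨ (n0 = 1 ∧ n1 = 0 ∧ n2 = 2) ∨ (n0 = 0 ∧ n1 = 1 ∧ n2 = 2) ∨
      (n0 = 1 ∧ n1 = 1 ∧ n2 = 1) := by
    have h0 : n0 ≤ 3 := by omega
    have h1 : n1 ≤ 3 := by omega
    have h2 : n2 = 3 - n0 - n1 := by omega
    subst h2
    interval_cases n0 <;> interval_cases n1 <;> revert h <;> decide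
  rcases hc with ⟨rfl, rfl, rfl⟩ | ⟨rfl, rfl, rfl⟩ | ⟨rfl, rfl, rfl⟩ | ⟨rfl, rfl, rfl⟩ |
    ⟨rfl, rfl, rfl⟩ | ⟨rfl, rfl, rfl⟩ | ⟨rfl, rfl, rfl⟩ | ⟨rfl, rfl, rfl⟩ | ⟨rfl, rfl, rfl⟩ |
    ⟨rfl, rfl, rfl⟩
  · obtain ⟨d, hd⟩ := nf_lin3 k a a a
    exact ⟨d, fun x y z => by rw [← hd]; ring⟩
  · obtain ⟨d, hd⟩ := nf_lin3 k b b b
    exact ⟨d, fun x y z => by rw [← hd]; ring⟩
  · obtain ⟨d, hd⟩ := nf_lin3 k c c c
    exact ⟨d, fun x y z => by rw [← hd]; ring⟩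
  · obtain ⟨d, hd⟩ := nf_lin3 k a a b
    exact ⟨d, fun x y z => by rw [← hd]; ring⟩
  · obtain ⟨d, hd⟩ := nf_lin3 k a a c
    exact ⟨d, fun x y z => by rw [← hd]; ring⟩
  · obtain ⟨d, hd⟩ := nf_lin3 k a b b
    exact ⟨d, fun x y z => by rw [← hd]; ring⟩
  · obtain ⟨d, hd⟩ := nf_lin3 k b b c
    exact ⟨d, fun x y z => by rw [← hd]; ring⟩
  · obtain ⟨d, hd⟩ := nf_lin3 k a c c
    exact ⟨d, fun x y z => by rw [← hd]; ring⟩
  · obtain ⟨d, hd⟩ := nf_lin3 k b c c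
    exact ⟨d, fun x y z => by rw [← hd]; ring⟩
  · obtain ⟨d, hd⟩ := nf_lin3 k a b c
    exact ⟨d, fun x y z => by rw [← hd]; ring⟩

theorem nf_add (d e : Fin 10 → ℂ) (x y z : ℂ) :
    nfForm (d + e) x y z = nfForm d x y z + nfForm e x y z := by
  unfold nfForm
  simp only [Pi.add_apply]
  ring

theorem nf_cubic (F : Poly3) (hF : F.IsHomogeneous 3) (w p u : Fin 3 → ℂ) :
    ∃ d : Fin 10 → ℂ, ∀ x y z : ℂ, eval (x • w + y • p + z • u) F = nfForm d x y z := by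
  have key : ∀ s : Finset (Fin 3 →₀ ℕ), s ⊆ F.support → ∃ d : Fin 10 → ℂ, ∀ x y z : ℂ,
      ∑ m ∈ s, F.coeff m * ∏ i, (x • w + y • p + z • u) i ^ m i = nfForm d x y z := by
    intro s
    induction s using Finset.induction with
    | empty =>
      intro _
      refine ⟨0, fun x y z => ?_⟩
      simp [nfForm]
    | insert m s hm ih =>
      intro hs
      obtain ⟨d, hd⟩ := ih ((Finset.subset_insert _ _).trans hs)
      have hmF : m ∈ F.support := hs (Finset.mem_insert_self _ _)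
      have hdeg : m 0 + m 1 + m 2 = 3 := by
        have h1 := hF (mem_support_iff.1 hmF)
        rw [Finsupp.weight_apply, Finsupp.sum_fintype _ _ (by simp), Fin.sum_univ_three] at h1
        simpa using h1
      obtain ⟨e, he⟩ := nf_mono (m 0) (m 1) (m 2) hdeg (F.coeff m) ![w 0, p 0, u 0]
        ![w 1, p 1, u 1] ![w 2, p 2, u 2]
      refine ⟨e + d, fun x y z => ?_⟩
      rw [Finset.sum_insert hm, hd, nf_add, ← he, Fin.prod_univ_three]
      congr 2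
      simp only [Pi.add_apply, Pi.smul_apply, smul_eq_mul, nfLin, Matrix.cons_val_zero,
        Matrix.cons_val_one, Matrix.cons_val]
      rw [mul_comm x (w 0), mul_comm y (p 0), mul_comm z (u 0), mul_comm x (w 1),
        mul_comm y (p 1), mul_comm z (u 1), mul_comm x (w 2), mul_comm y (p 2), mul_comm z (u 2)]
  obtain ⟨d, hd⟩ := key F.support (Finset.Subset.refl _)
  refine ⟨d, fun x y z => ?_⟩
  rw [← hd, eval_eq']

theorem nf_det (w p u : Fin 3 → ℂ) (a b : ℂ) :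
    (Matrix.of (fun i j => ![a * w i, b * p i, u i] j) : Matrix (Fin 3) (Fin 3) ℂ).det =
      a * b * (crossProduct w p 0 * u 0 + crossProduct w p 1 * u 1 + crossProduct w p 2 * u 2) := by
  rw [Matrix.det_fin_three, cross_apply]
  simp
  ring

theorem nf_mulVec (w p u : Fin 3 → ℂ) (a b : ℂ) (X : Fin 3 → ℂ) :
    (Matrix.of (fun i j => ![a * w i, b * p i, u i] j) : Matrix (Fin 3) (Fin 3) ℂ).mulVec X =
      (a * X 0) • w + (b * X 1) • p + X 2 • u := by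
  funext i
  simp [Matrix.mulVec, dotProduct, Fin.sum_univ_three]
  ring

theorem nf_df_add (F : Poly3) (X v w : Fin 3 → ℂ) : df F X (v + w) = df F X v + df F X w := by
  unfold df
  simp only [Pi.add_apply, add_mul, Finset.sum_add_distrib]

theorem nf_df_smul (F : Poly3) (X v : Fin 3 → ℂ) (c : ℂ) : df F X (c • v) = c * df F X v := by
  unfold df
  simp only [Pi.smul_apply, smul_eq_mul, mul_assoc, Finset.mul_sum]

theorem nf_df_single (F : Poly3) (X : Fin 3 → ℂ) (i : Fin 3) :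
    df F X (Pi.single i 1) = eval X (pderiv i F) := by
  unfold df
  rw [Finset.sum_eq_single i]
  · simp
  · intro j _ hj
    simp [Pi.single_eq_of_ne hj]
  · intro h
    exact absurd (Finset.mem_univ i) h

/-- Proof.  Choose `u` such that `w, p, u` is a basis of `ℂ³` and let `N` be the matrix with the
columns `w, p, u`: `N (x, y, z) = x w + y p + z u`.  The form `F (N (x, y, z))` is for `z = 0` equal
to `x^3 F(w)` (`IsFlex`), so it is
`c x^3 + z (α y^2 + β x y + γ x^2 + z (δ y + ε x) + ζ z^2)`, `c = F(w) ≠ 0` by `NoLine`, and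
`α = df F p u ≠ 0`: the coefficient of `y^2 z`; the differential of `F` in `p` vanishes on `p` and
`w` (`IsFlex.tan`) but not identically.  Replace `x` by `λ x`, `y` by `μ y` with
`c λ^3 = -1`, `α μ^2 = 1` (`ℂ` is algebraically closed).  Then the form is
`y^2 z + a₁ x y z + a₃ y z^2 - x^3 - a₂ x^2 z - a₄ x z^2 - a₆ z^3`. -/
theorem normal_form (F : Poly3) (hF : F.IsHomogeneous 3) (hN : NoLine F) (p w : Fin 3 → ℂ)
    (h : IsFlex F p w) :
    ∃ (M : Matrix (Fin 3) (Fin 3) ℂ) (W : WeierstrassCurve.Affine ℂ), IsUnit M.det ∧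
      ∀ X : Fin 3 → ℂ, eval (M.mulVec X) F = wf W X := by
  -- the third basis vector
  have hind : LinearIndependent ℂ ![w, p] := by
    have h1 := h.ind
    rw [LinearIndependent.pair_iff] at h1 ⊢
    intro s t hst
    have := h1 t s (by rw [add_comm]; exact hst)
    exact ⟨this.2, this.1⟩
  have hcr : crossProduct w p ≠ 0 := crossProduct_ne_zero_iff_linearIndependent.2 hind
  obtain ⟨i, hi⟩ : ∃ i, crossProduct w p i ≠ 0 := by
    by_contra hc
    push Not at hc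
    exact hcr (funext hc)
  set u : Fin 3 → ℂ := Pi.single i 1 with hu
  have hdet : ∀ a b : ℂ,
      (Matrix.of (fun i j => ![a * w i, b * p i, u i] j) : Matrix (Fin 3) (Fin 3) ℂ).det =
        a * b * crossProduct w p i := by
    intro a b
    rw [nf_det]
    fin_cases i <;> simp [hu]
  obtain ⟨d, hd⟩ := nf_cubic F hF w p u
  -- the values for z = 0
  have hz : ∀ x y : ℂ, nfForm d x y 0 = x ^ 3 * eval w F := by
    intro x y
    rw [← hd, ← h.tan y x]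
    congr 2
    simp [add_comm]
  have z1 := hz 1 0
  have z2 := hz 0 1
  have z3 := hz 1 1
  have z4 := hz 1 (-1)
  unfold nfForm at z1 z2 z3 z4
  have d0 : d 0 = eval w F := by linear_combination z1
  have d1 : d 1 = 0 := by linear_combination z2
  have d3 : d 3 = 0 := by linear_combination (1 / 2) * z3 - (1 / 2) * z4 - d1
  have d5 : d 5 = 0 := by linear_combination (1 / 2) * z3 + (1 / 2) * z4 - d0
  have hFw : eval w F ≠ 0 := by
    obtain ⟨s, t, hst⟩ := hN p w h.ind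
    rw [h.tan s t] at hst
    exact right_ne_zero_of_mul hst
  have hFp : eval p F = 0 := by
    have := h.tan 1 0
    simpa using this
  -- the coefficient of `y ^ 2 z`
  have hdw : df F p w = 0 := by
    obtain ⟨q, hq⟩ := taylor F hF p w
    have e1 := hq 1
    have e2 := hq (-1)
    have f1 := h.tan 1 1
    have f2 := h.tan 1 (-1)
    rw [one_smul] at f1 f2
    rw [f1, hFp] at e1
    rw [f2, hFp] at e2
    linear_combination (1 / 2) * e2 - (1 / 2) * e1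
  have hdp : df F p p = 0 := by rw [euler F hF p, hFp, mul_zero]
  have hdu : df F p u = d 6 := by
    obtain ⟨q, hq⟩ := taylor F hF p u
    have g : ∀ t : ℂ, eval (p + t • u) F = nfForm d 0 1 t := by
      intro t
      rw [← hd]
      congr 2
      simp
    have e1 := hq 1
    have e2 := hq (-1)
    have e3 := hq 2
    rw [g, hFp] at e1 e2 e3
    unfold nfForm at e1 e2 e3
    have k1 : eval u F = d 2 := by
      have := hd 0 0 1
      unfold nfForm at this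
      have e : (0 : ℂ) • w + (0 : ℂ) • p + (1 : ℂ) • u = u := by simp
      rw [e] at this
      linear_combination this
    rw [k1] at e1 e2 e3
    linear_combination (1 / 2) * e2 - (1 / 2) * e1
  have hd6 : d 6 ≠ 0 := by
    intro h6
    rw [h6] at hdu
    -- every vector is a combination of `w`, `p`, `u`
    obtain ⟨j, hj⟩ := h.ns
    apply hj
    rw [← nf_df_single]
    have hunit : IsUnit (Matrix.of (fun i j => ![1 * w i, 1 * p i, u i] j) :
        Matrix (Fin 3) (Fin 3) ℂ).det := by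
      rw [hdet, isUnit_iff_ne_zero]
      simpa using hi
    obtain ⟨X, hX⟩ := (Matrix.mulVec_surjective_iff_isUnit.2
      ((Matrix.isUnit_iff_isUnit_det _).2 hunit)) (Pi.single j 1)
    rw [nf_mulVec] at hX
    rw [← hX, nf_df_add, nf_df_add, nf_df_smul, nf_df_smul, nf_df_smul, hdw, hdp, hdu]
    ring
  -- scaling
  obtain ⟨a, ha⟩ := IsAlgClosed.exists_pow_nat_eq (-(eval w F)⁻¹) (n := 3) (by norm_num)
  obtain ⟨b, hb⟩ := IsAlgClosed.exists_pow_nat_eq ((d 6)⁻¹) (n := 2) (by norm_num)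
  have ha0 : a ≠ 0 := by
    rintro rfl
    rw [zero_pow (by norm_num)] at ha
    exact neg_ne_zero.2 (inv_ne_zero hFw) ha.symm
  have hb0 : b ≠ 0 := by
    rintro rfl
    rw [zero_pow (by norm_num)] at hb
    exact inv_ne_zero hd6 hb.symm
  refine ⟨Matrix.of (fun i j => ![a * w i, b * p i, u i] j),
    ⟨d 9 * a * b, -(d 4 * a ^ 2), d 8 * b, -(d 7 * a), -(d 2)⟩, ?_, ?_⟩
  · rw [hdet, isUnit_iff_ne_zero]
    exact mul_ne_zero (mul_ne_zero ha0 hb0) hi
  · intro X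
    rw [nf_mulVec, hd]
    have e1 : d 0 * a ^ 3 = -1 := by
      rw [d0, ha]
      field_simp
    have e2 : d 6 * b ^ 2 = 1 := by
      rw [hb]
      field_simp
    unfold nfForm wf
    rw [d1, d3, d5]
    linear_combination X 0 ^ 3 * e1 + X 1 ^ 2 * X 2 * e2

end Pool.Agent.Lib.MP_214199_co.Eff
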