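import Pool.Agent.Lib.MP_214199_co.Eff.Base

/-!
# Ordinary lines through a point
-/

set_option autoImplicit false

namespace Pool.Agent.Lib.MP_214199_co.Eff

open Finset

open Classical in
/-- the number of the blocks through `a` with exactly two points -/
noncomputable def ord (S : Finset Pt) (a : Pt) : ℕ :=
  ((verts S).filter (fun v => (blk S v).card = 2 ∧ a ∈ blk S v)).card

/-- Proof.  Double counting: the sum is twice the number of blocks with two points, and `wt 2 = 1`. -/
theorem ord_sum (S : Finset Pt) : ∑ a ∈ S, ord S a ≤ 2 * dfc S := by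
  classical
  unfold ord dfc
  simp_rw [Finset.card_filter]
  rw [Finset.sum_comm, Finset.mul_sum]
  apply Finset.sum_le_sum
  intro v _
  by_cases h : (blk S v).card = 2
  · simp only [h, true_and]
    rw [← Finset.sum_filter, Finset.sum_const, smul_eq_mul, mul_one]
    have h2 : S.filter (fun a => a ∈ blk S v) = blk S v := by
      ext a
      rw [Finset.mem_filter]
      exact ⟨fun h => h.2, fun h => ⟨blk_subset v h, h⟩⟩
    rw [h2, h]
    simp [wt]
  · simp [h]

/-- Proof.  Markov's inequality. -/
theorem ord_many (S : Finset Pt) (k : ℕ) :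
    (S.filter (fun a => k < ord S a)).card * (k + 1) ≤ 2 * dfc S := by
  refine le_trans ?_ (ord_sum S)
  calc (S.filter (fun a => k < ord S a)).card * (k + 1)
      = ∑ _a ∈ S.filter (fun a => k < ord S a), (k + 1) := by
        rw [Finset.sum_const, smul_eq_mul]
    _ ≤ ∑ a ∈ S.filter (fun a => k < ord S a), ord S a := by
        apply Finset.sum_le_sum
        intro a ha
        exact (Finset.mem_filter.1 ha).2
    _ ≤ ∑ a ∈ S, ord S a :=
        Finset.sum_le_sum_of_subset (Finset.filter_subset _ _)

end Pool.Agent.Lib.MP_214199_co.Eff
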