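import Pool.Agent.Lib.MP_214199_co.Eff.Homog
import Pool.Agent.Lib.MP_214199_co.Eff.Flex
import Pool.Agent.Lib.MP_214199_co.Eff.Normal
import Pool.Agent.Lib.MP_214199_co.Eff.DfMul

/-!
# Parametrisation of the nonsingular points of a cubic by the points of a Weierstrass curve
-/

set_option autoImplicit false

namespace Pool.Agent.Lib.MP_214199_co.Eff

open MvPolynomial

/-- `θ a` is the point of the Weierstrass curve `W` that belongs to the nonsingular zero `a` of
`f`. -/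
structure Par (f : Poly) (F : Poly3) (M : Matrix (Fin 3) (Fin 3) ℂ)
    (W : WeierstrassCurve.Affine ℂ) (θ : (Fin 2 → ℂ) → W.Point) : Prop where
  homog : F.IsHomogeneous 3
  ev : ∀ a : Fin 2 → ℂ, eval ![a 0, a 1, 1] F = eval a f
  ev0 : ∀ a : Fin 2 → ℂ, eval ![a 0, a 1, 1] (pderiv 0 F) = eval a (pderiv 0 f)
  ev1 : ∀ a : Fin 2 → ℂ, eval ![a 0, a 1, 1] (pderiv 1 F) = eval a (pderiv 1 f)
  det : IsUnit M.det
  mul : ∀ X : Fin 3 → ℂ, eval (M.mulVec X) F = wf W X
  lift : ∀ a, NS f a → ∃ c : ℂ, c ≠ 0 ∧ ![a 0, a 1, 1] = c • M.mulVec (vec (θ a))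

/-- Proof.  `F` from `exists_homog`, a flex from `exists_flex`, `M`, `W` from `normal_form`.  If
`NS f a` then `X = M⁻¹ ![a 0, a 1, 1]` is a nonsingular zero of `wf W`: by `df_mulVec`
`dwf W X w = df F ![a 0, a 1, 1] (M w)`, and this is not `0` for `M w = ![1, 0, 0]` or
`M w = ![0, 1, 0]`.  So by `exists_vec` `X = c • vec P`; choose `θ a := P` (and `θ a := 0` if not
`NS f a`). -/
theorem exists_par (f : Poly) (hf : Irreducible f) (h3 : f.totalDegree = 3) :
    ∃ (F : Poly3) (M : Matrix (Fin 3) (Fin 3) ℂ) (W : WeierstrassCurve.Affine ℂ)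
      (θ : (Fin 2 → ℂ) → W.Point), Par f F M W θ := by
  classical
  obtain ⟨F, hF, hN, hev, h0, h1⟩ := exists_homog f hf h3
  obtain ⟨p, w, hflex⟩ := exists_flex F hF hN
  obtain ⟨M, W, hdet, hmul⟩ := normal_form F hF hN p w hflex
  have hM : ∀ Y : Fin 3 → ℂ, M.mulVec (M⁻¹.mulVec Y) = Y := by
    intro Y
    rw [Matrix.mulVec_mulVec, Matrix.mul_nonsing_inv M hdet, Matrix.one_mulVec]
  have key : ∀ a, NS f a → ∃ P : W.Point, ∃ c : ℂ, c ≠ 0 ∧
      ![a 0, a 1, 1] = c • M.mulVec (vec P) := by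
    intro a ha
    have hX := hM ![a 0, a 1, 1]
    have hX0 : M⁻¹.mulVec ![a 0, a 1, 1] ≠ 0 := by
      intro hcon
      rw [hcon, Matrix.mulVec_zero] at hX
      have := congrFun hX 2
      simp at this
    have hw0 : wf W (M⁻¹.mulVec ![a 0, a 1, 1]) = 0 := by
      rw [← hmul, hX, hev]
      exact ha.1
    have hd : ∀ i : Fin 3, dwf W (M⁻¹.mulVec ![a 0, a 1, 1]) (M⁻¹.mulVec (Pi.single i 1)) =
        eval ![a 0, a 1, 1] (pderiv i F) := by
      intro i
      rw [← df_mulVec F hF M W hmul, hM, hM]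
      unfold df
      rw [Finset.sum_eq_single i]
      · simp
      · intro j _ hj
        simp [Pi.single_eq_of_ne hj]
      · intro h
        exact absurd (Finset.mem_univ i) h
    have hw1 : ∃ w, dwf W (M⁻¹.mulVec ![a 0, a 1, 1]) w ≠ 0 := by
      rcases ha.2 with h | h
      · exact ⟨_, by rw [hd 0, h0]; exact h⟩
      · exact ⟨_, by rw [hd 1, h1]; exact h⟩
    obtain ⟨P, c, hc, hP⟩ := exists_vec _ hX0 hw0 hw1
    refine ⟨P, c, hc, ?_⟩
    rw [← Matrix.mulVec_smul, ← hP, hX]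
  refine ⟨F, M, W, fun a => if h : NS f a then (key a h).choose else 0,
    hF, hev, h0, h1, hdet, hmul, ?_⟩
  intro a ha
  rw [dif_pos ha]
  exact (key a ha).choose_spec

end Pool.Agent.Lib.MP_214199_co.Eff
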