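import Pool.Agent.Lib.MP_214199_co.Eff.Weier

/-!
# Three points with sum 0 are collinear
-/

set_option autoImplicit false

namespace Pool.Agent.Lib.MP_214199_co.Eff

open WeierstrassCurve

/-- Three points with sum 0 are collinear.
Proof.  Cases: a zero among them (then the others are opposite points with the same abscissa, or
zero), all three affine: `R = -(P + Q)`; `P = -Q` is impossible (`R = 0`), so
`add_some`: `P + Q` has the coordinates `addX`, `addY`, and `R = (addX, negAddY)` lies on the line of
slope `W.slope` through `P` (and `Q`).  If two of the three are equal the determinant vanishes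
anyway. -/
theorem det_of_sum {W : Affine ℂ} (P Q R : W.Point) (h : P + Q + R = 0) :
    Matrix.det ![vec P, vec Q, vec R] = 0 := by
  have hR : R = -(P + Q) := (neg_eq_of_add_eq_zero_right h).symm
  subst hR
  rcases P with _ | ⟨x₁, y₁, h₁⟩
  · rw [show (Affine.Point.zero : W.Point) = 0 from rfl, zero_add]
    rcases Q with _ | ⟨x₂, y₂, h₂⟩
    · rw [show (Affine.Point.zero : W.Point) = 0 from rfl, neg_zero, vec_zero, Matrix.det_fin_three]
      simp
    · rw [Affine.Point.neg_some, vec_zero, vec_some, vec_some, Matrix.det_fin_three]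
      simp
  · rcases Q with _ | ⟨x₂, y₂, h₂⟩
    · rw [show (Affine.Point.zero : W.Point) = 0 from rfl, add_zero, Affine.Point.neg_some,
        vec_zero, vec_some, vec_some, Matrix.det_fin_three]
      simp
    · by_cases hxy : x₁ = x₂ ∧ y₁ = W.negY x₂ y₂
      · rw [Affine.Point.add_of_Y_eq hxy.1 hxy.2, neg_zero, vec_zero, vec_some, vec_some,
          Matrix.det_fin_three, hxy.1]
        simp
      · rw [Affine.Point.add_some hxy, Affine.Point.neg_some, vec_some, vec_some, vec_some,
          Matrix.det_fin_three]
        have h3 : W.negY (W.addX x₁ x₂ (W.slope x₁ x₂ y₁ y₂))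
            (W.addY x₁ x₂ y₁ (W.slope x₁ x₂ y₁ y₂)) =
            W.slope x₁ x₂ y₁ y₂ * (W.addX x₁ x₂ (W.slope x₁ x₂ y₁ y₂) - x₁) + y₁ := by
          unfold Affine.addY
          rw [Affine.negY_negY]
          rfl
        have h4 : (x₂ - x₁) * W.slope x₁ x₂ y₁ y₂ = y₂ - y₁ := by
          by_cases hx : x₁ = x₂
          · have hy : y₁ ≠ W.negY x₂ y₂ := fun h5 => hxy ⟨hx, h5⟩
            rw [Affine.Y_eq_of_Y_ne h₁.1 h₂.1 hx hy, hx]
            ring
          · rw [Affine.slope_of_X_ne hx]
            have : x₁ - x₂ ≠ 0 := sub_ne_zero.2 hx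
            field_simp
            ring
        rw [h3]
        generalize W.addX x₁ x₂ (W.slope x₁ x₂ y₁ y₂) = X at *
        generalize W.slope x₁ x₂ y₁ y₂ = l at *
        simp
        linear_combination (X - x₁) * h4

end Pool.Agent.Lib.MP_214199_co.Eff
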