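import Pool.Agent.Lib.MP_214199_co.Eff.Weier

/-!
# Three different collinear points have sum 0
-/

set_option autoImplicit false

namespace Pool.Agent.Lib.MP_214199_co.Eff

open WeierstrassCurve

/-- Two different affine points with the same abscissa are opposite. -/
theorem weierSum_opp {W : Affine ℂ} {x₁ y₁ x₂ y₂ : ℂ} (h₁ : W.Nonsingular x₁ y₁)
    (h₂ : W.Nonsingular x₂ y₂)
    (hne : Affine.Point.some x₁ y₁ h₁ ≠ Affine.Point.some x₂ y₂ h₂) (hx : x₁ = x₂) :
    Affine.Point.some x₁ y₁ h₁ + Affine.Point.some x₂ y₂ h₂ = 0 := by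
  subst hx
  rcases Affine.Y_eq_of_X_eq h₁.1 h₂.1 rfl with h | h
  · subst h
    exact absurd rfl hne
  · exact Affine.Point.add_of_Y_eq rfl h

theorem weierSum_add {W : Affine ℂ} {x₁ y₁ x₂ y₂ x₃ y₃ : ℂ} (h₁ : W.Nonsingular x₁ y₁)
    (h₂ : W.Nonsingular x₂ y₂) (h₃ : W.Nonsingular x₃ y₃) (h12 : x₁ ≠ x₂) (h13 : x₁ ≠ x₃)
    (h23 : x₂ ≠ x₃) (hdet : (y₁ - y₂) * (x₃ - x₁) = (x₁ - x₂) * (y₃ - y₁)) :
    Affine.Point.some x₁ y₁ h₁ + Affine.Point.some x₂ y₂ h₂ + Affine.Point.some x₃ y₃ h₃ = 0 := by
  have d12 : x₁ - x₂ ≠ 0 := sub_ne_zero.2 h12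
  have d13 : x₁ - x₃ ≠ 0 := sub_ne_zero.2 h13
  have d23 : x₂ - x₃ ≠ 0 := sub_ne_zero.2 h23
  obtain ⟨l, hl⟩ : ∃ l, l = (y₁ - y₂) / (x₁ - x₂) := ⟨_, rfl⟩
  have hl1 : l * (x₁ - x₂) = y₁ - y₂ := by
    rw [hl]
    field_simp
  have e2 : y₂ = l * (x₂ - x₁) + y₁ := by linear_combination hl1
  have e3 : y₃ = l * (x₃ - x₁) + y₁ := by
    have : (x₁ - x₂) * (y₃ - (l * (x₃ - x₁) + y₁)) = 0 := by
      linear_combination -hdet - (x₃ - x₁) * hl1
    rcases mul_eq_zero.1 this with h | h
    · exact absurd h d12
    · exact sub_eq_zero.1 h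
  have q1 := (Affine.equation_iff _ _).1 h₁.1
  have q2 := (Affine.equation_iff _ _).1 h₂.1
  have q3 := (Affine.equation_iff _ _).1 h₃.1
  have hx : x₃ = W.addX x₁ x₂ l := by
    have f12 : (x₁ - x₂) * (x₁ ^ 2 + x₁ * x₂ + x₂ ^ 2 + (W.a₂ - l ^ 2 - W.a₁ * l) * (x₁ + x₂) +
        (W.a₄ - 2 * l * (y₁ - l * x₁) - W.a₁ * (y₁ - l * x₁) - W.a₃ * l)) = 0 := by
      rw [e2] at q2
      linear_combination q2 - q1
    have f13 : (x₁ - x₃) * (x₁ ^ 2 + x₁ * x₃ + x₃ ^ 2 + (W.a₂ - l ^ 2 - W.a₁ * l) * (x₁ + x₃) +
        (W.a₄ - 2 * l * (y₁ - l * x₁) - W.a₁ * (y₁ - l * x₁) - W.a₃ * l)) = 0 := by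
      rw [e3] at q3
      linear_combination q3 - q1
    have g12 := (mul_eq_zero.1 f12).resolve_left d12
    have g13 := (mul_eq_zero.1 f13).resolve_left d13
    have g : (x₂ - x₃) * (x₁ + x₂ + x₃ + (W.a₂ - l ^ 2 - W.a₁ * l)) = 0 := by
      linear_combination g12 - g13
    have g' := (mul_eq_zero.1 g).resolve_left d23
    unfold Affine.addX
    linear_combination g'
  rw [Affine.Point.add_of_X_ne' h12, neg_add_eq_zero]
  have hs : W.slope x₁ x₂ y₁ y₂ = l := by
    rw [Affine.slope_of_X_ne h12, hl]
  simp only [Affine.Point.some.injEq]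
  rw [hs]
  refine ⟨hx.symm, ?_⟩
  unfold Affine.negAddY
  rw [← hx, e3]

/-- Three different collinear points have sum 0.
Proof.  If one of them is `0`, the other two have the same abscissa and are different, so they are
opposite.  All affine, `P = (x₁, y₁)`, `Q = (x₂, y₂)`, `R = (x₃, y₃)`.  If `x₁ = x₂` the line is
vertical and contains at most two affine points: all three would satisfy the quadratic equation for
`y` (contradiction).  Otherwise the line is `y = l (x - x₁) + y₁`, `l = W.slope x₁ x₂ y₁ y₂`, and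
`x₁, x₂, x₃` (pairwise different) and `x₁, x₂, W.addX x₁ x₂ l` are the zeros of the same cubic
polynomial; so `x₃ = addX` and `R` is the point `(addX, negAddY)`, `R = -(P + Q)`. -/
theorem sum_of_det {W : Affine ℂ} {P Q R : W.Point} (h1 : P ≠ Q) (h2 : P ≠ R) (h3 : Q ≠ R)
    (h : Matrix.det ![vec P, vec Q, vec R] = 0) : P + Q + R = 0 := by
  rw [Matrix.det_fin_three] at h
  rcases P with _ | ⟨x₁, y₁, n1⟩
  · rcases Q with _ | ⟨x₂, y₂, n2⟩
    · exact absurd rfl h1
    · rcases R with _ | ⟨x₃, y₃, n3⟩
      · exact absurd rfl h2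
      · simp only [vec, Matrix.cons_val, Matrix.cons_val_zero, Matrix.cons_val_one] at h
        have hx : x₂ = x₃ := by linear_combination -h
        have := weierSum_opp n2 n3 h3 hx
        change (0 : W.Point) + _ + _ = 0
        rw [zero_add, this]
  · rcases Q with _ | ⟨x₂, y₂, n2⟩
    · rcases R with _ | ⟨x₃, y₃, n3⟩
      · exact absurd rfl h3
      · simp only [vec, Matrix.cons_val, Matrix.cons_val_zero, Matrix.cons_val_one] at h
        have hx : x₁ = x₃ := by linear_combination h
        have := weierSum_opp n1 n3 h2 hx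
        change _ + (0 : W.Point) + _ = 0
        rw [add_zero, this]
    · rcases R with _ | ⟨x₃, y₃, n3⟩
      · simp only [vec, Matrix.cons_val, Matrix.cons_val_zero, Matrix.cons_val_one] at h
        have hx : x₁ = x₂ := by linear_combination -h
        have := weierSum_opp n1 n2 h1 hx
        change _ + _ + (0 : W.Point) = 0
        rw [add_zero, this]
      · simp only [vec, Matrix.cons_val, Matrix.cons_val_zero, Matrix.cons_val_one] at h
        have hdet : (y₁ - y₂) * (x₃ - x₁) = (x₁ - x₂) * (y₃ - y₁) := by linear_combination h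
        have hlast : x₁ = x₂ → False := by
          intro hx
          subst hx
          rcases Affine.Y_eq_of_X_eq n1.1 n2.1 rfl with hy | hy
          · subst hy
            exact h1 rfl
          · have hyne : y₁ ≠ y₂ := by
              rintro rfl
              exact h1 rfl
            have h13 : x₁ = x₃ := by
              have : (y₁ - y₂) * (x₃ - x₁) = 0 := by rw [hdet, sub_self, zero_mul]
              rcases mul_eq_zero.1 this with h' | h'
              · exact absurd (sub_eq_zero.1 h') hyne
              · exact (sub_eq_zero.1 h').symm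
            subst h13
            rcases Affine.Y_eq_of_X_eq n1.1 n3.1 rfl with hz | hz
            · subst hz
              exact h2 rfl
            · have : y₂ = y₃ := by
                have h' : W.negY x₁ y₂ = W.negY x₁ y₃ := hy.symm.trans hz
                rw [← Affine.negY_negY (W' := W) x₁ y₂, h', Affine.negY_negY]
              subst this
              exact h3 rfl
        have h12 : x₁ ≠ x₂ := hlast
        have h13 : x₁ ≠ x₃ := by
          intro hx
          subst hx
          have : (x₁ - x₂) * (y₃ - y₁) = 0 := by rw [← hdet, sub_self, mul_zero]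
          rcases mul_eq_zero.1 this with h' | h'
          · exact h12 (sub_eq_zero.1 h')
          · have := sub_eq_zero.1 h'
            subst this
            exact h2 rfl
        have h23 : x₂ ≠ x₃ := by
          intro hx
          subst hx
          have : (x₁ - x₂) * (y₃ - y₂) = 0 := by linear_combination -hdet
          rcases mul_eq_zero.1 this with h' | h'
          · exact h12 (sub_eq_zero.1 h')
          · have := sub_eq_zero.1 h'
            subst this
            exact h3 rfl
        exact weierSum_add n1 n2 n3 h12 h13 h23 hdet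

end Pool.Agent.Lib.MP_214199_co.Eff
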