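import Pool.Agent.Lib.MP_214199_co.Eff.Par
import Pool.Agent.Lib.MP_214199_co.Eff.WeierDet
import Pool.Agent.Lib.MP_214199_co.Eff.WeierSum

/-!
# Injectivity and collinearity
-/

set_option autoImplicit false

namespace Pool.Agent.Lib.MP_214199_co.Eff

open MvPolynomial

variable {f : Poly} {F : Poly3} {M : Matrix (Fin 3) (Fin 3) ℂ} {W : WeierstrassCurve.Affine ℂ}
  {θ : (Fin 2 → ℂ) → W.Point}

/-- The determinant of three lifted points. -/
private lemma parcol_det (M : Matrix (Fin 3) (Fin 3) ℂ) (a b c : Fin 2 → ℂ)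
    (u v w : Fin 3 → ℂ) (x y z : ℂ)
    (ha : ![a 0, a 1, 1] = x • M.mulVec u) (hb : ![b 0, b 1, 1] = y • M.mulVec v)
    (hc : ![c 0, c 1, 1] = z • M.mulVec w) :
    det3c a b c = x * y * z * M.det * Matrix.det ![u, v, w] := by
  have h1 : det3c a b c = Matrix.det ![![a 0, a 1, 1], ![b 0, b 1, 1], ![c 0, c 1, 1]] := by
    rw [Matrix.det_fin_three]
    simp [det3c]
    ring
  have h2 : (![![a 0, a 1, 1], ![b 0, b 1, 1], ![c 0, c 1, 1]] : Matrix (Fin 3) (Fin 3) ℂ) =
      Matrix.diagonal ![x, y, z] * ((Matrix.of ![u, v, w]) * M.transpose) := by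
    rw [ha, hb, hc]
    ext i j
    rw [Matrix.diagonal_mul, Matrix.mul_apply]
    fin_cases i <;> simp [Matrix.mulVec, dotProduct, mul_comm]
  rw [h1, h2, Matrix.det_mul, Matrix.det_mul, Matrix.det_transpose, Matrix.det_diagonal,
    Fin.prod_univ_three]
  change x * y * z * (Matrix.det ![u, v, w] * M.det) = _
  ring

/-- Proof.  `![a 0, a 1, 1]` and `![b 0, b 1, 1]` are proportional, the third coordinates are equal. -/
theorem par_inj (h : Par f F M W θ) (a b : Fin 2 → ℂ) (ha : NS f a) (hb : NS f b)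
    (hab : θ a = θ b) : a = b := by
  obtain ⟨x, hx, h1⟩ := h.lift a ha
  obtain ⟨y, hy, h2⟩ := h.lift b hb
  rw [hab] at h1
  have e1 : ∀ i, (![a 0, a 1, 1] : Fin 3 → ℂ) i = x * M.mulVec (vec (θ b)) i := by
    intro i
    rw [h1]
    rfl
  have e2 : ∀ i, (![b 0, b 1, 1] : Fin 3 → ℂ) i = y * M.mulVec (vec (θ b)) i := by
    intro i
    rw [h2]
    rfl
  have a2 := e1 2
  have b2 := e2 2
  simp only [Matrix.cons_val] at a2 b2
  have hne : M.mulVec (vec (θ b)) 2 ≠ 0 := by
    intro h0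
    rw [h0, mul_zero] at a2
    exact one_ne_zero a2
  have hxy : x = y := by
    have : x * M.mulVec (vec (θ b)) 2 = y * M.mulVec (vec (θ b)) 2 := a2.symm.trans b2
    exact mul_right_cancel₀ hne this
  have a0 := e1 0
  have b0 := e2 0
  have a1 := e1 1
  have b1 := e2 1
  simp only [Matrix.cons_val] at a0 b0 a1 b1
  funext i
  fin_cases i
  · change a 0 = b 0
    rw [a0, b0, hxy]
  · change a 1 = b 1
    rw [a1, b1, hxy]

/-- Proof.  `Col a b c` means that the determinant of the rows `![a 0, a 1, 1]`, ... is `0`, which is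
up to nonzero factors (`lift`, `det M`) the determinant of `vec (θ a)`, `vec (θ b)`, `vec (θ c)`;
`sum_of_det` (the `θ`'s are different by `par_inj`), `det_of_sum`. -/
theorem par_col (h : Par f F M W θ) (a b c : Fin 2 → ℂ) (ha : NS f a) (hb : NS f b) (hc : NS f c)
    (hab : a ≠ b) (hac : a ≠ c) (hbc : b ≠ c) : Col a b c ↔ θ a + θ b + θ c = 0 := by
  obtain ⟨x, hx, h1⟩ := h.lift a ha
  obtain ⟨y, hy, h2⟩ := h.lift b hb
  obtain ⟨z, hz, h3⟩ := h.lift c hc
  have hdet := parcol_det M a b c _ _ _ x y z h1 h2 h3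
  have hM : M.det ≠ 0 := h.det.ne_zero
  unfold Col
  rw [hdet]
  constructor
  · intro h0
    have h4 : Matrix.det ![vec (θ a), vec (θ b), vec (θ c)] = 0 := by
      rcases mul_eq_zero.1 h0 with h5 | h5
      · exact absurd h5 (mul_ne_zero (mul_ne_zero (mul_ne_zero hx hy) hz) hM)
      · exact h5
    exact sum_of_det (fun e => hab (par_inj h a b ha hb e)) (fun e => hac (par_inj h a c ha hc e))
      (fun e => hbc (par_inj h b c hb hc e)) h4
  · intro h0
    rw [det_of_sum _ _ _ h0, mul_zero]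

end Pool.Agent.Lib.MP_214199_co.Eff
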