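import Pool.Agent.Lib.MP_214199_co.Eff.Weier

/-!
# The tangent
-/

set_option autoImplicit false

namespace Pool.Agent.Lib.MP_214199_co.Eff

open WeierstrassCurve

/-- The tangent.
Proof.  `P = 0` gives `Q = 0 = P`, excluded.  `Q = 0`: `P + P = 0`, so `y = negY x y`, that is
`2 y + a₁ x + a₃ = 0`, which is the claim.  Both affine: `Q = -(P + P)`, `y ≠ negY`, `Q` has the
coordinates `addX x x l`, `negAddY`, `l = W.slope x x y y` the slope of the tangent
(`slope_of_Y_ne`), so `y_Q - y = l (x_Q - x)` and
`l (2 y + a₁ x + a₃) = 3 x^2 + 2 a₂ x + a₄ - a₁ y`; use `dwf W (vec P) (vec P) = 3 wf = 0`. -/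
theorem tan_of_sum {W : Affine ℂ} {P Q : W.Point} (h : P ≠ Q) (h0 : P + P + Q = 0) :
    dwf W (vec P) (vec Q) = 0 := by
  rcases P with _ | ⟨x, y, hP⟩
  · exfalso
    apply h
    have e : (0 : W.Point) + 0 + Q = 0 := h0
    rw [add_zero, zero_add] at e
    exact e.symm
  · by_cases hy : y = W.negY x y
    · have e : Affine.Point.some x y hP + Affine.Point.some x y hP = 0 :=
        Affine.Point.add_self_of_Y_eq hy
      rw [e, zero_add] at h0
      subst h0
      have hy' : y = -y - W.a₁ * x - W.a₃ := hy
      rw [vec_zero, vec_some]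
      simp only [dwf, Matrix.cons_val_zero, Matrix.cons_val_one, Matrix.cons_val]
      linear_combination hy'
    · have e := Affine.Point.add_self_of_Y_ne' (h₁ := hP) hy
      have hQ : Q = Affine.Point.some _ _
          (Affine.nonsingular_negAdd hP hP fun hxy => hy hxy.right) := by
        have e2 := eq_neg_of_add_eq_zero_right h0
        rw [e2, e, neg_neg]
      have hD : y - W.negY x y ≠ 0 := sub_ne_zero.2 hy
      have hl : W.slope x x y y * (y - W.negY x y) =
          3 * x ^ 2 + 2 * W.a₂ * x + W.a₄ - W.a₁ * y := by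
        rw [Affine.slope_of_Y_ne rfl hy, div_mul_cancel₀ _ hD]
      have hE := (Affine.equation_iff x y).1 hP.1
      rw [hQ, vec_some, vec_some]
      simp only [Affine.negY] at hl
      clear e hQ
      simp only [dwf, Affine.negAddY, Matrix.cons_val_zero, Matrix.cons_val_one,
        Matrix.cons_val]
      generalize W.addX x x (W.slope x x y y) = X
      generalize W.slope x x y y = l at hl ⊢
      linear_combination 3 * hE + (X - x) * hl

end Pool.Agent.Lib.MP_214199_co.Eff
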