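import Pool.Agent.Lib.MP_214199_co.Eff.ParCol
import Pool.Agent.Lib.MP_214199_co.Eff.WeierTan

/-!
# Tangents
-/

set_option autoImplicit false

namespace Pool.Agent.Lib.MP_214199_co.Eff

open MvPolynomial

variable {f : Poly} {F : Poly3} {M : Matrix (Fin 3) (Fin 3) ℂ} {W : WeierstrassCurve.Affine ℂ}
  {θ : (Fin 2 → ℂ) → W.Point}

theorem partan_eval_smul {G : Poly3} {n : ℕ} (hG : G.IsHomogeneous n) (c : ℂ) (X : Fin 3 → ℂ) :
    eval (c • X) G = c ^ n * eval X G := by
  rw [eval_eq, eval_eq, Finset.mul_sum]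
  apply Finset.sum_congr rfl
  intro d hd
  have hdeg : ∑ i ∈ d.support, d i = n := by
    have h1 := hG (mem_support_iff.1 hd)
    rw [Finsupp.weight_apply, Finsupp.sum] at h1
    rw [← h1]
    apply Finset.sum_congr rfl
    intro i _
    simp
  have h2 : ∏ i ∈ d.support, (c • X) i ^ d i = c ^ n * ∏ i ∈ d.support, X i ^ d i := by
    simp only [Pi.smul_apply, smul_eq_mul, mul_pow]
    rw [Finset.prod_mul_distrib, Finset.prod_pow_eq_pow_sum, hdeg]
  rw [h2]
  ring

theorem partan_df_smul {F : Poly3} (hF : F.IsHomogeneous 3) (c c' : ℂ) (X Y : Fin 3 → ℂ) :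
    df F (c • X) (c' • Y) = c ^ 2 * c' * df F X Y := by
  unfold df
  rw [Finset.mul_sum]
  apply Finset.sum_congr rfl
  intro i _
  rw [partan_eval_smul (hF.pderiv (i := i))]
  simp only [Pi.smul_apply, smul_eq_mul]
  ring

/-- Proof.  `A = ![a 0, a 1, 1] = c • M (vec (θ a))`, `B = ![b 0, b 1, 1] = c' • M (vec (θ b))`.
`tan_of_sum` (`θ a ≠ θ b` by `par_inj`): `0 = dwf W (vec (θ a)) (vec (θ b)) =
df F (M (vec (θ a))) (M (vec (θ b)))` (`df_mulVec`); `df F` is homogeneous of degree 2 in the first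
and linear in the second argument, so `df F A B = 0`.  By `euler` `df F A A = 3 F(A) = 3 f(a) = 0`.
So `df F A (B - A) = 0`, and the third coordinate of `B - A` is `0`: this is `dr f a (b - a)`. -/
theorem par_tan (h : Par f F M W θ) (a b : Fin 2 → ℂ) (ha : NS f a) (hb : NS f b) (hab : a ≠ b)
    (h0 : θ a + θ a + θ b = 0) : dr f a (b - a) = 0 := by
  obtain ⟨c, hc, hA⟩ := h.lift a ha
  obtain ⟨c', hc', hB⟩ := h.lift b hb
  have hne : θ a ≠ θ b := fun he => hab (par_inj h a b ha hb he)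
  have h1 : df F (M.mulVec (vec (θ a))) (M.mulVec (vec (θ b))) = 0 := by
    rw [df_mulVec F h.homog M W h.mul]
    exact tan_of_sum hne h0
  have h2 : df F ![a 0, a 1, 1] ![b 0, b 1, 1] = 0 := by
    rw [hA, hB, partan_df_smul h.homog, h1, mul_zero]
  have h3 : df F ![a 0, a 1, 1] ![a 0, a 1, 1] = 0 := by
    rw [euler F h.homog, h.ev, ha.1, mul_zero]
  unfold df at h2 h3
  rw [Fin.sum_univ_three] at h2 h3
  simp only [Matrix.cons_val_zero, Matrix.cons_val_one, Matrix.cons_val, h.ev0, h.ev1] at h2 h3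
  unfold dr
  simp only [Pi.sub_apply]
  linear_combination h2 - h3

end Pool.Agent.Lib.MP_214199_co.Eff
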