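import Pool.Agent.Lib.MP_214199_co.Eff.TriUp

/-!
# The first middle corner of a cell as a map
-/

set_option autoImplicit false

namespace Pool.Agent.Lib.MP_214199_co.Eff

open Finset

variable {S : Finset Pt}

/-- Case A for the dart `d`. -/
private def phiCaseA (sg al : Equiv.Perm (D S)) (d : D S) : Prop :=
  al d ≠ d ∧ (al (sg d) = sg d ∨ (d.1.s = true ∧ (al d).1.v.1 ≤ (al (sg d)).1.v.1) ∨
    (d.1.s = false ∧ (al (sg d)).1.v.1 ≤ (al d).1.v.1))

private theorem phiMap_A (hS : Gen S) {sg al : Equiv.Perm (D S)} (hr : IsRot S sg)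
    (ha : IsRev S al) (d : D S) (hm : ¬ IsMax d) (h : phiCaseA sg al d) :
    IsMax (sg.symm (al d)) ∧ (sg.symm (al d)).1.s = d.1.s := by
  have h1 : IsMin (al d) := by
    cases hs : d.1.s
    · refine mid_A' hS hr ha d hs hm h.1 ?_
      rcases h.2 with h2 | ⟨h2, -⟩ | ⟨-, h2⟩
      · exact Or.inl h2
      · rw [hs] at h2
        exact absurd h2 (by simp)
      · exact Or.inr h2
    · refine mid_A hS hr ha d hs hm h.1 ?_
      rcases h.2 with h2 | ⟨-, h2⟩ | ⟨h2, -⟩
      · exact Or.inl h2
      · exact Or.inr h2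
      · rw [hs] at h2
        exact absurd h2 (by simp)
  have h2 : IsMax (sg.symm (al d)) := (isMax_symm_iff hS hr (al d)).2 h1
  refine ⟨h2, ?_⟩
  have h3 := hr.s_max _ h2
  rw [Equiv.apply_symm_apply, ha.s d h.1] at h3
  have h4 : ∀ a b : Bool, (!a) = (!b) → b = a := by decide
  exact h4 _ _ h3

private theorem phiMap_B (hS : Gen S) {sg al : Equiv.Perm (D S)} (hr : IsRot S sg)
    (ha : IsRev S al) (d : D S) (hm : ¬ IsMax d) (h0 : ¬ (al d = d ∧ al (sg d) = sg d))
    (h : ¬ phiCaseA sg al d) :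
    al (sg d) ≠ sg d ∧
    (d.1.s = true → (al d = d ∨ (al (sg d)).1.v.1 < (al d).1.v.1)) ∧
    (d.1.s = false → (al d = d ∨ (al d).1.v.1 < (al (sg d)).1.v.1)) ∧
    IsMax (al (sg d)) ∧ (al (sg d)).1.s = !d.1.s := by
  have h1 : al (sg d) ≠ sg d := by
    intro h1
    have h2 : al d ≠ d := fun h2 => h0 ⟨h2, h1⟩
    exact h ⟨h2, Or.inl h1⟩
  have h2 : d.1.s = true → (al d = d ∨ (al (sg d)).1.v.1 < (al d).1.v.1) := by
    intro hs
    by_cases h2 : al d = d
    · exact Or.inl h2
    · right
      by_contra h3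
      exact h ⟨h2, Or.inr (Or.inl ⟨hs, not_lt.1 h3⟩)⟩
  have h3 : d.1.s = false → (al d = d ∨ (al d).1.v.1 < (al (sg d)).1.v.1) := by
    intro hs
    by_cases h3 : al d = d
    · exact Or.inl h3
    · right
      by_contra h4
      exact h ⟨h3, Or.inr (Or.inr ⟨hs, not_lt.1 h4⟩)⟩
  refine ⟨h1, h2, h3, ?_, ?_⟩
  · cases hs : d.1.s
    · exact mid_B' hS hr ha d hs hm h1 (h3 hs)
    · exact mid_B hS hr ha d hs hm h1 (h2 hs)
  · rw [ha.s _ h1, hr.s_lt d hm]

/-- Proof.  For a non-maximal dart `d`: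
 * case A: `al d ≠ d` and (`al (sg d) = sg d` or `x (al d) ≤ x (al (sg d))` if `s = true`,
   `x (al d) ≥ x (al (sg d))` if `s = false`; `x e = e.v.1`); `Φ d = sg⁻¹ (al d)`;
 * case B: not case A and `al (sg d) ≠ sg d`; `Φ d = al (sg d)`
   (then `al d = d` or `x (al (sg d)) < x (al d)` (resp. `>`)).
By `mid_A`, `mid_A'`, `isMax_symm_iff` resp. `mid_B`, `mid_B'` the images are maximal, and
`(Φ d).s = d.s` in case A, `(Φ d).s = !d.s` in case B (case A: `al d` is minimal and has the
direction `!s`, its preimage under `sg` is maximal with direction `s` by `s_max`).  `sg⁻¹ ∘ al` and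
`al ∘ sg` are injective, so `Φ` is injective on the darts with the same `s`.
Let `e = Φ d = Φ d'`, `d.s = true`, `d'.s = false`.  If `e.s = true` then `d` is in
case A and `d'` in case B; `tri_up` gives `al d' = sg d`; so with `φ = sg⁻¹ ∘ al`:
`φ d = e`, `φ e = d'` (as `al e = sg d'`), `φ d' = d`, and `al d ≠ d`, `al e ≠ e`, `al d' ≠ d'`
(directions).  If `e.s = false` then `d` is in case B and `d'` in case A, `tri_down`:
`al d = sg d'`; `φ d' = e`, `φ e = d`, `φ d = d'`.  So `e`, `φ e`, `φ (φ e)` satisfy `Tri`, and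
`φ e`, `φ (φ e)` are `d`, `d'`, not maximal. -/
theorem exists_phi (hS : Gen S) {sg al : Equiv.Perm (D S)} (hr : IsRot S sg) (ha : IsRev S al) :
    ∃ Φ : D S → D S,
      (∀ d, ¬ IsMax d → ¬ (al d = d ∧ al (sg d) = sg d) → IsMax (Φ d)) ∧
      (∀ d d', ¬ IsMax d → ¬ (al d = d ∧ al (sg d) = sg d) → ¬ IsMax d' →
        ¬ (al d' = d' ∧ al (sg d') = sg d') → d.1.s = d'.1.s → Φ d = Φ d' → d = d') ∧
      (∀ d d', ¬ IsMax d → ¬ (al d = d ∧ al (sg d) = sg d) → ¬ IsMax d' →
        ¬ (al d' = d' ∧ al (sg d') = sg d') → d.1.s = true → d'.1.s = false → Φ d = Φ d' →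
        Tri sg al (Φ d) ∧ Tri sg al (phi sg al (Φ d)) ∧
          Tri sg al (phi sg al (phi sg al (Φ d))) ∧ ¬ IsMax (phi sg al (Φ d)) ∧
          ¬ IsMax (phi sg al (phi sg al (Φ d)))) := by
  classical
  let Φ : D S → D S := fun d => if phiCaseA sg al d then sg.symm (al d) else al (sg d)
  have hΦA : ∀ d, phiCaseA sg al d → Φ d = sg.symm (al d) := fun d h => if_pos h
  have hΦB : ∀ d, ¬ phiCaseA sg al d → Φ d = al (sg d) := fun d h => if_neg h
  have hsA : ∀ d, ¬ IsMax d → phiCaseA sg al d → (Φ d).1.s = d.1.s := by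
    intro d hm h
    rw [hΦA d h]
    exact (phiMap_A hS hr ha d hm h).2
  have hsB : ∀ d, ¬ IsMax d → ¬ (al d = d ∧ al (sg d) = sg d) → ¬ phiCaseA sg al d →
      (Φ d).1.s = !d.1.s := by
    intro d hm h0 h
    rw [hΦB d h]
    exact (phiMap_B hS hr ha d hm h0 h).2.2.2.2
  refine ⟨Φ, ?_, ?_, ?_⟩
  · intro d hm h0
    by_cases h : phiCaseA sg al d
    · rw [hΦA d h]
      exact (phiMap_A hS hr ha d hm h).1
    · rw [hΦB d h]
      exact (phiMap_B hS hr ha d hm h0 h).2.2.2.1
  · intro d d' hm h0 hm' h0' hs he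
    by_cases h : phiCaseA sg al d
    · by_cases h' : phiCaseA sg al d'
      · rw [hΦA d h, hΦA d' h'] at he
        exact al.injective (sg.symm.injective he)
      · exfalso
        have h1 := hsA d hm h
        have h2 := hsB d' hm' h0' h'
        rw [← he, h1, hs] at h2
        have h3 : ∀ a : Bool, a ≠ !a := by decide
        exact h3 _ h2
    · by_cases h' : phiCaseA sg al d'
      · exfalso
        have h1 := hsB d hm h0 h
        have h2 := hsA d' hm' h'
        rw [he, h2, hs] at h1
        have h3 : ∀ a : Bool, a ≠ !a := by decide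
        exact h3 _ h1
      · rw [hΦB d h, hΦB d' h'] at he
        exact sg.injective (al.injective he)
  · intro d d' hm h0 hm' h0' hs hs' he
    by_cases h : phiCaseA sg al d
    · by_cases h' : phiCaseA sg al d'
      · exfalso
        have h1 := hsA d hm h
        have h2 := hsA d' hm' h'
        rw [he, h2, hs', hs] at h1
        exact absurd h1 (by simp)
      · obtain ⟨hB, -, hB', -, -⟩ := phiMap_B hS hr ha d' hm' h0' h'
        have hA' : al (sg d) = sg d ∨ (al d).1.v.1 ≤ (al (sg d)).1.v.1 := by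
          rcases h.2 with h2 | ⟨-, h2⟩ | ⟨h2, -⟩
          · exact Or.inl h2
          · exact Or.inr h2
          · rw [hs] at h2
            exact absurd h2 (by simp)
        have he' : sg.symm (al d) = al (sg d') := by
          rw [← hΦA d h, ← hΦB d' h', he]
        have ht := tri_up hS hr ha d d' hs hm hs' hm' h.1 hA' hB (hB' hs') he'
        have hE : Φ d = al (sg d') := by rw [he, hΦB d' h']
        have hp1 : phi sg al d = Φ d := (hΦA d h).symm
        have hp2 : phi sg al (Φ d) = d' := by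
          unfold phi
          rw [hE, ha.al_al, Equiv.symm_apply_apply]
        have hp3 : phi sg al d' = d := by
          unfold phi
          rw [ht, Equiv.symm_apply_apply]
        have n1 : al d ≠ d := h.1
        have n2 : al (Φ d) ≠ Φ d := by
          rw [hE, ha.al_al]
          exact hB.symm
        have n3 : al d' ≠ d' := by
          intro h3
          rw [ht] at h3
          have h4 := hr.s_lt d hm
          rw [h3, hs, hs'] at h4
          exact absurd h4 (by simp)
        refine ⟨⟨n2, ?_, ?_, ?_⟩, ⟨?_, ?_, ?_, ?_⟩, ⟨?_, ?_, ?_, ?_⟩, ?_, ?_⟩ <;>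
          simp only [hp1, hp2, hp3] <;> assumption
    · by_cases h' : phiCaseA sg al d'
      · obtain ⟨hB, hB', -, -, -⟩ := phiMap_B hS hr ha d hm h0 h
        have hA' : al (sg d') = sg d' ∨ (al (sg d')).1.v.1 ≤ (al d').1.v.1 := by
          rcases h'.2 with h2 | ⟨h2, -⟩ | ⟨-, h2⟩
          · exact Or.inl h2
          · rw [hs'] at h2
            exact absurd h2 (by simp)
          · exact Or.inr h2
        have he' : al (sg d) = sg.symm (al d') := by
          rw [← hΦA d' h', ← hΦB d h, he]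
        have ht := tri_down hS hr ha d d' hs hm hs' hm' hB (hB' hs) h'.1 hA' he'
        have hE : Φ d = al (sg d) := hΦB d h
        have hp1 : phi sg al d' = Φ d := by rw [he]; exact (hΦA d' h').symm
        have hp2 : phi sg al (Φ d) = d := by
          unfold phi
          rw [hE, ha.al_al, Equiv.symm_apply_apply]
        have hp3 : phi sg al d = d' := by
          unfold phi
          rw [ht, Equiv.symm_apply_apply]
        have n1 : al d' ≠ d' := h'.1
        have n2 : al (Φ d) ≠ Φ d := by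
          rw [hE, ha.al_al]
          exact hB.symm
        have n3 : al d ≠ d := by
          intro h3
          rw [ht] at h3
          have h4 := hr.s_lt d' hm'
          rw [h3, hs, hs'] at h4
          exact absurd h4 (by simp)
        refine ⟨⟨n2, ?_, ?_, ?_⟩, ⟨?_, ?_, ?_, ?_⟩, ⟨?_, ?_, ?_, ?_⟩, ?_, ?_⟩ <;>
          simp only [hp1, hp2, hp3] <;> assumption
      · exfalso
        have h1 := hsB d hm h0 h
        have h2 := hsB d' hm' h0' h'
        rw [he, h2, hs', hs] at h1
        exact absurd h1 (by simp)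

end Pool.Agent.Lib.MP_214199_co.Eff
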