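import Pool.Agent.Lib.MP_214199_co.Eff.Base

/-!
# Rotation of the darts around a vertex
-/

set_option autoImplicit false

namespace Pool.Agent.Lib.MP_214199_co.Eff

open Finset

variable {S : Finset Pt}

theorem rot_symm_v {sg : Equiv.Perm (D S)} (hr : IsRot S sg) (d : D S) :
    (sg.symm d).1.v = d.1.v := by
  have h := hr.v (sg.symm d)
  rw [Equiv.apply_symm_apply] at h
  exact h.symm

theorem rot_aux_mem (d : D S) : d.1.p ∈ blk S d.1.v := d.2.2

theorem rot_aux_card (hS : Gen S) (d : D S) : 2 ≤ (blk S d.1.v).card := (mem_verts hS).1 d.2.1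

theorem rot_aux_mem_sg {sg : Equiv.Perm (D S)} (hr : IsRot S sg) (d : D S) :
    (sg d).1.p ∈ blk S d.1.v := by
  have h := (sg d).2.2
  rwa [hr.v] at h

/-- A block with two different elements is not covered by a point. -/
theorem rot_aux_not_max_min (hS : Gen S) {d e : D S} (hv : e.1.v = d.1.v) (hp : e.1.p = d.1.p)
    (h1 : IsMax d) (h2 : IsMin e) : False := by
  have hc := rot_aux_card hS d
  have : (blk S d.1.v).card ≤ 1 := by
    rw [Finset.card_le_one]
    intro a ha b hb
    have h1a := h1 a ha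
    have h1b := h1 b hb
    have h2a := h2 a (by rw [hv]; exact ha)
    have h2b := h2 b (by rw [hv]; exact hb)
    rw [hp] at h2a h2b
    exact blk_fst_inj hS ha hb (le_antisymm (h1a.trans h2b) (h1b.trans h2a))
  omega

/-- Proof.  `IsMax`, `IsMin` do not depend on `s`. -/
theorem rot_op (hS : Gen S) {sg : Equiv.Perm (D S)} (hr : IsRot S sg) (d : D S) :
    sg (op d) = op (sg d) := by
  have hvo : (op d).1.v = d.1.v := rfl
  have hpo : (op d).1.p = d.1.p := rfl
  have hso : (op d).1.s = !d.1.s := rfl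
  have hmo : IsMax (op d) ↔ IsMax d := Iff.rfl
  have hv : (sg (op d)).1.v = d.1.v := by rw [hr.v, hvo]
  have hm1 : (sg (op d)).1.p ∈ blk S d.1.v := rot_aux_mem_sg hr (op d)
  have hm2 : (sg d).1.p ∈ blk S d.1.v := rot_aux_mem_sg hr d
  apply Subtype.ext
  apply Dart.ext
  · show (sg (op d)).1.v = (sg d).1.v
    rw [hv, hr.v]
  · show (sg (op d)).1.p = (sg d).1.p
    apply blk_fst_inj hS hm1 hm2
    by_cases hmax : IsMax d
    · have h1 := hr.p_max d hmax
      have h2 := hr.p_max (op d) (hmo.2 hmax)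
      apply le_antisymm
      · exact h2 _ (by rw [hv]; exact hm2)
      · exact h1 _ (by rw [hr.v]; exact hm1)
    · have hmax' : ¬ IsMax (op d) := fun h => hmax (hmo.1 h)
      apply le_antisymm
      · exact hr.p_next (op d) hmax' _ hm2 (hr.p_lt d hmax)
      · exact hr.p_next d hmax _ hm1 (hr.p_lt (op d) hmax')
  · show (sg (op d)).1.s = !(sg d).1.s
    by_cases hmax : IsMax d
    · rw [hr.s_max (op d) (hmo.2 hmax), hr.s_max d hmax, hso]
    · rw [hr.s_lt (op d) (fun h => hmax (hmo.1 h)), hr.s_lt d hmax, hso]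

theorem rot_symm_op (hS : Gen S) {sg : Equiv.Perm (D S)} (hr : IsRot S sg) (d : D S) :
    sg.symm (op d) = op (sg.symm d) := by
  rw [Equiv.symm_apply_eq, rot_op hS hr, Equiv.apply_symm_apply]

/-- Proof.  The block has at least two elements. -/
theorem rot_p_ne (hS : Gen S) {sg : Equiv.Perm (D S)} (hr : IsRot S sg) (d : D S) :
    (sg d).1.p ≠ d.1.p := by
  intro he
  by_cases hmax : IsMax d
  · exact rot_aux_not_max_min hS (hr.v d) he hmax (hr.p_max d hmax)
  · have h := hr.p_lt d hmax
    rw [he] at h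
    exact lt_irrefl _ h

theorem rot_aux_two (hS : Gen S) {sg : Equiv.Perm (D S)} (hr : IsRot S sg) (d : D S)
    (h : 3 ≤ (blk S d.1.v).card) : d.1.p ≠ (sg (sg d)).1.p := by
  intro he
  have hv1 := hr.v d
  have hv2 : (sg (sg d)).1.v = d.1.v := by rw [hr.v, hr.v]
  have key : ∀ x y : Pt, (∀ q ∈ blk S d.1.v, q = x ∨ q = y) → False := by
    intro x y hxy
    have : (blk S d.1.v).card ≤ ({x, y} : Finset Pt).card := by
      apply Finset.card_le_card
      intro q hq
      rw [Finset.mem_insert, Finset.mem_singleton]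
      exact hxy q hq
    have h2 := Finset.card_le_two (a := x) (b := y)
    omega
  by_cases h1 : IsMax d
  · by_cases h2 : IsMax (sg d)
    · exact rot_aux_not_max_min hS rfl rfl h2 (hr.p_max d h1)
    · have hmin := hr.p_max d h1
      apply key (sg d).1.p (sg (sg d)).1.p
      intro q hq
      rcases lt_or_ge (sg d).1.p.1 q.1 with h3 | h3
      · right
        have h4 := hr.p_next (sg d) h2 q (by rw [hv1]; exact hq) h3
        have h5 := h1 q hq
        rw [he] at h5
        refine blk_fst_inj hS hq ?_ (le_antisymm h5 h4)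
        rw [← he]
        exact d.2.2
      · left
        have h4 := hmin q (by rw [hv1]; exact hq)
        exact blk_fst_inj hS hq (rot_aux_mem_sg hr d) (le_antisymm h3 h4)
  · have h3 := hr.p_lt d h1
    by_cases h2 : IsMax (sg d)
    · have hmin := hr.p_max (sg d) h2
      apply key d.1.p (sg d).1.p
      intro q hq
      rcases lt_or_ge d.1.p.1 q.1 with h4 | h4
      · right
        have h5 := hr.p_next d h1 q hq h4
        have h6 := h2 q (by rw [hv1]; exact hq)
        exact blk_fst_inj hS hq (rot_aux_mem_sg hr d) (le_antisymm h6 h5)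
      · left
        have h5 := hmin q (by rw [hv2]; exact hq)
        rw [← he] at h5
        exact blk_fst_inj hS hq d.2.2 (le_antisymm h4 h5)
    · have h4 := hr.p_lt (sg d) h2
      rw [← he] at h4
      exact lt_asymm h3 h4

/-- At a triple point three rotations give the opposite dart. -/
theorem rot3 (hS : Gen S) {sg : Equiv.Perm (D S)} (hr : IsRot S sg) (d : D S)
    (h : (blk S d.1.v).card = 3) :
    sg (sg (sg d)) = op d ∧ blk S d.1.v = {d.1.p, (sg d).1.p, (sg (sg d)).1.p} ∧
      d.1.p ≠ (sg d).1.p ∧ d.1.p ≠ (sg (sg d)).1.p ∧ (sg d).1.p ≠ (sg (sg d)).1.p := by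
  have hv1 : (sg d).1.v = d.1.v := hr.v d
  have hv2 : (sg (sg d)).1.v = d.1.v := by rw [hr.v, hr.v]
  have hv3 : (sg (sg (sg d))).1.v = d.1.v := by rw [hr.v, hr.v, hr.v]
  have n1 : d.1.p ≠ (sg d).1.p := (rot_p_ne hS hr d).symm
  have n2 : (sg d).1.p ≠ (sg (sg d)).1.p := (rot_p_ne hS hr (sg d)).symm
  have n3 : (sg (sg d)).1.p ≠ (sg (sg (sg d))).1.p := (rot_p_ne hS hr (sg (sg d))).symm
  have n4 : d.1.p ≠ (sg (sg d)).1.p := rot_aux_two hS hr d h.ge
  have n5 : (sg d).1.p ≠ (sg (sg (sg d))).1.p := rot_aux_two hS hr (sg d) (by rw [hv1]; exact h.ge)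
  have m0 : d.1.p ∈ blk S d.1.v := d.2.2
  have m1 : (sg d).1.p ∈ blk S d.1.v := by
    have := (sg d).2.2
    rwa [hv1] at this
  have m2 : (sg (sg d)).1.p ∈ blk S d.1.v := by
    have := (sg (sg d)).2.2
    rwa [hv2] at this
  have m3 : (sg (sg (sg d))).1.p ∈ blk S d.1.v := by
    have := (sg (sg (sg d))).2.2
    rwa [hv3] at this
  have hB : blk S d.1.v = {d.1.p, (sg d).1.p, (sg (sg d)).1.p} := by
    symm
    apply Finset.eq_of_subset_of_card_le
    · intro q hq
      rw [Finset.mem_insert, Finset.mem_insert, Finset.mem_singleton] at hq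
      rcases hq with rfl | rfl | rfl
      · exact m0
      · exact m1
      · exact m2
    · rw [h, Finset.card_eq_three.2 ⟨_, _, _, n1, n4, n2, rfl⟩]
  have hp3 : (sg (sg (sg d))).1.p = d.1.p := by
    rw [hB, Finset.mem_insert, Finset.mem_insert, Finset.mem_singleton] at m3
    rcases m3 with m3 | m3 | m3
    · exact m3
    · exact absurd m3.symm n5
    · exact absurd m3.symm n3
  refine ⟨?_, hB, n1, n4, n2⟩
  apply Subtype.ext
  apply Dart.ext
  · exact hv3
  · exact hp3
  · show (sg (sg (sg d))).1.s = !d.1.s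
    have e01 : ¬ (IsMax d ∧ IsMax (sg d)) := by
      rintro ⟨a, b⟩
      apply n1
      exact blk_fst_inj hS m0 m1 (le_antisymm (b _ (by rw [hv1]; exact m0)) (a _ m1))
    have e02 : ¬ (IsMax d ∧ IsMax (sg (sg d))) := by
      rintro ⟨a, b⟩
      apply n4
      exact blk_fst_inj hS m0 m2 (le_antisymm (b _ (by rw [hv2]; exact m0)) (a _ m2))
    have e12 : ¬ (IsMax (sg d) ∧ IsMax (sg (sg d))) := by
      rintro ⟨a, b⟩
      apply n2
      exact blk_fst_inj hS m1 m2 (le_antisymm (b _ (by rw [hv2]; exact m1))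
        (a _ (by rw [hv1]; exact m2)))
    by_cases c0 : IsMax d
    · have c1 : ¬ IsMax (sg d) := fun c1 => e01 ⟨c0, c1⟩
      have c2 : ¬ IsMax (sg (sg d)) := fun c2 => e02 ⟨c0, c2⟩
      rw [hr.s_lt _ c2, hr.s_lt _ c1, hr.s_max _ c0]
    · by_cases c1 : IsMax (sg d)
      · have c2 : ¬ IsMax (sg (sg d)) := fun c2 => e12 ⟨c1, c2⟩
        rw [hr.s_lt _ c2, hr.s_max _ c1, hr.s_lt _ c0]
      · by_cases c2 : IsMax (sg (sg d))
        · rw [hr.s_max _ c2, hr.s_lt _ c1, hr.s_lt _ c0]
        · exfalso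
          have l0 := hr.p_lt _ c0
          have l1 := hr.p_lt _ c1
          have l2 := hr.p_lt _ c2
          rw [hp3] at l2
          exact lt_irrefl _ (l0.trans (l1.trans l2))

/-- The image of a minimal dart under the inverse rotation is maximal (and conversely). -/
theorem isMax_symm_iff (hS : Gen S) {sg : Equiv.Perm (D S)} (hr : IsRot S sg) (d : D S) :
    IsMax (sg.symm d) ↔ IsMin d := by
  constructor
  · intro h
    have := hr.p_max _ h
    rwa [Equiv.apply_symm_apply] at this
  · intro h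
    by_contra hcon
    have h1 := hr.p_lt _ hcon
    rw [Equiv.apply_symm_apply] at h1
    have h2 := h (sg.symm d).1.p (by
      have := (sg.symm d).2.2
      rwa [rot_symm_v hr] at this)
    exact absurd h1 (not_lt.2 h2)

end Pool.Agent.Lib.MP_214199_co.Eff
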