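import Mathlib

/-!
# Sets that are almost closed under `(a, b) ↦ -(a + b)`, row by row
-/

set_option autoImplicit false

namespace Pool.Agent.Lib.MP_214199_co.Eff

open Finset

/-- the number of `u ∈ A` with `u + g ∈ A` -/
def rowF {G : Type*} [AddCommGroup G] [DecidableEq G] (A : Finset G) (g : G) : ℕ :=
  (A.filter (fun u => u + g ∈ A)).card

theorem row_compl {G : Type*} [AddCommGroup G] [DecidableEq G] (A : Finset G) (g : G) :
    (A.filter (fun u => u + g ∉ A)).card + rowF A g = A.card := by
  unfold rowF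
  rw [add_comm]
  exact Finset.card_filter_add_card_filter_not (s := A) (fun u => u + g ∈ A)

theorem row_neg {G : Type*} [AddCommGroup G] [DecidableEq G] (A : Finset G) (g : G) :
    rowF A g ≤ rowF A (-g) := by
  unfold rowF
  refine Finset.card_le_card_of_injOn (fun u => u + g) ?_ ?_
  · intro u hu
    have hu' := Finset.mem_filter.1 (Finset.mem_coe.1 hu)
    refine Finset.mem_coe.2 (Finset.mem_filter.2 ⟨hu'.2, ?_⟩)
    rw [add_neg_cancel_right]
    exact hu'.1
  · intro u _ w _ h
    exact add_right_cancel h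

theorem row_add {G : Type*} [AddCommGroup G] [DecidableEq G] (A : Finset G) (g g' : G) (t : ℕ)
    (hg : A.card ≤ rowF A g + t) (hg' : A.card ≤ rowF A g' + t) :
    A.card ≤ rowF A (g + g') + 2 * t := by
  have h1 := row_compl A g
  have h2 := row_compl A g'
  have h3 := row_compl A (g + g')
  have h4 : A.filter (fun u => u + (g + g') ∉ A) ⊆
      A.filter (fun u => u + g ∉ A) ∪
        (A.filter (fun w => w + g' ∉ A)).image (fun w => w - g) := by
    intro u hu
    have hu' := Finset.mem_filter.1 hu
    rw [Finset.mem_union]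
    by_cases h : u + g ∈ A
    · right
      rw [Finset.mem_image]
      refine ⟨u + g, Finset.mem_filter.2 ⟨h, ?_⟩, by abel⟩
      rw [add_assoc]
      exact hu'.2
    · left
      exact Finset.mem_filter.2 ⟨hu'.1, h⟩
  have h5 := (Finset.card_le_card h4).trans (Finset.card_union_le _ _)
  have h6 := Finset.card_image_le (s := A.filter (fun w => w + g' ∉ A)) (f := fun w => w - g)
  omega

/-- Proof.  Let `N = A.card`, `H = {g | N ≤ #{u ∈ A | u + g ∈ A} + 2 s}`.
(1) `a, a' ∈ B` ⇒ `a - a' ∈ H`: for all but `2 s` of the `c ∈ A` both `u = -(a + c)` and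
`-(a' + c) = u + (a - a')` are in `A`, and `c ↦ u` is injective.
(2) If `N ≤ #{u ∈ A | u + g ∈ A} + 4 s` then `g ∈ H`: at most `r` of these `u` are not in `B` and at
most `r` of the `u + g` are not in `B`; since `4 s + 2 r < N` there is `u ∈ B` with `u + g ∈ B`, so
`g = (u + g) - u ∈ H` by (1).
(3) `H` is a subgroup: `0 ∈ H`, `-g ∈ H` (`u ↦ u + g`), and if `g, g' ∈ H` then for all but `4 s`
of the `u ∈ A` we have `u + g ∈ A` and `u + g + g' ∈ A`; (2).
(4) `H ⊆ B - B` is finite; counting the pairs `(u, u + g) ∈ A × A`, `g ∈ H`: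
`|H| (N - 2 s) ≤ N^2`.  (5) `x ∈ B` arbitrary: `a - x ∈ H` for `a ∈ B`.  Among the `b ∈ A` at most `s`
have `-(x + b) ∉ A`, at most `r` are not in `B`, at most `r` have `-(x + b) ∉ B`: so there is
`b ∈ B` with `c = -(x + b) ∈ B`, and `x + x + x = (x - x) + (x - b) + (x - c) ∈ H`. -/
theorem row_lemma {G : Type*} [AddCommGroup G] [DecidableEq G] (A B : Finset G) (hBA : B ⊆ A)
    (s r : ℕ) (hB : (A \ B).card ≤ r)
    (hrow : ∀ a ∈ B, (A.filter (fun b => -(a + b) ∉ A)).card ≤ s)
    (h : 4 * s + 2 * r < A.card) :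
    ∃ (H : AddSubgroup G) (x : G), (H : Set G).Finite ∧ (∀ a ∈ B, a - x ∈ H) ∧
      x + x + x ∈ H ∧ Nat.card H * (A.card - 2 * s) ≤ A.card * A.card := by
  -- (1)
  have k1 : ∀ a ∈ B, ∀ a' ∈ B, A.card ≤ rowF A (a - a') + 2 * s := by
    intro a ha a' ha'
    have q1 := hrow a ha
    have q2 := hrow a' ha'
    have q3 : A.filter (fun c => -(a + c) ∈ A ∧ -(a' + c) ∈ A) ∪
        (A.filter (fun b => -(a + b) ∉ A) ∪ A.filter (fun b => -(a' + b) ∉ A)) = A := by
      ext c
      simp only [Finset.mem_union, Finset.mem_filter]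
      tauto
    have q4 : (A.filter (fun c => -(a + c) ∈ A ∧ -(a' + c) ∈ A)).card ≤ rowF A (a - a') := by
      unfold rowF
      refine Finset.card_le_card_of_injOn (fun c => -(a + c)) ?_ ?_
      · intro c hc
        have hc' := Finset.mem_filter.1 (Finset.mem_coe.1 hc)
        refine Finset.mem_coe.2 (Finset.mem_filter.2 ⟨hc'.2.1, ?_⟩)
        have e : -(a + c) + (a - a') = -(a' + c) := by abel
        rw [e]
        exact hc'.2.2
      · intro c _ d _ hcd
        exact add_left_cancel (neg_injective hcd)
    have q5 := Finset.card_union_le (A.filter (fun c => -(a + c) ∈ A ∧ -(a' + c) ∈ A))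
      (A.filter (fun b => -(a + b) ∉ A) ∪ A.filter (fun b => -(a' + b) ∉ A))
    have q6 := Finset.card_union_le (A.filter (fun b => -(a + b) ∉ A))
      (A.filter (fun b => -(a' + b) ∉ A))
    rw [q3] at q5
    omega
  -- (2)
  have k2 : ∀ g, A.card ≤ rowF A g + 4 * s → ∃ u ∈ B, u + g ∈ B := by
    intro g hg
    by_contra hcon
    push Not at hcon
    have q1 : A.filter (fun u => u + g ∈ A) ⊆ (A \ B) ∪ (A \ B).image (fun w => w - g) := by
      intro u hu
      have hu' := Finset.mem_filter.1 hu
      rw [Finset.mem_union]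
      by_cases hub : u ∈ B
      · right
        rw [Finset.mem_image]
        exact ⟨u + g, Finset.mem_sdiff.2 ⟨hu'.2, hcon u hub⟩, by abel⟩
      · left
        exact Finset.mem_sdiff.2 ⟨hu'.1, hub⟩
    have q2 := (Finset.card_le_card q1).trans (Finset.card_union_le _ _)
    have q3 := Finset.card_image_le (s := A \ B) (f := fun w => w - g)
    unfold rowF at hg
    omega
  have k2' : ∀ g, A.card ≤ rowF A g + 4 * s → A.card ≤ rowF A g + 2 * s := by
    intro g hg
    obtain ⟨u, hu, hug⟩ := k2 g hg
    have := k1 (u + g) hug u hu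
    rwa [add_sub_cancel_left] at this
  -- (3)
  let H : AddSubgroup G :=
    { carrier := {g | A.card ≤ rowF A g + 2 * s}
      add_mem' := by
        intro g g' hg hg'
        apply k2'
        have := row_add A g g' (2 * s) hg hg'
        omega
      zero_mem' := by
        show A.card ≤ rowF A 0 + 2 * s
        have : rowF A 0 = A.card := by
          unfold rowF
          congr 1
          ext u
          simp
        omega
      neg_mem' := by
        intro g hg
        show A.card ≤ rowF A (-g) + 2 * s
        have q1 : A.card ≤ rowF A g + 2 * s := hg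
        have := row_neg A g
        omega }
  have hH : ∀ g, g ∈ H ↔ A.card ≤ rowF A g + 2 * s := fun g => Iff.rfl
  -- (4)
  have hsub : (H : Set G) ⊆ ((B ×ˢ B).image (fun p => p.1 - p.2) : Finset G) := by
    intro g hg
    obtain ⟨u, hu, hug⟩ := k2 g (by have := (hH g).1 hg; omega)
    rw [Finset.mem_coe, Finset.mem_image]
    exact ⟨(u + g, u), Finset.mem_product.2 ⟨hug, hu⟩, by simp⟩
  have hfin : (H : Set G).Finite := (Finset.finite_toSet _).subset hsub
  -- (5)
  have hBne : B.Nonempty := by
    rw [← Finset.card_pos]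
    have := Finset.card_sdiff_add_card_inter A B
    rw [Finset.inter_eq_right.2 hBA] at this
    omega
  obtain ⟨x, hx⟩ := hBne
  refine ⟨H, x, hfin, fun a ha => (hH _).2 (k1 a ha x hx), ?_, ?_⟩
  · have q0 : ∃ b ∈ B, -(x + b) ∈ B := by
      by_contra hcon
      push Not at hcon
      have q1 : A ⊆ A.filter (fun b => -(x + b) ∉ A) ∪
          ((A \ B) ∪ (A \ B).image (fun w => -(x + w))) := by
        intro b hb
        rw [Finset.mem_union, Finset.mem_union]
        by_cases h1 : -(x + b) ∈ A
        · by_cases h2 : b ∈ B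
          · right; right
            rw [Finset.mem_image]
            exact ⟨-(x + b), Finset.mem_sdiff.2 ⟨h1, hcon b h2⟩, by abel⟩
          · right; left
            exact Finset.mem_sdiff.2 ⟨hb, h2⟩
        · left
          exact Finset.mem_filter.2 ⟨hb, h1⟩
      have q2 := (Finset.card_le_card q1).trans (Finset.card_union_le _ _)
      have q3 := Finset.card_union_le (A \ B) ((A \ B).image (fun w => -(x + w)))
      have q4 := Finset.card_image_le (s := A \ B) (f := fun w => -(x + w))
      have q5 := hrow x hx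
      omega
    obtain ⟨b, hb, hc⟩ := q0
    have q6 : x - b ∈ H := (hH _).2 (k1 x hx b hb)
    have q7 : x - -(x + b) ∈ H := (hH _).2 (k1 x hx _ hc)
    have e : x + x + x = (x - b) + (x - -(x + b)) := by abel
    rw [e]
    exact H.add_mem q6 q7
  · set T := hfin.toFinset with hT
    have hTH : ∀ g, g ∈ T ↔ g ∈ H := fun g => by rw [hT, Set.Finite.mem_toFinset]; rfl
    have hcard : Nat.card H = T.card := by
      rw [hT]
      have := Nat.card_eq_card_finite_toFinset hfin
      exact this
    have q1 : T.card * (A.card - 2 * s) ≤ ∑ g ∈ T, rowF A g := by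
      rw [← smul_eq_mul]
      apply Finset.card_nsmul_le_sum
      intro g hg
      have := (hH g).1 ((hTH g).1 hg)
      omega
    have q2 : ∑ g ∈ T, rowF A g = (T.sigma (fun g => A.filter (fun u => u + g ∈ A))).card := by
      rw [Finset.card_sigma]
      rfl
    have q3 : (T.sigma (fun g => A.filter (fun u => u + g ∈ A))).card ≤ (A ×ˢ A).card := by
      refine Finset.card_le_card_of_injOn (fun z => (z.2, z.2 + z.1)) ?_ ?_
      · rintro ⟨g, u⟩ hz
        have hz' := Finset.mem_sigma.1 (Finset.mem_coe.1 hz)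
        have hz'' := Finset.mem_filter.1 hz'.2
        exact Finset.mem_coe.2 (Finset.mem_product.2 hz'')
      · rintro ⟨g, u⟩ _ ⟨g', u'⟩ _ hz
        simp only [Prod.mk.injEq] at hz
        obtain ⟨h1, h2⟩ := hz
        subst h1
        have := add_left_cancel h2
        subst this
        rfl
    rw [hcard]
    rw [Finset.card_product] at q3
    omega

end Pool.Agent.Lib.MP_214199_co.Eff
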