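import Pool.Agent.Lib.MP_214199_co.Eff.FlatCount

/-!
# One irreducible cubic contains almost all points: preparations
-/

set_option autoImplicit false

namespace Pool.Agent.Lib.MP_214199_co.Eff

open Finset

/-- All blocks are small.
Proof.  `wt m ≤ dfc S ≤ n` (`wt_le_dfc`), so `m (m - 1) ≤ 2 n + 6` (`wt_two_mul`); for
`n ≥ 5 * 10^7` this gives `3840 m ≤ n` (otherwise `m ≥ n / 3840 ≥ 13020` and
`m (m - 1) ≥ 13019 m > 3 * 3840 m ≥ 3 n`). -/
theorem blk_card_le {S : Finset Pt} (hn : 5 * 10 ^ 7 ≤ S.card) (hD : dfc S ≤ S.card)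
    {v : Pt} (hv : v ∈ verts S) : 3840 * (blk S v).card ≤ S.card := by
  have h1 := wt_le_dfc hv
  set m := (blk S v).card with hm
  clear_value m
  rcases Nat.lt_or_ge m 3 with h3 | h3
  · omega
  · have h2 := wt_two_mul m (by omega)
    rw [if_pos h3] at h2
    by_contra hlt
    push Not at hlt
    have h4 : 13020 ≤ m - 1 := by omega
    have h5 : m * 13020 ≤ m * (m - 1) := Nat.mul_le_mul le_rfl h4
    omega

theorem selA_wt (m : ℕ) (hm : 2 ≤ m) :
    382 * (if 6 ≤ m then (m : ℤ) else 0) + cw m ≤ 196 * (wt m : ℤ) := by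
  unfold cw
  rcases Nat.lt_or_ge m 7 with h | h
  · interval_cases m <;> simp [wt]
  · rw [if_pos (by omega), if_neg (by omega)]
    have h2 := wt_six (m := m) (by omega)
    have h3 : (2 * m : ℤ) ≤ wt m := by exact_mod_cast h2
    have h4 : (7 : ℤ) ≤ m := by exact_mod_cast h
    linarith

open Classical in
/-- The typical points.
Proof.  The points in a block with `m ≥ 6` points are at most `∑_{m_v ≥ 6} m_v` many, and
`191 #{b > 190} ≤ ∑ b`.  So `382 (n - |T|) ≤ ∑_v (382 m_v [m_v ≥ 6] + cw m_v) + 72 n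
≤ 196 dfc S + 72 n ≤ 268 n`, because `382 m [m ≥ 6] + cw m ≤ 196 wt m` for all `m ≥ 2`
(`m = 2`: `196`, `m = 3`: `0`, `m = 4`: `104 ≤ 588`, `m = 5`: `58 ≤ 1372`, `m = 6`: `2304 ≤ 2352`,
`m ≥ 7`: `cw m < 0`, `382 m ≤ 196 wt m`). -/
theorem typical_card {S : Finset Pt} (hS : Gen S) (hD : dfc S ≤ S.card) (b : Pt → ℕ)
    (hb : (2 * ∑ p ∈ S, (b p : ℤ)) ≤ ∑ v ∈ verts S, cw (blk S v).card + 72 * S.card) :
    114 * S.card ≤ 382 * (S.filter (fun p => b p ≤ 190 ∧
      ∀ v ∈ verts S, p ∈ blk S v → (blk S v).card ≤ 5)).card := by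
  set T := S.filter (fun p => b p ≤ 190 ∧ ∀ v ∈ verts S, p ∈ blk S v → (blk S v).card ≤ 5) with hT
  set B := S.filter (fun p => 190 < b p) with hB
  set V := (verts S).filter (fun v => 6 ≤ (blk S v).card) with hV
  have hcover : S ⊆ (T ∪ B) ∪ V.biUnion (fun v => blk S v) := by
    intro p hp
    by_cases h1 : 190 < b p
    · exact Finset.mem_union_left _ (Finset.mem_union_right _ (Finset.mem_filter.2 ⟨hp, h1⟩))
    · by_cases h2 : ∀ v ∈ verts S, p ∈ blk S v → (blk S v).card ≤ 5
      · exact Finset.mem_union_left _ (Finset.mem_union_left _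
          (Finset.mem_filter.2 ⟨hp, by omega, h2⟩))
      · push Not at h2
        obtain ⟨v, hv, hpv, h5⟩ := h2
        exact Finset.mem_union_right _ (Finset.mem_biUnion.2 ⟨v, Finset.mem_filter.2 ⟨hv, h5⟩, hpv⟩)
  have hcard : S.card ≤ T.card + B.card + ∑ v ∈ V, (blk S v).card := by
    refine (Finset.card_le_card hcover).trans ((Finset.card_union_le _ _).trans ?_)
    exact Nat.add_le_add (Finset.card_union_le _ _) Finset.card_biUnion_le
  have hB2 : 191 * B.card ≤ ∑ p ∈ S, b p := by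
    calc 191 * B.card = ∑ _p ∈ B, 191 := by rw [Finset.sum_const, smul_eq_mul, mul_comm]
      _ ≤ ∑ p ∈ B, b p := Finset.sum_le_sum (fun p hp => (Finset.mem_filter.1 hp).2)
      _ ≤ ∑ p ∈ S, b p := Finset.sum_le_sum_of_subset (Finset.filter_subset _ _)
  have hsum : (382 * ∑ v ∈ V, ((blk S v).card : ℤ)) + ∑ v ∈ verts S, cw (blk S v).card ≤
      196 * (dfc S : ℤ) := by
    have h1 : ∑ v ∈ V, ((blk S v).card : ℤ) =
        ∑ v ∈ verts S, (if 6 ≤ (blk S v).card then ((blk S v).card : ℤ) else 0) := by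
      rw [hV, Finset.sum_filter]
    rw [h1, Finset.mul_sum, ← Finset.sum_add_distrib]
    unfold dfc
    push_cast
    rw [Finset.mul_sum]
    exact Finset.sum_le_sum (fun v hv => selA_wt _ ((mem_verts hS).1 hv))
  have hcard' : (S.card : ℤ) ≤ T.card + B.card + ∑ v ∈ V, ((blk S v).card : ℤ) := by
    exact_mod_cast hcard
  have hB2' : (191 * B.card : ℤ) ≤ ∑ p ∈ S, (b p : ℤ) := by exact_mod_cast hB2
  have hD' : (dfc S : ℤ) ≤ S.card := by exact_mod_cast hD
  have : (114 * S.card : ℤ) ≤ 382 * T.card := by linarith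
  exact_mod_cast this

open Classical in
/-- Covering `S` by the blocks through a typical point `p`.
Proof.  Every point `a ≠ p` of `S` is in a block with `p` (`vtx_mem`); the vertex is in a run or not.
At most `190` vertices are in no run, their blocks have at most `4` points besides `p`; there are at
most `191` runs, a short run (`2560 |R| < n`) has at most `2 |R|` points besides `p` in its blocks. -/
theorem short_card {S : Finset Pt} (hS : Gen S) {p : Pt} (hp : p ∈ S)
    (h5 : ∀ v ∈ verts S, p ∈ blk S v → (blk S v).card ≤ 5) (RR : Finset (Finset Pt))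
    (hRR : RR.card ≤ 191) (hR : ∀ R ∈ RR, RunData S p R)
    (hbad : {v : Pt | v ∈ verts S ∧ p ∈ blk S v ∧ ∀ R ∈ RR, v ∉ R}.ncard ≤ 190) :
    2560 * (S.filter (fun a => a ≠ p ∧ ∀ R ∈ RR, S.card ≤ 2560 * R.card →
      ∀ v ∈ R, a ∉ blk S v)).card ≤ 382 * S.card + 2560 * 760 := by
  set X := S.filter (fun a => a ≠ p ∧ ∀ R ∈ RR, S.card ≤ 2560 * R.card → ∀ v ∈ R, a ∉ blk S v)
    with hX
  set Bd := (verts S).filter (fun v => p ∈ blk S v ∧ ∀ R ∈ RR, v ∉ R) with hBd
  set Sh := RR.filter (fun R => 2560 * R.card < S.card) with hSh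
  have hBdc : Bd.card ≤ 190 := by
    rw [← Set.ncard_coe_finset]
    convert hbad using 2
    ext v
    rw [hBd]
    simp only [Finset.coe_filter, Set.mem_setOf_eq]
  have hcover : X ⊆ Bd.biUnion (fun v => (blk S v).erase p) ∪
      Sh.biUnion (fun R => R.biUnion (fun v => (blk S v).erase p)) := by
    intro a ha
    obtain ⟨haS, hap, haR⟩ := Finset.mem_filter.1 ha
    obtain ⟨h0, h1, h2⟩ := vtx_mem hS hp haS (Ne.symm hap)
    by_cases hrun : ∀ R ∈ RR, vtx p a ∉ R
    · exact Finset.mem_union_left _ (Finset.mem_biUnion.2 ⟨vtx p a,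
        Finset.mem_filter.2 ⟨h0, h1, hrun⟩, Finset.mem_erase.2 ⟨hap, h2⟩⟩)
    · push Not at hrun
      obtain ⟨R, hRR', hvR⟩ := hrun
      refine Finset.mem_union_right _ (Finset.mem_biUnion.2 ⟨R, Finset.mem_filter.2 ⟨hRR', ?_⟩,
        Finset.mem_biUnion.2 ⟨vtx p a, hvR, Finset.mem_erase.2 ⟨hap, h2⟩⟩⟩)
      by_contra hlong
      push Not at hlong
      exact haR R hRR' hlong _ hvR h2
  have h1 : (Bd.biUnion (fun v => (blk S v).erase p)).card ≤ 760 := by
    refine Finset.card_biUnion_le.trans ?_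
    calc ∑ v ∈ Bd, ((blk S v).erase p).card ≤ ∑ _v ∈ Bd, 4 := by
          refine Finset.sum_le_sum (fun v hv => ?_)
          obtain ⟨hv1, hv2, -⟩ := Finset.mem_filter.1 hv
          rw [Finset.card_erase_of_mem hv2]
          have := h5 v hv1 hv2
          omega
      _ = 4 * Bd.card := by rw [Finset.sum_const, smul_eq_mul, mul_comm]
      _ ≤ 760 := by omega
  have h2 : 2560 * (Sh.biUnion (fun R => R.biUnion (fun v => (blk S v).erase p))).card ≤
      382 * S.card := by
    have h3 : ∀ R ∈ Sh, 2560 * (R.biUnion (fun v => (blk S v).erase p)).card ≤ 2 * S.card := by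
      intro R hRSh
      obtain ⟨hRR', hshort⟩ := Finset.mem_filter.1 hRSh
      have h4 : (R.biUnion (fun v => (blk S v).erase p)).card ≤ 2 * R.card := by
        refine Finset.card_biUnion_le.trans ?_
        calc ∑ v ∈ R, ((blk S v).erase p).card ≤ ∑ _v ∈ R, 2 := by
              refine Finset.sum_le_sum (fun v hv => ?_)
              obtain ⟨-, hv2, hv3⟩ := (hR R hRR').mem v hv
              rw [Finset.card_erase_of_mem hv2]
              omega
          _ = 2 * R.card := by rw [Finset.sum_const, smul_eq_mul, mul_comm]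
      omega
    calc 2560 * (Sh.biUnion (fun R => R.biUnion (fun v => (blk S v).erase p))).card
        ≤ 2560 * ∑ R ∈ Sh, (R.biUnion (fun v => (blk S v).erase p)).card :=
          Nat.mul_le_mul le_rfl Finset.card_biUnion_le
      _ = ∑ R ∈ Sh, 2560 * (R.biUnion (fun v => (blk S v).erase p)).card := Finset.mul_sum _ _ _
      _ ≤ ∑ _R ∈ Sh, 2 * S.card := Finset.sum_le_sum h3
      _ = Sh.card * (2 * S.card) := by rw [Finset.sum_const, smul_eq_mul]
      _ ≤ 191 * (2 * S.card) := Nat.mul_le_mul ((Finset.card_filter_le _ _).trans hRR) le_rfl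
      _ = 382 * S.card := by ring
  have h6 := (Finset.card_le_card hcover).trans (Finset.card_union_le _ _)
  omega

end Pool.Agent.Lib.MP_214199_co.Eff
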