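import Pool.Agent.Lib.MP_214199_co.Eff.TypeRun
import Pool.Agent.Lib.MP_214199_co.Eff.Geom
import Pool.Agent.Lib.MP_214199_co.Eff.Incl
import Pool.Agent.Lib.MP_214199_co.Eff.SelectA

/-!
# One irreducible cubic contains almost all points
-/

set_option autoImplicit false

namespace Pool.Agent.Lib.MP_214199_co.Eff

open Finset MvPolynomial

/-- There is more than one vertex. -/
theorem select_verts {S : Finset Pt} (hS : Gen S) (hn : 5 * 10 ^ 7 ≤ S.card)
    (hD : dfc S ≤ S.card) : 1 < (verts S).card := by
  classical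
  by_contra hcon
  push Not at hcon
  obtain ⟨p, hp⟩ := Finset.card_pos.1 (by omega : 0 < S.card)
  have h := sum_card_sub_one hS hp
  have h2 : ∑ v ∈ (verts S).filter (fun v => p ∈ blk S v), ((blk S v).card - 1) ≤
      ((verts S).filter (fun v => p ∈ blk S v)).card • (S.card / 3840) := by
    apply Finset.sum_le_card_nsmul
    intro v hv
    have := blk_card_le hn hD (Finset.mem_filter.1 hv).1
    omega
  have h3 : ((verts S).filter (fun v => p ∈ blk S v)).card ≤ 1 :=
    le_trans (Finset.card_filter_le _ _) hcon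
  rw [h, smul_eq_mul] at h2
  have h4 : ((verts S).filter (fun v => p ∈ blk S v)).card * (S.card / 3840) ≤
      1 * (S.card / 3840) := Nat.mul_le_mul_right _ h3
  omega

open Classical in
/-- the zeros of `f` in `S` -/
noncomputable def zrS (S : Finset Pt) (f : Poly) : Finset Pt := S.filter (fun a => Zr f (cpt a))

theorem mem_zrS {S : Finset Pt} {f : Poly} {a : Pt} : a ∈ zrS S f ↔ a ∈ S ∧ Zr f (cpt a) := by
  classical
  unfold zrS
  rw [Finset.mem_filter]

theorem zr_of_associated {f g : Poly} (h : Associated f g) (a : Fin 2 → ℂ) : Zr f a ↔ Zr g a := by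
  obtain ⟨u, rfl⟩ := h
  unfold Zr
  rw [map_mul]
  have hu : IsUnit (MvPolynomial.eval a (u : Poly)) := u.isUnit.map (MvPolynomial.eval a)
  constructor
  · intro h
    rw [h, zero_mul]
  · intro h
    exact (mul_eq_zero.1 h).resolve_right hu.ne_zero

/-- Two different irreducible cubics have at most nine common points. -/
theorem card_zrS_inter {S : Finset Pt} {f g : Poly} (hf : Irreducible f) (hg : Irreducible g)
    (hf3 : f.totalDegree = 3) (hg3 : g.totalDegree = 3) (h : ¬ Associated f g) :
    (zrS S f ∩ zrS S g).card ≤ 9 := by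
  classical
  have h1 : ¬ f ∣ g := fun hd => h ((hf.dvd_irreducible_iff_associated hg).1 hd)
  have h2 := bezout f g hf h1 ((zrS S f ∩ zrS S g).image cpt) (by
    intro a ha
    obtain ⟨p, hp, rfl⟩ := Finset.mem_image.1 ha
    rw [Finset.mem_inter, mem_zrS, mem_zrS] at hp
    exact ⟨hp.1.2, hp.2.2⟩)
  rw [Finset.card_image_of_injective _ cpt_injective, hf3, hg3] at h2
  omega

/-- The blocks of a run contain many points. -/
theorem two_mul_run_le {S : Finset Pt} (hS : Gen S) {p : Pt} {R : Finset Pt} (hR : RunData S p R)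
    {f : Poly} (hf : ∀ v ∈ R, ∀ a ∈ blk S v, Zr f (cpt a)) : 2 * R.card ≤ (zrS S f).card := by
  classical
  have h1 : (R.biUnion (fun v => (blk S v).erase p)) ⊆ zrS S f := by
    intro a ha
    obtain ⟨v, hv, hav⟩ := Finset.mem_biUnion.1 ha
    have hav' := (Finset.mem_erase.1 hav).2
    exact mem_zrS.2 ⟨blk_subset v hav', hf v hv a hav'⟩
  have h2 : (R.biUnion (fun v => (blk S v).erase p)).card = ∑ v ∈ R, ((blk S v).erase p).card := by
    apply Finset.card_biUnion
    intro v hv u hu hvu
    rw [Function.onFun, Finset.disjoint_left]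
    intro a ha ha'
    obtain ⟨hne, ha1⟩ := Finset.mem_erase.1 ha
    obtain ⟨-, ha2⟩ := Finset.mem_erase.1 ha'
    exact hvu (vert_unique hS hne ha1 (hR.mem v hv).2.1 ha2 (hR.mem u hu).2.1)
  have h3 : ∑ v ∈ R, ((blk S v).erase p).card = ∑ _v ∈ R, 2 := by
    apply Finset.sum_congr rfl
    intro v hv
    obtain ⟨-, hp, hc⟩ := hR.mem v hv
    rw [Finset.card_erase_of_mem hp, hc]
  rw [h3, Finset.sum_const, smul_eq_mul] at h2
  have := Finset.card_le_card h1
  omega

open Classical in
/-- The cubic.
Proof.  `n = |S|`.  There is more than one vertex (`blk_card_le`: the blocks are small, and every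
point is in a block with a given point), so `geom_half` applies: `b`.  Let `T` be the set of the
`p ∈ S` with `b p ≤ 190` that are
in blocks with at most 5 points only: `382 |T| ≥ 114 n` (`typical_card`).  Suppose that the claim is
false.  For `p ∈ T` take the runs `RR`.  Call a run long if `n ≤ 2560 |R|`; then `3 K ≤ 2 |R|`
where `K` is the maximum of 7 and of the block sizes, by `blk_card_le`, and `run_cubic` gives an
irreducible cubic `f` with at least `2 |R| + 1 ≥ n / 1280` zeros in `S`, among them `p`.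
CLAIM: for every `p ∈ T` there are two long runs with cubics `f`, `g` that are not associated.
There is a long run: otherwise `short_card` counts all points `≠ p`,
`2560 (n - 1) ≤ 382 n + 2560 * 760`, false.  Let `f` be its cubic.  If the cubics of all long runs
were associated to `f`, the points of their blocks would be zeros of `f`, and `p` too, so by
`short_card` `2560 #{f ≠ 0} ≤ 382 n + 2560 * 760`, hence `20 #{f ≠ 0} ≤ 3 n` (since
`20 * 382 n / 2560 = 2.984375 n`), which is excluded by assumption.
Now `many_points` with `U = S`, `Ob` the irreducible polynomials of degree 3 with at least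
`a = n / 1280` (rounded down) zeros in `S`, `Zs f` the zeros in `S`, `eqv = Associated`
(`bezout`: two irreducible cubics that are not associated have at most 9 common zeros; images under
`cpt`), `k0 = 1664`: `2 n + 9 k0 (k0-1) < 2 k0 a` because `2 k0 a ≥ 2.6 n - 3328` and
`9 k0 (k0 - 1) = 24905088 < 0.6 n - 3328`.  So `2 |T| ≤ 24905088`, but
`2 |T| ≥ 228 n / 382 ≥ 2.98 * 10^7`. -/
theorem exists_cubic {S : Finset Pt} (hS : Gen S) (hn : 5 * 10 ^ 7 ≤ S.card)
    (hD : dfc S ≤ S.card) :
    ∃ f : Poly, Irreducible f ∧ f.totalDegree = 3 ∧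
      20 * (S.filter (fun a => ¬ Zr f (cpt a))).card ≤ 3 * S.card := by
  by_contra hcon
  push Not at hcon
  obtain ⟨b, hb, hruns⟩ := geom_half hS (select_verts hS hn hD)
  have hT := typical_card hS hD b hb
  have key : ∀ p ∈ S.filter (fun p => b p ≤ 190 ∧
      ∀ v ∈ verts S, p ∈ blk S v → (blk S v).card ≤ 5),
      ∃ f ∈ {f : Poly | Irreducible f ∧ f.totalDegree = 3 ∧ S.card / 1280 ≤ (zrS S f).card},
      ∃ g ∈ {f : Poly | Irreducible f ∧ f.totalDegree = 3 ∧ S.card / 1280 ≤ (zrS S f).card},
      ¬ Associated f g ∧ p ∈ zrS S f ∧ p ∈ zrS S g := by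
    intro p hp
    obtain ⟨hpS, hbp, h5⟩ := Finset.mem_filter.1 hp
    obtain ⟨RR, hRR, hR, hbad⟩ := hruns p hpS
    have hshort := short_card hS hpS h5 RR (by omega) hR (by omega)
    -- long runs have cubics
    have hlong : ∀ R ∈ RR, S.card ≤ 2560 * R.card → ∃ f : Poly, (Irreducible f ∧
        f.totalDegree = 3 ∧ S.card / 1280 ≤ (zrS S f).card) ∧ p ∈ zrS S f ∧
        ∀ v ∈ R, ∀ a ∈ blk S v, Zr f (cpt a) := by
      intro R hRm hl
      obtain ⟨f, hf, hf3, hfz⟩ := run_cubic hS hpS (S.card / 3840) (by omega)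
        (fun v hv => by
          have := blk_card_le hn hD hv
          omega) h5 (hR R hRm) (by omega)
      have h2 := two_mul_run_le hS (hR R hRm) hfz
      refine ⟨f, ⟨hf, hf3, by omega⟩, ?_, hfz⟩
      obtain ⟨v, hv⟩ := Finset.card_pos.1 (by omega : 0 < R.card)
      exact mem_zrS.2 ⟨hpS, hfz v hv p ((hR R hRm).mem v hv).2.1⟩
    by_contra hno
    push Not at hno
    have hex : ∃ R ∈ RR, S.card ≤ 2560 * R.card := by
      by_contra hex
      push Not at hex
      have : S.filter (fun a => a ≠ p ∧ ∀ R ∈ RR, S.card ≤ 2560 * R.card →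
          ∀ v ∈ R, a ∉ blk S v) = S.erase p := by
        ext a
        rw [Finset.mem_filter, Finset.mem_erase]
        constructor
        · rintro ⟨h1, h2, -⟩
          exact ⟨h2, h1⟩
        · rintro ⟨h1, h2⟩
          exact ⟨h2, h1, fun R hRm hl => absurd hl (not_le.2 (hex R hRm))⟩
      rw [this, Finset.card_erase_of_mem hpS] at hshort
      omega
    obtain ⟨R0, hR0, hl0⟩ := hex
    obtain ⟨f, hfO, hpf, hfz⟩ := hlong R0 hR0 hl0
    have hsub : S.filter (fun a => ¬ Zr f (cpt a)) ⊆ S.filter (fun a => a ≠ p ∧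
        ∀ R ∈ RR, S.card ≤ 2560 * R.card → ∀ v ∈ R, a ∉ blk S v) := by
      intro a ha
      obtain ⟨haS, haf⟩ := Finset.mem_filter.1 ha
      refine Finset.mem_filter.2 ⟨haS, ?_, ?_⟩
      · rintro rfl
        exact haf (mem_zrS.1 hpf).2
      · intro R hRm hl v hv hav
        obtain ⟨g, hgO, hpg, hgz⟩ := hlong R hRm hl
        have hass : Associated f g := by
          by_contra hna
          exact hno f hfO g hgO hna hpf hpg
        exact haf ((zr_of_associated hass _).2 (hgz v hv a hav))
    have h1 := Finset.card_le_card hsub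
    have h2 := hcon f hfO.1 hfO.2.1
    omega
  have hmany := many_points S (S.filter (fun p => b p ≤ 190 ∧
      ∀ v ∈ verts S, p ∈ blk S v → (blk S v).card ≤ 5))
    {f : Poly | Irreducible f ∧ f.totalDegree = 3 ∧ S.card / 1280 ≤ (zrS S f).card}
    (zrS S) Associated ⟨Associated.refl, Associated.symm, Associated.trans⟩
    (by
      intro f g hfg
      ext a
      rw [mem_zrS, mem_zrS, zr_of_associated hfg])
    (fun f a ha => (mem_zrS.1 ha).1) (S.card / 1280) 1664 (fun f hf => hf.2.2)
    (fun f hf g hg hfg => card_zrS_inter hf.1 hg.1 hf.2.1 hg.2.1 hfg) (by omega) key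
  omega

end Pool.Agent.Lib.MP_214199_co.Eff
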