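import Pool.Agent.Lib.MP_214199_co.Eff.Hex

/-!
# A strip of flat vertices
-/

set_option autoImplicit false

namespace Pool.Agent.Lib.MP_214199_co.Eff

open Finset

variable {S : Finset Pt}

/-- `d i`, `i ≤ L`, are darts of a line at consecutive vertices, all in the direction `s0`. -/
structure IsSeq (al : Equiv.Perm (D S)) (s0 : Bool) (d : ℕ → D S) (L : ℕ) : Prop where
  s : ∀ i ≤ L, (d i).1.s = s0
  ne : ∀ i ≤ L, al (d i) ≠ d i
  next : ∀ i < L, d (i + 1) = op (al (d i))

theorem st_op_op (d : D S) : op (op d) = d := by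
  apply Subtype.ext
  apply Dart.ext
  · rfl
  · rfl
  · show (!!d.1.s) = d.1.s
    rw [Bool.not_not]

/-- at a triple point two rotations are the opposite of the inverse rotation -/
theorem st_two (hS : Gen S) {sg : Equiv.Perm (D S)} (hr : IsRot S sg) {d : D S}
    (h : (blk S d.1.v).card = 3) : sg (sg d) = op (sg.symm d) := by
  have h1 := (rot3 hS hr (sg.symm d) (by rw [rot_symm_v hr]; exact h)).1
  rwa [Equiv.apply_symm_apply] at h1

theorem st_symm2 (hS : Gen S) {sg : Equiv.Perm (D S)} (hr : IsRot S sg) {d : D S}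
    (h : (blk S d.1.v).card = 3) : sg.symm (sg.symm d) = op (sg d) := by
  have h1 := (rot3 hS hr (sg.symm (sg.symm d)) (by
    rw [rot_symm_v hr, rot_symm_v hr]; exact h)).1
  rw [Equiv.apply_symm_apply, Equiv.apply_symm_apply] at h1
  rw [h1, st_op_op]

/-- Two flat consecutive vertices `d`, `e = op (al d)`: the lower parallel darts are consecutive on
the same line, and the other two lines of the lower vertex are the line `(sg e).p` and the line
`(sg (sg d)).p`; the upper parallel line is the same too.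
Proof (`σ = sg`, `α = al`, all relations `hex_rel` are written (R) `α σ⁻¹ α x = σ α σ x` for darts
`x` at a flat vertex; at triple points `σ³ = op`, `op` commutes with `σ`; `σ⁻¹ x` is a dart at the
same vertex).  `α d = op e = σ³ e`.
 * (R) for `x = σ⁻¹ d`: `α σ⁻¹ α σ⁻¹ d = σ α d = σ⁴ e`, so `α σ⁴ e = σ⁻¹ α σ⁻¹ d`.
 * `low d = σ⁻² α σ⁻¹ d = σ⁻¹ α σ⁴ e`, so `σ (low d) = α σ⁴ e` has the line of `σ⁴ e = op σ e`;
   `σ² (low d) = α σ⁻¹ d` has the line of `σ⁻¹ d = op (σ² d)`.
 * (R) for `x = σ⁴ e`: `α σ⁻¹ α σ⁴ e = σ α σ⁵ e = σ α σ⁻¹ e`; so `α (low d) = σ α σ⁻¹ e` and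
   `op (α (low d)) = σ⁻³ σ α σ⁻¹ e = σ⁻² α σ⁻¹ e = low e` (its vertex is a triple point).
 * upper line: (R) for `x = d`: `α σ⁻¹ α d = σ α σ d`, `σ⁻¹ α d = σ² e`, so `α σ² e = σ α σ d`.
   `out (σ e)` is the line of `σ α σ² e = σ² α σ d`, that is of `σ⁻¹ α σ d`, which is `out (σ d)`. -/
theorem low_next (hS : Gen S) {sg al : Equiv.Perm (D S)} (hr : IsRot S sg) (ha : IsRev S al)
    {d e : D S} (hd : Flat sg al d) (he : Flat sg al e) (h : e = op (al d)) :
    low sg al e = op (al (low sg al d)) ∧ (low sg al e).1.p = (low sg al d).1.p ∧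
      (sg (low sg al d)).1.p = (sg e).1.p ∧ (sg (sg (low sg al d))).1.p = (sg (sg d)).1.p ∧
      out sg al (sg e) = out sg al (sg d) := by
  have hop : al d = op e := by rw [h, st_op_op]
  have hed : (sg.symm e).1.v = e.1.v := rot_symm_v hr e
  have cd : (blk S d.1.v).card = 3 := hd.1
  have ce : (blk S e.1.v).card = 3 := he.1
  have e3 : op (sg (sg e)) = sg.symm e := by rw [st_two hS hr ce, st_op_op]
  -- (i)
  have r1 := hex_rel ha (flat_of_v_eq hd (rot_symm_v hr d))
  rw [Equiv.apply_symm_apply, hop, rot_op hS hr] at r1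
  have r2 : sg.symm (al (sg.symm d)) = al (op (sg e)) := by rw [← r1, ha.al_al]
  have l1 : low sg al d = sg.symm (al (op (sg e))) := by
    show sg.symm (sg.symm (al (sg.symm d))) = _
    rw [r2]
  have l2 : sg (low sg al d) = al (op (sg e)) := by rw [l1, Equiv.apply_symm_apply]
  have l3 : sg (sg (low sg al d)) = al (sg.symm d) := by
    show sg (sg (sg.symm (sg.symm (al (sg.symm d))))) = _
    rw [Equiv.apply_symm_apply, Equiv.apply_symm_apply]
  -- (ii)
  have hsge : (op (sg e)).1.v = e.1.v := hr.v e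
  have r3 := hex_rel ha (flat_of_v_eq he hsge)
  rw [← l1, rot_op hS hr, e3] at r3
  have cy : (blk S (al (sg.symm e)).1.v).card = 3 := (he.2 _ hed).2
  have l4 : low sg al e = op (al (low sg al d)) := by
    rw [r3, ← st_symm2 hS hr cy]
    rfl
  -- (iii)
  have r4 := hex_rel ha hd
  rw [hop, rot_symm_op hS hr, ← st_two hS hr ce] at r4
  have r5 := hex_rel ha (flat_of_v_eq he (hr.v e))
  rw [r4] at r5
  have cz : (blk S (al (sg d)).1.v).card = 3 := (hd.2 _ (hr.v d)).2
  refine ⟨l4, ?_, ?_, ?_, ?_⟩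
  · rw [l4]
    exact ha.p _
  · rw [l2]
    exact ha.p _
  · rw [l3, ha.p, st_two hS hr cd]
    rfl
  · show (sg.symm (al (sg e))).1.p = (sg.symm (al (sg d))).1.p
    rw [← ha.p (sg.symm (al (sg e))), r5, st_two hS hr cz]
    rfl

/-- The nine lines of the hexagon of the middle one of three consecutive vertices, `d`, `e`, `f`
(`e` flat, `f` the next one, `d` the previous one): the line `p` itself, the upper and the lower
parallel line and the `q`'s and `r`'s of the three vertices.
Proof.  As above: `out e` is the line of `σ⁻¹ α e = σ² f`; `out (σ e)` is the upper line;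
`out (σ² e)` is the line of `σ α σ³ e = σ α op e = σ d`; `out (σ³ e)` is the line of
`σ⁻¹ α op e = σ⁻¹ d`, that is of `σ² d` (`σ³ = op` at the triple point `d.v`); `out (σ⁴ e)` is the
line of `σ α σ⁵ e = σ α σ⁻¹ e`, that is of `σ⁻² α σ⁻¹ e = low e`; `out (σ⁵ e)` is the line of
`σ α e = σ⁴ f`, that is of `σ f`. -/
theorem hex_eq (hS : Gen S) {sg al : Equiv.Perm (D S)} (hr : IsRot S sg) (ha : IsRev S al)
    {d e f : D S} (h : Flat sg al e) (hde : e = op (al d)) (hne : al d ≠ d) (hef : f = op (al e)) :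
    hex sg al e = {e.1.p, out sg al (sg e), (low sg al e).1.p, (sg d).1.p, (sg e).1.p, (sg f).1.p,
      (sg (sg d)).1.p, (sg (sg e)).1.p, (sg (sg f)).1.p} := by
  have hop : al d = op e := by rw [hde, st_op_op]
  have hop' : al (op e) = d := by rw [← hop, ha.al_al]
  have hof : al e = op f := by rw [hef, st_op_op]
  have ce : (blk S e.1.v).card = 3 := h.1
  have cd : (blk S d.1.v).card = 3 := by
    have := (h.2 (op e) rfl).2
    rwa [hop'] at this
  have cf : (blk S f.1.v).card = 3 := by
    have := (h.2 e rfl).2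
    rw [hof] at this
    exact this
  have e3 : op (sg (sg e)) = sg.symm e := by rw [st_two hS hr ce, st_op_op]
  have hed : (sg.symm e).1.v = e.1.v := rot_symm_v hr e
  have hv2 : (sg (sg e)).1.v = e.1.v := (hr.v _).trans (hr.v _)
  have s3 : sg (sg (sg e)) = op e := (rot3 hS hr e ce).1
  have s4 : sg (sg (sg (sg e))) = op (sg e) := by rw [s3, rot_op hS hr]
  have s5 : sg (sg (sg (sg (sg e)))) = sg.symm e := by rw [s4, rot_op hS hr, e3]
  have o0 : out sg al e = (sg (sg f)).1.p := by
    show (sg.symm (al e)).1.p = _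
    rw [hof, rot_symm_op hS hr, ← st_two hS hr cf]
  have o2 : out sg al (sg (sg e)) = (sg d).1.p := by
    have r := hex_rel ha (flat_of_v_eq h hv2)
    rw [s3, hop'] at r
    show (sg.symm (al (sg (sg e)))).1.p = _
    rw [← ha.p (sg.symm (al (sg (sg e)))), r]
  have o3 : out sg al (sg (sg (sg e))) = (sg (sg d)).1.p := by
    rw [s3]
    show (sg.symm (al (op e))).1.p = _
    rw [hop', st_two hS hr cd]
    rfl
  have o5 : out sg al (sg (sg (sg (sg (sg e))))) = (sg f).1.p := by
    rw [s5]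
    have r := hex_rel ha (flat_of_v_eq h hed)
    rw [Equiv.apply_symm_apply, hof, rot_op hS hr] at r
    show (sg.symm (al (sg.symm e))).1.p = _
    rw [← ha.p (sg.symm (al (sg.symm e))), r]
    rfl
  have o4 : out sg al (sg (sg (sg (sg e)))) = (low sg al e).1.p := by
    have hv4 : (sg (sg (sg (sg e)))).1.v = e.1.v := by
      rw [s4]
      exact hr.v e
    have r := hex_rel ha (flat_of_v_eq h hv4)
    rw [s5] at r
    have cy : (blk S (al (sg.symm e)).1.v).card = 3 := (h.2 _ hed).2
    show (sg.symm (al (sg (sg (sg (sg e)))))).1.p = (sg.symm (sg.symm (al (sg.symm e)))).1.p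
    rw [← ha.p (sg.symm (al (sg (sg (sg (sg e)))))), r, st_symm2 hS hr cy]
    rfl
  unfold hex
  rw [o0, o2, o3, o4, o5]
  ext x
  simp only [Finset.mem_insert, Finset.mem_singleton]
  tauto

end Pool.Agent.Lib.MP_214199_co.Eff
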