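import Pool.Agent.Lib.MP_214199_co.Eff.StripRows

/-!
# One cubic for a run of good vertices
-/

set_option autoImplicit false

namespace Pool.Agent.Lib.MP_214199_co.Eff

open Finset

variable {S : Finset Pt}

/-- The vertices of a sequence of darts are different. -/
theorem stripMain_v_ne {al : Equiv.Perm (D S)} (ha : IsRev S al) {s0 : Bool} {d : ℕ → D S} {L : ℕ}
    (hd : IsSeq al s0 d L) {i j : ℕ} (hij : i < j) (hj : j ≤ L) : (d i).1.v ≠ (d j).1.v := by
  have hv : ∀ n, n < L → (d (n + 1)).1.v = (al (d n)).1.v := by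
    intro n hn
    rw [hd.next n hn]
    rfl
  cases s0 with
  | true =>
    have key : ∀ k, i + 1 + k ≤ L → (d i).1.v.1 < (d (i + 1 + k)).1.v.1 := by
      intro k
      induction k with
      | zero =>
        intro h
        rw [add_zero, hv i (by omega)]
        exact ha.lt _ (hd.ne i (by omega)) (hd.s i (by omega))
      | succ k ih =>
        intro h
        refine (ih (by omega)).trans ?_
        rw [show i + 1 + (k + 1) = (i + 1 + k) + 1 from by ring, hv _ (by omega)]
        exact ha.lt _ (hd.ne _ (by omega)) (hd.s _ (by omega))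
    intro h
    have h1 := key (j - (i + 1)) (by omega)
    rw [show i + 1 + (j - (i + 1)) = j from by omega, h] at h1
    exact lt_irrefl _ h1
  | false =>
    have key : ∀ k, i + 1 + k ≤ L → (d (i + 1 + k)).1.v.1 < (d i).1.v.1 := by
      intro k
      induction k with
      | zero =>
        intro h
        rw [add_zero, hv i (by omega)]
        exact ha.gt _ (hd.ne i (by omega)) (hd.s i (by omega))
      | succ k ih =>
        intro h
        refine lt_trans ?_ (ih (by omega))
        rw [show i + 1 + (k + 1) = (i + 1 + k) + 1 from by ring, hv _ (by omega)]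
        exact ha.gt _ (hd.ne _ (by omega)) (hd.s _ (by omega))
    intro h
    have h1 := key (j - (i + 1)) (by omega)
    rw [show i + 1 + (j - (i + 1)) = j from by omega, h] at h1
    exact lt_irrefl _ h1

/-- One of two disjoint pairs of vertices avoids `v0`. -/
theorem stripMain_pair {al : Equiv.Perm (D S)} (ha : IsRev S al) {s0 : Bool} {d : ℕ → D S} {L : ℕ}
    (hd : IsSeq al s0 d L) {i j k l : ℕ} (hij : i < j) (hjk : j < k) (hkl : k < l) (hl : l ≤ L)
    (v0 : Pt) : ((d i).1.v ≠ v0 ∧ (d j).1.v ≠ v0) ∨ ((d k).1.v ≠ v0 ∧ (d l).1.v ≠ v0) := by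
  by_cases h1 : (d i).1.v = v0
  · right
    rw [← h1]
    exact ⟨(stripMain_v_ne ha hd (by omega) (by omega)).symm,
      (stripMain_v_ne ha hd (by omega) (by omega)).symm⟩
  · by_cases h2 : (d j).1.v = v0
    · right
      rw [← h2]
      exact ⟨(stripMain_v_ne ha hd (by omega) (by omega)).symm,
        (stripMain_v_ne ha hd (by omega) (by omega)).symm⟩
    · exact Or.inl ⟨h1, h2⟩

/-- The induction along the strip, abstractly. -/
theorem stripMain_ind {Z : Set Pt} {L : ℕ} (hL : 2 ≤ L) {p P0 P1 P2 : Pt} {q r : ℕ → Pt}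
    (h0 : ∀ i, i + 2 ≤ L → ∀ x ∈ ({p, P0, P1, q i, q (i + 1), q (i + 2), r i, r (i + 1),
      r (i + 2)} : Finset Pt), (∀ y ∈ ({p, P0, P1, q i, q (i + 1), q (i + 2), r i, r (i + 1),
      r (i + 2)} : Finset Pt), y ≠ x → y ∈ Z) → x ∈ Z)
    (h1 : ∀ i, i + 3 ≤ L → ∀ x ∈ ({P1, p, P2, q (i + 1), q (i + 2), q (i + 3), r i, r (i + 1),
      r (i + 2)} : Finset Pt), (∀ y ∈ ({P1, p, P2, q (i + 1), q (i + 2), q (i + 3), r i, r (i + 1),
      r (i + 2)} : Finset Pt), y ≠ x → y ∈ Z) → x ∈ Z)
    (hp : p ∈ Z) (hP0 : P0 ∈ Z) (hP1 : P1 ∈ Z) (hP2 : P2 ∈ Z) (hq0 : q 0 ∈ Z) (hq1 : q 1 ∈ Z)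
    (hr0 : r 0 ∈ Z) (hr1 : r 1 ∈ Z) (hr2 : r 2 ∈ Z) :
    ∀ i ≤ L, q i ∈ Z ∧ r i ∈ Z := by
  have hq2 : q 2 ∈ Z := by
    refine h0 0 (by omega) (q 2) (by simp) ?_
    intro y hy hne
    simp only [Finset.mem_insert, Finset.mem_singleton, zero_add] at hy
    rcases hy with rfl | rfl | rfl | rfl | rfl | rfl | rfl | rfl | rfl
    all_goals first | assumption | exact absurd rfl hne
  have key : ∀ n, n + 2 ≤ L → ∀ i ≤ n + 2, q i ∈ Z ∧ r i ∈ Z := by
    intro n
    induction n with
    | zero =>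
      intro _ i hi
      have : i = 0 ∨ i = 1 ∨ i = 2 := by omega
      rcases this with rfl | rfl | rfl
      · exact ⟨hq0, hr0⟩
      · exact ⟨hq1, hr1⟩
      · exact ⟨hq2, hr2⟩
    | succ n ih =>
      intro hn
      have ih' := ih (by omega)
      have e0 := ih' n (by omega)
      have e1 := ih' (n + 1) (by omega)
      have e2 := ih' (n + 2) (by omega)
      have e3 : q (n + 3) ∈ Z := by
        refine h1 n (by omega) (q (n + 3)) (by simp) ?_
        intro y hy hne
        simp only [Finset.mem_insert, Finset.mem_singleton] at hy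
        rcases hy with rfl | rfl | rfl | rfl | rfl | rfl | rfl | rfl | rfl
        all_goals first
          | assumption
          | exact absurd rfl hne
          | exact e0.1
          | exact e0.2
          | exact e1.1
          | exact e1.2
          | exact e2.1
          | exact e2.2
      have e4 : r (n + 3) ∈ Z := by
        refine h0 (n + 1) (by omega) (r (n + 1 + 2)) (by simp) ?_
        intro y hy hne
        simp only [Finset.mem_insert, Finset.mem_singleton] at hy
        rcases hy with rfl | rfl | rfl | rfl | rfl | rfl | rfl | rfl | rfl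
        all_goals first
          | assumption
          | exact absurd rfl hne
          | exact e0.1
          | exact e0.2
          | exact e1.1
          | exact e1.2
          | exact e2.1
          | exact e2.2
      intro i hi
      rcases Nat.lt_or_ge i (n + 3) with h | h
      · exact ih' i (by omega)
      · have : i = n + 3 := by omega
        subst this
        exact ⟨e3, e4⟩
  intro i hi
  exact key (L - 2) (by omega) i (by omega)

/-- Two lines `x`, `y` in blocks with `q` and with different `r`'s are different. -/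
theorem stripMain_ne (hS : Gen S) {x y q r r' u u' : Pt} (hu : blk S u = {x, q, r})
    (hu' : blk S u' = {y, q, r'}) (hxq : x ≠ q) (hxr : x ≠ r) (hqr : q ≠ r) (hne : r ≠ r') :
    x ≠ y := by
  rintro rfl
  have h : u = u' := by
    apply vert_unique hS hxq
    · rw [hu]
      simp
    · rw [hu]
      simp
    · rw [hu']
      simp
    · rw [hu']
      simp
  have hr : r ∈ blk S u' := by
    rw [← h, hu]
    simp
  rw [hu'] at hr
  simp only [Finset.mem_insert, Finset.mem_singleton] at hr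
  rcases hr with h1 | h1 | h1
  · exact hxr h1.symm
  · exact hqr h1.symm
  · exact hne h1

/-- The members of the basis. -/
theorem stripMain_mem {p P0 P1 P2 q0 q1 r0 r1 r2 : Pt} {Z : Set Pt}
    (hb : ∀ b ∈ Finset.univ.image ![p, P0, P1, P2, q0, q1, r0, r1, r2], b ∈ Z) :
    p ∈ Z ∧ P0 ∈ Z ∧ P1 ∈ Z ∧ P2 ∈ Z ∧ q0 ∈ Z ∧ q1 ∈ Z ∧ r0 ∈ Z ∧ r1 ∈ Z ∧ r2 ∈ Z :=
  ⟨hb _ (Finset.mem_image.2 ⟨0, Finset.mem_univ _, rfl⟩),
    hb _ (Finset.mem_image.2 ⟨1, Finset.mem_univ _, rfl⟩),
    hb _ (Finset.mem_image.2 ⟨2, Finset.mem_univ _, rfl⟩),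
    hb _ (Finset.mem_image.2 ⟨3, Finset.mem_univ _, rfl⟩),
    hb _ (Finset.mem_image.2 ⟨4, Finset.mem_univ _, rfl⟩),
    hb _ (Finset.mem_image.2 ⟨5, Finset.mem_univ _, rfl⟩),
    hb _ (Finset.mem_image.2 ⟨6, Finset.mem_univ _, rfl⟩),
    hb _ (Finset.mem_image.2 ⟨7, Finset.mem_univ _, rfl⟩),
    hb _ (Finset.mem_image.2 ⟨8, Finset.mem_univ _, rfl⟩)⟩

/-- Ten inequalities give injectivity. -/
theorem stripMain_inj {P : Fin 5 → Pt} (a01 : P 0 ≠ P 1) (a02 : P 0 ≠ P 2) (a03 : P 0 ≠ P 3)
    (a04 : P 0 ≠ P 4) (a12 : P 1 ≠ P 2) (a13 : P 1 ≠ P 3) (a14 : P 1 ≠ P 4) (a23 : P 2 ≠ P 3)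
    (a24 : P 2 ≠ P 4) (a34 : P 3 ≠ P 4) : Function.Injective P := by
  intro x y h
  fin_cases x <;> fin_cases y
  all_goals first
    | rfl
    | exact absurd h a01
    | exact absurd h a02
    | exact absurd h a03
    | exact absurd h a04
    | exact absurd h a12
    | exact absurd h a13
    | exact absurd h a14
    | exact absurd h a23
    | exact absurd h a24
    | exact absurd h a34
    | exact absurd h.symm a01
    | exact absurd h.symm a02
    | exact absurd h.symm a03
    | exact absurd h.symm a04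
    | exact absurd h.symm a12
    | exact absurd h.symm a13
    | exact absurd h.symm a14
    | exact absurd h.symm a23
    | exact absurd h.symm a24
    | exact absurd h.symm a34

/-- All lines of the strip. -/
theorem stripMain_all {sg al : Equiv.Perm (D S)} {L : ℕ} (hL : 2 ≤ L) {p : Pt} {P : Fin 5 → Pt}
    {q r : ℕ → Pt}
    (hE0 : ∀ i, i + 2 ≤ L → ∃ e, Flat sg al e ∧ hex sg al e =
        {p, P 0, P 1, q i, q (i + 1), q (i + 2), r i, r (i + 1), r (i + 2)})
    (hE1 : ∀ i, i + 3 ≤ L → ∃ e, Flat sg al e ∧ hex sg al e =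
        {P 1, p, P 2, q (i + 1), q (i + 2), q (i + 3), r i, r (i + 1), r (i + 2)})
    {Z : Set Pt} (hZ : HexClosed sg al Z)
    (hp : p ∈ Z) (hP0 : P 0 ∈ Z) (hP1 : P 1 ∈ Z) (hP2 : P 2 ∈ Z) (hq0 : q 0 ∈ Z) (hq1 : q 1 ∈ Z)
    (hr0 : r 0 ∈ Z) (hr1 : r 1 ∈ Z) (hr2 : r 2 ∈ Z) :
    ∀ i ≤ L, q i ∈ Z ∧ r i ∈ Z := by
  refine stripMain_ind hL ?_ ?_ hp hP0 hP1 hP2 hq0 hq1 hr0 hr1 hr2
  · intro i hi x hx hy
    obtain ⟨e, he, h⟩ := hE0 i hi
    exact hZ e he x (by rw [h]; exact hx) (by rw [h]; exact hy)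
  · intro i hi x hx hy
    obtain ⟨e, he, h⟩ := hE1 i hi
    exact hZ e he x (by rw [h]; exact hx) (by rw [h]; exact hy)

/-- The strip.
Proof.  Take `q`, `r`, `P` from `strip_rows`, `p = (d 0).1.p`, `v i = (d i).1.v`.
`L = 0`: `B = {p, q 0, r 0}`; `L = 1`: `B = {p, q 0, r 0, q 1, r 1}`; `L ≥ 2`:
`B = {p, P 0, P 1, P 2, q 0, q 1, r 0, r 1, r 2}` (subset of `S`: all of them are in blocks or
hexagons, `hex_subset`).
Claim (`L ≥ 2`): `q i, r i ∈ Z` for all `i ≤ L`.  `i ≤ 1` and `r 2`: in `B`.  `q 2 ∈ Z`: row 0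
hexagon of vertex `1`.  Step from `≤ i` to `i + 1 ≤ L`, `i ≥ 2`: the row 1 hexagon of vertex `i - 1`,
`{P 1, p, P 2, q (i-1), q i, q (i+1), r (i-2), r (i-1), r i}`, gives `q (i+1) ∈ Z`; then the row 0
hexagon of vertex `i` gives `r (i+1) ∈ Z`.  With the blocks `{p, q i, r i}` this is the first claim.
If `9 ≤ L`: `P 3 ∈ Z` by the row 2 hexagon of vertex 1, `P 4 ∈ Z` by the row 3 hexagon of vertex 1.
Injectivity of `P` and `P k ≠ p`: the six lines `P 0, p, P 1, ..., P 4` are in blocks with `q 5` and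
with `r 6, r 5, r 4, r 3, r 2, r 1` respectively.  If two of the six were equal the two blocks would
have two points in common (that line and `q 5`), so they would be equal, `r a = r b` with `a ≠ b`
(three different elements each); but `p, r a` determine `v a` (`vert_unique`), and the `v i` are
different (their abscissae are strictly monotone: `IsSeq`, `IsRev.lt`, `IsRev.gt`).
Last claim: for `P 0` the pair `a = q i`, `b = r (i+1)`, `i + 1 ≤ L`; for `P k.succ` the pair
`a = q (i+k+1)`, `b = r i`, `i + k + 1 ≤ L` (different from `p` and in the blocks of `v (i+k+1)`,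
`v i`); there are at least five such `i` and `v0` is equal to at most one `v j`, which excludes at
most two `i`. -/
theorem strip (hS : Gen S) {sg al : Equiv.Perm (D S)} (hr : IsRot S sg) (ha : IsRev S al)
    (s0 : Bool) (d : ℕ → D S) (L : ℕ) (hd : IsSeq al s0 d L) (hg : ∀ i ≤ L, Good sg al (d i)) :
    ∃ B : Finset Pt, B.card ≤ 9 ∧ B ⊆ S ∧
      (∀ Z : Set Pt, HexClosed sg al Z → (∀ b ∈ B, b ∈ Z) →
        ∀ i ≤ L, ∀ a ∈ blk S (d i).1.v, a ∈ Z) ∧
      (9 ≤ L → ∃ P : Fin 5 → Pt, Function.Injective P ∧ ∀ k, P k ∈ S ∧ P k ≠ (d 0).1.p ∧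
        (∀ Z : Set Pt, HexClosed sg al Z → (∀ b ∈ B, b ∈ Z) → P k ∈ Z) ∧
        ∀ v0 : Pt, ∃ i ≤ L, ∃ j ≤ L, (d i).1.v ≠ v0 ∧ (d j).1.v ≠ v0 ∧
          ∃ a ∈ blk S (d i).1.v, ∃ b ∈ blk S (d j).1.v, a ≠ (d 0).1.p ∧ b ≠ (d 0).1.p ∧ a ≠ b ∧
            a ≠ P k ∧ b ≠ P k ∧ ∃ u, P k ∈ blk S u ∧ a ∈ blk S u ∧ b ∈ blk S u) := by
  obtain ⟨q, r, P, -, hB, hC, hD, hE0, hE1, hE2, hE3⟩ := strip_rows hS hr ha s0 d L hd hg
  have hmem : ∀ i ≤ L, (d 0).1.p ∈ S ∧ q i ∈ S ∧ r i ∈ S := by
    intro i hi
    have h := (hB i hi).1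
    refine ⟨blk_subset (d i).1.v ?_, blk_subset (d i).1.v ?_, blk_subset (d i).1.v ?_⟩
    all_goals
      rw [h]
      simp
  have hblk : ∀ Z : Set Pt, (d 0).1.p ∈ Z → ∀ i ≤ L, q i ∈ Z → r i ∈ Z →
      ∀ a ∈ blk S (d i).1.v, a ∈ Z := by
    intro Z hp i hi hq hr' a ha'
    rw [(hB i hi).1] at ha'
    simp only [Finset.mem_insert, Finset.mem_singleton] at ha'
    rcases ha' with rfl | rfl | rfl
    · exact hp
    · exact hq
    · exact hr'
  rcases Nat.lt_or_ge L 2 with hL | hL
  · -- `L ≤ 1`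
    rcases Nat.lt_or_ge L 1 with hL1 | hL1
    · refine ⟨Finset.univ.image ![(d 0).1.p, q 0, r 0], ?_, ?_, ?_, fun h => absurd h (by omega)⟩
      · exact Finset.card_image_le.trans (by simp)
      · intro x hx
        rw [Finset.mem_image] at hx
        obtain ⟨k, -, rfl⟩ := hx
        obtain ⟨h1, h2, h3⟩ := hmem 0 (Nat.zero_le _)
        fin_cases k
        · exact h1
        · exact h2
        · exact h3
      · intro Z hZ hb i hi
        have hi0 : i = 0 := by omega
        subst hi0
        refine hblk Z ?_ 0 hi ?_ ?_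
        · exact hb _ (Finset.mem_image.2 ⟨0, Finset.mem_univ _, rfl⟩)
        · exact hb _ (Finset.mem_image.2 ⟨1, Finset.mem_univ _, rfl⟩)
        · exact hb _ (Finset.mem_image.2 ⟨2, Finset.mem_univ _, rfl⟩)
    · refine ⟨Finset.univ.image ![(d 0).1.p, q 0, r 0, q 1, r 1], ?_, ?_, ?_,
        fun h => absurd h (by omega)⟩
      · exact Finset.card_image_le.trans (by simp)
      · intro x hx
        rw [Finset.mem_image] at hx
        obtain ⟨k, -, rfl⟩ := hx
        obtain ⟨h1, h2, h3⟩ := hmem 0 (Nat.zero_le _)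
        obtain ⟨-, h4, h5⟩ := hmem 1 hL1
        fin_cases k
        · exact h1
        · exact h2
        · exact h3
        · exact h4
        · exact h5
      · intro Z hZ hb i hi
        have hi0 : i = 0 ∨ i = 1 := by omega
        have hp : (d 0).1.p ∈ Z := hb _ (Finset.mem_image.2 ⟨0, Finset.mem_univ _, rfl⟩)
        rcases hi0 with rfl | rfl
        · refine hblk Z hp 0 hi ?_ ?_
          · exact hb _ (Finset.mem_image.2 ⟨1, Finset.mem_univ _, rfl⟩)
          · exact hb _ (Finset.mem_image.2 ⟨2, Finset.mem_univ _, rfl⟩)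
        · refine hblk Z hp 1 hi ?_ ?_
          · exact hb _ (Finset.mem_image.2 ⟨3, Finset.mem_univ _, rfl⟩)
          · exact hb _ (Finset.mem_image.2 ⟨4, Finset.mem_univ _, rfl⟩)
  · -- `2 ≤ L`
    have hP0S : P 0 ∈ S := by
      obtain ⟨u, hu, -⟩ := hC 0 (by omega)
      apply blk_subset u
      rw [hu]
      simp
    have hP1S : P 1 ∈ S := by
      obtain ⟨u, hu, -⟩ := hD 0 0 (by simp; omega)
      apply blk_subset u
      rw [hu]
      simp
    have hP2S : P 2 ∈ S := by
      obtain ⟨u, hu, -⟩ := hD 1 0 (by simp; omega)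
      apply blk_subset u
      rw [hu]
      simp
    refine ⟨Finset.univ.image ![(d 0).1.p, P 0, P 1, P 2, q 0, q 1, r 0, r 1, r 2], ?_, ?_, ?_, ?_⟩
    · exact Finset.card_image_le.trans (by simp)
    · intro x hx
      rw [Finset.mem_image] at hx
      obtain ⟨k, -, rfl⟩ := hx
      obtain ⟨h1, h2, h3⟩ := hmem 0 (Nat.zero_le _)
      obtain ⟨-, h4, h5⟩ := hmem 1 (by omega)
      obtain ⟨-, -, h6⟩ := hmem 2 hL
      fin_cases k
      · exact h1
      · exact hP0S
      · exact hP1S
      · exact hP2S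
      · exact h2
      · exact h4
      · exact h3
      · exact h5
      · exact h6
    · intro Z hZ hb
      obtain ⟨b0, b1, b2, b3, b4, b5, b6, b7, b8⟩ := stripMain_mem hb
      have h := stripMain_all hL hE0 hE1 hZ b0 b1 b2 b3 b4 b5 b6 b7 b8
      intro i hi
      exact hblk Z b0 i hi (h i hi).1 (h i hi).2
    · intro hL9
      -- the different `r`'s
      have hr_ne : ∀ i j, i < j → j ≤ L → r i ≠ r j := by
        intro i j hij hj h
        obtain ⟨h1, -, h2, -⟩ := hB i (by omega)
        obtain ⟨h3, -, h4, -⟩ := hB j hj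
        apply stripMain_v_ne ha hd hij hj
        apply vert_unique hS h2
        · rw [h1]
          simp
        · rw [h1]
          simp
        · rw [h3]
          simp
        · rw [h3, h]
          simp
      -- the six lines
      obtain ⟨u0, k0, k0', k0'', k0'''⟩ := hC 5 (by omega)
      obtain ⟨k1, k1', k1'', k1'''⟩ := hB 5 (by omega)
      obtain ⟨u2, k2, k2', k2'', k2'''⟩ := hD 0 4 (by simp; omega)
      obtain ⟨u3, k3, k3', k3'', k3'''⟩ := hD 1 3 (by simp; omega)
      obtain ⟨u4, k4, k4', k4'', k4'''⟩ := hD 2 2 (by simp; omega)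
      obtain ⟨u5, k5, k5', k5'', k5'''⟩ := hD 3 1 (by simp; omega)
      have hne : ∀ k : Fin 5, P k ≠ (d 0).1.p := by
        intro k
        fin_cases k
        · exact stripMain_ne hS k0 k1 k0' k0'' k0''' (hr_ne 5 6 (by omega) (by omega)).symm
        · exact stripMain_ne hS k2 k1 k2' k2'' k2''' (hr_ne 4 5 (by omega) (by omega))
        · exact stripMain_ne hS k3 k1 k3' k3'' k3''' (hr_ne 3 5 (by omega) (by omega))
        · exact stripMain_ne hS k4 k1 k4' k4'' k4''' (hr_ne 2 5 (by omega) (by omega))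
        · exact stripMain_ne hS k5 k1 k5' k5'' k5''' (hr_ne 1 5 (by omega) (by omega))
      have a01 : P 0 ≠ P 1 :=
        stripMain_ne hS k0 k2 k0' k0'' k0''' (hr_ne 4 6 (by omega) (by omega)).symm
      have a02 : P 0 ≠ P 2 :=
        stripMain_ne hS k0 k3 k0' k0'' k0''' (hr_ne 3 6 (by omega) (by omega)).symm
      have a03 : P 0 ≠ P 3 :=
        stripMain_ne hS k0 k4 k0' k0'' k0''' (hr_ne 2 6 (by omega) (by omega)).symm
      have a04 : P 0 ≠ P 4 :=
        stripMain_ne hS k0 k5 k0' k0'' k0''' (hr_ne 1 6 (by omega) (by omega)).symm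
      have a12 : P 1 ≠ P 2 :=
        stripMain_ne hS k2 k3 k2' k2'' k2''' (hr_ne 3 4 (by omega) (by omega)).symm
      have a13 : P 1 ≠ P 3 :=
        stripMain_ne hS k2 k4 k2' k2'' k2''' (hr_ne 2 4 (by omega) (by omega)).symm
      have a14 : P 1 ≠ P 4 :=
        stripMain_ne hS k2 k5 k2' k2'' k2''' (hr_ne 1 4 (by omega) (by omega)).symm
      have a23 : P 2 ≠ P 3 :=
        stripMain_ne hS k3 k4 k3' k3'' k3''' (hr_ne 2 3 (by omega) (by omega)).symm
      have a24 : P 2 ≠ P 4 :=
        stripMain_ne hS k3 k5 k3' k3'' k3''' (hr_ne 1 3 (by omega) (by omega)).symm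
      have a34 : P 3 ≠ P 4 :=
        stripMain_ne hS k4 k5 k4' k4'' k4''' (hr_ne 1 2 (by omega) (by omega)).symm
      refine ⟨P, stripMain_inj a01 a02 a03 a04 a12 a13 a14 a23 a24 a34, ?_⟩
      intro k
      refine ⟨?_, hne k, ?_, ?_⟩
      · -- `P k ∈ S`
        fin_cases k
        · exact hP0S
        · exact hP1S
        · exact hP2S
        · apply blk_subset u4
          rw [k4]
          simp
        · apply blk_subset u5
          rw [k5]
          simp
      · intro Z hZ hb
        obtain ⟨b0, b1, b2, b3, b4, b5, b6, b7, b8⟩ := stripMain_mem hb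
        have h := stripMain_all hL hE0 hE1 hZ b0 b1 b2 b3 b4 b5 b6 b7 b8
        have hq := fun i hi => (h i hi).1
        have b9 : P 3 ∈ Z := by
          obtain ⟨e, he, hx⟩ := hE2 0 (by omega)
          refine hZ e he (P 3) (by rw [hx]; simp) ?_
          intro y hy hne'
          rw [hx] at hy
          simp only [Finset.mem_insert, Finset.mem_singleton, zero_add] at hy
          rcases hy with rfl | rfl | rfl | rfl | rfl | rfl | rfl | rfl | rfl
          all_goals first
            | assumption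
            | exact absurd rfl hne'
            | exact hq _ (by omega)
        fin_cases k
        · exact b1
        · exact b2
        · exact b3
        · exact b9
        · obtain ⟨e, he, hx⟩ := hE3 0 (by omega)
          refine hZ e he (P 4) (by rw [hx]; simp) ?_
          intro y hy hne'
          rw [hx] at hy
          simp only [Finset.mem_insert, Finset.mem_singleton, zero_add] at hy
          rcases hy with rfl | rfl | rfl | rfl | rfl | rfl | rfl | rfl | rfl
          all_goals first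
            | assumption
            | exact absurd rfl hne'
            | exact hq _ (by omega)
      · intro v0
        refine Fin.cases ?_ ?_ k
        · have key : ∀ i, i + 1 ≤ L → (d i).1.v ≠ v0 ∧ (d (i + 1)).1.v ≠ v0 →
              ∃ i ≤ L, ∃ j ≤ L, (d i).1.v ≠ v0 ∧ (d j).1.v ≠ v0 ∧
              ∃ a ∈ blk S (d i).1.v, ∃ b ∈ blk S (d j).1.v, a ≠ (d 0).1.p ∧ b ≠ (d 0).1.p ∧ a ≠ b ∧
              a ≠ P 0 ∧ b ≠ P 0 ∧ ∃ u, P 0 ∈ blk S u ∧ a ∈ blk S u ∧ b ∈ blk S u := by
            intro i hi hv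
            obtain ⟨u, c1, c2, c3, c4⟩ := hC i hi
            obtain ⟨e1, e2, e3, e4⟩ := hB i (by omega)
            obtain ⟨f1, f2, f3, f4⟩ := hB (i + 1) hi
            refine ⟨i, by omega, i + 1, hi, hv.1, hv.2, q i, ?_, r (i + 1), ?_, e2.symm, f3.symm,
              c4, c2.symm, c3.symm, u, ?_, ?_, ?_⟩
            · rw [e1]
              simp
            · rw [f1]
              simp
            all_goals
              rw [c1]
              simp
          rcases stripMain_pair ha hd (show 0 < 1 by omega) (show 1 < 2 by omega)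
            (show 2 < 3 by omega) (by omega) v0 with h | h
          · exact key 0 (by omega) h
          · exact key 2 (by omega) h
        · intro k
          have hk : (k : ℕ) < 4 := k.2
          have key : ∀ i, i + (k + 1) ≤ L → (d i).1.v ≠ v0 ∧ (d (i + (k + 1))).1.v ≠ v0 →
              ∃ i ≤ L, ∃ j ≤ L, (d i).1.v ≠ v0 ∧ (d j).1.v ≠ v0 ∧
              ∃ a ∈ blk S (d i).1.v, ∃ b ∈ blk S (d j).1.v, a ≠ (d 0).1.p ∧ b ≠ (d 0).1.p ∧ a ≠ b ∧
              a ≠ P k.succ ∧ b ≠ P k.succ ∧
              ∃ u, P k.succ ∈ blk S u ∧ a ∈ blk S u ∧ b ∈ blk S u := by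
            intro i hi hv
            obtain ⟨u, c1, c2, c3, c4⟩ := hD k i hi
            obtain ⟨e1, e2, e3, e4⟩ := hB i (by omega)
            obtain ⟨f1, f2, f3, f4⟩ := hB (i + (k + 1)) hi
            refine ⟨i + (k + 1), hi, i, by omega, hv.2, hv.1, q (i + (k + 1)), ?_, r i, ?_,
              f2.symm, e3.symm, c4, c2.symm, c3.symm, u, ?_, ?_, ?_⟩
            · rw [f1]
              simp
            · rw [e1]
              simp
            all_goals
              rw [c1]
              simp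
          rcases stripMain_pair ha hd (show 0 < 0 + ((k : ℕ) + 1) by omega)
            (show 0 + ((k : ℕ) + 1) < (k : ℕ) + 2 by omega)
            (show (k : ℕ) + 2 < ((k : ℕ) + 2) + ((k : ℕ) + 1) by omega) (by omega) v0 with h | h
          · exact key 0 (by omega) h
          · exact key (k + 2) (by omega) h

end Pool.Agent.Lib.MP_214199_co.Eff
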