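import Pool.Agent.Lib.MP_214199_co.Eff.Strip

/-!
# The rows of a strip of flat vertices
-/

set_option autoImplicit false

namespace Pool.Agent.Lib.MP_214199_co.Eff

open Finset

variable {S : Finset Pt}

/-- the darts of row `j` -/
def rowD (sg al : Equiv.Perm (D S)) (j : ℕ) (e : D S) : D S := (low sg al)^[j] e

/-- The block of a flat vertex whose point is the line `p` of the dart, `(sg e).p`,
`(sg (sg e)).p`, and the block of the vertex of `low e`.
Proof.  `rot3`; the vertex of `low e` is that of `al (sg⁻¹ e)` (`rot_symm_v`), a triple point. -/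
theorem blk_row (hS : Gen S) {sg al : Equiv.Perm (D S)} (hr : IsRot S sg) (ha : IsRev S al)
    {e : D S} (he : Flat sg al e) :
    blk S e.1.v = {e.1.p, (sg e).1.p, (sg (sg e)).1.p} ∧
      (e.1.p ≠ (sg e).1.p ∧ e.1.p ≠ (sg (sg e)).1.p ∧ (sg e).1.p ≠ (sg (sg e)).1.p) ∧
      blk S (low sg al e).1.v =
        {(low sg al e).1.p, (sg (low sg al e)).1.p, (sg (sg (low sg al e))).1.p} ∧
      ((low sg al e).1.p ≠ (sg (low sg al e)).1.p ∧
        (low sg al e).1.p ≠ (sg (sg (low sg al e))).1.p ∧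
        (sg (low sg al e)).1.p ≠ (sg (sg (low sg al e))).1.p) := by
  obtain ⟨-, h1, h2⟩ := rot3 hS hr e he.1
  have hv : (low sg al e).1.v = (al (sg.symm e)).1.v := by
    unfold low
    rw [rot_symm_v hr, rot_symm_v hr]
  have hc : (blk S (low sg al e).1.v).card = 3 := by
    rw [hv]
    exact (he.2 (sg.symm e) (rot_symm_v hr e)).2
  obtain ⟨-, h3, h4⟩ := rot3 hS hr (low sg al e) hc
  exact ⟨h1, h2, h3, h4⟩

/-- The upper line of a lower row is the line of the row above.
Proof.  `low e = σ⁻² α σ⁻¹ e` (`σ = sg`, `α = al`), so `α (σ (σ (low e))) = σ⁻¹ e`; `hex_rel` for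
`x = σ (low e)` (`low e` flat): `α (σ⁻¹ (α x)) = σ (α (σ x)) = σ (σ⁻¹ e) = e`, so
`σ⁻¹ (α x) = α e` and `out (σ (low e))` is its line `e.p`. -/
theorem out_low {sg al : Equiv.Perm (D S)} (hr : IsRot S sg) (ha : IsRev S al)
    {e : D S} (he : Flat sg al (low sg al e)) : out sg al (sg (low sg al e)) = e.1.p := by
  have h1 := hex_rel ha (flat_of_v_eq he (hr.v (low sg al e)))
  have h2 : sg (sg (low sg al e)) = al (sg.symm e) := by
    unfold low
    rw [Equiv.apply_symm_apply, Equiv.apply_symm_apply]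
  rw [h2, ha.al_al, Equiv.apply_symm_apply] at h1
  have h3 : sg.symm (al (sg (low sg al e))) = al e := by
    have h4 := congrArg al h1
    rw [ha.al_al] at h4
    exact h4
  unfold out
  rw [h3, ha.p]

private theorem strip_op_op (d : D S) : op (op d) = d := by
  apply Subtype.ext
  simp [op]

private theorem strip_op_p (d : D S) : (op d).1.p = d.1.p := rfl

private theorem strip_sigma2 (hS : Gen S) {sg : Equiv.Perm (D S)} (hr : IsRot S sg) (e : D S)
    (h : (blk S e.1.v).card = 3) : (sg (sg e)).1.p = (sg.symm e).1.p := by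
  obtain ⟨h1, -, -⟩ := rot3 hS hr e h
  have h2 : sg (sg e) = op (sg.symm e) := by
    rw [← rot_symm_op hS hr, ← h1, Equiv.symm_apply_apply]
  rw [h2, strip_op_p]

/-- The rows of a strip.
Proof.  `D_j i = rowD j (d i)`, `j = 0, 1, 2, 3`, `i ≤ L`, are flat (`Good`).  By `low_next` for
`D_j i`, `D_j (i+1)` (induction on `j`): `D_j (i+1) = op (al (D_j i))` (also for `j = 4`), the line
of `D_j i` does not depend on `i` (call it `p_j`, `p_0 = p`, `j ≤ 4`),
`(sg (D_(j+1) i)).p = (sg (D_j (i+1))).p`, `(sg (sg (D_(j+1) i))).p = (sg (sg (D_j i))).p`, and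
`out (sg (D_j i))` does not depend on `i`; for `j ≥ 1` it is `p_(j-1)` (`out_low`).  Let
`q i = (sg (d i)).p`, `r i = (sg (sg (d i))).p`, `P = ![out (sg (d 0)), p_1, p_2, p_3, p_4]`.  So
`(sg (D_j i)).p = q (i + j)` for `i + j ≤ L` and `(sg (sg (D_j i))).p = r i`.
Blocks of the `D_j i`: `blk_row`.  Hexagons: `hex_eq` with the darts `D_j (i-1)`, `D_j i`,
`D_j (i+1)`.  The block of the head of `sg (d i)` (`hex_blk` for `sg (d i)`, with
`sg⁻¹ (sg (d i)) = d i`): the line `q i`, `out (d i)`, which is the line of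
`sg⁻¹ (al (d i)) = sg⁻¹ (op (d (i+1)))`, that is `r (i+1)` (`rot3`, `rot_symm_op`), and
`out (sg (d i)) = P 0`. -/
theorem strip_rows (hS : Gen S) {sg al : Equiv.Perm (D S)} (hr : IsRot S sg) (ha : IsRev S al)
    (s0 : Bool) (d : ℕ → D S) (L : ℕ) (hd : IsSeq al s0 d L) (hg : ∀ i ≤ L, Good sg al (d i)) :
    ∃ (q r : ℕ → Pt) (P : Fin 5 → Pt), (∀ i ≤ L, (d i).1.p = (d 0).1.p) ∧
      (∀ i ≤ L, blk S (d i).1.v = {(d 0).1.p, q i, r i} ∧ (d 0).1.p ≠ q i ∧ (d 0).1.p ≠ r i ∧
        q i ≠ r i) ∧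
      (∀ i, i + 1 ≤ L → ∃ u, blk S u = {P 0, q i, r (i + 1)} ∧ P 0 ≠ q i ∧ P 0 ≠ r (i + 1) ∧
        q i ≠ r (i + 1)) ∧
      (∀ k : Fin 4, ∀ i, i + (k + 1) ≤ L → ∃ u, blk S u = {P k.succ, q (i + (k + 1)), r i} ∧
        P k.succ ≠ q (i + (k + 1)) ∧ P k.succ ≠ r i ∧ q (i + (k + 1)) ≠ r i) ∧
      (∀ i, i + 2 ≤ L → ∃ e, Flat sg al e ∧ hex sg al e =
        {(d 0).1.p, P 0, P 1, q i, q (i + 1), q (i + 2), r i, r (i + 1), r (i + 2)}) ∧
      (∀ i, i + 3 ≤ L → ∃ e, Flat sg al e ∧ hex sg al e =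
        {P 1, (d 0).1.p, P 2, q (i + 1), q (i + 2), q (i + 3), r i, r (i + 1), r (i + 2)}) ∧
      (∀ i, i + 4 ≤ L → ∃ e, Flat sg al e ∧ hex sg al e =
        {P 2, P 1, P 3, q (i + 2), q (i + 3), q (i + 4), r i, r (i + 1), r (i + 2)}) ∧
      (∀ i, i + 5 ≤ L → ∃ e, Flat sg al e ∧ hex sg al e =
        {P 3, P 2, P 4, q (i + 3), q (i + 4), q (i + 5), r i, r (i + 1), r (i + 2)}) := by
  -- the rows
  have hflat : ∀ j ≤ 3, ∀ i ≤ L, Flat sg al (rowD sg al j (d i)) := by
    intro j hj i hi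
    obtain ⟨h0, h1, h2, h3⟩ := hg i hi
    interval_cases j
    · exact h0
    · exact h1
    · exact h2
    · exact h3
  have hsucc : ∀ j i, rowD sg al (j + 1) (d i) = low sg al (rowD sg al j (d i)) := by
    intro j i
    unfold rowD
    rw [Function.iterate_succ_apply']
  have hnext : ∀ j ≤ 4, ∀ i, i + 1 ≤ L →
      rowD sg al j (d (i + 1)) = op (al (rowD sg al j (d i))) := by
    intro j
    induction j with
    | zero =>
      intro _ i hi
      exact hd.next i (by omega)
    | succ j ih =>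
      intro hj i hi
      rw [hsucc, hsucc]
      exact (low_next hS hr ha (hflat j (by omega) i (by omega))
        (hflat j (by omega) (i + 1) hi) (ih (by omega) i hi)).1
  have hlow : ∀ j ≤ 3, ∀ i, i + 1 ≤ L →
      (sg (rowD sg al (j + 1) (d i))).1.p = (sg (rowD sg al j (d (i + 1)))).1.p ∧
      (sg (sg (rowD sg al (j + 1) (d i)))).1.p = (sg (sg (rowD sg al j (d i)))).1.p ∧
      out sg al (sg (rowD sg al j (d (i + 1)))) = out sg al (sg (rowD sg al j (d i))) := by
    intro j hj i hi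
    obtain ⟨-, -, h3, h4, h5⟩ := low_next hS hr ha (hflat j hj i (by omega))
      (hflat j hj (i + 1) hi) (hnext j (by omega) i hi)
    rw [hsucc]
    exact ⟨h3, h4, h5⟩
  have hline : ∀ j ≤ 4, ∀ i ≤ L, (rowD sg al j (d i)).1.p = (rowD sg al j (d 0)).1.p := by
    intro j hj i
    induction i with
    | zero =>
      intro _
      rfl
    | succ i ih =>
      intro hi
      rw [hnext j hj i hi, strip_op_p, ha.p]
      exact ih (by omega)
  have hq : ∀ j ≤ 4, ∀ i, i + j ≤ L →
      (sg (rowD sg al j (d i))).1.p = (sg (d (i + j))).1.p := by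
    intro j
    induction j with
    | zero =>
      intro _ i _
      rfl
    | succ j ih =>
      intro hj i hi
      have e1 : i + (j + 1) = i + 1 + j := by omega
      rw [(hlow j (by omega) i (by omega)).1, ih (by omega) (i + 1) (by omega), e1]
  have hrr : ∀ j ≤ 4, ∀ i, i + 1 ≤ L ∨ j = 0 →
      (sg (sg (rowD sg al j (d i)))).1.p = (sg (sg (d i))).1.p := by
    intro j
    induction j with
    | zero =>
      intro _ i _
      rfl
    | succ j ih =>
      intro hj i hi
      have hi' : i + 1 ≤ L := by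
        rcases hi with h | h
        · exact h
        · omega
      rw [(hlow j (by omega) i hi').2.1, ih (by omega) i (Or.inl hi')]
  have hout : ∀ i ≤ L, out sg al (sg (d i)) = out sg al (sg (d 0)) := by
    intro i
    induction i with
    | zero =>
      intro _
      rfl
    | succ i ih =>
      intro hi
      have h1 := (hlow 0 (by omega) i hi).2.2
      have h2 : out sg al (sg (d (i + 1))) = out sg al (sg (d i)) := h1
      rw [h2]
      exact ih (by omega)
  have houtr : ∀ j ≤ 2, ∀ i ≤ L,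
      out sg al (sg (rowD sg al (j + 1) (d i))) = (rowD sg al j (d 0)).1.p := by
    intro j hj i hi
    have h1 := hflat (j + 1) (by omega) i hi
    rw [hsucc] at h1 ⊢
    rw [out_low hr ha h1]
    exact hline j (by omega) i hi
  have hhex : ∀ j ≤ 3, ∀ i, i + 2 ≤ L → ∃ e, Flat sg al e ∧ hex sg al e =
      {(rowD sg al j (d 0)).1.p, out sg al (sg (rowD sg al j (d (i + 1)))),
        (rowD sg al (j + 1) (d 0)).1.p,
        (sg (rowD sg al j (d i))).1.p, (sg (rowD sg al j (d (i + 1)))).1.p,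
        (sg (rowD sg al j (d (i + 2)))).1.p, (sg (sg (rowD sg al j (d i)))).1.p,
        (sg (sg (rowD sg al j (d (i + 1))))).1.p, (sg (sg (rowD sg al j (d (i + 2))))).1.p} := by
    intro j hj i hi
    refine ⟨rowD sg al j (d (i + 1)), hflat j hj (i + 1) (by omega), ?_⟩
    have h0 := (hflat j hj i (by omega)).2 (rowD sg al j (d i)) rfl
    have h1 := hex_eq hS hr ha (hflat j hj (i + 1) (by omega)) (hnext j (by omega) i (by omega))
      h0.1.1 (hnext j (by omega) (i + 1) (by omega))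
    rw [h1, ← hsucc, hline j (by omega) (i + 1) (by omega),
      hline (j + 1) (by omega) (i + 1) (by omega)]
  have hblk : ∀ j ≤ 3, ∀ i, i + (j + 1) ≤ L → ∃ u,
      blk S u = {(rowD sg al (j + 1) (d 0)).1.p, (sg (d (i + (j + 1)))).1.p,
        (sg (sg (d i))).1.p} ∧
      (rowD sg al (j + 1) (d 0)).1.p ≠ (sg (d (i + (j + 1)))).1.p ∧
      (rowD sg al (j + 1) (d 0)).1.p ≠ (sg (sg (d i))).1.p ∧
      (sg (d (i + (j + 1)))).1.p ≠ (sg (sg (d i))).1.p := by
    intro j hj i hi
    obtain ⟨-, -, h1, h2⟩ := blk_row hS hr ha (hflat j hj i (by omega))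
    rw [← hsucc, hline (j + 1) (by omega) i (by omega), hq (j + 1) (by omega) i hi,
      hrr (j + 1) (by omega) i (Or.inl (by omega))] at h1 h2
    exact ⟨_, h1, h2⟩
  refine ⟨fun i => (sg (d i)).1.p, fun i => (sg (sg (d i))).1.p,
    ![out sg al (sg (d 0)), (rowD sg al 1 (d 0)).1.p, (rowD sg al 2 (d 0)).1.p,
      (rowD sg al 3 (d 0)).1.p, (rowD sg al 4 (d 0)).1.p], ?_, ?_, ?_, ?_, ?_, ?_, ?_, ?_⟩
  · intro i hi
    exact hline 0 (by omega) i hi
  · intro i hi
    obtain ⟨h1, h2, -, -⟩ := blk_row hS hr ha (hflat 0 (by omega) i hi)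
    have h3 := hline 0 (by omega) i hi
    change (d i).1.p = (d 0).1.p at h3
    change blk S (d i).1.v = {(d i).1.p, (sg (d i)).1.p, (sg (sg (d i))).1.p} at h1
    change (d i).1.p ≠ (sg (d i)).1.p ∧ (d i).1.p ≠ (sg (sg (d i))).1.p ∧
      (sg (d i)).1.p ≠ (sg (sg (d i))).1.p at h2
    rw [h3] at h1 h2
    exact ⟨h1, h2⟩
  · intro i hi
    have hf : Flat sg al (d i) := hflat 0 (by omega) i (by omega)
    have hf' : Flat sg al (d (i + 1)) := hflat 0 (by omega) (i + 1) hi
    obtain ⟨h1, h2, h3, h4⟩ := hex_blk hS hr ha (flat_of_v_eq hf (hr.v (d i)))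
    rw [Equiv.symm_apply_apply] at h1 h2 h4
    rw [hout i (by omega)] at h1 h3 h4
    have h5 : out sg al (d i) = (sg (sg (d (i + 1)))).1.p := by
      have h6 : al (d i) = op (d (i + 1)) := by
        rw [hd.next i (by omega), strip_op_op]
      unfold out
      rw [h6, rot_symm_op hS hr, strip_op_p, strip_sigma2 hS hr _ hf'.1]
    rw [h5] at h1 h2 h4
    refine ⟨(al (sg (d i))).1.v, ?_, ?_, ?_, ?_⟩
    · rw [h1]
      ext x
      simp only [Finset.mem_insert, Finset.mem_singleton, Matrix.cons_val_zero]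
      tauto
    · exact fun h => h3 h.symm
    · exact fun h => h4 h.symm
    · exact h2
  · intro k i hi
    have hk := k.2
    obtain ⟨u, hu⟩ := hblk k (by omega) i hi
    refine ⟨u, ?_⟩
    fin_cases k
    · exact hu
    · exact hu
    · exact hu
    · exact hu
  · intro i hi
    obtain ⟨e, he, h1⟩ := hhex 0 (by omega) i (by omega)
    refine ⟨e, he, ?_⟩
    rw [h1]
    have h2 : out sg al (sg (rowD sg al 0 (d (i + 1)))) = out sg al (sg (d 0)) :=
      hout (i + 1) (by omega)
    rw [h2]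
    rfl
  · intro i hi
    obtain ⟨e, he, h1⟩ := hhex 1 (by omega) i (by omega)
    refine ⟨e, he, ?_⟩
    rw [h1, houtr 0 (by omega) (i + 1) (by omega), hq 1 (by omega) i (by omega),
      hq 1 (by omega) (i + 1) (by omega), hq 1 (by omega) (i + 2) (by omega),
      hrr 1 (by omega) i (Or.inl (by omega)), hrr 1 (by omega) (i + 1) (Or.inl (by omega)),
      hrr 1 (by omega) (i + 2) (Or.inl (by omega))]
    rfl
  · intro i hi
    obtain ⟨e, he, h1⟩ := hhex 2 (by omega) i (by omega)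
    refine ⟨e, he, ?_⟩
    rw [h1, houtr 1 (by omega) (i + 1) (by omega), hq 2 (by omega) i (by omega),
      hq 2 (by omega) (i + 1) (by omega), hq 2 (by omega) (i + 2) (by omega),
      hrr 2 (by omega) i (Or.inl (by omega)), hrr 2 (by omega) (i + 1) (Or.inl (by omega)),
      hrr 2 (by omega) (i + 2) (Or.inl (by omega))]
    have e1 : i + 1 + 2 = i + 3 := by omega
    rw [e1]
    rfl
  · intro i hi
    obtain ⟨e, he, h1⟩ := hhex 3 (by omega) i (by omega)
    refine ⟨e, he, ?_⟩
    rw [h1, houtr 2 (by omega) (i + 1) (by omega), hq 3 (by omega) i (by omega),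
      hq 3 (by omega) (i + 1) (by omega), hq 3 (by omega) (i + 2) (by omega),
      hrr 3 (by omega) i (Or.inl (by omega)), hrr 3 (by omega) (i + 1) (Or.inl (by omega)),
      hrr 3 (by omega) (i + 2) (Or.inl (by omega))]
    have e1 : i + 1 + 3 = i + 4 := by omega
    have e2 : i + 2 + 3 = i + 5 := by omega
    rw [e1, e2]
    rfl

end Pool.Agent.Lib.MP_214199_co.Eff
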