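import Pool.Agent.Lib.MP_214199_co.Eff.Mid

/-!
# A middle corner that is the first and the last one of its cell belongs to a triangle
-/

set_option autoImplicit false

namespace Pool.Agent.Lib.MP_214199_co.Eff

open Finset

variable {S : Finset Pt}

/-- difference of the heights of two lines that meet over `z` -/
theorem tu_sub {p q : Pt} {z : ℝ} (h : ht p z = ht q z) (x : ℝ) :
    ht p x - ht q x = (p.1 - q.1) * (x - z) := by
  unfold ht at *
  linarith

/-- two lines that change their order over the interval meet in its interior -/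
theorem tu_cross (hS : Gen S) {p q : Pt} (hp : p ∈ S) (hq : q ∈ S) {x y : ℝ} (hxy : x < y)
    (h1 : ht p x < ht q x) (h2 : ht q y < ht p y) :
    ∃ z ∈ verts S, p ∈ blk S z ∧ q ∈ blk S z ∧ x < z.1 ∧ z.1 < y := by
  have hne : p ≠ q := by
    rintro rfl
    exact lt_irrefl _ h1
  obtain ⟨hz, hpz, hqz⟩ := vtx_mem hS hp hq hne
  refine ⟨vtx p q, hz, hpz, hqz, ?_⟩
  have hm : ht p (vtx p q).1 = ht q (vtx p q).1 :=
    (mem_blk.1 hpz).2.trans (mem_blk.1 hqz).2.symm
  have e1 := tu_sub hm x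
  have e2 := tu_sub hm y
  have h3 : (p.1 - q.1) * (x - (vtx p q).1) < 0 := by linarith
  have h4 : 0 < (p.1 - q.1) * (y - (vtx p q).1) := by linarith
  have h5 : 0 < p.1 - q.1 := by
    by_contra hcon
    push Not at hcon
    nlinarith
  constructor
  · by_contra hcon
    push Not at hcon
    have : 0 ≤ (p.1 - q.1) * (x - (vtx p q).1) := mul_nonneg h5.le (by linarith)
    linarith
  · by_contra hcon
    push Not at hcon
    have : (p.1 - q.1) * (y - (vtx p q).1) ≤ 0 :=
      mul_nonpos_of_nonneg_of_nonpos h5.le (by linarith)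
    linarith

theorem tu_core_up (hS : Gen S) {v u v' a b b' w : Pt} (hav : a ∈ blk S v) (hbv : b ∈ blk S v)
    (hau : a ∈ blk S u) (hwu : w ∈ blk S u) (hbv' : b' ∈ blk S v') (hwv' : w ∈ blk S v')
    (hvu : v.1 < u.1) (huv' : u.1 < v'.1) (hab : a.1 < b.1) (hbw : b'.1 < w.1)
    (n1 : ∀ q ∈ blk S v, a.1 < q.1 → b.1 ≤ q.1) (n2 : ∀ q ∈ blk S v', b'.1 < q.1 → w.1 ≤ q.1)
    (c1 : ∀ z ∈ verts S, b ∈ blk S z → v.1 < z.1 → u.1 ≤ z.1)
    (c2 : ∀ z ∈ verts S, a ∈ blk S z → v.1 < z.1 → u.1 ≤ z.1)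
    (c3 : ∀ z ∈ verts S, w ∈ blk S z → z.1 < v'.1 → z.1 ≤ u.1)
    (c4 : ∀ z ∈ verts S, b' ∈ blk S z → z.1 < v'.1 → z.1 < u.1) : b = b' := by
  have ha := mem_blk.1 hav
  have hb := mem_blk.1 hbv
  have hau' := mem_blk.1 hau
  have hw := mem_blk.1 hwu
  have hb' := mem_blk.1 hbv'
  have hw' := mem_blk.1 hwv'
  have mab : ht a v.1 = ht b v.1 := ha.2.trans hb.2.symm
  have mbw : ht b' v'.1 = ht w v'.1 := hb'.2.trans hw'.2.symm
  have hbu : u.2 < ht b u.1 := by
    have e := tu_sub mab u.1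
    have : (a.1 - b.1) * (u.1 - v.1) < 0 := mul_neg_of_neg_of_pos (by linarith) (by linarith)
    rw [hau'.2] at e
    linarith
  have hbu' : u.2 < ht b' u.1 := by
    have e := tu_sub mbw u.1
    have : 0 < (b'.1 - w.1) * (u.1 - v'.1) := mul_pos_of_neg_of_neg (by linarith) (by linarith)
    rw [hw.2] at e
    linarith
  rcases lt_trichotomy (ht b' u.1) (ht b u.1) with h | h | h
  · exfalso
    rcases lt_trichotomy (ht b' v.1) v.2 with h1 | h1 | h1
    · obtain ⟨z, hz, hz1, hz2, hz3, hz4⟩ := tu_cross hS hb'.1 ha.1 hvu (by rw [ha.2]; exact h1)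
        (by rw [hau'.2]; exact hbu')
      have := c2 z hz hz2 hz3
      linarith
    · have hbv2 : b' ∈ blk S v := mem_blk.2 ⟨hb'.1, h1⟩
      have e1 := tu_sub (h1.trans ha.2.symm) u.1
      have e2 := tu_sub (h1.trans hb.2.symm) u.1
      rw [hau'.2] at e1
      have s1 : a.1 < b'.1 := by
        by_contra hcon
        push Not at hcon
        have : (b'.1 - a.1) * (u.1 - v.1) ≤ 0 :=
          mul_nonpos_of_nonpos_of_nonneg (by linarith) (by linarith)
        linarith
      have s2 := n1 b' hbv2 s1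
      have : 0 ≤ (b'.1 - b.1) * (u.1 - v.1) := mul_nonneg (by linarith) (by linarith)
      linarith
    · obtain ⟨z, hz, hz1, hz2, hz3, hz4⟩ := tu_cross hS hb.1 hb'.1 hvu (by rw [hb.2]; exact h1) h
      have := c1 z hz hz1 hz3
      linarith
  · by_contra hne
    obtain ⟨hz, hz1, hz2⟩ := vtx_mem hS hb.1 hb'.1 hne
    have hm : ht b (vtx b b').1 = ht b' (vtx b b').1 :=
      (mem_blk.1 hz1).2.trans (mem_blk.1 hz2).2.symm
    have hx : (vtx b b').1 = u.1 := ht_inj (hS.ne hb.1 hb'.1 hne) hm h.symm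
    have := c4 _ hz hz2 (by rw [hx]; exact huv')
    rw [hx] at this
    exact lt_irrefl _ this
  · exfalso
    rcases lt_trichotomy (ht b v'.1) v'.2 with h1 | h1 | h1
    · obtain ⟨z, hz, hz1, hz2, hz3, hz4⟩ := tu_cross hS hw.1 hb.1 huv' (by rw [hw.2]; exact hbu)
        (by rw [hw'.2]; exact h1)
      have := c3 z hz hz1 hz4
      linarith
    · have hbv2 : b ∈ blk S v' := mem_blk.2 ⟨hb.1, h1⟩
      have e1 := tu_sub (h1.trans hb'.2.symm) u.1
      have e2 := tu_sub (h1.trans hw'.2.symm) u.1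
      rw [hw.2] at e2
      have s1 : b'.1 < b.1 := by
        by_contra hcon
        push Not at hcon
        have : 0 ≤ (b.1 - b'.1) * (u.1 - v'.1) :=
          mul_nonneg_of_nonpos_of_nonpos (by linarith) (by linarith)
        linarith
      have s2 := n2 b hbv2 s1
      have : (b.1 - w.1) * (u.1 - v'.1) ≤ 0 :=
        mul_nonpos_of_nonneg_of_nonpos (by linarith) (by linarith)
      linarith
    · obtain ⟨z, hz, hz1, hz2, hz3, hz4⟩ := tu_cross hS hb.1 hb'.1 huv' h (by rw [hb'.2]; exact h1)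
      have := c4 z hz hz2 hz4
      linarith

theorem tu_core_down (hS : Gen S) {v u v' a b b' w : Pt} (hav : a ∈ blk S v) (hbv : b ∈ blk S v)
    (hbu : b ∈ blk S u) (hbu' : b' ∈ blk S u) (hbv' : b' ∈ blk S v') (hwv' : w ∈ blk S v')
    (hvu : v.1 < u.1) (huv' : u.1 < v'.1) (hab : a.1 < b.1) (hbw : b'.1 < w.1)
    (n1 : ∀ q ∈ blk S v, a.1 < q.1 → b.1 ≤ q.1) (n2 : ∀ q ∈ blk S v', b'.1 < q.1 → w.1 ≤ q.1)
    (c1 : ∀ z ∈ verts S, a ∈ blk S z → v.1 < z.1 → u.1 < z.1)
    (c2 : ∀ z ∈ verts S, b ∈ blk S z → v.1 < z.1 → u.1 ≤ z.1)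
    (c3 : ∀ z ∈ verts S, b' ∈ blk S z → z.1 < v'.1 → z.1 ≤ u.1)
    (c4 : ∀ z ∈ verts S, w ∈ blk S z → z.1 < v'.1 → z.1 ≤ u.1) : a = w := by
  have ha := mem_blk.1 hav
  have hb := mem_blk.1 hbv
  have hb2 := mem_blk.1 hbu
  have hb3 := mem_blk.1 hbu'
  have hb' := mem_blk.1 hbv'
  have hw' := mem_blk.1 hwv'
  have mab : ht a v.1 = ht b v.1 := ha.2.trans hb.2.symm
  have mbw : ht b' v'.1 = ht w v'.1 := hb'.2.trans hw'.2.symm
  have hau : ht a u.1 < u.2 := by
    have e := tu_sub mab u.1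
    have : (a.1 - b.1) * (u.1 - v.1) < 0 := mul_neg_of_neg_of_pos (by linarith) (by linarith)
    rw [hb2.2] at e
    linarith
  have hwu : ht w u.1 < u.2 := by
    have e := tu_sub mbw u.1
    have : 0 < (b'.1 - w.1) * (u.1 - v'.1) := mul_pos_of_neg_of_neg (by linarith) (by linarith)
    rw [hb3.2] at e
    linarith
  rcases lt_trichotomy (ht w u.1) (ht a u.1) with h | h | h
  · -- `a` is between `w` and `b'`
    exfalso
    rcases lt_trichotomy (ht a v'.1) v'.2 with h1 | h1 | h1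
    · obtain ⟨z, hz, hz1, hz2, hz3, hz4⟩ := tu_cross hS hw'.1 ha.1 huv' h
        (by rw [hw'.2]; exact h1)
      have := c4 z hz hz1 hz4
      linarith
    · have hav2 : a ∈ blk S v' := mem_blk.2 ⟨ha.1, h1⟩
      have e1 := tu_sub (h1.trans hb'.2.symm) u.1
      have e2 := tu_sub (h1.trans hw'.2.symm) u.1
      rw [hb3.2] at e1
      have s1 : b'.1 < a.1 := by
        by_contra hcon
        push Not at hcon
        have : 0 ≤ (a.1 - b'.1) * (u.1 - v'.1) :=
          mul_nonneg_of_nonpos_of_nonpos (by linarith) (by linarith)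
        linarith
      have s2 := n2 a hav2 s1
      have : (a.1 - w.1) * (u.1 - v'.1) ≤ 0 :=
        mul_nonpos_of_nonneg_of_nonpos (by linarith) (by linarith)
      linarith
    · obtain ⟨z, hz, hz1, hz2, hz3, hz4⟩ := tu_cross hS ha.1 hb'.1 huv'
        (by rw [hb3.2]; exact hau) (by rw [hb'.2]; exact h1)
      have := c3 z hz hz2 hz4
      linarith
  · by_contra hne
    obtain ⟨hz, hz1, hz2⟩ := vtx_mem hS ha.1 hw'.1 hne
    have hm : ht a (vtx a w).1 = ht w (vtx a w).1 :=
      (mem_blk.1 hz1).2.trans (mem_blk.1 hz2).2.symm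
    have hx : (vtx a w).1 = u.1 := ht_inj (hS.ne ha.1 hw'.1 hne) hm h.symm
    have := c1 _ hz hz1 (by rw [hx]; exact hvu)
    rw [hx] at this
    exact lt_irrefl _ this
  · -- `w` is between `a` and `b`
    exfalso
    rcases lt_trichotomy (ht w v.1) v.2 with h1 | h1 | h1
    · obtain ⟨z, hz, hz1, hz2, hz3, hz4⟩ := tu_cross hS hw'.1 ha.1 hvu (by rw [ha.2]; exact h1) h
      have := c1 z hz hz2 hz3
      linarith
    · have hwv2 : w ∈ blk S v := mem_blk.2 ⟨hw'.1, h1⟩
      have e1 := tu_sub (h1.trans ha.2.symm) u.1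
      have e2 := tu_sub (h1.trans hb.2.symm) u.1
      rw [hb2.2] at e2
      have s1 : a.1 < w.1 := by
        by_contra hcon
        push Not at hcon
        have : (w.1 - a.1) * (u.1 - v.1) ≤ 0 :=
          mul_nonpos_of_nonpos_of_nonneg (by linarith) (by linarith)
        linarith
      have s2 := n1 w hwv2 s1
      have : 0 ≤ (w.1 - b.1) * (u.1 - v.1) := mul_nonneg (by linarith) (by linarith)
      linarith
    · obtain ⟨z, hz, hz1, hz2, hz3, hz4⟩ := tu_cross hS hb.1 hw'.1 hvu (by rw [hb.2]; exact h1)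
        (by rw [hb2.2]; exact hwu)
      have := c2 z hz hz1 hz3
      linarith

/-- Here `d` is a start corner whose first middle corner is above the vertex `u = (al d).v` of its
lower line (case A), `d'` an end corner (to the left) whose last middle corner is above the vertex
`(al (sg d')).v` of its lower line `(sg d').p` (case B'), and both are the same corner:
`sg⁻¹ (al d) = al (sg d')`.

Notation: `v = d.v`, `a = d.p`, `b = (sg d).p` (`a.1 < b.1` consecutive slopes in `v`),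
`v' = d'.v`, `b' = d'.p`, `w = (sg d').p` (`b'.1 < w.1` consecutive slopes in `v'`),
`u = (al d).v = (al (sg d')).v`, `v.1 < u.1 < v'.1`; `a, w ∈ blk S u`, `u` is the vertex of `a`
next to `v` and the vertex of `w` next to `v'`.  Claim: `al d' = sg d`.

Proof.  (1) `b = b'`.  At `x = u.1` both `b` and `b'` are strictly above `u`.
 * `ht b' u.1 < ht b u.1` is impossible: look at `x = v.1`.  If `b'` passes through `v`, its slope
   lies strictly between those of `a` and `b`, which are consecutive.  If `b'` is above `v` there,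
   `b'` and `b` meet in the open interval `(v.1, u.1)`, but `b` has no vertex there (`h'`, `next_lt`
   for `sg d`).  If `b'` is below `v`, then `b'` and `a` meet in `(v.1, u.1)`; but `u` is the next
   vertex on `a`.
 * `ht b u.1 < ht b' u.1` is impossible: look at `x = v'.1`.  If `b` passes through `v'`, its slope
   is strictly between `b'` and `w`.  If `b` is above `v'`, it meets `b'` in the open interval
   `(u.1, v'.1)`, but `b'` has no vertex there (`next_gt` for `d'` and `hB'`).  If `b` is below `v'`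
   it meets `w` in `(u.1, v'.1)`; but `u` is the vertex of `w` next to `v'`.
 * So `ht b u.1 = ht b' u.1`; if `b ≠ b'` the vertex `vtx b b'` of `b'` has abscissa `u.1`, but `b'`
   has no vertex with abscissa in `[u.1, v'.1)` by `hB'` (strict).
(2) `b` passes through `v` and `v'` and has no vertex with abscissa in `(v.1, u.1)` (case A) nor in
`[u.1, v'.1)` (case B').  So `(al d').v = v` and `al d' = (v, b, true) = sg d`. -/
theorem tri_up (hS : Gen S) {sg al : Equiv.Perm (D S)} (hr : IsRot S sg) (ha : IsRev S al)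
    (d d' : D S) (hs : d.1.s = true) (hm : ¬ IsMax d) (hs' : d'.1.s = false) (hm' : ¬ IsMax d')
    (hA : al d ≠ d) (hA' : al (sg d) = sg d ∨ (al d).1.v.1 ≤ (al (sg d)).1.v.1)
    (hB : al (sg d') ≠ sg d') (hB' : al d' = d' ∨ (al d').1.v.1 < (al (sg d')).1.v.1)
    (he : sg.symm (al d) = al (sg d')) : al d' = sg d := by
  have hsg : (sg d).1.s = true := (hr.s_lt d hm).trans hs
  have hsg' : (sg d').1.s = false := (hr.s_lt d' hm').trans hs'
  have hv : (sg d).1.v = d.1.v := hr.v d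
  have hv' : (sg d').1.v = d'.1.v := hr.v d'
  have hu : (al (sg d')).1.v = (al d).1.v := by rw [← he, rot_symm_v hr]
  have hvu : d.1.v.1 < (al d).1.v.1 := ha.lt d hA hs
  have huv' : (al d).1.v.1 < d'.1.v.1 := by
    have := ha.gt (sg d') hB hsg'
    rwa [hu, hv'] at this
  have c1 : ∀ z ∈ verts S, (sg d).1.p ∈ blk S z → d.1.v.1 < z.1 → (al d).1.v.1 ≤ z.1 := by
    intro z hz hz1 hz2
    obtain ⟨h1, h2⟩ := ha.next_lt (sg d) hsg z hz hz1 (by rw [hv]; exact hz2)
    rcases hA' with h3 | h3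
    · exact absurd h3 h1
    · exact h3.trans h2
  have c2 : ∀ z ∈ verts S, d.1.p ∈ blk S z → d.1.v.1 < z.1 → (al d).1.v.1 ≤ z.1 :=
    fun z hz hz1 hz2 => (ha.next_lt d hs z hz hz1 hz2).2
  have c3 : ∀ z ∈ verts S, (sg d').1.p ∈ blk S z → z.1 < d'.1.v.1 → z.1 ≤ (al d).1.v.1 := by
    intro z hz hz1 hz2
    have := (ha.next_gt (sg d') hsg' z hz hz1 (by rw [hv']; exact hz2)).2
    rwa [hu] at this
  have c4 : ∀ z ∈ verts S, d'.1.p ∈ blk S z → z.1 < d'.1.v.1 → z.1 < (al d).1.v.1 := by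
    intro z hz hz1 hz2
    obtain ⟨h1, h2⟩ := ha.next_gt d' hs' z hz hz1 hz2
    rcases hB' with h3 | h3
    · exact absurd h3 h1
    · rw [hu] at h3
      exact h2.trans_lt h3
  have hau : d.1.p ∈ blk S (al d).1.v := by
    have := (al d).2.2
    rwa [ha.p d] at this
  have hwu : (sg d').1.p ∈ blk S (al d).1.v := by
    have := (al (sg d')).2.2
    rwa [ha.p, hu] at this
  have hbv : (sg d).1.p ∈ blk S d.1.v := by
    have := (sg d).2.2
    rwa [hv] at this
  have hwv' : (sg d').1.p ∈ blk S d'.1.v := by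
    have := (sg d').2.2
    rwa [hv'] at this
  have key : (sg d).1.p = d'.1.p :=
    tu_core_up hS d.2.2 hbv hau hwu d'.2.2 hwv' hvu huv' (hr.p_lt d hm) (hr.p_lt d' hm')
      (hr.p_next d hm) (hr.p_next d' hm') c1 c2 c3 c4
  obtain ⟨h1, h2⟩ := ha.next_gt d' hs' d.1.v d.2.1 (by rw [← key]; exact hbv) (hvu.trans huv')
  have h3 : d'.1.p ∈ blk S (al d').1.v := by
    have := (al d').2.2
    rwa [ha.p d'] at this
  have h4 : (al d').1.v.1 < (al d).1.v.1 := c4 _ (al d').2.1 h3 (ha.gt d' h1 hs')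
  have h5 : (al d').1.v.1 = d.1.v.1 := by
    rcases lt_or_eq_of_le h2 with h6 | h6
    · exact absurd (c1 _ (al d').2.1 (by rw [key]; exact h3) h6) (not_le.2 h4)
    · exact h6.symm
  have h6 : (al d').1.v = d.1.v := vert_eq_of_fst h3 (by rw [← key]; exact hbv) h5
  apply Subtype.ext
  apply Dart.ext
  · rw [h6, hv]
  · rw [ha.p d', key]
  · rw [ha.s d' h1, hs', hsg]
    rfl

/-- The rotated version (by 180 degrees, roles of `d` and `d'` exchanged): `d` is a start corner in
case B, `d'` an end corner in case A'. -/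
theorem tri_down (hS : Gen S) {sg al : Equiv.Perm (D S)} (hr : IsRot S sg) (ha : IsRev S al)
    (d d' : D S) (hs : d.1.s = true) (hm : ¬ IsMax d) (hs' : d'.1.s = false) (hm' : ¬ IsMax d')
    (hB : al (sg d) ≠ sg d) (hB' : al d = d ∨ (al (sg d)).1.v.1 < (al d).1.v.1)
    (hA : al d' ≠ d') (hA' : al (sg d') = sg d' ∨ (al (sg d')).1.v.1 ≤ (al d').1.v.1)
    (he : al (sg d) = sg.symm (al d')) : al d = sg d' := by
  have hsg : (sg d).1.s = true := (hr.s_lt d hm).trans hs
  have hsg' : (sg d').1.s = false := (hr.s_lt d' hm').trans hs'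
  have hv : (sg d).1.v = d.1.v := hr.v d
  have hv' : (sg d').1.v = d'.1.v := hr.v d'
  have hu : (al (sg d)).1.v = (al d').1.v := by rw [he, rot_symm_v hr]
  have hvu : d.1.v.1 < (al d').1.v.1 := by
    have := ha.lt (sg d) hB hsg
    rwa [hu, hv] at this
  have huv' : (al d').1.v.1 < d'.1.v.1 := ha.gt d' hA hs'
  have c1 : ∀ z ∈ verts S, d.1.p ∈ blk S z → d.1.v.1 < z.1 → (al d').1.v.1 < z.1 := by
    intro z hz hz1 hz2
    obtain ⟨h1, h2⟩ := ha.next_lt d hs z hz hz1 hz2
    rcases hB' with h3 | h3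
    · exact absurd h3 h1
    · rw [hu] at h3
      exact h3.trans_le h2
  have c2 : ∀ z ∈ verts S, (sg d).1.p ∈ blk S z → d.1.v.1 < z.1 → (al d').1.v.1 ≤ z.1 := by
    intro z hz hz1 hz2
    have := (ha.next_lt (sg d) hsg z hz hz1 (by rw [hv]; exact hz2)).2
    rwa [hu] at this
  have c3 : ∀ z ∈ verts S, d'.1.p ∈ blk S z → z.1 < d'.1.v.1 → z.1 ≤ (al d').1.v.1 :=
    fun z hz hz1 hz2 => (ha.next_gt d' hs' z hz hz1 hz2).2
  have c4 : ∀ z ∈ verts S, (sg d').1.p ∈ blk S z → z.1 < d'.1.v.1 → z.1 ≤ (al d').1.v.1 := by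
    intro z hz hz1 hz2
    obtain ⟨h1, h2⟩ := ha.next_gt (sg d') hsg' z hz hz1 (by rw [hv']; exact hz2)
    rcases hA' with h3 | h3
    · exact absurd h3 h1
    · exact h2.trans h3
  have hbu : (sg d).1.p ∈ blk S (al d').1.v := by
    have := (al (sg d)).2.2
    rwa [ha.p, hu] at this
  have hbu' : d'.1.p ∈ blk S (al d').1.v := by
    have := (al d').2.2
    rwa [ha.p d'] at this
  have hbv : (sg d).1.p ∈ blk S d.1.v := by
    have := (sg d).2.2
    rwa [hv] at this
  have hwv' : (sg d').1.p ∈ blk S d'.1.v := by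
    have := (sg d').2.2
    rwa [hv'] at this
  have key : d.1.p = (sg d').1.p :=
    tu_core_down hS d.2.2 hbv hbu hbu' d'.2.2 hwv' hvu huv' (hr.p_lt d hm) (hr.p_lt d' hm')
      (hr.p_next d hm) (hr.p_next d' hm') c1 c2 c3 c4
  obtain ⟨h1, h2⟩ := ha.next_lt d hs d'.1.v d'.2.1 (by rw [key]; exact hwv') (hvu.trans huv')
  have h3 : d.1.p ∈ blk S (al d).1.v := by
    have := (al d).2.2
    rwa [ha.p d] at this
  have h4 : (al d').1.v.1 < (al d).1.v.1 := c1 _ (al d).2.1 h3 (ha.lt d h1 hs)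
  have h5 : (al d).1.v.1 = d'.1.v.1 := by
    rcases lt_or_eq_of_le h2 with h6 | h6
    · exact absurd (c4 _ (al d).2.1 (by rw [← key]; exact h3) h6) (not_le.2 h4)
    · exact h6
  have h6 : (al d).1.v = d'.1.v := vert_eq_of_fst h3 (by rw [key]; exact hwv') h5
  apply Subtype.ext
  apply Dart.ext
  · rw [h6, hv']
  · rw [ha.p d, key]
  · rw [ha.s d h1, hs, hsg']
    rfl

end Pool.Agent.Lib.MP_214199_co.Eff
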