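import Pool.Agent.Lib.MP_214199_co.Eff.Types
import Pool.Agent.Lib.MP_214199_co.Eff.Factor

/-!
# The cubic of a long run is irreducible
-/

set_option autoImplicit false

namespace Pool.Agent.Lib.MP_214199_co.Eff

open Finset MvPolynomial

theorem tr_mul {f g : Poly} {x : Fin 2 → ℂ} (h : Zr (f * g) x) : Zr f x ∨ Zr g x := by
  unfold Zr at *
  rw [map_mul] at h
  exact mul_eq_zero.1 h

/-- the points of the blocks of a run besides `p` -/
theorem tr_union {S : Finset Pt} (hS : Gen S) {p : Pt} {R : Finset Pt} (hR : RunData S p R) :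
    (R.biUnion (fun v => (blk S v).erase p)).card = 2 * R.card := by
  classical
  have h2 : (R.biUnion (fun v => (blk S v).erase p)).card = ∑ v ∈ R, ((blk S v).erase p).card := by
    apply Finset.card_biUnion
    intro v hv u hu hvu
    rw [Function.onFun, Finset.disjoint_left]
    intro a ha ha'
    obtain ⟨hne, ha1⟩ := Finset.mem_erase.1 ha
    obtain ⟨-, ha2⟩ := Finset.mem_erase.1 ha'
    exact hvu (vert_unique hS hne ha1 (hR.mem v hv).2.1 ha2 (hR.mem u hu).2.1)
  have h3 : ∑ v ∈ R, ((blk S v).erase p).card = ∑ _v ∈ R, 2 := by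
    apply Finset.sum_congr rfl
    intro v hv
    obtain ⟨-, hp, hc⟩ := hR.mem v hv
    rw [Finset.card_erase_of_mem hp, hc]
  rw [h2, h3, Finset.sum_const, smul_eq_mul]
  ring

/-- the third case -/
theorem tr_three {S : Finset Pt} (hS : Gen S) {p : Pt} (K : ℕ) (hK7 : 7 ≤ K)
    (hK : ∀ v ∈ verts S, (blk S v).card ≤ K) {R : Finset Pt}
    (hR : RunData S p R) (hRK : 3 * K ≤ 2 * R.card) (F h1 h2 h3 : Poly)
    (hF : ∀ v ∈ R, ∀ a ∈ blk S v, Zr F (cpt a)) (n1 : h1 ≠ 0) (n2 : h2 ≠ 0) (n3 : h3 ≠ 0)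
    (d1 : h1.totalDegree ≤ 1) (d2 : h2.totalDegree ≤ 1) (d3 : h3.totalDegree ≤ 1)
    (hFe : F = h1 * h2 * h3) : False := by
  classical
  have hRpos : 0 < R.card := by omega
  obtain ⟨v, hv⟩ := Finset.card_pos.1 hRpos
  set U := R.biUnion (fun v => (blk S v).erase p) with hU
  have hUc := tr_union hS hR
  rw [← hU] at hUc
  have hpU : p ∉ U := by
    intro hpU
    rw [hU, Finset.mem_biUnion] at hpU
    obtain ⟨v, -, hv⟩ := hpU
    exact (Finset.mem_erase.1 hv).1 rfl
  have hsub : insert p U ⊆ S.filter (fun a => Zr h1 (cpt a)) ∪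
      (S.filter (fun a => Zr h2 (cpt a)) ∪ S.filter (fun a => Zr h3 (cpt a))) := by
    have key : ∀ v ∈ R, ∀ a ∈ blk S v, a ∈ S.filter (fun a => Zr h1 (cpt a)) ∪
      (S.filter (fun a => Zr h2 (cpt a)) ∪ S.filter (fun a => Zr h3 (cpt a))) := by
      intro v hv a ha
      have hz := hF v hv a ha
      have haS := blk_subset v ha
      rw [hFe] at hz
      rw [Finset.mem_union, Finset.mem_union, Finset.mem_filter, Finset.mem_filter,
        Finset.mem_filter]
      rcases tr_mul hz with hz | hz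
      · rcases tr_mul hz with hz | hz
        · exact Or.inl ⟨haS, hz⟩
        · exact Or.inr (Or.inl ⟨haS, hz⟩)
      · exact Or.inr (Or.inr ⟨haS, hz⟩)
    intro a ha
    rcases Finset.mem_insert.1 ha with rfl | ha
    · exact key v hv a (hR.mem v hv).2.1
    · rw [hU, Finset.mem_biUnion] at ha
      obtain ⟨u, hu, ha⟩ := ha
      exact key u hu a (Finset.mem_erase.1 ha).2
  have hc := Finset.card_le_card hsub
  rw [Finset.card_insert_of_notMem hpU, hUc] at hc
  have e1 := Finset.card_union_le (S.filter (fun a => Zr h1 (cpt a)))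
    (S.filter (fun a => Zr h2 (cpt a)) ∪ S.filter (fun a => Zr h3 (cpt a)))
  have e2 := Finset.card_union_le (S.filter (fun a => Zr h2 (cpt a)))
    (S.filter (fun a => Zr h3 (cpt a)))
  have l1 := lin_card hS K (by omega) hK h1 n1 d1
  have l2 := lin_card hS K (by omega) hK h2 n2 d2
  have l3 := lin_card hS K (by omega) hK h3 n3 d3
  omega

/-- the second case -/
theorem tr_two {S : Finset Pt} (hS : Gen S) {p : Pt} (hp : p ∈ S) (K : ℕ) (hK7 : 7 ≤ K)
    (hK : ∀ v ∈ verts S, (blk S v).card ≤ K)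
    (h6 : ∀ v ∈ verts S, p ∈ blk S v → (blk S v).card ≤ 5) {R : Finset Pt}
    (hR : RunData S p R) (hRK : 3 * K ≤ 2 * R.card) (F g h : Poly)
    (hF : ∀ v ∈ R, ∀ a ∈ blk S v, Zr F (cpt a))
    (hP : ∃ P : Fin 5 → Pt, Function.Injective P ∧ ∀ k, P k ∈ S ∧ P k ≠ p ∧
      Zr F (cpt (P k)) ∧ ∀ v0 : Pt, ∃ v ∈ R, ∃ v' ∈ R, v ≠ v0 ∧ v' ≠ v0 ∧
        ∃ a ∈ blk S v, ∃ b ∈ blk S v', a ≠ p ∧ b ≠ p ∧ a ≠ b ∧ a ≠ P k ∧ b ≠ P k ∧
          ∃ u, P k ∈ blk S u ∧ a ∈ blk S u ∧ b ∈ blk S u)
    (hg : Irreducible g) (hg2 : g.totalDegree = 2) (hh : h ≠ 0) (hh1 : h.totalDegree ≤ 1)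
    (hFe : F = g * h) : False := by
  classical
  have hpart : ∀ x, Zr F x → Zr g x ∨ Zr h x := by
    intro x hx
    rw [hFe] at hx
    exact tr_mul hx
  have hgblk : ∀ v, ((blk S v).filter (fun a => Zr g (cpt a))).card ≤ 2 := by
    intro v
    have := irr_blk hS g hg hg2.ge v
    omega
  by_cases hgp : Zr g (cpt p)
  · -- every block of the run has a zero of `h` besides `p`
    have hex : ∀ v ∈ R, ∃ a ∈ blk S v, a ≠ p ∧ Zr h (cpt a) := by
      intro v hv
      by_contra hcon
      push Not at hcon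
      have hall : (blk S v).filter (fun a => Zr g (cpt a)) = blk S v := by
        apply Finset.filter_true_of_mem
        intro a ha
        by_cases hap : a = p
        · rw [hap]
          exact hgp
        · exact (hpart _ (hF v hv a ha)).resolve_right (hcon a ha hap)
      have h3 := hgblk v
      rw [hall, (hR.mem v hv).2.2] at h3
      omega
    choose! a ha using hex
    have hinj : Set.InjOn a (R : Set Pt) := by
      intro v hv u hu hvu
      have h1 := ha v hv
      have h2 := ha u hu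
      rw [← hvu] at h2
      exact vert_unique hS h1.2.1 h1.1 (hR.mem v hv).2.1 h2.1 (hR.mem u hu).2.1
    have hcard := Finset.card_le_card_of_injOn (s := R)
      (t := S.filter (fun a => Zr h (cpt a))) a (by
        intro v hv
        have h1 := ha v hv
        exact Finset.mem_coe.2 (Finset.mem_filter.2 ⟨blk_subset v h1.1, h1.2.2⟩)) hinj
    have hl := lin_card hS K (by omega) hK h hh hh1
    omega
  · have hRpos : 0 < R.card := by omega
    obtain ⟨v1, hv1⟩ := Finset.card_pos.1 hRpos
    have hhp : Zr h (cpt p) :=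
      (hpart _ (hF v1 hv1 p (hR.mem v1 hv1).2.1)).resolve_left hgp
    have hv0 : ∃ v0 : Pt, ∀ v ∈ R, v ≠ v0 → ∀ a ∈ blk S v, a ≠ p → Zr g (cpt a) := by
      by_cases hq : ∃ v ∈ R, ∃ q ∈ blk S v, q ≠ p ∧ Zr h (cpt q)
      · obtain ⟨v0, hv0, q, hq, hqp, hhq⟩ := hq
        refine ⟨v0, fun v hv hvv a ha hap => ?_⟩
        refine (hpart _ (hF v hv a ha)).resolve_right ?_
        intro hha
        apply hvv
        have hqS := blk_subset v0 hq
        have haS := blk_subset v ha
        have h1 : Col (cpt p) (cpt q) (cpt a) :=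
          (lin_col h hh hh1 (cpt p) (cpt q) (cpt a)
            (fun e => hqp (cpt_injective e).symm) hhp hhq).1 hha
        rw [col_iff_blk hS hp hqS haS hqp.symm] at h1
        obtain ⟨-, m1, m2⟩ := vtx_mem hS hp hqS hqp.symm
        have e1 : v = vtx p q := vert_unique hS hap ha (hR.mem v hv).2.1 h1 m1
        have e2 : v0 = vtx p q := vert_unique hS hqp hq (hR.mem v0 hv0).2.1 m2 m1
        rw [e1, e2]
      · push Not at hq
        exact ⟨p, fun v hv _ a ha hap =>
          (hpart _ (hF v hv a ha)).resolve_right (hq v hv a ha hap)⟩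
    obtain ⟨v0, hv0⟩ := hv0
    obtain ⟨P, hPi, hPk⟩ := hP
    have hhP : ∀ k, Zr h (cpt (P k)) := by
      intro k
      obtain ⟨hkS, hkp, hkF, hk⟩ := hPk k
      refine (hpart _ hkF).resolve_left ?_
      intro hgk
      obtain ⟨v, hv, v', hv', hvv0, hvv0', a, ha, b, hb, hap, hbp, hab, hak, hbk, u, hu1, hu2,
        hu3⟩ := hk v0
      have hga := hv0 v hv hvv0 a ha hap
      have hgb := hv0 v' hv' hvv0' b hb hbp
      have hsub : ({a, b, P k} : Finset Pt) ⊆ (blk S u).filter (fun a => Zr g (cpt a)) := by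
        intro x hx
        rw [Finset.mem_insert, Finset.mem_insert, Finset.mem_singleton] at hx
        rw [Finset.mem_filter]
        rcases hx with rfl | rfl | rfl
        · exact ⟨hu2, hga⟩
        · exact ⟨hu3, hgb⟩
        · exact ⟨hu1, hgk⟩
      have h1 := Finset.card_le_card hsub
      rw [Finset.card_eq_three.2 ⟨a, b, P k, hab, hak, hbk, rfl⟩] at h1
      have h2 := hgblk u
      omega
    have hP0 := hPk 0
    obtain ⟨m0, m1, m2⟩ := vtx_mem hS hp hP0.1 hP0.2.1.symm
    have hsub : insert p (Finset.univ.image P) ⊆ blk S (vtx p (P 0)) := by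
      intro x hx
      rcases Finset.mem_insert.1 hx with rfl | hx
      · exact m1
      · obtain ⟨k, -, rfl⟩ := Finset.mem_image.1 hx
        rw [← col_iff_blk hS hp hP0.1 (hPk k).1 hP0.2.1.symm]
        exact (lin_col h hh hh1 (cpt p) (cpt (P 0)) (cpt (P k))
            (fun e => hP0.2.1 (cpt_injective e).symm) hhp (hhP 0)).1 (hhP k)
    have hc := Finset.card_le_card hsub
    have hnp : p ∉ Finset.univ.image P := by
      intro hx
      obtain ⟨k, -, hk⟩ := Finset.mem_image.1 hx
      exact (hPk k).2.1 hk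
    rw [Finset.card_insert_of_notMem hnp, Finset.card_image_of_injective _ hPi,
      Finset.card_univ, Fintype.card_fin] at hc
    have := h6 _ m0 m1
    omega

/-- Proof.  Let `F` be the cubic of the run, `cubic_types`.
Case 1: `f ∣ F`, `f` irreducible of degree 3: `F = f * c`, `c` a nonzero constant (degrees), so the
zeros of `F` are zeros of `f`.
Case 3: `F = h1 h2 h3`: the union of the blocks of `R` has `2 |R| + 1` points (different blocks
through `p` have only `p` in common, each has two further points), all zeros of one `h i`: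
`2 |R| + 1 ≤ 3 K` by `lin_card`, contradiction to `3 K ≤ 2 |R|`.
Case 2: `F = g h`, `g` irreducible of degree 2.
 * If `g (p) = 0`: for `v ∈ R`, `blk S v = {p, q, r}` are three collinear points, `g` has at most
   two zeros among them (`irr_blk`), so `h (q) = 0` or `h (r) = 0`: `h` has at least `|R| > K`
   zeros in `S` (different `v` give different points), contradiction to `lin_card`.
 * So `g (p) ≠ 0`, `h (p) = 0`.  Let `v0` be the vertex of `R` in whose block `h` has a zero
   besides `p` (there is at most one: if `h (q) = 0`, `q ≠ p`, then the zeros of `h` are the points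
   collinear with `p, q` (`lin_col`), so by `col_iff_blk` all zeros of `h` in `S` are in the block
   of `vtx p q`), and arbitrary if there is none.  For `v ∈ R`, `v ≠ v0` the two points `≠ p` of its
   block are zeros of `g`.  Take `P` (`10 ≤ |R|`).  For each `k` there are `a`, `b` as in `RunData`
   for this `v0`: `g (a) = g (b) = 0`, `P k`, `a`, `b` three different points of a block, so
   `g (P k) ≠ 0` (`irr_blk`), `h (P k) = 0`.  So `p, P 0, ..., P 4` are six different zeros of `h`
   in `S`; they are all in `blk S (vtx p (P 0))` by `lin_col`, `col_iff_blk`; contradiction to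
   `h6`. -/
theorem run_cubic {S : Finset Pt} (hS : Gen S) {p : Pt} (hp : p ∈ S) (K : ℕ) (hK7 : 7 ≤ K)
    (hK : ∀ v ∈ verts S, (blk S v).card ≤ K)
    (h6 : ∀ v ∈ verts S, p ∈ blk S v → (blk S v).card ≤ 5) {R : Finset Pt}
    (hR : RunData S p R) (hRK : 3 * K ≤ 2 * R.card) :
    ∃ f : Poly, Irreducible f ∧ f.totalDegree = 3 ∧ ∀ v ∈ R, ∀ a ∈ blk S v, Zr f (cpt a) := by
  obtain ⟨F, hF0, hF3, hF, hP⟩ := hR.cubic
  have h10 : 10 ≤ R.card := by omega
  rcases cubic_types F hF0 hF3 with ⟨f, hf, hf3, c, rfl⟩ | ⟨g, h, hg, hg2, hh, hh1, hFe⟩ |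
    ⟨h1, h2, h3, n1, n2, n3, d1, d2, d3, hFe⟩
  · refine ⟨f, hf, hf3, ?_⟩
    have hc0 : c ≠ 0 := right_ne_zero_of_mul hF0
    have hdeg := totalDegree_mul_of_isDomain hf.ne_zero hc0
    have hc : c.totalDegree = 0 := by omega
    rw [totalDegree_eq_zero_iff_eq_C] at hc
    intro v hv a ha
    refine (tr_mul (hF v hv a ha)).resolve_right ?_
    intro hz
    unfold Zr at hz
    rw [hc, eval_C] at hz
    rw [hz, C_0] at hc
    exact hc0 hc
  · exact (tr_two hS hp K hK7 hK h6 hR hRK F g h hF (hP h10) hg hg2 hh hh1 hFe).elim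
  · exact (tr_three hS K hK7 hK hR hRK F h1 h2 h3 hF n1 n2 n3 d1 d2 d3 hFe).elim

end Pool.Agent.Lib.MP_214199_co.Eff
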